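import Pool.Agent.LibLs83.BPart

/-! Task BAddC: adding one coordinate after all others. -/

namespace Pool.Agent.LibLs83

open Cardinal Set Pool.Agent.LibTk83 Pool.Agent.LibDm83

variable {P W K : Type} [Preorder P]

theorem BAddC_when_neg {φ : Prop} (h : ¬ φ) (b : RO P) : when φ b = ⊥ :=
  RO.ext fun _ => ⟨fun hp => absurd hp.1 h, fun hp => absurd hp RO.not_mem_bot⟩

theorem BAddC_when_pos {φ : Prop} (h : φ) (b : RO P) : when φ b = b :=
  RO.ext fun _ => ⟨fun hp => hp.2, fun hp => ⟨h, hp⟩⟩

theorem BAddC_eq_bot {b : RO P} (h : ∀ p, p ∉ b) : b = ⊥ :=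
  RO.ext fun p => ⟨fun hp => absurd hp (h p), fun hp => absurd hp RO.not_mem_bot⟩

theorem BAddC_a_ne {i j : W} (hj : j ≠ i) (A C : K → RO P) (r : RawB P W K) (x : K) :
    (addcB i A C r).a j x = r.a j x := by
  change r.a j x ⊔ when (j = i) (A x) = r.a j x
  rw [BAddC_when_neg hj, sup_bot_eq]

theorem BAddC_c_ne {i j : W} (hj : j ≠ i) (A C : K → RO P) (r : RawB P W K) (x : K) :
    (addcB i A C r).c j x = r.c j x := by
  change r.c j x ⊔ when (j = i) (C x) ⊔ when (j = i ∧ x = r.h) ⊤ = r.c j x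
  rw [BAddC_when_neg hj, BAddC_when_neg (fun h => hj h.1), sup_bot_eq, sup_bot_eq]

theorem BAddC_c_top (i : W) (A C : K → RO P) (r : RawB P W K) :
    (addcB i A C r).c i r.h = ⊤ := by
  change r.c i r.h ⊔ when (i = i) (C r.h) ⊔ when (i = i ∧ r.h = r.h) ⊤ = ⊤
  rw [BAddC_when_pos (φ := i = i ∧ r.h = r.h) ⟨rfl, rfl⟩, sup_top_eq]

variable [LinearOrder K] [LinearOrder W] [WellFoundedLT W]
  {dat : W → K → K → Bool → Set (P × RawB P W K)}

theorem addcB_le {i : W} (A C : K → RO P) {r : RawB P W K} (hr : WFB r)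
    (h : ∀ j ∈ r.dom, j < i) : GLe (addcB i A C r) r := by
  intro p
  refine ⟨le_rfl, subset_insert _ _, fun x _ => Agr.refl _ _, ?_, ?_⟩
  · intro j hj x _
    rw [BAddC_a_ne (h j hj).ne]
    exact Agr.refl _ _
  · intro j hj x _
    rw [BAddC_c_ne (h j hj).ne]
    exact Agr.refl _ _

theorem resB_addcB {i : W} (A C : K → RO P) {r : RawB P W K} (hr : WFB r)
    (h : ∀ j ∈ r.dom, j < i) : resB (Iio i) (addcB i A C r) = r := by
  refine RawB.ext' rfl (fun _ => rfl) ?_ ?_ ?_
  · ext j
    constructor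
    · rintro ⟨h1 | h1, h2⟩
      · exact absurd h1 (ne_of_lt h2)
      · exact h1
    · intro h1
      exact ⟨Or.inr h1, h j h1⟩
  · intro j x
    change when (j ∈ Iio i) ((addcB i A C r).a j x) = r.a j x
    by_cases hj : j < i
    · rw [BAddC_when_pos (show j ∈ Iio i from hj), BAddC_a_ne hj.ne]
    · rw [BAddC_when_neg (show ¬ j ∈ Iio i from hj)]
      exact (BAddC_eq_bot fun p hp => hj (h j (hr.a_dom j x p hp))).symm
  · intro j x
    change when (j ∈ Iio i) ((addcB i A C r).c j x) = r.c j x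
    by_cases hj : j < i
    · rw [BAddC_when_pos (show j ∈ Iio i from hj), BAddC_c_ne hj.ne]
    · rw [BAddC_when_neg (show ¬ j ∈ Iio i from hj)]
      exact (BAddC_eq_bot fun p hp => hj (h j (hr.c_dom j x p hp))).symm

theorem addcB_a {i : W} (A C : K → RO P) {r : RawB P W K} (hr : WFB r)
    (h : ∀ j ∈ r.dom, j < i) (x : K) : (addcB i A C r).a i x = A x := by
  change r.a i x ⊔ when (i = i) (A x) = A x
  rw [BAddC_when_pos rfl, BAddC_eq_bot (b := r.a i x)
    (fun p hp => lt_irrefl i (h i (hr.a_dom i x p hp))), bot_sup_eq]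

theorem addcB_c {i : W} (A C : K → RO P) {r : RawB P W K} (hr : WFB r)
    (h : ∀ j ∈ r.dom, j < i) {x : K} (hx : x ≠ r.h) : (addcB i A C r).c i x = C x := by
  change r.c i x ⊔ when (i = i) (C x) ⊔ when (i = i ∧ x = r.h) ⊤ = C x
  rw [BAddC_when_pos rfl, BAddC_when_neg (fun h => hx h.2), BAddC_eq_bot (b := r.c i x)
    (fun p hp => lt_irrefl i (h i (hr.c_dom i x p hp))), bot_sup_eq, sup_bot_eq]

/- For `j ∈ r.dom` the conditions `addcB i A C r` and `r` agree up to `j`. For `j = i`: `resB_addcB`,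
`hok`; note that `r.h` is not in `s`. -/
theorem ValB_addcB (hK : Inac K) {i : W} {A C : K → RO P} {r : RawB P W K}
    (hr : (Lv dat i).V r) (hA : ∀ x, ∀ p ∈ A x, x < r.h) (hC : ∀ x, ∀ p ∈ C x, x < r.h)
    (hclo : ∀ g < r.h, (∃ b, b < g) → ∀ p,
      (∀ b < g, ∀ p' ≤ p, ∃ p'' ≤ p', ∃ x, b < x ∧ x < g ∧ p'' ∈ C x) → p ∈ C g)
    (hok : ∀ α, ∀ p ∈ C α, p ∈ r.s α → ∀ t, (Lv dat i).V t → FLe p t r →
      ∃ p' ≤ p, ∃ t', (Lv dat i).V t' ∧ FLe p' t' t ∧
        ∃ δ < α, ∃ b : Bool, p' ∈ bitB b (A δ) ∧ (Lv dat i).F α δ b p' t') :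
    ValB dat (addcB i A C r) := by
  obtain ⟨hv, hd⟩ := V_iff.1 hr
  have hw : WFB r := hv.1
  have hi : i ∉ r.dom := fun h => lt_irrefl i (hd i h)
  refine ⟨?_, ?_⟩
  · exact
    { small := by
        refine lt_of_le_of_lt (mk_insert_le (α := W)) ?_
        exact add_lt_of_lt hK.unc.le hw.small (one_lt_aleph0.trans hK.unc)
      s_lt := hw.s_lt
      s_cof := hw.s_cof
      a_lt := by
        intro j x p hp
        by_cases hj : j = i
        · subst hj
          rw [addcB_a A C hw hd] at hp
          exact hA x p hp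
        · rw [BAddC_a_ne hj] at hp
          exact hw.a_lt j x p hp
      c_le := by
        intro j x p hp
        by_cases hj : j = i
        · subst hj
          by_cases hx : x = r.h
          · exact hx.le
          · rw [addcB_c A C hw hd hx] at hp
            exact (hC x p hp).le
        · rw [BAddC_c_ne hj] at hp
          exact hw.c_le j x p hp
      a_dom := by
        intro j x p hp
        by_cases hj : j = i
        · exact Or.inl hj
        · rw [BAddC_a_ne hj] at hp
          exact Or.inr (hw.a_dom j x p hp)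
      c_dom := by
        intro j x p hp
        by_cases hj : j = i
        · exact Or.inl hj
        · rw [BAddC_c_ne hj] at hp
          exact Or.inr (hw.c_dom j x p hp)
      top_c := by
        intro j hj
        by_cases hji : j = i
        · subst hji
          exact BAddC_c_top j A C r
        · rw [BAddC_c_ne hji]
          exact hw.top_c j (hj.resolve_left hji)
      clo := by
        intro j hj g hg hb p hl
        by_cases hji : j = i
        · subst hji
          rcases eq_or_lt_of_le (show g ≤ r.h from hg) with hgr | hgr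
          · subst hgr
            rw [BAddC_c_top]
            exact RO.mem_top
          · rw [addcB_c A C hw hd hgr.ne]
            refine hclo g hgr hb p ?_
            intro b hbg p' hp'
            obtain ⟨p'', hp'', x, hbx, hxg, hx⟩ := hl b hbg p' hp'
            rw [addcB_c A C hw hd (hxg.trans hgr).ne] at hx
            exact ⟨p'', hp'', x, hbx, hxg, hx⟩
        · rw [BAddC_c_ne hji]
          refine hw.clo j (hj.resolve_left hji) g hg hb p ?_
          intro b hbg p' hp'
          obtain ⟨p'', hp'', x, hbx, hxg, hx⟩ := hl b hbg p' hp'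
          rw [BAddC_c_ne hji] at hx
          exact ⟨p'', hp'', x, hbx, hxg, hx⟩ }
  · intro j hj α p hp hs t ht hle
    change p ∈ r.s α at hs
    by_cases hji : j = i
    · subst hji
      rw [addcB_c A C hw hd (hw.s_lt α p hs).ne] at hp
      rw [resB_addcB A C hw hd] at hle
      obtain ⟨p', hp', t', ht', hle', δ, hδ, b, hb, hF⟩ := hok α p hp hs t ht hle
      refine ⟨p', hp', t', ht', hle', δ, hδ, b, ?_, hF⟩
      rw [addcB_a A C hw hd]
      exact hb
    · have hjd : j ∈ r.dom := hj.resolve_left hji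
      have hres : resB (Iio j) (addcB i A C r) = resB (Iio j) r := by
        rw [← resB_resB_of_subset (X := Iio j) (Y := Iio i)
          (fun k hk => lt_trans hk (hd j hjd)) (addcB i A C r), resB_addcB A C hw hd]
      rw [BAddC_c_ne hji] at hp
      rw [hres] at hle
      obtain ⟨p', hp', t', ht', hle', δ, hδ, b, hb, hF⟩ := hv.2 j hjd α p hp hs t ht hle
      refine ⟨p', hp', t', ht', hle', δ, hδ, b, ?_, hF⟩
      rw [BAddC_a_ne hji]
      exact hb

end Pool.Agent.LibLs83
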