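import Pool.Agent.LibLs83.BMixVal

/-! Task BAmal: amalgamation of a condition with an extension of its initial segment. -/

namespace Pool.Agent.LibLs83

open Cardinal Set Pool.Agent.LibTk83 Pool.Agent.LibDm83

variable {P W K : Type} [Preorder P] [LinearOrder K] [LinearOrder W] [WellFoundedLT W]
  {dat : W → K → K → Bool → Set (P × RawB P W K)}

private theorem BAmal_when {φ : Prop} (hφ : φ) (b : RO P) : when φ b = b :=
  RO.ext fun _ => ⟨fun h => h.2, fun h => ⟨hφ, h⟩⟩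

/- The mixture for `zs = of p`, `z j = when (j < i) (of p)` (`MixH`, `ValB_mixB`, `mixB_le`,
`mixB_res` for `X = Iio i`). -/
theorem exists_amal (hK : Inac K) {i : W} {t q : RawB P W K} (ht : (Lv dat i).V t)
    (hq : ValB dat q) {p : P} (h : FLe p t (resB (Iio i) q)) :
    ∃ q', ValB dat q' ∧ GLe q' q ∧ FLe p q' t := by
  obtain ⟨htV, hti⟩ := V_iff.1 ht
  have hof : ∀ p' ∈ RO.gen {p}, ∀ p'' ≤ p', ∃ r ≤ p'', r ≤ p := by
    intro p' hp' p'' hp''
    obtain ⟨r, hr, s, hs, hrs⟩ := RO.mem_gen.1 hp' p'' hp''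
    rw [Set.mem_singleton_iff] at hs
    subst hs
    exact ⟨r, hr, hrs⟩
  have hpp : p ∈ RO.gen {p} := RO.mem_gen.2 fun q hq => ⟨q, le_rfl, p, rfl, hq⟩
  have hmix : MixH (RO.gen {p}) (fun j => when (j < i) (RO.gen {p})) t q := by
    refine ⟨h.h, ?_, ?_, ?_, ?_, ?_, ?_⟩
    · intro j k hjk p' hp'
      exact ⟨lt_of_le_of_lt hjk hp'.1, hp'.2⟩
    · intro j p' hp'
      exact hp'.2
    · intro p' hp' x hx
      refine Agr.of_dense fun p'' hp'' => ?_
      obtain ⟨r, hr, hrp⟩ := hof p' hp' p'' hp''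
      exact ⟨r, hr, (h.s x hx).mono hrp⟩
    · intro j hj p' hp'
      exact h.dom ⟨hj, hp'.1⟩
    · intro j hj p' hp' x hx
      refine Agr.of_dense fun p'' hp'' => ?_
      obtain ⟨r, hr, hrp⟩ := hof p' hp'.2 p'' hp''
      have h1 := (h.a j ⟨hj, hp'.1⟩ x hx).mono hrp
      simp only [resB, BAmal_when (show j ∈ Iio i from hp'.1)] at h1
      exact ⟨r, hr, h1⟩
    · intro j hj p' hp' x hx
      refine Agr.of_dense fun p'' hp'' => ?_
      obtain ⟨r, hr, hrp⟩ := hof p' hp'.2 p'' hp''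
      have h1 := (h.c j ⟨hj, hp'.1⟩ x hx).mono hrp
      simp only [resB, BAmal_when (show j ∈ Iio i from hp'.1)] at h1
      exact ⟨r, hr, h1⟩
  refine ⟨mixB (RO.gen {p}) (fun j => when (j < i) (RO.gen {p})) t q,
    ValB_mixB hK htV hq hmix, mixB_le htV.1 hq.1 hmix, ?_⟩
  have h1 := (mixB_res htV.1 hq.1 hmix (X := Iio i) hpp fun j hj => ⟨hj, hpp⟩).1
  rw [resB_eq_self htV.1 (X := Iio i) hti] at h1
  exact (le_resB (Iio i) _ p).trans h1

end Pool.Agent.LibLs83
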