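import Pool.Agent.LibLs83.BCard

/-! Task BBook: the bookkeeping (as in `LibDm83/Book.lean`). -/

namespace Pool.Agent.LibLs83

open Cardinal Set Pool.Agent.LibTk83 Pool.Agent.LibDm83

variable {P W K : Type} [Preorder P] [LinearOrder K] [LinearOrder W]

theorem exists_datB (hK : Inac K) (hb : Base P K) (hW : Len W K) :
    ∃ dat : W → K → K → Bool → Set (P × RawB P W K),
      ∀ ν : K → K → Bool → Set (P × RawB P W K), (∀ α δ b, #(ν α δ b) ≤ #K) →
        (∀ α δ b, ∀ g ∈ ν α δ b, WFB g.2) → ∀ w, ∃ j, w < j ∧ dat j = ν := by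
  classical
  have hinf : ℵ₀ ≤ #W := hK.unc.le.trans hW.le
  obtain ⟨N, hN⟩ : ∃ N : Type, N = {ν : K → K → Bool → Set (P × RawB P W K) //
      ∀ α δ b, #(ν α δ b) ≤ #K ∧ ∀ g ∈ ν α δ b, WFB g.2} := ⟨_, rfl⟩
  obtain ⟨val, hval⟩ : ∃ val : N → K → K → Bool → Set (P × RawB P W K),
      ∀ ν : K → K → Bool → Set (P × RawB P W K), (∀ α δ b, #(ν α δ b) ≤ #K) →
      (∀ α δ b, ∀ g ∈ ν α δ b, WFB g.2) → ∃ n, val n = ν := by
    subst hN
    exact ⟨Subtype.val, fun ν h1 h2 => ⟨⟨ν, fun α δ b => ⟨h1 α δ b, h2 α δ b⟩⟩, rfl⟩⟩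
  have hcard : #N ≤ #W := by
    rw [hN]; exact card_namesB_le hK hb hW
  have hne : Nonempty N := by
    obtain ⟨n, -⟩ := hval (fun _ _ _ => ∅) (fun _ _ _ => by simp) (fun _ _ _ g hg => absurd hg (by simp))
    exact ⟨n⟩
  have hWne : Nonempty W := by
    rw [← mk_ne_zero_iff]
    exact (aleph0_pos.trans_le hinf).ne'
  have h1 : #(N × W) ≤ #W := by
    rw [mk_prod, lift_id, lift_id]
    exact (mul_le_mul' hcard le_rfl).trans_eq (mul_eq_self hinf)
  obtain ⟨i⟩ := h1
  have hsurj : Function.Surjective (Function.invFun i) := Function.invFun_surjective i.injective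
  refine ⟨fun j => val (Function.invFun i j).1, fun ν h1 h2 w => ?_⟩
  obtain ⟨n, hn⟩ := hval ν h1 h2
  by_contra hcon
  push Not at hcon
  have h3 : #W ≤ #(Iic w) := by
    refine mk_le_of_surjective (f := fun j : Iic w => (Function.invFun i j.1).2) ?_
    intro v
    obtain ⟨j, hj⟩ := hsurj (n, v)
    have hjw : j ≤ w := by
      by_contra h
      exact hcon j (not_le.mp h) (by rw [hj]; exact hn)
    exact ⟨⟨j, hjw⟩, by simp only [hj]⟩
  have h4 : #(Iic w) < #W := by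
    have h5 : Iic w = insert w (Iio w) := by
      ext x
      simp [le_iff_lt_or_eq, or_comm]
    rw [h5]
    exact (mk_insert_le).trans_lt (add_lt_of_lt hinf (hW.iio w) (one_lt_aleph0.trans_le hinf))
  exact absurd h3 (not_le.mpr h4)

end Pool.Agent.LibLs83
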