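import Pool.Agent.LibLs83.BCardA
import Pool.Agent.LibLs83.BCardC

/-! Task BCard: cardinalities. -/

namespace Pool.Agent.LibLs83

open Cardinal Set Pool.Agent.LibTk83 Pool.Agent.LibDm83

variable {P W K : Type} [Preorder P] [LinearOrder K]

theorem BCard_inf (hK : Inac K) [LinearOrder W] (hW : Len W K) : ℵ₀ ≤ #W := hK.unc.le.trans hW.le

theorem BCard_graph (hK : Inac K) {D : Set W} (hD : #D < #K) (a : W → K → RO P) :
    #{z : W × K × RO P | z.1 ∈ D ∧ z.2.2 = a z.1 z.2.1} ≤ #K := by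
  let g : {z : W × K × RO P | z.1 ∈ D ∧ z.2.2 = a z.1 z.2.1} → D × K := fun z =>
    (⟨z.1.1, z.2.1⟩, z.1.2.1)
  have hg : Function.Injective g := by
    rintro ⟨⟨i, x, y⟩, h1, h2⟩ ⟨⟨i', x', y'⟩, h1', h2'⟩ h
    simp only [g, Prod.mk.injEq, Subtype.mk.injEq] at h
    obtain ⟨e1, e2⟩ := h
    simp only at h2 h2'
    subst e1 e2
    rw [← h2'] at h2
    subst h2
    rfl
  refine (Cardinal.mk_le_of_injective hg).trans ?_
  rw [Cardinal.mk_prod, Cardinal.lift_id, Cardinal.lift_id]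
  exact (mul_le_mul' hD.le le_rfl).trans (Cardinal.mul_eq_self hK.unc.le).le

theorem BCard_bdd [LinearOrder W] (hK : Inac K) (hW : Len W K) {T : Type} (hT : #T ≤ #W) :
    #{D : Set T // #D ≤ #K} ≤ #W := by
  refine (Cardinal.mk_bounded_set_le T #K).trans ?_
  refine (Cardinal.power_le_power_right ?_).trans hW.pow.le
  exact max_le hT (BCard_inf hK hW)

theorem BCard_mul [LinearOrder W] (hK : Inac K) (hW : Len W K) {a b : Cardinal} (ha : a ≤ #W)
    (hb : b ≤ #W) : a * b ≤ #W :=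
  (mul_le_mul' ha hb).trans (Cardinal.mul_eq_self (BCard_inf hK hW)).le

theorem BCard_pow [LinearOrder W] (hW : Len W K) {T : Type} (hT : #T ≤ #W) :
    #(K → T) ≤ #W := by
  rw [← Cardinal.power_def T K]
  exact (Cardinal.power_le_power_right hT).trans hW.pow.le

/-- A map to the regular open sets which is `⊥` off `D` is determined by its graph over `D`. -/
theorem BCard_eq {D : Set W} {a a' : W → K → RO P} (h : ∀ i x, ∀ p ∈ a i x, i ∈ D)
    (h' : ∀ i x, ∀ p ∈ a' i x, i ∈ D)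
    (e : {z : W × K × RO P | z.1 ∈ D ∧ z.2.2 = a z.1 z.2.1} =
      {z : W × K × RO P | z.1 ∈ D ∧ z.2.2 = a' z.1 z.2.1}) : a = a' := by
  funext i x
  by_cases hi : i ∈ D
  · have h1 : (i, x, a i x) ∈ {z : W × K × RO P | z.1 ∈ D ∧ z.2.2 = a z.1 z.2.1} := ⟨hi, rfl⟩
    rw [e] at h1
    exact h1.2
  · apply RO.ext
    intro p
    exact ⟨fun hp => absurd (h i x p hp) hi, fun hp => absurd (h' i x p hp) hi⟩

/- A well-formed raw condition is determined by its height, `s` (there are at most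
`#K ^ #K ≤ #W ^ #K = #W` functions from `K` to `RO P`), and by the graphs of `a` and `c`, which are
subsets with at most `#K` elements of `W × K × RO P`. -/
theorem card_WFB_le [LinearOrder W] (hK : Inac K) (hb : Base P K) (hW : Len W K) :
    #{q : RawB P W K // WFB q} ≤ #W := by
  have hR : #(RO P) ≤ #W := (card_RO_le hK hb).trans hW.le
  have hWK : #(W × K × RO P) ≤ #W := by
    rw [Cardinal.mk_prod, Cardinal.mk_prod, Cardinal.lift_id, Cardinal.lift_id, Cardinal.lift_id,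
      Cardinal.lift_id]
    exact BCard_mul hK hW le_rfl (BCard_mul hK hW hW.le hR)
  have hG := BCard_bdd hK hW hWK
  have hD := BCard_bdd hK hW (le_refl #W)
  have hS : #(K → RO P) ≤ #W := BCard_pow hW hR
  let f : {q : RawB P W K // WFB q} → K × (K → RO P) × {D : Set W // #D ≤ #K} ×
      {G : Set (W × K × RO P) // #G ≤ #K} × {G : Set (W × K × RO P) // #G ≤ #K} := fun q =>
    (q.1.h, q.1.s, ⟨q.1.dom, q.2.small.le⟩,
      ⟨{z : W × K × RO P | z.1 ∈ q.1.dom ∧ z.2.2 = q.1.a z.1 z.2.1},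
        BCard_graph hK q.2.small q.1.a⟩,
      ⟨{z : W × K × RO P | z.1 ∈ q.1.dom ∧ z.2.2 = q.1.c z.1 z.2.1},
        BCard_graph hK q.2.small q.1.c⟩)
  have hf : Function.Injective f := by
    rintro ⟨⟨h, s, dom, a, c⟩, hp⟩ ⟨⟨h', s', dom', a', c'⟩, hq⟩ hpq
    simp only [f, Prod.mk.injEq, Subtype.mk.injEq] at hpq
    obtain ⟨e1, e2, e3, e4, e5⟩ := hpq
    subst e1 e2 e3
    have e6 : a = a' := BCard_eq hp.a_dom hq.a_dom e4
    have e7 : c = c' := BCard_eq hp.c_dom hq.c_dom e5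
    subst e6 e7
    rfl
  refine (Cardinal.mk_le_of_injective hf).trans ?_
  simp only [Cardinal.mk_prod, Cardinal.lift_id]
  exact BCard_mul hK hW hW.le (BCard_mul hK hW hS
    (BCard_mul hK hW hD (BCard_mul hK hW hG hG)))

/-- The number of names for sequences. -/
theorem card_namesB_le [LinearOrder W] (hK : Inac K) (hb : Base P K) (hW : Len W K) :
    #{ν : K → K → Bool → Set (P × RawB P W K) //
      ∀ α δ b, #(ν α δ b) ≤ #K ∧ ∀ g ∈ ν α δ b, WFB g.2} ≤ #W := by
  have hPW : #(P × {q : RawB P W K // WFB q}) ≤ #W := by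
    rw [Cardinal.mk_prod, Cardinal.lift_id, Cardinal.lift_id]
    exact BCard_mul hK hW (hb.card.trans hW.le) (card_WFB_le hK hb hW)
  have hT := BCard_bdd hK hW hPW
  let j : P × {q : RawB P W K // WFB q} → P × RawB P W K := fun z => (z.1, z.2.1)
  have hj : Function.Injective j := by
    rintro ⟨p, q, hq⟩ ⟨p', q', hq'⟩ h
    simp only [j, Prod.mk.injEq] at h
    obtain ⟨e1, e2⟩ := h
    subst e1 e2
    rfl
  let f : {ν : K → K → Bool → Set (P × RawB P W K) //
      ∀ α δ b, #(ν α δ b) ≤ #K ∧ ∀ g ∈ ν α δ b, WFB g.2} →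
      (K → K → Bool → {D : Set (P × {q : RawB P W K // WFB q}) // #D ≤ #K}) := fun ν α δ b =>
    ⟨j ⁻¹' ν.1 α δ b, by
      refine (Cardinal.mk_preimage_of_injective _ _ hj).trans ?_
      exact (ν.2 α δ b).1⟩
  have hf : Function.Injective f := by
    rintro ⟨ν, hν⟩ ⟨ν', hν'⟩ h
    rw [Subtype.mk.injEq]
    funext α δ b
    have h1 : (j ⁻¹' ν α δ b : Set (P × {q : RawB P W K // WFB q})) = j ⁻¹' ν' α δ b :=
      congrArg Subtype.val (congrFun (congrFun (congrFun h α) δ) b)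
    ext g
    constructor
    · intro hg
      exact (Set.ext_iff.mp h1 (g.1, ⟨g.2, (hν α δ b).2 g hg⟩)).mp hg
    · intro hg
      exact (Set.ext_iff.mp h1 (g.1, ⟨g.2, (hν' α δ b).2 g hg⟩)).mpr hg
  refine (Cardinal.mk_le_of_injective hf).trans ?_
  refine BCard_pow hW (BCard_pow hW ?_)
  rw [← Cardinal.power_def _ Bool]
  refine (Cardinal.power_le_power_right hT).trans ?_
  rw [Cardinal.mk_bool]
  exact (Cardinal.power_nat_le (n := 2) (BCard_inf hK hW))

end Pool.Agent.LibLs83
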