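import Pool.Agent.LibLs83.BMix

/-! Task BMixVal: mixing preserves validity. -/

namespace Pool.Agent.LibLs83

open Cardinal Set Pool.Agent.LibTk83 Pool.Agent.LibDm83

variable {P W K : Type} [Preorder P] [LinearOrder K] [LinearOrder W] [WellFoundedLT W]
  {dat : W → K → K → Bool → Set (P × RawB P W K)} {zs : RO P} {z : W → RO P} {t q : RawB P W K}

omit [LinearOrder K] [LinearOrder W] [WellFoundedLT W] in
theorem BMixVal_c {i : W} {x : K} (hx : x ≠ t.h) :
    (mixB zs z t q).c i x = (z i ⊓ t.c i x) ⊔ ((z i)ᶜ ⊓ q.c i x) := by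
  have h1 : when (x = t.h ∧ i ∈ t.dom ∪ q.dom) (⊤ : RO P) = ⊥ :=
    RO.ext fun _ => ⟨fun hp => absurd hp.1.1 hx, fun hp => absurd hp RO.not_mem_bot⟩
  show (z i ⊓ t.c i x) ⊔ ((z i)ᶜ ⊓ q.c i x) ⊔ when (x = t.h ∧ i ∈ t.dom ∪ q.dom) ⊤ = _
  rw [h1, sup_bot_eq]

/- `OkB_of_dense`: let `p` force `α ∈ C j ∩ S` for the mixture. Then `α ≠ t.h` (`s_lt`). Extend `p`
to `p'` in `z j` or in `(z j)ᶜ`. In the first case compare with `t` (`mixB_res` for `X = Iio j`, as
`z j ≤ z i` for `i ≤ j`), in the second case with `q` (`mixB_le`; `α ≤ q.h` as `p'` forces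
`α ∈ q.c j`, so `t.s α`, `q.s α` agree on `zs`). -/
theorem ValB_mixB (hK : Inac K) (ht : ValB dat t) (hq : ValB dat q) (h : MixH zs z t q) :
    ValB dat (mixB zs z t q) := by
  refine ⟨WFB_mixB hK ht.1 hq.1 h, fun j _ => OkB_of_dense fun α p hc hs => ?_⟩
  have hα : α < t.h := by
    obtain ⟨p₁, -, h1 | h1⟩ := exists_of_mem_sup
      (show p ∈ (zs ⊓ t.s α) ⊔ (zsᶜ ⊓ q.s α) from hs)
    · exact ht.1.s_lt α p₁ (RO.mem_inf.1 h1).2
    · exact (hq.1.s_lt α p₁ (RO.mem_inf.1 h1).2).trans_le h.h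
  rw [BMixVal_c hα.ne] at hc
  obtain ⟨p', hp', hz | hz⟩ := decide_mem (z j) p
  · have hc' : p' ∈ t.c j α := (mem_ite_left hz).1 (RO.mem_of_le hp' hc)
    have hzs : p' ∈ zs := h.le j hz
    have hs' : p' ∈ t.s α := (mem_ite_left hzs).1
      (RO.mem_of_le hp' (show p ∈ (zs ⊓ t.s α) ⊔ (zsᶜ ⊓ q.s α) from hs))
    refine ⟨p', hp', t, ht.2 j (ht.1.c_dom j α p' hc'), hc', hs',
      (mixB_res ht.1 hq.1 h hzs fun i hi => h.anti i j (le_of_lt hi) hz).1, fun δ _ r hr => ?_⟩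
    exact mem_ite_left (RO.mem_of_le hr hz)
  · have hc' : p' ∈ q.c j α := (mem_ite_right hz).1 (RO.mem_of_le hp' hc)
    have hs' : p' ∈ q.s α :=
      ((mixB_le ht.1 hq.1 h p').s α (hq.1.c_le j α p' hc') p' le_rfl).1 (RO.mem_of_le hp' hs)
    refine ⟨p', hp', q, hq.2 j (hq.1.c_dom j α p' hc'), hc', hs',
      resB_mono _ (mixB_le ht.1 hq.1 h p'), fun δ _ r hr => ?_⟩
    exact mem_ite_right (RO.mem_of_le hr hz)

/-- If `p` forces that `t` is stronger than `q` then there is a condition `t'` which is stronger than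
`q`, and which `p` forces to be equal to `t`: `mixB (of p) (fun _ => of p) t q`. -/
theorem exists_glue (hK : Inac K) (ht : ValB dat t) (hq : ValB dat q) {p : P} (h : FLe p t q) :
    ∃ t', ValB dat t' ∧ GLe t' q ∧ FLe p t' t ∧ FLe p t t' ∧ t'.h = t.h ∧
      t'.dom = t.dom := by
  have key : ∀ r ∈ RO.of p, FLe r t q := fun r hr => FLe.of_dense fun r' hr' => by
    obtain ⟨s, hs, hs'⟩ := RO.mem_of.1 hr r' hr'
    exact ⟨s, hs, h.mono hs'⟩
  have hM : MixH (RO.of p) (fun _ => RO.of p) t q :=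
    { h := h.h
      anti := fun _ _ _ => le_rfl
      le := fun _ => le_rfl
      s := fun r hr x hx => (key r hr).s x hx
      dom := fun i hi _ _ => h.dom hi
      a := fun i hi r hr x hx => (key r hr).a i hi x hx
      c := fun i hi r hr x hx => (key r hr).c i hi x hx }
  have hV := ValB_mixB hK ht hq hM
  have h1 := mixB_res (X := univ) ht.1 hq.1 hM (RO.self_mem_of p) (fun _ _ => RO.self_mem_of p)
  rw [resB_eq_self hV.1 (subset_univ _), resB_eq_self ht.1 (subset_univ _)] at h1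
  refine ⟨_, hV, mixB_le ht.1 hq.1 hM, h1.1, h1.2, rfl, ?_⟩
  exact union_eq_self_of_subset_right h.dom

/-- A condition without coordinates. -/
theorem BMixVal_valB (hK : Inac K) (H : K) (s : K → RO P) (h1 : ∀ x, ∀ p ∈ s x, x < H)
    (h2 : ∀ x, ∀ p ∈ s x, CofW x) :
    ValB dat (⟨H, s, ∅, fun _ _ => ⊥, fun _ _ => ⊥⟩ : RawB P W K) := by
  refine ⟨⟨?_, h1, h2, ?_, ?_, ?_, ?_, ?_, ?_⟩, fun j hj => absurd hj (notMem_empty j)⟩
  · show #(∅ : Set W) < #K
    rw [mk_emptyCollection]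
    exact aleph0_pos.trans hK.unc
  · exact fun i x p hp => absurd hp RO.not_mem_bot
  · exact fun i x p hp => absurd hp RO.not_mem_bot
  · exact fun i x p hp => absurd hp RO.not_mem_bot
  · exact fun i x p hp => absurd hp RO.not_mem_bot
  · exact fun i hi => absurd hi (notMem_empty i)
  · exact fun i hi => absurd hi (notMem_empty i)

/-- Raise the height: mix `q` (for `zs = ⊥`, `z = ⊥`) with the condition of height `H` which is
empty. -/
theorem exists_upB (hK : Inac K) (hq : ValB dat q) {H : K} (hH : q.h ≤ H) :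
    ∃ r, ValB dat r ∧ GLe r q ∧ r.h = H ∧ (∀ x, r.s x = q.s x) ∧ r.dom = q.dom ∧
      (∀ i x, r.a i x = q.a i x) := by
  have ht : ValB dat (⟨H, fun _ => ⊥, ∅, fun _ _ => ⊥, fun _ _ => ⊥⟩ : RawB P W K) :=
    BMixVal_valB hK H _ (fun x p hp => absurd hp RO.not_mem_bot)
      (fun x p hp => absurd hp RO.not_mem_bot)
  have hM : MixH (⊥ : RO P) (fun _ => ⊥)
      (⟨H, fun _ => ⊥, ∅, fun _ _ => ⊥, fun _ _ => ⊥⟩ : RawB P W K) q :=
    { h := hH
      anti := fun _ _ _ => le_rfl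
      le := fun _ => le_rfl
      s := fun r hr => absurd hr RO.not_mem_bot
      dom := fun i _ r hr => absurd hr RO.not_mem_bot
      a := fun i _ r hr => absurd hr RO.not_mem_bot
      c := fun i _ r hr => absurd hr RO.not_mem_bot }
  refine ⟨_, ValB_mixB hK ht hq hM, mixB_le ht.1 hq.1 hM, rfl, fun x => ?_, ?_, fun i x => ?_⟩
  · show ((⊥ : RO P) ⊓ ⊥) ⊔ (⊥ᶜ ⊓ q.s x) = q.s x
    simp
  · show (∅ : Set W) ∪ q.dom = q.dom
    simp
  · show ((⊥ : RO P) ⊓ ⊥) ⊔ (⊥ᶜ ⊓ q.a i x) = q.a i x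
    simp

/-- A condition without coordinates. -/
theorem exists_valB (hK : Inac K) (H : K) (s : K → RO P) (h1 : ∀ x, ∀ p ∈ s x, x < H)
    (h2 : ∀ x, ∀ p ∈ s x, CofW x) :
    ValB dat (⟨H, s, ∅, fun _ _ => ⊥, fun _ _ => ⊥⟩ : RawB P W K) :=
  BMixVal_valB hK H s h1 h2

end Pool.Agent.LibLs83
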