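import Pool.Agent.LibLs83.BLim
import Pool.Agent.LibLs83.BMixVal

/-! The name of the forcing notion, as a preorder with truth values. Task BClosed: it is directed
closed. -/

namespace Pool.Agent.LibLs83

open Cardinal Set Pool.Agent.LibTk83 Pool.Agent.LibDm83

section

variable {P W K : Type} [Preorder P] [LinearOrder K]

/-- The truth value of: `r` is stronger than `q`. -/
def leB (r q : RawB P W K) : RO P where
  carrier := {p | FLe p r q}
  lower := fun _ _ h hp => FLe.mono hp h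
  reg := fun _ h => FLe.of_dense h

theorem mem_leB {r q : RawB P W K} {p : P} : p ∈ leB r q ↔ FLe p r q := Iff.rfl

variable [LinearOrder W] [WellFoundedLT W]

/-- The valid conditions. -/
def Qb (dat : W → K → K → Bool → Set (P × RawB P W K)) : Type := {q : RawB P W K // ValB dat q}

/-- The order of the valid conditions. -/
def VQ (dat : W → K → K → Bool → Set (P × RawB P W K)) : VPre P (Qb dat) where
  le r q := leB r.1 q.1
  refl q := RO.eq_top_iff'.2 fun p => ⟨p, le_rfl, FLe.refl p q.1⟩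
  trans _ _ _ _ hp := FLe.trans (RO.mem_inf.1 hp).1 (RO.mem_inf.1 hp).2

end

variable {P W K : Type} [Preorder P] [LinearOrder K] [LinearOrder W] [WellFoundedLT W]
  {dat : W → K → K → Bool → Set (P × RawB P W K)}

/-- The truth value of `DirAt`. -/
def BClosed_d {Θ I : Type} (V : VPre P Θ) (y : I → Θ) (e : I → RO P) : RO P where
  carrier := {p | DirAt V y e p}
  lower := fun _ _ h hp k l p' hp' h1 h2 => hp k l p' (hp'.trans h) h1 h2
  reg := by
    intro p hp k l p' hp' h1 h2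
    obtain ⟨r, hr, hd⟩ := hp p' hp'
    obtain ⟨p'', hp'', j, h3, h4, h5⟩ := hd k l r le_rfl (RO.mem_of_le hr h1) (RO.mem_of_le hr h2)
    exact ⟨p'', hp''.trans hr, j, h3, h4, h5⟩

theorem BClosed_mem_d {Θ I : Type} {V : VPre P Θ} {y : I → Θ} {e : I → RO P} {p : P} :
    p ∈ BClosed_d V y e ↔ DirAt V y e p := Iff.rfl

theorem BClosed_bdd (hK : Inac K) {I : Type} (hI : #I < #K) (f : I → K) :
    ∃ H, ∀ k, f k ≤ H := by
  obtain ⟨b, hb⟩ := hK.bdd (range f) (mk_range_le.trans_lt hI)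
  exact ⟨b, fun k => (hb (f k) (mem_range_self k)).le⟩

/- Given `y`, `e` let `d` be the truth value of `DirAt`: the set of the `p` with `DirAt (VQ dat) y e p`
is regular open. Take `limB H y (fun k => e k ⊓ d)` (`Inac.bdd` gives `H`); `DirB` holds for these
data; `ValB_limB`, `limB_le`. For empty `I` use `exists_valB`. -/
theorem vClosed [Nonempty K] (hK : Inac K) : VClosed #K (VQ dat) := by
  intro I y e hI
  obtain ⟨H, hH⟩ := BClosed_bdd hK hI fun k => (y k).1.h
  have hd : DirB (fun k => (y k).1) (fun k => e k ⊓ BClosed_d (VQ dat) y e) := by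
    intro k l p hk hl
    rw [RO.mem_inf] at hk hl
    obtain ⟨p', hp', j, h1, h2, h3⟩ := BClosed_mem_d.1 hk.2 k l p le_rfl hk.1 hl.1
    exact ⟨p', hp', j, RO.mem_inf.2 ⟨h1, RO.mem_of_le hp' hk.2⟩, mem_leB.1 h2, mem_leB.1 h3⟩
  refine ⟨⟨limB H (fun k => (y k).1) (fun k => e k ⊓ BClosed_d (VQ dat) y e),
    ValB_limB hK hI (fun k => (y k).2) hd hH⟩, fun p hp k hk => ?_⟩
  exact mem_leB.2 (limB_le (fun k => (y k).2.1) hd hH (RO.mem_inf.2 ⟨hk, BClosed_mem_d.2 hp⟩))

/-- Chains of valid conditions for the order `GLe`. -/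
theorem chain_lower [Nonempty K] (hK : Inac K) (C : Set (RawB P W K)) (hC : ∀ q ∈ C, ValB dat q)
    (hc : ∀ q ∈ C, ∀ r ∈ C, GLe q r ∨ GLe r q) (h : #C < #K) :
    ∃ t, ValB dat t ∧ (∀ q ∈ C, GLe t q) ∧ t.dom = ⋃ q ∈ C, q.dom := by
  obtain ⟨H, hH⟩ := BClosed_bdd hK h fun k : C => k.1.h
  have hd : DirB (fun k : C => k.1) (fun _ => (⊤ : RO P)) := by
    intro k l p _ _
    rcases hc k.1 k.2 l.1 l.2 with h1 | h1
    · exact ⟨p, le_rfl, k, RO.mem_top, FLe.refl _ _, h1 p⟩
    · exact ⟨p, le_rfl, l, RO.mem_top, h1 p, FLe.refl _ _⟩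
  refine ⟨limB H (fun k : C => k.1) (fun _ => ⊤), ValB_limB hK h (fun k => hC k.1 k.2) hd hH,
    fun q hq p => limB_le (fun k : C => (hC k.1 k.2).1) hd hH (k := ⟨q, hq⟩) RO.mem_top, ?_⟩
  ext i
  simp only [limB, Set.mem_ofPred_eq, mem_iUnion, Subtype.exists, exists_prop]

end Pool.Agent.LibLs83
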