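import Pool.Agent.LibLs83.BFo
import Pool.Agent.LibDm83.Small

/-! Task BCompat: compatibility of two conditions which agree on the common coordinates. -/

namespace Pool.Agent.LibLs83

open Cardinal Set Pool.Agent.LibTk83 Pool.Agent.LibDm83

variable {P W K : Type} [Preorder P] [LinearOrder K] [LinearOrder W] [WellFoundedLT W]
  {dat : W → K → K → Bool → Set (P × RawB P W K)}

private theorem BCompat_when {P : Type} [Preorder P] {φ : Prop} {b c : RO P} (hφ : φ)
    (h : when φ b = when φ c) : b = c := by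
  refine RO.ext fun p => ?_
  have h1 : p ∈ when φ b ↔ p ∈ when φ c := by rw [h]
  rw [mem_when, mem_when] at h1
  simpa [hφ] using h1

private theorem BCompat_bot {P : Type} [Preorder P] {b : RO P} (h : ∀ p, p ∉ b) : b = ⊥ :=
  RO.ext fun p => ⟨fun hp => absurd hp (h p), fun hp => absurd hp RO.not_mem_bot⟩

/- As `compat` in `LibDm83/Compat.lean`: take the union (`a i x = q.a i x ⊔ r.a i x`, ...). -/
theorem compatB (hK : Inac K) {X : Set W} {q r : RawB P W K} (hq : ValB dat q) (hr : ValB dat r)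
    (hX : q.dom ∩ r.dom ⊆ X) (h : resB X q = resB X r) :
    ∃ t, ValB dat t ∧ GLe t q ∧ GLe t r := by
  have hh : q.h = r.h := by
    have h1 : (resB X q).h = (resB X r).h := by rw [h]
    exact h1
  have hs : q.s = r.s := by
    have h1 : (resB X q).s = (resB X r).s := by rw [h]
    exact h1
  have ha : ∀ i ∈ X, ∀ x, q.a i x = r.a i x := fun i hi x =>
    BCompat_when hi (congrFun (congrFun (congrArg RawB.a h) i) x)
  have hc : ∀ i ∈ X, ∀ x, q.c i x = r.c i x := fun i hi x =>
    BCompat_when hi (congrFun (congrFun (congrArg RawB.c h) i) x)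
  let t : RawB P W K := ⟨q.h, q.s, q.dom ∪ r.dom, fun i x => q.a i x ⊔ r.a i x,
    fun i x => q.c i x ⊔ r.c i x⟩
  have haq : ∀ i ∈ q.dom, ∀ x, t.a i x = q.a i x := by
    intro i hi x
    change q.a i x ⊔ r.a i x = q.a i x
    by_cases hir : i ∈ r.dom
    · rw [ha i (hX ⟨hi, hir⟩) x, sup_idem]
    · rw [BCompat_bot (b := r.a i x) fun p hp => hir (hr.1.a_dom i x p hp), sup_bot_eq]
  have har : ∀ i ∈ r.dom, ∀ x, t.a i x = r.a i x := by
    intro i hi x
    change q.a i x ⊔ r.a i x = r.a i x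
    by_cases hiq : i ∈ q.dom
    · rw [ha i (hX ⟨hiq, hi⟩) x, sup_idem]
    · rw [BCompat_bot (b := q.a i x) fun p hp => hiq (hq.1.a_dom i x p hp), bot_sup_eq]
  have hcq : ∀ i ∈ q.dom, ∀ x, t.c i x = q.c i x := by
    intro i hi x
    change q.c i x ⊔ r.c i x = q.c i x
    by_cases hir : i ∈ r.dom
    · rw [hc i (hX ⟨hi, hir⟩) x, sup_idem]
    · rw [BCompat_bot (b := r.c i x) fun p hp => hir (hr.1.c_dom i x p hp), sup_bot_eq]
  have hcr : ∀ i ∈ r.dom, ∀ x, t.c i x = r.c i x := by
    intro i hi x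
    change q.c i x ⊔ r.c i x = r.c i x
    by_cases hiq : i ∈ q.dom
    · rw [hc i (hX ⟨hiq, hi⟩) x, sup_idem]
    · rw [BCompat_bot (b := q.c i x) fun p hp => hiq (hq.1.c_dom i x p hp), bot_sup_eq]
  have htq : GLe t q := fun p => ⟨le_refl _, Set.subset_union_left,
    fun x _ => Agr.refl p _, fun i hi x _ => by rw [haq i hi x]; exact Agr.refl p _,
    fun i hi x _ => by rw [hcq i hi x]; exact Agr.refl p _⟩
  have htr : GLe t r := fun p => ⟨hh.ge, Set.subset_union_right,
    fun x _ => by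
      change Agr p (q.s x) (r.s x)
      rw [hs]; exact Agr.refl p _,
    fun i hi x _ => by rw [har i hi x]; exact Agr.refl p _,
    fun i hi x _ => by rw [hcr i hi x]; exact Agr.refl p _⟩
  refine ⟨t, ⟨?_, ?_⟩, htq, htr⟩
  · refine ⟨card_union_lt hK hq.1.small hr.1.small, hq.1.s_lt, hq.1.s_cof, ?_, ?_, ?_, ?_, ?_, ?_⟩
    · intro i x p hp
      obtain ⟨p', -, hx | hx⟩ := exists_of_mem_sup hp
      · exact hq.1.a_lt i x p' hx
      · exact (hr.1.a_lt i x p' hx).trans_eq hh.symm
    · intro i x p hp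
      obtain ⟨p', -, hx | hx⟩ := exists_of_mem_sup hp
      · exact hq.1.c_le i x p' hx
      · exact (hr.1.c_le i x p' hx).trans_eq hh.symm
    · intro i x p hp
      obtain ⟨p', -, hx | hx⟩ := exists_of_mem_sup hp
      · exact Or.inl (hq.1.a_dom i x p' hx)
      · exact Or.inr (hr.1.a_dom i x p' hx)
    · intro i x p hp
      obtain ⟨p', -, hx | hx⟩ := exists_of_mem_sup hp
      · exact Or.inl (hq.1.c_dom i x p' hx)
      · exact Or.inr (hr.1.c_dom i x p' hx)
    · rintro i (hi | hi)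
      · exact (hcq i hi _).trans (hq.1.top_c i hi)
      · have h1 : t.h = r.h := hh
        rw [h1]
        exact (hcr i hi _).trans (hr.1.top_c i hi)
    · rintro i (hi | hi) g hg hb p hp
      · rw [hcq i hi g]
        refine hq.1.clo i hi g hg hb p fun b hbg p' hp' => ?_
        obtain ⟨p'', hp'', x, h1, h2, h3⟩ := hp b hbg p' hp'
        rw [hcq i hi x] at h3
        exact ⟨p'', hp'', x, h1, h2, h3⟩
      · rw [hcr i hi g]
        refine hr.1.clo i hi g (hg.trans_eq hh) hb p fun b hbg p' hp' => ?_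
        obtain ⟨p'', hp'', x, h1, h2, h3⟩ := hp b hbg p' hp'
        rw [hcr i hi x] at h3
        exact ⟨p'', hp'', x, h1, h2, h3⟩
  · rintro j (hj | hj)
    · refine OkB_of_dense fun α p hp hps => ⟨p, le_rfl, q, hq.2 j hj, ?_, hps,
        resB_mono _ (htq p), fun δ _ => ?_⟩
      · rw [← hcq j hj α]; exact hp
      · rw [haq j hj δ]; exact Agr.refl p _
    · refine OkB_of_dense fun α p hp hps => ⟨p, le_rfl, r, hr.2 j hj, ?_, ?_,
        resB_mono _ (htr p), fun δ _ => ?_⟩
      · rw [← hcr j hj α]; exact hp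
      · rw [← hs]; exact hps
      · rw [har j hj δ]; exact Agr.refl p _

end Pool.Agent.LibLs83
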