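import Pool.Agent.LibLs83.BCardB
import Pool.Agent.LibLs83.BCard
import Pool.Agent.LibLs83.BCompat
import Pool.Agent.LibLs83.BClosed

/-! Task BCC: the chain condition. -/

namespace Pool.Agent.LibLs83

open Cardinal Set Pool.Agent.LibTk83 Pool.Agent.LibDm83

variable {P W K : Type} [Preorder P] [LinearOrder K] [LinearOrder W] [WellFoundedLT W]
  [WellFoundedLT K] {dat : W → K → K → Bool → Set (P × RawB P W K)}

/-- The union of the domains of the members of `Y`. -/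
private def BCC_D (Y : Set (Comp (VQ dat))) : Set W := ⋃ z : Y, z.1.x.1.dom

private theorem BCC_D_small (hK : Inac K) (Y : Set (Comp (VQ dat))) (hY : #Y < #K) :
    #(BCC_D Y) < #K :=
  small_iUnion hK hY fun z => z.1.x.2.1.small

/-- The indices: an element of `P`, a set of coordinates and a raw condition. -/
private abbrev BCC_I (Y : Set (Comp (VQ dat))) : Type :=
  (P × {X : Set W // X ⊆ BCC_D Y}) × {t : RawB P W K // WFB t ∧ t.dom ⊆ BCC_D Y}

private theorem BCC_card_I (hK : Inac K) (hb : Base P K) (Y : Set (Comp (VQ dat)))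
    (hY : #Y < #K) : #(BCC_I Y) ≤ #K := by
  have hD := BCC_D_small hK Y hY
  have h1 : #{X : Set W // X ⊆ BCC_D Y} ≤ #K := by
    have e : #{X : Set W // X ⊆ BCC_D Y} = #(Set (BCC_D Y)) :=
      Cardinal.mk_congr (Equiv.Set.powerset (BCC_D Y))
    rw [e]
    exact (hK.pow _ hD).le
  have h2 : #{t : RawB P W K // WFB t ∧ t.dom ⊆ BCC_D Y} ≤ #K := card_rawB_le hK hb hD
  have h3 : #(P × {X : Set W // X ⊆ BCC_D Y}) ≤ #K := by
    rw [Cardinal.mk_prod, Cardinal.lift_id, Cardinal.lift_id]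
    exact (mul_le_mul' hb.card h1).trans (Cardinal.mul_eq_self hK.unc.le).le
  rw [Cardinal.mk_prod, Cardinal.lift_id, Cardinal.lift_id]
  exact (mul_le_mul' h3 h2).trans (Cardinal.mul_eq_self hK.unc.le).le

/-- The chosen members of `A`. -/
private noncomputable def BCC_g (A : Set (Comp (VQ dat))) (Y : Set (Comp (VQ dat))) :
    Set (Comp (VQ dat)) :=
  Set.range fun i : {i : BCC_I Y // ∃ q ∈ A, q.p = i.1.1 ∧ resB i.1.2.1 q.x.1 = i.2.1} =>
    Classical.choose i.2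

private theorem BCC_card_g (hK : Inac K) (hb : Base P K) (A Y : Set (Comp (VQ dat)))
    (hY : #Y < #K) : #(BCC_g A Y) ≤ #K :=
  (Cardinal.mk_range_le.trans (Cardinal.mk_subtype_le _)).trans (BCC_card_I hK hb Y hY)

/- As `chainCond` in `LibDm83/CC.lean`, with pairs: the index also contains the element of `P`
(`Base.card`), `card_rawB_le`, `closing_off`, `compatB`. -/
theorem chainCondB (hK : Inac K) (hb : Base P K) : ChainCond #K (Comp (VQ dat)) := by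
  intro A hA
  by_contra hcard
  rw [not_le] at hcard
  obtain ⟨Z, hZ, hcl⟩ := closing_off hK (BCC_g A) fun Y hY => BCC_card_g hK hb A Y hY
  obtain ⟨p, hpA, hpZ⟩ : ∃ p ∈ A, p ∉ Z := by
    by_contra hcon
    push Not at hcon
    exact absurd (hcard.trans_le (Cardinal.mk_le_mk_of_subset hcon)) (not_lt.mpr hZ)
  let X : Set W := {x | x ∈ p.x.1.dom ∧ ∃ z ∈ Z, x ∈ z.x.1.dom}
  have hXp : X ⊆ p.x.1.dom := fun x hx => hx.1
  have hXs : #X < #K := (Cardinal.mk_le_mk_of_subset hXp).trans_lt p.x.2.1.small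
  let zz : X → Comp (VQ dat) := fun x => Classical.choose x.2.2
  have hzz : ∀ x : X, zz x ∈ Z ∧ x.1 ∈ (zz x).x.1.dom := fun x => Classical.choose_spec x.2.2
  let Y : Set (Comp (VQ dat)) := Set.range zz
  have hYZ : Y ⊆ Z := by
    rintro _ ⟨x, rfl⟩
    exact (hzz x).1
  have hYs : #Y < #K := Cardinal.mk_range_le.trans_lt hXs
  have hXD : X ⊆ BCC_D Y := fun x hx =>
    Set.mem_iUnion.mpr ⟨⟨zz ⟨x, hx⟩, ⟨⟨x, hx⟩, rfl⟩⟩, (hzz ⟨x, hx⟩).2⟩
  have ht : WFB (resB X p.x.1) ∧ (resB X p.x.1).dom ⊆ BCC_D Y :=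
    ⟨WFB_resB X p.x.2.1, fun x hx => hXD hx.2⟩
  let i : {i : BCC_I Y // ∃ q ∈ A, q.p = i.1.1 ∧ resB i.1.2.1 q.x.1 = i.2.1} :=
    ⟨((p.p, ⟨X, hXD⟩), ⟨resB X p.x.1, ht⟩), p, hpA, rfl, rfl⟩
  obtain ⟨hqA, hqp, hq⟩ := Classical.choose_spec i.2
  set q : Comp (VQ dat) := Classical.choose i.2 with hqdef
  have hqZ : q ∈ Z := hcl Y hYZ hYs ⟨i, rfl⟩
  have hne : p ≠ q := fun h => hpZ (h ▸ hqZ)
  obtain ⟨r, hr, hrp, hrq⟩ := compatB hK (X := X) p.x.2 q.x.2
    (fun x hx => ⟨hx.1, q, hqZ, hx.2⟩) hq.symm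
  refine hA p hpA q hqA hne ⟨⟨p.p, ⟨r, hr⟩⟩, ⟨le_rfl, hrp p.p⟩, ⟨?_, hrq p.p⟩⟩
  exact le_of_eq hqp.symm

end Pool.Agent.LibLs83
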