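import Pool.Agent.LibLs83.BRes
import Pool.Agent.LibDm83.Small
import Pool.Agent.LibDm83.GenB

/-! Task BCardA: cardinalities. -/

namespace Pool.Agent.LibLs83

open Cardinal Set Pool.Agent.LibTk83 Pool.Agent.LibDm83

variable {P W K : Type} [Preorder P] [LinearOrder K]

/-- Small sets have at most `#K` functions to sets with at most `#K` elements: such a function is
bounded (enumerate the target by `K`; see `card_small_subsets` in `LibDm83/Small.lean`). -/
theorem card_fun_le (hK : Inac K) {X Y : Type} (hX : #X < #K) (hY : #Y ≤ #K) :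
    #(X → Y) ≤ #K := by
  have hD : #(univ : Set (X × Y)) ≤ #K := by
    rw [Cardinal.mk_univ, Cardinal.mk_prod, Cardinal.lift_id, Cardinal.lift_id]
    exact (mul_le_mul' hX.le hY).trans (Cardinal.mul_eq_self hK.unc.le).le
  have hS := card_small_subsets hK hD
  let g : (X → Y) → {Z : Set (X × Y) // Z ⊆ univ ∧ #Z < #K} := fun f =>
    ⟨range fun x => (x, f x), subset_univ _, lt_of_le_of_lt Cardinal.mk_range_le hX⟩
  have hg : Function.Injective g := by
    intro f f' h
    funext x
    have h1 : (range fun x => (x, f x)) = range fun x => (x, f' x) := congrArg Subtype.val h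
    have h2 : (x, f x) ∈ range fun x => (x, f' x) := by
      rw [← h1]
      exact ⟨x, rfl⟩
    obtain ⟨y, hy⟩ := h2
    have hy1 : y = x := congrArg Prod.fst hy
    have hy2 : f' y = f x := congrArg Prod.snd hy
    rw [← hy2, hy1]
  exact (Cardinal.mk_le_of_injective hg).trans hS

theorem BCardA_gen {κ : Cardinal.{0}}
    (h : ∀ A : Set P, (∀ p ∈ A, ∀ q ∈ A, p ≠ q → ¬ ∃ r, r ≤ p ∧ r ≤ q) → #A < κ) (b : RO P) :
    ∃ G : Set P, #G < κ ∧ (∀ g ∈ G, g ∈ b) ∧ RO.gen G = b := by
  obtain ⟨G, hG⟩ := zorn_subset {G : Set P | (∀ g ∈ G, g ∈ b) ∧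
      ∀ p ∈ G, ∀ q ∈ G, p ≠ q → ¬ ∃ r, r ≤ p ∧ r ≤ q} (by
    intro c hc hchain
    refine ⟨⋃₀ c, ⟨?_, ?_⟩, fun s hs => subset_sUnion_of_mem hs⟩
    · rintro g ⟨s, hs, hg⟩
      exact (hc hs).1 g hg
    · rintro p ⟨s, hs, hp⟩ q ⟨t, ht, hq⟩ hpq
      rcases hchain.total hs ht with h1 | h1
      · exact (hc ht).2 p (h1 hp) q hq hpq
      · exact (hc hs).2 p hp q (h1 hq) hpq)
  refine ⟨G, h G hG.prop.2, hG.prop.1, ?_⟩
  apply RO.ext
  intro p
  rw [RO.mem_gen]
  constructor
  · intro hp
    refine RO.mem_of_dense fun q hq => ?_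
    obtain ⟨r, hr, s, hs, hrs⟩ := hp q hq
    exact ⟨r, hr, RO.mem_of_le hrs (hG.prop.1 s hs)⟩
  · intro hp q hq
    by_contra hcon
    push Not at hcon
    have hqb : q ∈ b := RO.mem_of_le hq hp
    have h1 : insert q G ∈ {G : Set P | (∀ g ∈ G, g ∈ b) ∧
        ∀ p ∈ G, ∀ q ∈ G, p ≠ q → ¬ ∃ r, r ≤ p ∧ r ≤ q} := by
      refine ⟨?_, ?_⟩
      · rintro g (rfl | hg)
        · exact hqb
        · exact hG.prop.1 g hg
      · rintro x (rfl | hx) y (rfl | hy) hxy
        · exact absurd rfl hxy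
        · rintro ⟨r, hr1, hr2⟩
          exact hcon r hr1 y hy hr2
        · rintro ⟨r, hr1, hr2⟩
          exact hcon r hr2 x hx hr1
        · exact hG.prop.2 x hx y hy hxy
    have h2 : q ∈ G := hG.le_of_ge h1 (subset_insert q G) (mem_insert q G)
    exact hcon q le_rfl q h2 le_rfl

/-- A regular open set is generated by a maximal antichain (`exists_gen` in `LibDm83/GenB.lean`, with
`< #K`), and there are at most `#K` small subsets of `P`. -/
theorem card_RO_le (hK : Inac K) (hb : Base P K) : #(RO P) ≤ #K := by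
  have hD : #(univ : Set P) ≤ #K := by
    rw [Cardinal.mk_univ]
    exact hb.card
  have hS := card_small_subsets hK hD
  choose G hG1 _ hG3 using fun b : RO P => BCardA_gen hb.cc b
  let g : RO P → {Z : Set P // Z ⊆ univ ∧ #Z < #K} := fun b => ⟨G b, subset_univ _, hG1 b⟩
  have hg : Function.Injective g := by
    intro b b' h
    have h1 : G b = G b' := congrArg Subtype.val h
    rw [← hG3 b, ← hG3 b', h1]
  exact (Cardinal.mk_le_of_injective hg).trans hS

end Pool.Agent.LibLs83
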