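import Pool.Agent.LibLs83.BCardA

/-! Task BCardB: the number of well-formed conditions in a small set of coordinates. -/

namespace Pool.Agent.LibLs83

open Cardinal Set Pool.Agent.LibTk83 Pool.Agent.LibDm83

variable {P W K : Type} [Preorder P] [LinearOrder K]

/-- the code of a condition with height `y` -/
private def BCardB_code (D : Set W) (y : K) (q : RawB P W K) :
    (Iic y → RO P) × Set D × (D × Iic y → RO P) × (D × Iic y → RO P) :=
  (fun x => q.s x.1, {d | d.1 ∈ q.dom}, fun e => q.a e.1.1 e.2.1, fun e => q.c e.1.1 e.2.1)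

private theorem BCardB_mem {a b : RO P} {φ : Prop} (ha : ∀ p ∈ a, φ) (hb : ∀ p ∈ b, φ)
    (h : φ → a = b) : a = b := by
  refine RO.ext fun p => ⟨fun hp => ?_, fun hp => ?_⟩
  · rwa [← h (ha p hp)]
  · rwa [h (hb p hp)]

private theorem BCardB_ext {D : Set W} {y : K} {q r : RawB P W K} (hq : WFB q) (hr : WFB r)
    (hqD : q.dom ⊆ D) (hrD : r.dom ⊆ D) (hqy : q.h = y) (hry : r.h = y)
    (h : BCardB_code D y q = BCardB_code D y r) : q = r := by
  have h1 : (fun x : Iic y => q.s x.1) = fun x => r.s x.1 := congrArg (fun t => t.1) h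
  have h2 : ({d | d.1 ∈ q.dom} : Set D) = {d | d.1 ∈ r.dom} := congrArg (fun t => t.2.1) h
  have h3 : (fun e : D × Iic y => q.a e.1.1 e.2.1) = fun e => r.a e.1.1 e.2.1 :=
    congrArg (fun t => t.2.2.1) h
  have h4 : (fun e : D × Iic y => q.c e.1.1 e.2.1) = fun e => r.c e.1.1 e.2.1 :=
    congrArg (fun t => t.2.2.2) h
  refine RawB.ext' (hqy.trans hry.symm) (fun x => ?_) ?_ (fun i x => ?_) (fun i x => ?_)
  · exact BCardB_mem (φ := x ≤ y) (fun p hp => (hq.s_lt x p hp).le.trans_eq hqy)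
      (fun p hp => (hr.s_lt x p hp).le.trans_eq hry) fun hx => congrFun h1 ⟨x, hx⟩
  · ext d
    constructor
    · intro hd
      have : (⟨d, hqD hd⟩ : D) ∈ ({d | d.1 ∈ q.dom} : Set D) := hd
      rw [h2] at this
      exact this
    · intro hd
      have : (⟨d, hrD hd⟩ : D) ∈ ({d | d.1 ∈ r.dom} : Set D) := hd
      rw [← h2] at this
      exact this
  · exact BCardB_mem (φ := i ∈ D ∧ x ≤ y)
      (fun p hp => ⟨hqD (hq.a_dom i x p hp), (hq.a_lt i x p hp).le.trans_eq hqy⟩)
      (fun p hp => ⟨hrD (hr.a_dom i x p hp), (hr.a_lt i x p hp).le.trans_eq hry⟩)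
      fun hx => congrFun h3 (⟨i, hx.1⟩, ⟨x, hx.2⟩)
  · exact BCardB_mem (φ := i ∈ D ∧ x ≤ y)
      (fun p hp => ⟨hqD (hq.c_dom i x p hp), (hq.c_le i x p hp).trans_eq hqy⟩)
      (fun p hp => ⟨hrD (hr.c_dom i x p hp), (hr.c_le i x p hp).trans_eq hry⟩)
      fun hx => congrFun h4 (⟨i, hx.1⟩, ⟨x, hx.2⟩)

/-- There are at most `#K` well-formed raw conditions whose coordinates are in a small set `D`: such
a condition is determined by its height `h`, the restrictions of `s` to `Iio h`, and of `a`, `c` to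
`D × Iic h` (functions from small sets to `RO P`), and its domain. -/
theorem card_rawB_le (hK : Inac K) (hb : Base P K) {D : Set W} (hD : #D < #K) :
    #{q : RawB P W K // WFB q ∧ q.dom ⊆ D} ≤ #K := by
  have hinf : ℵ₀ ≤ #K := hK.unc.le
  have hR : #(RO P) ≤ #K := card_RO_le hK hb
  let f : {q : RawB P W K // WFB q ∧ q.dom ⊆ D} → K := fun q => q.1.h
  rw [← Cardinal.mk_congr (Equiv.sigmaFiberEquiv f), Cardinal.mk_sigma]
  refine (Cardinal.sum_le_sum _ (fun _ => #K) fun y => ?_).trans ?_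
  · have hy : #(Iic y) < #K := by
      have h1 : (Iic y : Set K) = insert y (Iio y) := by
        ext x; simp [le_iff_eq_or_lt]
      rw [h1]
      exact (Cardinal.mk_insert_le).trans_lt
        (Cardinal.add_lt_of_lt hinf (hK.iio y) (Cardinal.one_lt_aleph0.trans hK.unc))
    have h2 : #(D × Iic y) < #K := by
      rw [Cardinal.mk_prod, Cardinal.lift_id, Cardinal.lift_id]
      exact Cardinal.mul_lt_of_lt hinf hD hy
    have hmul : ∀ {X Y : Type}, #X ≤ #K → #Y ≤ #K → #(X × Y) ≤ #K := by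
      intro X Y hX hY
      rw [Cardinal.mk_prod, Cardinal.lift_id, Cardinal.lift_id]
      exact (mul_le_mul' hX hY).trans (Cardinal.mul_eq_self hinf).le
    have hT : #((Iic y → RO P) × Set D × (D × Iic y → RO P) × (D × Iic y → RO P)) ≤ #K :=
      hmul (card_fun_le hK hy hR) (hmul (hK.pow _ hD).le
        (hmul (card_fun_le hK h2 hR) (card_fun_le hK h2 hR)))
    refine le_trans ?_ hT
    refine Cardinal.mk_le_of_injective (f := fun x => BCardB_code D y x.1.1) ?_
    intro x x' h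
    have h' : BCardB_code D y x.1.1 = BCardB_code D y x'.1.1 := h
    exact Subtype.ext (Subtype.ext
      (BCardB_ext x.1.2.1 x'.1.2.1 x.1.2.2 x'.1.2.2 x.2 x'.2 h'))
  · rw [Cardinal.sum_const', Cardinal.mul_eq_self hinf]

end Pool.Agent.LibLs83
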