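import Pool.Agent.LibLs83.BNames

/-! Task BClub: the generic sets `C i` are closed unbounded (as in `LibDm83/Club.lean`). -/

namespace Pool.Agent.LibLs83

open Cardinal Set Pool.Agent.LibTk83 Pool.Agent.LibDm83

variable {P W K : Type} [Preorder P] [LinearOrder K] [LinearOrder W] [WellFoundedLT W]
  {dat : W → K → K → Bool → Set (P × RawB P W K)}

theorem sN_cof (hK : Inac K) {α : K} (h : sN hK dat α ≠ ⊥) : CofW α := by
  obtain ⟨y, hy⟩ := RO.ne_bot_iff.1 h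
  exact y.x.2.1.s_cof α y.p (mem_sN.1 hy)

/- `exists_extB`: extend `y` to `⟨y.p, r⟩`; the height of `r` is in `c i` (`WFB.top_c`). -/
theorem unb_cN (hK : Inac K) (i : W) : unbB (cN hK dat i) = ⊤ := by
  unfold unbB
  rw [iInf_eq_top]
  intro β
  rw [RO.eq_top_iff']
  intro y
  obtain ⟨r, hv, hr, hβ, hi, -⟩ := exists_extB hK i β y.x.2
  refine ⟨⟨y.p, ⟨r, hv⟩⟩, ⟨le_rfl, hr y.p⟩, ?_⟩
  have h1 : (⟨y.p, ⟨r, hv⟩⟩ : Comp (VQ dat)) ∈ cN hK dat i r.h := by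
    refine mem_cN.2 ?_
    change y.p ∈ r.c i r.h
    rw [hv.1.top_c i hi]
    exact RO.mem_top
  exact (le_iSup₂ (f := fun (α : K) (_ : β < α) => cN hK dat i α) r.h hβ) h1

/- Let `y` be in the value of the hypothesis on `γ`; extend `z ≤ y` to `⟨z.p, r⟩` with `i` in the domain
and `γ < r.h`; then `WFB.clo` for `r`. -/
theorem clo_cN (hK : Inac K) (i : W) : cloB (cN hK dat i) = ⊤ := by
  unfold cloB
  rw [iInf_eq_top]
  intro γ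
  rw [iInf_eq_top]
  intro hγ
  rw [himp_eq_top_iff]
  intro y hy
  refine RO.mem_of_dense fun z hz => ?_
  obtain ⟨r, hv, hr, hlt, hi, -⟩ := exists_extB hK i γ z.x.2
  refine ⟨⟨z.p, ⟨r, hv⟩⟩, ⟨le_rfl, hr z.p⟩, mem_cN.2 ?_⟩
  refine hv.1.clo i hi γ hlt.le hγ z.p fun β hβ p' hp' => ?_
  have h1 := RO.mem_iInf.1 (RO.mem_iInf.1 hy β) hβ
  have hle : (⟨p', ⟨r, hv⟩⟩ : Comp (VQ dat)) ≤ y :=
    le_trans (show (⟨p', ⟨r, hv⟩⟩ : Comp (VQ dat)) ≤ z from ⟨hp', hr p'⟩) hz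
  obtain ⟨w, hw, α, hwα⟩ := RO.mem_iSup.1 h1 _ hle
  obtain ⟨w', hw', hα, hwα'⟩ := RO.mem_iSup.1 hwα w le_rfl
  have h2 : w'.p ∈ w'.x.1.c i α := mem_cN.1 hwα'
  have h3 : w' ≤ (⟨p', ⟨r, hv⟩⟩ : Comp (VQ dat)) := hw'.trans hw
  have h4 : FLe w'.p w'.x.1 r := h3.2
  exact ⟨w'.p, h3.1, α, hα.1, hα.2, (h4.c i hi α (hα.2.le.trans hlt.le) w'.p le_rfl).1 h2⟩

end Pool.Agent.LibLs83
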