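import Pool.Agent.LibLs83.BExhA

/-! Task BExh: bounds. -/

namespace Pool.Agent.LibLs83

open Cardinal Set Pool.Agent.LibTk83 Pool.Agent.LibDm83

/-- Under the chain condition, if it is dense that some `β` satisfies `φ p β` then there is a bound
`b` for the `β`. -/
theorem exists_bound {P K : Type} [Preorder P] [LinearOrder K] (hK : Inac K)
    (hcc : ∀ A : Set P, (∀ p ∈ A, ∀ q ∈ A, p ≠ q → ¬ ∃ r, r ≤ p ∧ r ≤ q) → #A < #K)
    (φ : P → K → Prop) (hφ : ∀ p β, φ p β → ∀ p' ≤ p, φ p' β) (h : ∀ p, ∃ p' ≤ p, ∃ β, φ p' β) :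
    ∃ b, ∀ p, ∃ p' ≤ p, ∃ β < b, φ p' β := by
  classical
  obtain ⟨A, hA⟩ := zorn_subset {A : Set P | (∀ p ∈ A, ∃ β, φ p β) ∧
      ∀ p ∈ A, ∀ q ∈ A, p ≠ q → ¬ ∃ r, r ≤ p ∧ r ≤ q} (by
    intro c hc hch
    refine ⟨⋃₀ c, ⟨?_, ?_⟩, fun s hs => subset_sUnion_of_mem hs⟩
    · rintro p ⟨s, hs, hp⟩
      exact (hc hs).1 p hp
    · rintro p ⟨s, hs, hp⟩ q ⟨t, ht, hq⟩ hpq
      rcases hch.total hs ht with hst | hst
      · exact (hc ht).2 p (hst hp) q hq hpq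
      · exact (hc hs).2 p hp q (hst hq) hpq)
  have hA1 := hA.prop.1
  have hA2 := hA.prop.2
  have : Nonempty K := by
    by_contra hne
    rw [not_nonempty_iff] at hne
    have h0 := hK.unc
    rw [Cardinal.mk_eq_zero] at h0
    exact absurd h0 (not_lt.2 zero_le)
  choose! g hg using hA1
  obtain ⟨b, hb⟩ := hK.bdd (g '' A) (mk_image_le.trans_lt (hcc A hA2))
  refine ⟨b, fun p => ?_⟩
  obtain ⟨p', hp', β, hβ⟩ := h p
  obtain ⟨a, ha, r, hr1, hr2⟩ : ∃ a ∈ A, ∃ r, r ≤ a ∧ r ≤ p' := by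
    by_contra hcon
    push Not at hcon
    have hins : insert p' A ∈ {A : Set P | (∀ p ∈ A, ∃ β, φ p β) ∧
        ∀ p ∈ A, ∀ q ∈ A, p ≠ q → ¬ ∃ r, r ≤ p ∧ r ≤ q} := by
      refine ⟨?_, ?_⟩
      · rintro x (rfl | hx)
        · exact ⟨β, hβ⟩
        · exact hA.prop.1 x hx
      · rintro x (rfl | hx) y (rfl | hy) hxy
        · exact absurd rfl hxy
        · rintro ⟨r, h1, h2⟩
          exact hcon y hy r h2 h1
        · rintro ⟨r, h1, h2⟩
          exact hcon x hx r h1 h2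
        · exact hA2 x hx y hy hxy
    have hmem : p' ∈ A := hA.le_of_ge hins (subset_insert p' A) (mem_insert p' A)
    exact hcon p' hmem p' le_rfl le_rfl
  exact ⟨r, hr2.trans hp', g a, hb _ (mem_image_of_mem g ha), hφ a (g a) (hg a ha) r hr1⟩

end Pool.Agent.LibLs83
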