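import Pool.Agent.LibLs83.BClosed
import Pool.Agent.LibLs83.BExh

/-! Task BDecide: deciding a bit as an element of `RO P`. -/

namespace Pool.Agent.LibLs83

open Cardinal Set Pool.Agent.LibTk83 Pool.Agent.LibDm83

variable {P W K : Type} [Preorder P] [LinearOrder K] [LinearOrder W] [WellFoundedLT W]
  [WellFoundedLT K] {dat : W → K → K → Bool → Set (P × RawB P W K)}

/-- The valid conditions with coordinates below `i`. -/
private def BDecide_Q (dat : W → K → K → Bool → Set (P × RawB P W K)) (i : W) : Type :=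
  {t : RawB P W K // (Lv dat i).V t}

private instance (i : W) : Preorder (BDecide_Q dat i) where
  le t r := GLe t.1 r.1
  le_refl t := GLe.refl t.1
  le_trans _ _ _ h h' := GLe.trans h h'

/- Use `exhaust` for the preorder of the valid conditions `t` with coordinates below `i` and
`GLe t r` (order `GLe`; chains: `chain_lower`) and the relation `∃ b, (Lv dat i).F α δ b p t`; the
density is `F_total` and `exists_glue`. It gives `t` such that for all `p` there are `p' ≤ p` and `b`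
with `(Lv dat i).F α δ b p' t`. Let `β` be the regular open set generated by the `p` with
`(Lv dat i).F α δ true p t` (`RO.gen`); extend `p` to decide `β`. -/
theorem exists_decide [Nonempty K] (hK : Inac K) (hb : Base P K) {i : W} (α δ : K)
    {r : RawB P W K} (hr : (Lv dat i).V r) :
    ∃ t, (Lv dat i).V t ∧ GLe t r ∧ ∃ β : RO P, ∀ p, ∃ p' ≤ p, ∃ b : Bool,
      p' ∈ bitB b βᶜ ∧ (Lv dat i).F α δ b p' t := by
  have hchain : ∀ C : Set (BDecide_Q dat i), IsChain (· ≤ ·) C → #C < #K →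
      ∃ y, ∀ x ∈ C, y ≤ x := by
    intro C hC hc
    obtain ⟨t, ht, htC, htd⟩ := chain_lower (dat := dat) hK (Subtype.val '' C)
      (by
        rintro q ⟨x, -, rfl⟩
        exact (V_iff.1 x.2).1)
      (by
        rintro q ⟨x, hx, rfl⟩ r ⟨y, hy, rfl⟩
        rcases eq_or_ne x y with h | h
        · subst h
          exact Or.inl (GLe.refl _)
        · exact hC hx hy h)
      (lt_of_le_of_lt Cardinal.mk_image_le hc)
    refine ⟨⟨t, V_iff.2 ⟨ht, ?_⟩⟩, ?_⟩
    · intro j hj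
      rw [htd] at hj
      simp only [Set.mem_iUnion] at hj
      obtain ⟨q, ⟨x, hx, rfl⟩, hj⟩ := hj
      exact (V_iff.1 x.2).2 j hj
    · intro x hx
      exact htC x.1 ⟨x, hx, rfl⟩
  have hE : ∀ (p : P) (s : BDecide_Q dat i), (∃ b, (Lv dat i).F α δ b p s.1) → ∀ p' ≤ p,
      ∀ s' ≤ s, ∃ b, (Lv dat i).F α δ b p' s'.1 := by
    rintro p s ⟨b, hF⟩ p' hp' s' hs'
    exact ⟨b, F_mono hp' (hs' p') hF⟩
  have hden : ∀ (p : P) (s : BDecide_Q dat i), ∃ p' ≤ p, ∃ s' ≤ s,
      ∃ b, (Lv dat i).F α δ b p' s'.1 := by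
    intro p s
    obtain ⟨p', hp', t, ht, hts, b, hF⟩ := F_total α δ p s.2
    obtain ⟨t', ht', hGt', hpt', -, -, hd⟩ :=
      exists_glue hK (V_iff.1 ht).1 (V_iff.1 s.2).1 hts
    refine ⟨p', hp', ⟨t', V_iff.2 ⟨ht', ?_⟩⟩, hGt', b, F_mono le_rfl hpt' hF⟩
    intro j hj
    rw [hd] at hj
    exact (V_iff.1 ht).2 j hj
  obtain ⟨t, htr, ht⟩ := exhaust hK hb.cc hchain
    (fun (p : P) (s : BDecide_Q dat i) => ∃ b, (Lv dat i).F α δ b p s.1) hE hden ⟨r, hr⟩
  refine ⟨t.1, t.2, htr, RO.gen {p | (Lv dat i).F α δ true p t.1}, fun p => ?_⟩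
  have hgen : ∀ p, p ∈ RO.gen {p | (Lv dat i).F α δ true p t.1} → ∃ p' ≤ p,
      p' ∈ RO.gen {p | (Lv dat i).F α δ true p t.1} ∧ (Lv dat i).F α δ true p' t.1 := by
    intro p hp
    obtain ⟨r, hr, s, hs, hrs⟩ := RO.mem_gen.1 hp p le_rfl
    exact ⟨r, hr, RO.mem_of_le hr hp, F_mono hrs (FLe.refl _ _) hs⟩
  obtain ⟨p', hp', b, hF⟩ := ht p
  obtain ⟨p'', hp'', h | h⟩ := decide_mem (RO.gen {p | (Lv dat i).F α δ true p t.1}) p'
  · obtain ⟨p₃, hp₃, hg, hF'⟩ := hgen p'' h
    refine ⟨p₃, hp₃.trans (hp''.trans hp'), true, ?_, hF'⟩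
    simp only [bitB, cond_true, compl_compl]
    exact hg
  · cases b with
    | false =>
      refine ⟨p'', hp''.trans hp', false, ?_, F_mono hp'' (FLe.refl _ _) hF⟩
      simp only [bitB, cond_false]
      exact h
    | true =>
      exfalso
      have h1 : p'' ∈ RO.gen {p | (Lv dat i).F α δ true p t.1} := by
        refine RO.mem_gen.2 fun q hq => ⟨q, le_rfl, q, ?_, le_rfl⟩
        exact F_mono (hq.trans hp'') (FLe.refl _ _) hF
      exact not_mem_compl h1 h

end Pool.Agent.LibLs83
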