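import Pool.Agent.LibLs83.Iface

/-!
The iteration of `LibDm83/Defs.lean` over a base forcing notion `P`: the bits of `s`, `a i`, `c i`
have truth values in `RO P`; heights and domains are decided. Conditions of the two step iteration
are the pairs `(p, q)`.
-/

namespace Pool.Agent.LibLs83

open Cardinal Set Pool.Agent.LibTk83 Pool.Agent.LibDm83

/-- The regular open set `b` if `φ` holds, otherwise `⊥`. -/
def when {P : Type} [Preorder P] (φ : Prop) (b : RO P) : RO P where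
  carrier := {p | φ ∧ p ∈ b}
  lower := fun _ _ h hp => ⟨hp.1, RO.mem_of_le h hp.2⟩
  reg := fun p h => ⟨by obtain ⟨r, -, hr⟩ := h p le_rfl; exact hr.1,
    RO.mem_of_dense fun q hq => by obtain ⟨r, hr, hr'⟩ := h q hq; exact ⟨r, hr, hr'.2⟩⟩

theorem mem_when {P : Type} [Preorder P] {φ : Prop} {b : RO P} {p : P} :
    p ∈ when φ b ↔ φ ∧ p ∈ b := Iff.rfl

/-- Raw conditions over `P`. -/
structure RawB (P W K : Type) [Preorder P] where
  h : K
  s : K → RO P
  dom : Set W
  a : W → K → RO P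
  c : W → K → RO P

section Defs

variable {P W K : Type} [Preorder P] [LinearOrder K]

/-- `p` forces that `r` is stronger than `q`. -/
structure FLe (p : P) (r q : RawB P W K) : Prop where
  h : q.h ≤ r.h
  dom : q.dom ⊆ r.dom
  s : ∀ x ≤ q.h, Agr p (r.s x) (q.s x)
  a : ∀ i ∈ q.dom, ∀ x < q.h, Agr p (r.a i x) (q.a i x)
  c : ∀ i ∈ q.dom, ∀ x ≤ q.h, Agr p (r.c i x) (q.c i x)

/-- It is forced by all conditions that `r` is stronger than `q`. -/
def GLe (r q : RawB P W K) : Prop := ∀ p, FLe p r q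

/-- The well-formed raw conditions. -/
structure WFB (q : RawB P W K) : Prop where
  small : #q.dom < #K
  s_lt : ∀ x, ∀ p ∈ q.s x, x < q.h
  s_cof : ∀ x, ∀ p ∈ q.s x, CofW x
  a_lt : ∀ i x, ∀ p ∈ q.a i x, x < q.h
  c_le : ∀ i x, ∀ p ∈ q.c i x, x ≤ q.h
  a_dom : ∀ i x, ∀ p ∈ q.a i x, i ∈ q.dom
  c_dom : ∀ i x, ∀ p ∈ q.c i x, i ∈ q.dom
  top_c : ∀ i ∈ q.dom, q.c i q.h = ⊤
  clo : ∀ i ∈ q.dom, ∀ g ≤ q.h, (∃ b, b < g) → ∀ p,
    (∀ b < g, ∀ p' ≤ p, ∃ p'' ≤ p', ∃ x, b < x ∧ x < g ∧ p'' ∈ q.c i x) → p ∈ q.c i g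

/-- Restriction to the coordinates in `X`. -/
def resB {P W K : Type} [Preorder P] (X : Set W) (q : RawB P W K) : RawB P W K where
  h := q.h
  s := q.s
  dom := q.dom ∩ X
  a := fun i x => when (i ∈ X) (q.a i x)
  c := fun i x => when (i ∈ X) (q.c i x)

/-- `p` forces that `q`, `r` have the same `s`, and the same `a i`, `c i` for `i` in `X`. -/
def EqOn (X : Set W) (p : P) (q r : RawB P W K) : Prop :=
  (∀ x, Agr p (q.s x) (r.s x)) ∧
    ∀ i ∈ X, ∀ x, Agr p (q.a i x) (r.a i x) ∧ Agr p (q.c i x) (r.c i x)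

/-- The condition `t` with truth value `z i` at the coordinate `i` and `zs` for `s`; otherwise
`q`, with the height of `t`. -/
noncomputable def mixB {P W K : Type} [Preorder P] (zs : RO P) (z : W → RO P) (t q : RawB P W K) :
    RawB P W K where
  h := t.h
  s := fun x => (zs ⊓ t.s x) ⊔ (zsᶜ ⊓ q.s x)
  dom := t.dom ∪ q.dom
  a := fun i x => (z i ⊓ t.a i x) ⊔ ((z i)ᶜ ⊓ q.a i x)
  c := fun i x => (z i ⊓ t.c i x) ⊔ ((z i)ᶜ ⊓ q.c i x) ⊔ when (x = t.h ∧ i ∈ t.dom ∪ q.dom) ⊤

/-- Raise the height to `H`, add the coordinates in `u`; for `i` in `X` the old height is in `A i`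
with truth value `σ i`. -/
noncomputable def enlB {P W K : Type} [Preorder P] (H : K) (u X : Set W) (σ : W → RO P) (q : RawB P W K) :
    RawB P W K where
  h := H
  s := q.s
  dom := q.dom ∪ u
  a := fun i x => q.a i x ⊔ when (x = q.h ∧ i ∈ X) (σ i)
  c := fun i x => q.c i x ⊔ when (x = H ∧ i ∈ q.dom ∪ u) ⊤

/-- The limit of the family of the `y k` with `e k`; `H` is an upper bound of the heights. Points
`x ≤ H` which are not covered by any `y k` (with `e k`) with the coordinate `i` and height at least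
`x` are put in `c i`, if the coordinate `i` is present in some `y k` (with `e k`). -/
noncomputable def limB {P W K I : Type} [Preorder P] [LinearOrder K] (H : K) (y : I → RawB P W K)
    (e : I → RO P) : RawB P W K where
  h := H
  s := fun x => ⨆ k, e k ⊓ (y k).s x
  dom := {i | ∃ k, i ∈ (y k).dom}
  a := fun i x => ⨆ k, e k ⊓ (y k).a i x
  c := fun i x => (⨆ k, e k ⊓ (y k).c i x) ⊔ when (x = H ∧ ∃ k, i ∈ (y k).dom) ⊤ ⊔
    when (x ≤ H) ((⨆ k, when (i ∈ (y k).dom) (e k)) ⊓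
      (⨆ k, when (i ∈ (y k).dom ∧ x ≤ (y k).h) (e k))ᶜ)

/-- The family of the `y k` with `e k` is directed. -/
def DirB {I : Type} (y : I → RawB P W K) (e : I → RO P) : Prop :=
  ∀ k l p, p ∈ e k → p ∈ e l → ∃ p' ≤ p, ∃ j, p' ∈ e j ∧ FLe p' (y j) (y k) ∧ FLe p' (y j) (y l)

/-- The truth value of: the bit with truth value `x` is not `b`. -/
noncomputable def bitB {P : Type} [Preorder P] (b : Bool) (x : RO P) : RO P := cond b xᶜ x

/-- The data of the recursion: the valid conditions and the forcing relation for the names. -/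
structure Lev (P W K : Type) [Preorder P] where
  V : RawB P W K → Prop
  F : K → K → Bool → P → RawB P W K → Prop

variable [LinearOrder W]

/-- The requirement at the coordinate `j` of `q`: at each point `α` of `C j` in `S` the guess is
wrong at some `δ < α` (this is dense below each condition which forces `α ∈ C j ∩ S`). -/
def OkB (L : Lev P W K) (j : W) (q : RawB P W K) : Prop :=
  ∀ α, ∀ p ∈ q.c j α, p ∈ q.s α → ∀ r, L.V r → FLe p r (resB (Iio j) q) →
    ∃ p' ≤ p, ∃ r', L.V r' ∧ FLe p' r' r ∧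
      ∃ δ < α, ∃ b : Bool, p' ∈ bitB b (q.a j δ) ∧ L.F α δ b p' r'

/-- Validity, by recursion. -/
def stepV (i : W) (ih : ∀ j, j < i → Lev P W K) (r : RawB P W K) : Prop :=
  WFB r ∧ (∀ j ∈ r.dom, j < i) ∧ ∀ j (hj : j < i), j ∈ r.dom → OkB (ih j hj) j r

/-- The forcing relation, by recursion. -/
def stepF (dat : W → K → K → Bool → Set (P × RawB P W K)) (i : W)
    (ih : ∀ j, j < i → Lev P W K) (α δ : K) (b : Bool) (p : P) (q : RawB P W K) : Prop :=
  (∀ p r, stepV i ih r → ∃ p' ≤ p, ∃ t, stepV i ih t ∧ FLe p' t r ∧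
      ∃ b', ∃ g ∈ dat i α δ b', p' ≤ g.1 ∧ FLe p' t g.2) →
    ∀ p' ≤ p, ∀ r, stepV i ih r → FLe p' r q → ∃ p'' ≤ p', ∃ t, stepV i ih t ∧ FLe p'' t r ∧
      ∃ g ∈ dat i α δ b, p'' ≤ g.1 ∧ FLe p'' t g.2

variable [WellFoundedLT W]

/-- The valid conditions with coordinates below `i` and the forcing relation at `i`. -/
noncomputable def Lv (dat : W → K → K → Bool → Set (P × RawB P W K)) : W → Lev P W K :=
  (wellFounded_lt (α := W)).fix fun i ih => ⟨stepV i ih, stepF dat i ih⟩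

/-- The valid conditions. -/
def ValB (dat : W → K → K → Bool → Set (P × RawB P W K)) (q : RawB P W K) : Prop :=
  WFB q ∧ ∀ j ∈ q.dom, OkB (Lv dat j) j q

/-- A system of conditions of height `H` with the domain `d`, indexed by the functions from `u` to
`RO P` (names for functions on `u`). -/
structure SysB (dat : W → K → K → Bool → Set (P × RawB P W K)) (u d : Set W) (m : W → K) (H : K)
    (S : (W → RO P) → RawB P W K) : Prop where
  val : ∀ σ, ValB dat (S σ)
  h_eq : ∀ σ, (S σ).h = H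
  dom_eq : ∀ σ, (S σ).dom = d
  sub : u ⊆ d
  coh : ∀ X : Set W, IsLowerSet X → ∀ σ τ p, (∀ i ∈ u, i ∈ X → Agr p (σ i) (τ i)) →
    EqOn X p (S σ) (S τ)
  lt : ∀ i ∈ u, m i < H
  mark : ∀ σ, ∀ i ∈ u, (S σ).a i (m i) = σ i

/-- The result of the `ω` rounds of the proof that `S` is stationary. -/
structure TowB (dat : W → K → K → Bool → Set (P × RawB P W K))
    (E : K → P → RawB P W K → Prop) (q : RawB P W K) where
  u : ℕ → Set W
  m : W → K
  H : ℕ → K
  S : ℕ → (W → RO P) → RawB P W K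
  sys : ∀ n, SysB dat (u n) (u (n + 1)) m (H n) (S n)
  dec : ∀ n σ, GLe (S (n + 1) σ) (S n σ)
  lt : ∀ n, H n < H (n + 1)
  meet : ∀ n σ p, ∃ p' ≤ p, ∃ α, H n < α ∧ α < H (n + 1) ∧ E α p' (S (n + 1) σ)
  start : ∀ σ, GLe (S 0 σ) q

end Defs

end Pool.Agent.LibLs83
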