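import Pool.Agent.LibLs83.BFo

/-! Task BEnl: adding coordinates and marks. -/

namespace Pool.Agent.LibLs83

open Cardinal Set Pool.Agent.LibTk83 Pool.Agent.LibDm83

section BEnlAux

variable {P : Type} [Preorder P]

theorem BEnl_when_false {φ : Prop} (b : RO P) (hφ : ¬ φ) : when φ b = ⊥ :=
  RO.ext fun _ => ⟨fun hp => absurd hp.1 hφ, fun hp => absurd hp RO.not_mem_bot⟩

theorem BEnl_when_true {φ : Prop} (b : RO P) (hφ : φ) : when φ b = b :=
  RO.ext fun _ => ⟨fun hp => hp.2, fun hp => ⟨hφ, hp⟩⟩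

end BEnlAux

variable {P W K : Type} [Preorder P] [LinearOrder K] {σ : W → RO P}

theorem BEnl_a {H : K} {u X : Set W} {q : RawB P W K} {i : W} {x : K} (hx : x ≠ q.h) :
    (enlB H u X σ q).a i x = q.a i x := by
  show q.a i x ⊔ when (x = q.h ∧ i ∈ X) (σ i) = q.a i x
  rw [BEnl_when_false _ (fun h => hx h.1), sup_bot_eq]

theorem BEnl_c {H : K} {u X : Set W} {q : RawB P W K} {i : W} {x : K} (hx : x ≠ H) :
    (enlB H u X σ q).c i x = q.c i x := by
  show q.c i x ⊔ when (x = H ∧ i ∈ q.dom ∪ u) ⊤ = q.c i x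
  rw [BEnl_when_false _ (fun h => hx h.1), sup_bot_eq]

theorem enlB_le {H : K} {u X : Set W} {q : RawB P W K} (hq : WFB q) (hH : q.h < H) :
    GLe (enlB H u X σ q) q := by
  intro p
  refine ⟨hH.le, subset_union_left, fun x _ => Agr.refl p _, ?_, ?_⟩
  · intro i _ x hx
    rw [BEnl_a hx.ne]
    exact Agr.refl p _
  · intro i _ x hx
    rw [BEnl_c (hx.trans_lt hH).ne]
    exact Agr.refl p _

theorem WFB_enlB (hK : Inac K) {H : K} {u X : Set W} {q : RawB P W K} (hq : WFB q) (hH : q.h < H)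
    (hu : #u < #K) (hX : X ⊆ q.dom ∪ u) : WFB (enlB H u X σ q) where
  small := (mk_union_le q.dom u).trans_lt (add_lt_of_lt hK.unc.le hq.small hu)
  s_lt := fun x p hp => (hq.s_lt x p hp).trans hH
  s_cof := hq.s_cof
  a_lt := by
    intro i x p hp
    obtain ⟨p', -, h | h⟩ := exists_of_mem_sup hp
    · exact (hq.a_lt i x p' h).trans hH
    · exact h.1.1.trans_lt hH
  c_le := by
    intro i x p hp
    obtain ⟨p', -, h | h⟩ := exists_of_mem_sup hp
    · exact ((hq.c_le i x p' h).trans_lt hH).le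
    · exact h.1.1.le
  a_dom := by
    intro i x p hp
    obtain ⟨p', -, h | h⟩ := exists_of_mem_sup hp
    · exact Or.inl (hq.a_dom i x p' h)
    · exact hX h.1.2
  c_dom := by
    intro i x p hp
    obtain ⟨p', -, h | h⟩ := exists_of_mem_sup hp
    · exact Or.inl (hq.c_dom i x p' h)
    · exact h.1.2
  top_c := by
    intro i hi
    show q.c i H ⊔ when (H = H ∧ i ∈ q.dom ∪ u) ⊤ = ⊤
    rw [BEnl_when_true _ ⟨rfl, hi⟩, sup_top_eq]
  clo := by
    intro i hi g hg hb p hl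
    rcases eq_or_lt_of_le (show g ≤ H from hg) with h | h
    · have h1 : (enlB H u X σ q).c i g = ⊤ := by
        show q.c i g ⊔ when (g = H ∧ i ∈ q.dom ∪ u) ⊤ = ⊤
        rw [BEnl_when_true _ ⟨h, hi⟩, sup_top_eq]
      rw [h1]
      exact RO.mem_top
    · have hl' : ∀ b < g, ∀ p' ≤ p, ∃ p'' ≤ p', ∃ x, b < x ∧ x < g ∧ p'' ∈ q.c i x := by
        intro b hbg p' hp'
        obtain ⟨p'', hp'', x, hbx, hxg, hx⟩ := hl b hbg p' hp'
        rw [BEnl_c (hxg.trans h).ne] at hx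
        exact ⟨p'', hp'', x, hbx, hxg, hx⟩
      rw [BEnl_c h.ne]
      rcases le_or_gt g q.h with hgp | hgp
      · obtain ⟨b, hbg⟩ := hb
        obtain ⟨p'', -, x, -, -, hx⟩ := hl' b hbg p le_rfl
        exact hq.clo i (hq.c_dom i x p'' hx) g hgp ⟨b, hbg⟩ p hl'
      · obtain ⟨p'', -, x, hbx, -, hx⟩ := hl' q.h hgp p le_rfl
        exact absurd (hq.c_le i x p'' hx) (not_le.2 hbx)

theorem enlB_congr {H : K} {u X Y : Set W} {q r : RawB P W K} {τ : W → RO P} {p : P}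
    (hh : q.h = r.h) (hd : q.dom = r.dom) (he : EqOn Y p q r)
    (hσ : ∀ i ∈ Y, i ∈ X → Agr p (σ i) (τ i)) :
    EqOn Y p (enlB H u X σ q) (enlB H u X τ r) := by
  refine ⟨he.1, fun i hi x => ⟨?_, ?_⟩⟩
  · show Agr p (q.a i x ⊔ when (x = q.h ∧ i ∈ X) (σ i)) (r.a i x ⊔ when (x = r.h ∧ i ∈ X) (τ i))
    rw [hh]
    exact ((he.2 i hi x).1).sup (Agr.when _ fun h => hσ i hi h.2)
  · show Agr p (q.c i x ⊔ when (x = H ∧ i ∈ q.dom ∪ u) ⊤) (r.c i x ⊔ when (x = H ∧ i ∈ r.dom ∪ u) ⊤)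
    rw [hd]
    exact ((he.2 i hi x).2).sup (Agr.refl p _)

variable [LinearOrder W] [WellFoundedLT W] {dat : W → K → K → Bool → Set (P × RawB P W K)}

/- `OkB_of_dense` with `q`: `H` is not in `s`. -/
theorem ValB_enlB (hK : Inac K) {H : K} {u X : Set W} {q : RawB P W K} (hq : ValB dat q)
    (hH : q.h < H) (hu : #u < #K) (hX : X ⊆ q.dom ∪ u) : ValB dat (enlB H u X σ q) := by
  refine ⟨WFB_enlB hK hq.1 hH hu hX, fun j _ => OkB_of_dense fun α p hc hs => ?_⟩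
  have hs' : p ∈ q.s α := hs
  have hα : α < q.h := hq.1.s_lt α p hs'
  rw [BEnl_c (hα.trans hH).ne] at hc
  refine ⟨p, le_rfl, q, hq.2 j (hq.1.c_dom j α p hc), hc, hs', resB_mono _ (enlB_le hq.1 hH p),
    fun δ hδ => ?_⟩
  rw [BEnl_a (hδ.trans hα).ne]
  exact Agr.refl p _

end Pool.Agent.LibLs83
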