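import Pool.Agent.LibLs83.BEnl

/-! Task BEnlarge: marks for all coordinates of a system. -/

namespace Pool.Agent.LibLs83

open Cardinal Set Pool.Agent.LibTk83 Pool.Agent.LibDm83

variable {P W K : Type} [Preorder P] [LinearOrder K] [LinearOrder W] [WellFoundedLT W]
  {dat : W → K → K → Bool → Set (P × RawB P W K)}

/- `S' σ = enlB H' ∅ (d \ u) σ (S σ)`, `m' i = H` for `i ∈ d \ u`, otherwise `m' i = m i`; `coh`:
`enlB_congr`. -/
theorem enlargeB (hK : Inac K) {u d : Set W} {m : W → K} {H : K} {S : (W → RO P) → RawB P W K}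
    (h : SysB dat u d m H S) {H' : K} (hH : H < H') :
    ∃ m' S', SysB dat d d m' H' S' ∧ (∀ i, i ∉ d \ u → m' i = m i) ∧ ∀ σ, GLe (S' σ) (S σ) := by
  classical
  have hlt : ∀ σ, (S σ).h < H' := fun σ => by rw [h.h_eq]; exact hH
  have he : #(∅ : Set W) < #K := by
    rw [mk_emptyCollection]
    exact Cardinal.aleph0_pos.trans hK.unc
  have hX : ∀ σ, d \ u ⊆ (S σ).dom ∪ ∅ := fun σ i hi => by
    rw [h.dom_eq]
    exact Or.inl hi.1
  have hwt : ∀ (φ : Prop) (b : RO P), φ → when φ b = b := fun φ b hφ =>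
    RO.ext fun p => ⟨fun hp => hp.2, fun hp => ⟨hφ, hp⟩⟩
  have hwf : ∀ (φ : Prop) (b : RO P), ¬ φ → when φ b = ⊥ := fun φ b hφ =>
    RO.ext fun p => ⟨fun hp => absurd hp.1 hφ, fun hp => absurd hp RO.not_mem_bot⟩
  have hlt' : ∀ i ∈ d, (fun i => if i ∈ d \ u then H else m i) i < H' := by
    intro i hi
    by_cases hiu : i ∈ d \ u
    · simp only [if_pos hiu]
      exact hH
    · simp only [if_neg hiu]
      have hiu' : i ∈ u := by
        by_contra hcon
        exact hiu ⟨hi, hcon⟩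
      exact (h.lt i hiu').trans hH
  refine ⟨fun i => if i ∈ d \ u then H else m i,
    fun σ => enlB H' ∅ (d \ u) σ (S σ), ⟨?_, fun _ => rfl, ?_, subset_rfl, ?_, hlt', ?_⟩, ?_, ?_⟩
  · intro σ
    exact ValB_enlB hK (h.val σ) (hlt σ) he (hX σ)
  · intro σ
    show (S σ).dom ∪ ∅ = d
    rw [h.dom_eq, union_empty]
  · intro X hX' σ τ p hστ
    refine enlB_congr ?_ ?_ (h.coh X hX' σ τ p fun i hi hiX => hστ i (h.sub hi) hiX)
      fun i hiX hi => hστ i hi.1 hiX
    · rw [h.h_eq, h.h_eq]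
    · rw [h.dom_eq, h.dom_eq]
  · intro σ i hi
    show (S σ).a i (if i ∈ d \ u then H else m i) ⊔
      when ((if i ∈ d \ u then H else m i) = (S σ).h ∧ i ∈ d \ u) (σ i) = σ i
    by_cases hiu : i ∈ d \ u
    · have h1 : (S σ).a i H = ⊥ := by
        refine RO.ext fun p => ⟨fun hp => ?_, fun hp => absurd hp RO.not_mem_bot⟩
        have h2 := (h.val σ).1.a_lt i H p hp
        rw [h.h_eq] at h2
        exact absurd h2 (lt_irrefl _)
      rw [if_pos hiu, h1, hwt _ _ ⟨(h.h_eq σ).symm, hiu⟩, bot_sup_eq]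
    · have hiu' : i ∈ u := by
        by_contra hcon
        exact hiu ⟨hi, hcon⟩
      rw [if_neg hiu, hwf _ _ (fun hc => hiu hc.2), sup_bot_eq]
      exact h.mark σ i hiu'
  · intro i hi
    exact if_neg hi
  · intro σ
    exact enlB_le (h.val σ).1 (hlt σ)

end Pool.Agent.LibLs83
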