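import Pool.Agent.LibLs83.Iface
import Pool.Agent.LibDm83.Tasks

/-! Task BExhA: exhaustion. -/

namespace Pool.Agent.LibLs83

open Cardinal Set Pool.Agent.LibTk83 Pool.Agent.LibDm83

/-- Let `S` be closed under short chains, let `P` have only short antichains, and let `E` be a
relation which is closed downwards in both variables, such that each pair `(p, s)` has an extension
in `E`. Then each `s` has an extension `s'` such that the set of the `p` with `E p s'` is dense.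

Proof: otherwise define by well-founded recursion on `ξ : K` elements `s ξ`, `p ξ` with
`E (p ξ) (s ξ)` and: `s ξ` is below all `s η`, `η < ξ`, and `p ξ` is below some `p*` such that there is
no `p' ≤ p*` with `E p' s*`, where `s*` is a lower bound of the `s η`, `η < ξ`, and `s ξ ≤ s*`. Then
`p ξ` and `p η` are incompatible for `η < ξ`, as a common extension `r` would satisfy `E r s*`. -/
theorem exhaust {S P K : Type} [Preorder S] [Preorder P] [LinearOrder K] [WellFoundedLT K]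
    (hK : Inac K)
    (hcc : ∀ A : Set P, (∀ p ∈ A, ∀ q ∈ A, p ≠ q → ¬ ∃ r, r ≤ p ∧ r ≤ q) → #A < #K)
    (hc : ∀ C : Set S, IsChain (· ≤ ·) C → #C < #K → ∃ y, ∀ x ∈ C, y ≤ x)
    (E : P → S → Prop) (hE : ∀ p s, E p s → ∀ p' ≤ p, ∀ s' ≤ s, E p' s')
    (hden : ∀ p s, ∃ p' ≤ p, ∃ s' ≤ s, E p' s') (s : S) :
    ∃ s' ≤ s, ∀ p, ∃ p' ≤ p, E p' s' := by
  classical
  by_contra hcon
  push Not at hcon
  have haleph : ℵ₀ ≤ #K := hK.unc.le
  obtain ⟨p₀, -⟩ := hcon s le_rfl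
  obtain ⟨f, hf⟩ : ∃ f : K → S × P, ∀ t, (∃ y : S × P, E y.2 y.1 ∧ y.1 ≤ s ∧
      (∀ u, u < t → y.1 ≤ (f u).1) ∧ ∀ u, u < t → ¬ ∃ r, r ≤ y.2 ∧ r ≤ (f u).2) →
      E (f t).2 (f t).1 ∧ (f t).1 ≤ s ∧
      (∀ u, u < t → (f t).1 ≤ (f u).1) ∧ ∀ u, u < t → ¬ ∃ r, r ≤ (f t).2 ∧ r ≤ (f u).2 := by
    obtain ⟨F, hF⟩ : ∃ F : (t : K) → ((u : K) → u < t → S × P) → S × P, ∀ t ih,
        (∃ y : S × P, E y.2 y.1 ∧ y.1 ≤ s ∧
          (∀ u (hu : u < t), y.1 ≤ (ih u hu).1) ∧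
          ∀ u (hu : u < t), ¬ ∃ r, r ≤ y.2 ∧ r ≤ (ih u hu).2) →
        E (F t ih).2 (F t ih).1 ∧ (F t ih).1 ≤ s ∧
          (∀ u (hu : u < t), (F t ih).1 ≤ (ih u hu).1) ∧
          ∀ u (hu : u < t), ¬ ∃ r, r ≤ (F t ih).2 ∧ r ≤ (ih u hu).2 := by
      refine ⟨fun t ih => if h : ∃ y : S × P, E y.2 y.1 ∧ y.1 ≤ s ∧
          (∀ u (hu : u < t), y.1 ≤ (ih u hu).1) ∧
          ∀ u (hu : u < t), ¬ ∃ r, r ≤ y.2 ∧ r ≤ (ih u hu).2 then h.choose else (s, p₀),
        fun t ih h => ?_⟩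
      have h1 := h.choose_spec
      simp only [dif_pos h]
      exact h1
    refine ⟨(wellFounded_lt (α := K)).fix F, fun t h => ?_⟩
    have h1 : (wellFounded_lt (α := K)).fix F t = F t fun s _ => (wellFounded_lt (α := K)).fix F s :=
      WellFounded.fix_eq _ _ _
    rw [h1]
    exact hF t _ h
  have key : ∀ t, E (f t).2 (f t).1 ∧ (f t).1 ≤ s ∧
      (∀ u, u < t → (f t).1 ≤ (f u).1) ∧ ∀ u, u < t → ¬ ∃ r, r ≤ (f t).2 ∧ r ≤ (f u).2 := by
    intro t
    induction t using WellFoundedLT.induction with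
    | ind t ih =>
      apply hf
      obtain ⟨y₀, hy₀⟩ := hc (insert s ((fun u => (f u).1) '' Iio t)) (by
        rintro a (rfl | ⟨u, hu, rfl⟩) b (rfl | ⟨v, hv, rfl⟩) hab
        · exact absurd rfl hab
        · exact Or.inr (ih v hv).2.1
        · exact Or.inl (ih u hu).2.1
        · rcases lt_trichotomy u v with h | h | h
          · exact Or.inr ((ih v hv).2.2.1 u h)
          · subst h; exact absurd rfl hab
          · exact Or.inl ((ih u hu).2.2.1 v h)) (by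
        refine (mk_insert_le).trans_lt ?_
        exact add_lt_of_lt haleph (mk_image_le.trans_lt (hK.iio t)) (one_lt_aleph0.trans_le haleph))
      have hys : y₀ ≤ s := hy₀ s (mem_insert _ _)
      have hyu : ∀ u, u < t → y₀ ≤ (f u).1 := fun u hu =>
        hy₀ _ (mem_insert_of_mem _ ⟨u, hu, rfl⟩)
      obtain ⟨q, hq⟩ := hcon y₀ hys
      obtain ⟨q', hq', y', hy', hE'⟩ := hden q y₀
      refine ⟨(y', q'), hE', hy'.trans hys, fun u hu => hy'.trans (hyu u hu), fun u hu => ?_⟩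
      rintro ⟨r, hr, hr'⟩
      exact hq r (hr.trans hq') (hE _ _ (ih u hu).1 r hr' y₀ (hyu u hu))
  have hinc : ∀ t u, t ≠ u → ¬ ∃ r, r ≤ (f t).2 ∧ r ≤ (f u).2 := by
    intro t u htu
    rcases lt_or_gt_of_ne htu with h | h
    · rintro ⟨r, hr, hr'⟩
      exact (key u).2.2.2 t h ⟨r, hr', hr⟩
    · exact (key t).2.2.2 u h
  have hinj : Function.Injective fun t => (f t).2 := by
    intro t u htu
    by_contra hne
    refine hinc t u hne ⟨(f t).2, le_rfl, ?_⟩
    change (f t).2 = (f u).2 at htu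
    rw [htu]
  have h1 := hcc (range fun t => (f t).2) (by
    rintro _ ⟨t, rfl⟩ _ ⟨u, rfl⟩ hne
    refine hinc t u ?_
    rintro rfl
    exact hne rfl)
  rw [mk_range_eq _ hinj] at h1
  exact lt_irrefl _ h1

end Pool.Agent.LibLs83
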