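import Pool.Agent.LibLs83.BRes

/-! Task BFo: the forcing relation. -/

namespace Pool.Agent.LibLs83

open Cardinal Set Pool.Agent.LibTk83 Pool.Agent.LibDm83

variable {P W K : Type} [Preorder P] [LinearOrder K] [LinearOrder W] [WellFoundedLT W]
  {dat : W → K → K → Bool → Set (P × RawB P W K)}

/- `WellFounded.fix_eq`. -/
theorem Lv_eq (i : W) : Lv dat i = ⟨stepV i fun j _ => Lv dat j, stepF dat i fun j _ => Lv dat j⟩ := by
  unfold Lv
  exact WellFounded.fix_eq _ _ _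

theorem V_iff {i : W} {r : RawB P W K} :
    (Lv dat i).V r ↔ ValB dat r ∧ ∀ j ∈ r.dom, j < i := by
  rw [Lv_eq]
  constructor
  · rintro ⟨h1, h2, h3⟩
    exact ⟨⟨h1, fun j hj => h3 j (h2 j hj) hj⟩, h2⟩
  · rintro ⟨⟨h1, h3⟩, h2⟩
    exact ⟨h1, h2, fun j _ hj => h3 j hj⟩

private theorem BFo_stepV {i : W} {r : RawB P W K} :
    stepV i (fun j _ => Lv dat j) r ↔ (Lv dat i).V r := by
  rw [Lv_eq i]

theorem F_iff {i : W} {α δ : K} {b : Bool} {p : P} {q : RawB P W K} : (Lv dat i).F α δ b p q ↔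
    ((∀ p r, (Lv dat i).V r → ∃ p' ≤ p, ∃ t, (Lv dat i).V t ∧ FLe p' t r ∧
        ∃ b', ∃ g ∈ dat i α δ b', p' ≤ g.1 ∧ FLe p' t g.2) →
      ∀ p' ≤ p, ∀ r, (Lv dat i).V r → FLe p' r q → ∃ p'' ≤ p', ∃ t, (Lv dat i).V t ∧
        FLe p'' t r ∧ ∃ g ∈ dat i α δ b, p'' ≤ g.1 ∧ FLe p'' t g.2) := by
  have h : (Lv dat i).F α δ b p q ↔ stepF dat i (fun j _ => Lv dat j) α δ b p q := by
    conv_lhs => rw [Lv_eq i]
  rw [h]
  unfold stepF
  simp only [BFo_stepV]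

theorem F_mono {i : W} {α δ : K} {b : Bool} {p p' : P} {q q' : RawB P W K} (hp : p' ≤ p)
    (hq : FLe p' q' q) (h : (Lv dat i).F α δ b p q) : (Lv dat i).F α δ b p' q' := by
  rw [F_iff] at h ⊢
  intro hd p1 hp1 r hr hrq
  exact h hd p1 (hp1.trans hp) r hr (hrq.trans (hq.mono hp1))

/- If the data are total then extend `(p, r)` below a member of `dat i α δ b`; otherwise the forcing
relation is always true. -/
theorem F_total {i : W} (α δ : K) (p : P) {r : RawB P W K} (h : (Lv dat i).V r) :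
    ∃ p' ≤ p, ∃ t, (Lv dat i).V t ∧ FLe p' t r ∧ ∃ b, (Lv dat i).F α δ b p' t := by
  by_cases hd : ∀ p r, (Lv dat i).V r → ∃ p' ≤ p, ∃ t, (Lv dat i).V t ∧ FLe p' t r ∧
        ∃ b', ∃ g ∈ dat i α δ b', p' ≤ g.1 ∧ FLe p' t g.2
  · obtain ⟨p', hp', t, ht, htr, b, g, hg, hpg, htg⟩ := hd p r h
    refine ⟨p', hp', t, ht, htr, b, ?_⟩
    rw [F_iff]
    intro _ p1 hp1 r1 hr1 hr1t
    exact ⟨p1, le_rfl, r1, hr1, FLe.refl _ _, g, hg, hp1.trans hpg, hr1t.trans (htg.mono hp1)⟩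
  · refine ⟨p, le_rfl, r, h, FLe.refl _ _, true, ?_⟩
    rw [F_iff]
    exact fun hd' => absurd hd' hd

/-- The requirement at `j` for `t` follows, at the points decided by `p`, from that for `q`, if it is
dense that `p` forces that `t` is stronger than `q` up to `j`, with the same `a j` below `α`. -/
theorem OkB_of_dense {j : W} {t : RawB P W K}
    (h : ∀ α, ∀ p ∈ t.c j α, p ∈ t.s α → ∃ p' ≤ p, ∃ q, OkB (Lv dat j) j q ∧ p' ∈ q.c j α ∧
      p' ∈ q.s α ∧ FLe p' (resB (Iio j) t) (resB (Iio j) q) ∧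
      ∀ δ < α, Agr p' (t.a j δ) (q.a j δ)) : OkB (Lv dat j) j t := by
  intro α p hc hs r hr hrt
  obtain ⟨p', hp', q, hq, hqc, hqs, hle, hag⟩ := h α p hc hs
  obtain ⟨p'', hp'', r', hr', hr'r, δ, hδ, b, hb, hF⟩ :=
    hq α p' hqc hqs r hr ((hrt.mono hp').trans hle)
  refine ⟨p'', hp''.trans hp', r', hr', hr'r, δ, hδ, b, ?_, hF⟩
  exact ((hag δ hδ).bit b p'' hp'').2 hb

theorem ValB_resB {X : Set W} (hX : IsLowerSet X) {q : RawB P W K} (h : ValB dat q) :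
    ValB dat (resB X q) := by
  refine ⟨WFB_resB X h.1, fun j hj => ?_⟩
  have hjp : j ∈ q.dom := hj.1
  have hjX : j ∈ X := hj.2
  refine OkB_of_dense fun α p hc hs => ⟨p, le_rfl, q, h.2 j hjp, ?_, hs, ?_, ?_⟩
  · exact (mem_when.1 hc).2
  · have hsub : Iio j ⊆ X := fun x hx => hX (le_of_lt hx) hjX
    rw [resB_resB_of_subset hsub]
    exact FLe.refl _ _
  · intro δ _ r _
    exact ⟨fun hr => (mem_when.1 hr).2, fun hr => mem_when.2 ⟨hjX, hr⟩⟩

theorem V_resB {i : W} {q : RawB P W K} (h : ValB dat q) : (Lv dat i).V (resB (Iio i) q) := by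
  rw [V_iff]
  exact ⟨ValB_resB (isLowerSet_Iio i) h, fun _ hj => hj.2⟩

end Pool.Agent.LibLs83
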