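import Pool.Agent.LibLs83.Iface

/-! Task BGOrd: the order of the names. -/

namespace Pool.Agent.LibLs83

open Cardinal Set Pool.Agent.LibTk83 Pool.Agent.LibDm83

/-- The preorder `x ≤ y` iff it is forced by all `p`. -/
def GOrd {P Θ : Type} [Preorder P] (_V : VPre P Θ) : Type := Θ

instance {P Θ : Type} [Preorder P] (V : VPre P Θ) : Preorder (GOrd V) where
  le x y := V.le x y = ⊤
  le_refl x := V.refl x
  le_trans x y z h h' := top_le_iff.1 (by
    have := V.trans x y z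
    rw [h, h', inf_top_eq] at this
    exact this)

variable {P Θ : Type} [Preorder P] {V : VPre P Θ}

/-- From `VClosed` with all `e k = ⊤`. -/
theorem gOrd_closed {κ : Cardinal.{0}} (hV : VClosed κ V) (C : Set (GOrd V))
    (hC : IsChain (· ≤ ·) C) (h : #C < κ) : ∃ y, ∀ x ∈ C, y ≤ x := by
  obtain ⟨z, hz⟩ := hV C (fun x => (x.1 : GOrd V)) (fun _ => ⊤) h
  refine ⟨z, fun x hx => ?_⟩
  change V.le z x = ⊤
  refine top_le_iff.1 fun p _ => ?_
  refine hz p ?_ ⟨x, hx⟩ RO.mem_top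
  rintro ⟨k, hk⟩ ⟨l, hl⟩ p' - - -
  have hle : ∀ u v : GOrd V, u ≤ v → p' ∈ V.le u v := by
    intro u v huv
    have h1 : V.le u v = ⊤ := huv
    rw [h1]
    exact RO.mem_top
  rcases hC.total hk hl with h1 | h1
  · exact ⟨p', le_rfl, ⟨k, hk⟩, RO.mem_top, hle k k le_rfl, hle k l h1⟩
  · exact ⟨p', le_rfl, ⟨l, hl⟩, RO.mem_top, hle l k h1, hle l l le_rfl⟩

/-- Mixing, from `VClosed` for a family with two members: if `p` forces `y ≤ x` then there is `z` which
is forced to be below `x`, and which `p` forces to be below `y`. -/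
theorem exists_mix {κ : Cardinal.{0}} (hκ : ℵ₀ ≤ κ) (hV : VClosed κ V) {p : P} {x y : Θ}
    (h : p ∈ V.le y x) : ∃ z, V.le z x = ⊤ ∧ p ∈ V.le z y := by
  have hcard : #Bool < κ := by
    refine lt_of_lt_of_le ?_ hκ
    exact Cardinal.lt_aleph0_of_finite Bool
  obtain ⟨z, hz⟩ := hV Bool (fun b => cond b y x) (fun b => cond b (RO.of p) ⊤) hcard
  have hself : ∀ (w : Θ) (p' : P), p' ∈ V.le w w := by
    intro w p'
    rw [V.refl]
    exact RO.mem_top
  have hof : ∀ p', p' ∈ RO.of p → p' ∈ V.le y x := RO.of_le_iff.2 h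
  have hdir : ∀ p', DirAt V (fun b => cond b y x) (fun b => cond b (RO.of p) ⊤) p' := by
    intro p₁ k l p' _ hk hl
    refine ⟨p', le_rfl, k || l, ?_⟩
    cases k <;> cases l
    · exact ⟨hk, hself _ _, hself _ _⟩
    · exact ⟨hl, hof _ hl, hself _ _⟩
    · exact ⟨hk, hself _ _, hof _ hk⟩
    · exact ⟨hk, hself _ _, hself _ _⟩
  refine ⟨z, top_le_iff.1 fun p' _ => hz p' (hdir p') false RO.mem_top, ?_⟩
  exact hz p (hdir p) true (RO.self_mem_of p)

end Pool.Agent.LibLs83
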