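import Pool.Agent.LibLs83.Iface
import Pool.Agent.LibDm83.VB5
import Pool.Agent.LibDm83.VB6

/-! Task BIneff: ineffability in the Boolean-valued universe. -/

namespace Pool.Agent.LibLs83

open Cardinal Pool.Agent.LibPlas90 Pool.Agent.LibPlas90.BSet Pool.Agent.LibTk83 Pool.Agent.LibDm83

variable {B K : Type} [CompleteBooleanAlgebra B] [LinearOrder K] [WellFoundedLT K]

private theorem BIneff_mp {B : Type} [CompleteBooleanAlgebra B] {T p q : B} (h1 : T ≤ p ⇨ q)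
    (h2 : T ≤ p) : T ≤ q :=
  (le_inf h1 h2).trans himp_inf_le

/-- The case of a fixed `A`. -/
private theorem BIneff_aux (F A t : BSet B) (X : K → B) (α : K) :
    ((⨅ δ, ⨅ (_ : δ < α),
      (((⨆ A : BSet B, rel F (chk α) A ⊓ mem (chk δ) A) ⇨ X δ) ⊓
        (X δ ⇨ ⨆ A : BSet B, rel F (chk α) A ⊓ mem (chk δ) A))) ⊓
      (rel F (chk α) A ⊓ sub A (chk α) ⊓ ⨅ A' : BSet B, rel F (chk α) A' ⇨ eq A' A)) ≤
      equiv (mem t A) (mem t (sb X) ⊓ mem t (chk α)) := by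
  set T := ((⨅ δ, ⨅ (_ : δ < α),
      (((⨆ A : BSet B, rel F (chk α) A ⊓ mem (chk δ) A) ⇨ X δ) ⊓
        (X δ ⇨ ⨆ A : BSet B, rel F (chk α) A ⊓ mem (chk δ) A))) ⊓
      (rel F (chk α) A ⊓ sub A (chk α) ⊓ ⨅ A' : BSet B, rel F (chk α) A' ⇨ eq A' A)) with hT
  have h1 : ∀ δ, δ < α → T ≤ (⨆ A : BSet B, rel F (chk α) A ⊓ mem (chk δ) A) ⇨ X δ :=
    fun δ hδ => inf_le_left.trans ((iInf₂_le δ hδ).trans inf_le_left)
  have h2 : ∀ δ, δ < α → T ≤ X δ ⇨ (⨆ A : BSet B, rel F (chk α) A ⊓ mem (chk δ) A) :=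
    fun δ hδ => inf_le_left.trans ((iInf₂_le δ hδ).trans inf_le_right)
  have h3 : T ≤ rel F (chk α) A := inf_le_right.trans (inf_le_left.trans inf_le_left)
  have h4 : T ≤ sub A (chk α) := inf_le_right.trans (inf_le_left.trans inf_le_right)
  have h5 : ∀ A', T ≤ rel F (chk α) A' ⇨ eq A' A :=
    fun A' => inf_le_right.trans (inf_le_right.trans (iInf_le _ A'))
  have h6 : ∀ δ : K, T ⊓ (⨆ A : BSet B, rel F (chk α) A ⊓ mem (chk δ) A) ≤ mem (chk δ) A := by
    intro δ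
    rw [inf_iSup_eq]
    refine iSup_le fun A' => ?_
    have e1 : T ⊓ (rel F (chk α) A' ⊓ mem (chk δ) A') ≤ eq A' A :=
      BIneff_mp (inf_le_left.trans (h5 A')) (inf_le_right.trans inf_le_left)
    exact (le_inf e1 (inf_le_right.trans inf_le_right)).trans (mem_congr_right _ _ _)
  have h7 : ∀ δ : K, T ⊓ mem (chk δ) A ≤ ⨆ A : BSet B, rel F (chk α) A ⊓ mem (chk δ) A :=
    fun δ => le_iSup_of_le A (inf_le_inf_right _ h3)
  refine le_inf ?_ ?_
  · rw [le_himp_iff]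
    have e1 : T ⊓ mem t A ≤ mem t (chk α) := (inf_le_inf_right _ h4).trans (v3_sub_mem _ _ _)
    refine le_inf ?_ e1
    rw [mem_chk] at e1
    refine (le_inf le_rfl e1).trans ?_
    rw [inf_iSup_eq]
    refine iSup_le fun δ => ?_
    rw [inf_iSup_eq]
    refine iSup_le fun hδ => ?_
    have e2 : T ⊓ mem t A ⊓ eq t (chk δ) ≤ T := inf_le_left.trans inf_le_left
    have e3 : T ⊓ mem t A ⊓ eq t (chk δ) ≤ mem (chk δ) A :=
      (le_inf inf_le_right (inf_le_left.trans inf_le_right)).trans (mem_congr_left _ _ _)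
    have e4 : T ⊓ mem t A ⊓ eq t (chk δ) ≤ X δ :=
      BIneff_mp (e2.trans (h1 δ hδ)) ((le_inf e2 e3).trans (h7 δ))
    rw [← mem_sb X δ] at e4
    refine (le_inf ?_ e4).trans (mem_congr_left (chk δ) t (sb X))
    rw [eq_symm]
    exact inf_le_right
  · rw [le_himp_iff]
    have e1 : T ⊓ (mem t (sb X) ⊓ mem t (chk α)) ≤ ⨆ δ, ⨆ (_ : δ < α), eq t (chk δ) := by
      rw [← mem_chk]
      exact inf_le_right.trans inf_le_right
    refine (le_inf le_rfl e1).trans ?_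
    rw [inf_iSup_eq]
    refine iSup_le fun δ => ?_
    rw [inf_iSup_eq]
    refine iSup_le fun hδ => ?_
    have e2 : T ⊓ (mem t (sb X) ⊓ mem t (chk α)) ⊓ eq t (chk δ) ≤ T :=
      inf_le_left.trans inf_le_left
    have e3 : T ⊓ (mem t (sb X) ⊓ mem t (chk α)) ⊓ eq t (chk δ) ≤ mem (chk δ) (sb X) :=
      (le_inf inf_le_right (inf_le_left.trans (inf_le_right.trans inf_le_left))).trans
        (mem_congr_left _ _ _)
    rw [mem_sb X δ] at e3
    have e4 : T ⊓ (mem t (sb X) ⊓ mem t (chk α)) ⊓ eq t (chk δ) ≤ mem (chk δ) A :=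
      (le_inf e2 (BIneff_mp (e2.trans (h2 δ hδ)) e3)).trans (h6 δ)
    refine (le_inf ?_ e4).trans (mem_congr_left (chk δ) t A)
    rw [eq_symm]
    exact inf_le_right

/-- If `F_α` and `X` have the same members below `α` then `F_α = X ∩ α`. (Compare
`LibDm83/VB5.lean`: let `A` be the set of `isFam F (ck B K)` at `chk α`, `A ⊆ chk α`; for `t` use
`mem t A ≤ ⨆ δ < α, eq t (chk δ)` (`mem_chk`, `v3_sub_mem`) and `mem_congr_left`.) -/
theorem guess_of_iff (F : BSet B) (X : K → B) (α : K) :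
    isFam F (ck B K) ⊓ (⨅ δ, ⨅ (_ : δ < α),
      (((⨆ A : BSet B, rel F (chk α) A ⊓ mem (chk δ) A) ⇨ X δ) ⊓
        (X δ ⇨ ⨆ A : BSet B, rel F (chk α) A ⊓ mem (chk δ) A))) ≤ guess F (sb X) (chk α) := by
  have h1 : isFam F (ck B K) ≤ ⨆ A : BSet B, rel F (chk α) A ⊓ sub A (chk α) ⊓
      ⨅ A' : BSet B, rel F (chk α) A' ⇨ eq A' A := by
    unfold isFam
    rw [all_ck (Ext_fam F)]
    exact iInf_le _ α
  refine (inf_le_inf_right _ h1).trans ?_
  rw [iSup_inf_eq]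
  refine iSup_le fun A => ?_
  unfold guess
  refine le_iSup_of_le A (le_inf (inf_le_left.trans (inf_le_left.trans inf_le_left))
    (le_iInf fun t => ?_))
  rw [inf_comm]
  exact BIneff_aux F A t X α

/- `isReg_ck`; for `F` apply `h` to `fun α δ => ⨆ A, rel F (chk α) A ⊓ mem (chk δ) A`; the name of the
set is `sb X` (`sub_sb_ck`); for a club `C` use `isClub_le` and `ex_ck`; `guess_of_iff`. -/
theorem isIneffable_ck (hK : Inac K) (M : DMod B K) (h : IneffB B K) :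
    isIneffable (ck B K) = ⊤ := by
  unfold isIneffable
  rw [isReg_ck hK M, top_inf_eq]
  refine top_le_iff.mp (le_iInf fun F => ?_)
  rw [le_himp_iff, top_inf_eq]
  obtain ⟨X, hX⟩ := h fun α δ => ⨆ A : BSet B, rel F (chk α) A ⊓ mem (chk δ) A
  refine le_iSup_of_le (sb X) ?_
  rw [sub_sb_ck, top_inf_eq]
  unfold stat
  refine le_iInf fun C => ?_
  rw [le_himp_iff]
  have h1 := (isClub_le (K := K) C).trans (hX fun α => mem (chk α) C)
  refine (inf_le_inf_left _ h1).trans ?_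
  rw [inf_iSup_eq, ex_ck (Ext.inf (Ext.mem_left C) (Ext_guess _ _))]
  refine iSup_mono fun α => le_inf (inf_le_right.trans inf_le_left) ?_
  exact (inf_le_inf_left _ inf_le_right).trans (guess_of_iff F X α)

end Pool.Agent.LibLs83
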