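import Pool.Agent.LibLs83.BMixVal

/-! Task BInsert: strengthening one member of a system below a condition of the base. -/

namespace Pool.Agent.LibLs83

open Cardinal Set Pool.Agent.LibTk83 Pool.Agent.LibDm83

variable {P W K : Type} [Preorder P] [LinearOrder K] [LinearOrder W] [WellFoundedLT W]
  {dat : W → K → K → Bool → Set (P × RawB P W K)}

/- Let `z τ j = of p₀ ⊓ ⨅ i, ⨅ (_ : i ∈ u ∧ i ≤ j), ((σ₀ i ⇨ τ i) ⊓ (τ i ⇨ σ₀ i))` (so `p ∈ z τ j` iff
`p ∈ of p₀` and `Agr p (σ₀ i) (τ i)` for all `i ∈ u`, `i ≤ j`), `zs = of p₀` and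
`S' τ = mixB zs (z τ) q (S τ)`.

`MixH`: all `p ∈ of p₀` satisfy `FLe p q (S σ₀)` (`FLe.of_dense`); for `p ∈ z τ i`, `EqOn (Iic i) p (S σ₀)
(S τ)` by `coh`. `ValB_mixB`, `mixB_le`, `mixB_res` (for `τ = σ₀`, `X = univ`). `coh`: `mixB_congr`; for
`j ∈ X` the truth values `z τ j` and `z τ' j` agree below `p`. `mark`: for `i ∈ u`:
`(z ⊓ q.a i (m i)) ⊔ (zᶜ ⊓ τ i) = τ i`, as `q.a i (m i)`, `σ₀ i`, `τ i` agree below the elements of
`z τ i`. -/
/-- The truth value of: `σ₀`, `τ` agree on the members of `u` up to `j`, below `p₀`. -/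
noncomputable def BInsert_z (u : Set W) (p₀ : P) (σ₀ τ : W → RO P) (j : W) : RO P :=
  RO.of p₀ ⊓ ⨅ i, ⨅ (_ : i ∈ u ∧ i ≤ j), ((σ₀ i ⇨ τ i) ⊓ (τ i ⇨ σ₀ i))

omit [LinearOrder K] [WellFoundedLT W] in
theorem BInsert_mem {u : Set W} {p₀ : P} {σ₀ τ : W → RO P} {j : W} {p : P} :
    p ∈ BInsert_z u p₀ σ₀ τ j ↔ p ∈ RO.of p₀ ∧ ∀ i ∈ u, i ≤ j → Agr p (σ₀ i) (τ i) := by
  unfold BInsert_z
  rw [RO.mem_inf, RO.mem_iInf]
  refine and_congr_right fun _ => forall_congr' fun i => ?_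
  rw [RO.mem_iInf]
  constructor
  · intro h hi hij
    have h1 := h ⟨hi, hij⟩
    rw [RO.mem_inf, RO.mem_himp, RO.mem_himp] at h1
    exact fun r hr => ⟨h1.1 r hr, h1.2 r hr⟩
  · intro h h'
    rw [RO.mem_inf, RO.mem_himp, RO.mem_himp]
    exact ⟨fun r hr => (h h'.1 h'.2 r hr).1, fun r hr => (h h'.1 h'.2 r hr).2⟩

theorem insert_sysB (hK : Inac K) {u d : Set W} {m : W → K} {H : K}
    {S : (W → RO P) → RawB P W K} (h : SysB dat u d m H S) (σ₀ : W → RO P) {q : RawB P W K}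
    (hq : ValB dat q) {p₀ : P} (hle : FLe p₀ q (S σ₀)) :
    ∃ S', SysB dat u q.dom m q.h S' ∧ (∀ σ, GLe (S' σ) (S σ)) ∧ FLe p₀ (S' σ₀) q := by
  have hdq : d ⊆ q.dom := by
    have h1 := hle.dom
    rwa [h.dom_eq] at h1
  have hHq : H ≤ q.h := by
    have h1 := hle.h
    rwa [h.h_eq] at h1
  have hofle : ∀ p ∈ RO.of p₀, FLe p q (S σ₀) := by
    intro p hp
    refine FLe.of_dense fun p' hp' => ?_
    obtain ⟨s, hs, hs'⟩ := RO.mem_of.1 hp p' hp'
    exact ⟨s, hs, hle.mono hs'⟩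
  have hcoh : ∀ τ i, ∀ p ∈ BInsert_z u p₀ σ₀ τ i, EqOn (Iic i) p (S σ₀) (S τ) := by
    intro τ i p hp
    rw [BInsert_mem] at hp
    exact h.coh (Iic i) (isLowerSet_Iic i) σ₀ τ p (fun i' hi' hi'X => hp.2 i' hi' hi'X)
  have hmix : ∀ τ, MixH (RO.of p₀) (BInsert_z u p₀ σ₀ τ) q (S τ) := by
    intro τ
    refine ⟨by rw [h.h_eq]; exact hHq, ?_, ?_, ?_, ?_, ?_, ?_⟩
    · intro i j hij p hp
      rw [BInsert_mem] at hp ⊢
      exact ⟨hp.1, fun i' hi' hi'i => hp.2 i' hi' (hi'i.trans hij)⟩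
    · intro i p hp
      rw [BInsert_mem] at hp
      exact hp.1
    · intro p hp x hx
      have h1 := (h.coh ∅ (fun a b _ ha => absurd ha (Set.notMem_empty a)) σ₀ τ p
        (fun i _ hi => absurd hi (Set.notMem_empty i))).1 x
      exact ((hofle p hp).s x (by rw [h.h_eq] at hx ⊢; exact hx)).trans h1
    · intro i hi p _
      rw [h.dom_eq] at hi
      exact hdq hi
    · intro i hi p hp x hx
      have h1 := ((hcoh τ i p hp).2 i (mem_Iic.2 le_rfl) x).1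
      rw [BInsert_mem] at hp
      exact ((hofle p hp.1).a i (by rw [h.dom_eq] at hi ⊢; exact hi) x
        (by rw [h.h_eq] at hx ⊢; exact hx)).trans h1
    · intro i hi p hp x hx
      have h1 := ((hcoh τ i p hp).2 i (mem_Iic.2 le_rfl) x).2
      rw [BInsert_mem] at hp
      exact ((hofle p hp.1).c i (by rw [h.dom_eq] at hi ⊢; exact hi) x
        (by rw [h.h_eq] at hx ⊢; exact hx)).trans h1
  refine ⟨fun τ => mixB (RO.of p₀) (BInsert_z u p₀ σ₀ τ) q (S τ), ?_,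
    fun τ => mixB_le hq.1 (h.val τ).1 (hmix τ), ?_⟩
  · refine ⟨fun τ => ValB_mixB hK hq (h.val τ) (hmix τ), fun τ => rfl, ?_, h.sub.trans hdq, ?_,
      ?_, ?_⟩
    · intro τ
      show q.dom ∪ (S τ).dom = q.dom
      rw [h.dom_eq]
      exact union_eq_self_of_subset_right hdq
    · intro X hX σ τ p hag
      refine mixB_congr (by rw [h.dom_eq, h.dom_eq]) ?_ (h.coh X hX σ τ p hag)
      intro i hi r hr
      rw [BInsert_mem, BInsert_mem]
      refine and_congr_right fun _ => forall_congr' fun i' => forall_congr' fun hi' =>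
        forall_congr' fun hi'i => ?_
      have h1 := (hag i' hi' (hX hi'i hi)).mono hr
      exact ⟨fun h2 => h2.trans h1, fun h2 => h2.trans h1.symm⟩
    · intro i hi
      exact (h.lt i hi).trans_le hHq
    · intro τ i hi
      refine eq_of_agr fun p => ?_
      obtain ⟨p', hp', hz | hz⟩ := decide_mem (BInsert_z u p₀ σ₀ τ i) p
      · refine ⟨p', hp', fun r hr => ?_⟩
        show r ∈ (BInsert_z u p₀ σ₀ τ i ⊓ q.a i (m i)) ⊔ ((BInsert_z u p₀ σ₀ τ i)ᶜ ⊓ (S τ).a i (m i))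
          ↔ r ∈ τ i
        rw [mem_ite_left (RO.mem_of_le hr hz)]
        rw [BInsert_mem] at hz
        have h1 := (hofle p' hz.1).a i (by rw [h.dom_eq]; exact h.sub hi) (m i)
          (by rw [h.h_eq]; exact h.lt i hi) r hr
        rw [h.mark σ₀ i hi] at h1
        exact h1.trans (hz.2 i hi le_rfl r hr)
      · refine ⟨p', hp', fun r hr => ?_⟩
        show r ∈ (BInsert_z u p₀ σ₀ τ i ⊓ q.a i (m i)) ⊔ ((BInsert_z u p₀ σ₀ τ i)ᶜ ⊓ (S τ).a i (m i))
          ↔ r ∈ τ i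
        rw [mem_ite_right (RO.mem_of_le hr hz), h.mark τ i hi]
  · have h1 := (mixB_res (X := univ) hq.1 (h.val σ₀).1 (hmix σ₀) (RO.self_mem_of p₀)
      (fun i _ => BInsert_mem.2 ⟨RO.self_mem_of p₀, fun i' _ _ => Agr.refl p₀ (σ₀ i')⟩)).1
    rw [resB_eq_self (ValB_mixB hK hq (h.val σ₀) (hmix σ₀)).1 (subset_univ _),
      resB_eq_self hq.1 (subset_univ _)] at h1
    exact h1

end Pool.Agent.LibLs83
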