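import Pool.Agent.LibLs83.BNames
import Pool.Agent.LibLs83.BAmal

/-! Task BKill: the forcing relation for the data at a coordinate (as in `LibDm83/Kill.lean`). -/

namespace Pool.Agent.LibLs83

open Cardinal Set Pool.Agent.LibTk83 Pool.Agent.LibDm83

variable {P W K : Type} [Preorder P] [LinearOrder K] [LinearOrder W] [WellFoundedLT W]
  {dat : W → K → K → Bool → Set (P × RawB P W K)}

/-- A condition of the two step iteration as a member of the data. -/
def cd (y : Comp (VQ dat)) : P × RawB P W K := (y.p, y.x.1)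

/- Use `F_iff`. Total: for `p` and `r` with `(Lv dat i).V r` extend `⟨p, r⟩` below a member of some
`Gf b'`; restrict the second component to `Iio i` (`V_resB`, `resB_mono`, `resB_eq_self`). So below
`(z.p, resB (Iio i) z.x)`, for `z ≤ y`, there are `p''` and `t` with `(Lv dat i).V t` below a member
`g` of `Gf b`; and `exists_amal` for `t` and `z.x`. -/
theorem kill_F (hK : Inac K) {i : W} {α δ : K} {Gf : Bool → Set (Comp (VQ dat))}
    (h1 : ∀ b, ∀ g ∈ Gf b, ∀ j ∈ g.x.1.dom, j < i) (h3 : ∀ b, dat i α δ b = cd '' (Gf b))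
    (hd : ∀ y : Comp (VQ dat), ∃ z, z ≤ y ∧ ∃ b, z ∈ RO.gen (Gf b))
    {b : Bool} {y : Comp (VQ dat)} {q : RawB P W K} (hV : (Lv dat i).V q)
    (hq : FLe y.p y.x.1 q) (h : (Lv dat i).F α δ b y.p q) : y ∈ RO.gen (Gf b) := by
  rw [F_iff] at h
  have htot : ∀ p r, (Lv dat i).V r → ∃ p' ≤ p, ∃ t, (Lv dat i).V t ∧ FLe p' t r ∧
      ∃ b', ∃ g ∈ dat i α δ b', p' ≤ g.1 ∧ FLe p' t g.2 := by
    intro p r hr
    have hr' := V_iff.1 hr
    obtain ⟨z1, hz1, b', hb'⟩ := hd ⟨p, ⟨r, hr'.1⟩⟩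
    obtain ⟨w, hw, s, hs, hws⟩ := RO.mem_gen.1 hb' z1 le_rfl
    have e1 : resB (Iio i) r = r := resB_eq_self hr'.1.1 fun j hj => hr'.2 j hj
    have e2 : resB (Iio i) s.x.1 = s.x.1 := resB_eq_self s.x.2.1 fun j hj => h1 b' s hs j hj
    have h2 : w.p ≤ p ∧ FLe w.p w.x.1 r := Comp.le_iff.1 (hw.trans hz1)
    have h4 : w.p ≤ s.p ∧ FLe w.p w.x.1 s.x.1 := Comp.le_iff.1 hws
    refine ⟨w.p, h2.1, resB (Iio i) w.x.1, V_resB w.x.2, ?_, b', cd s, ?_, h4.1, ?_⟩
    · have h5 := resB_mono (Iio i) h2.2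
      rwa [e1] at h5
    · rw [h3]
      exact ⟨s, hs, rfl⟩
    · have h5 := resB_mono (Iio i) h4.2
      rwa [e2] at h5
  have h' := h htot
  have hV' := V_iff.1 hV
  have e3 : resB (Iio i) q = q := resB_eq_self hV'.1.1 fun j hj => hV'.2 j hj
  rw [RO.mem_gen]
  intro z hz
  have hz' : z.p ≤ y.p ∧ FLe z.p z.x.1 y.x.1 := Comp.le_iff.1 hz
  have h6 := resB_mono (Iio i) (hz'.2.trans (hq.mono hz'.1))
  rw [e3] at h6
  obtain ⟨p'', hp'', t, ht, htz, g, hg, hpg, htg⟩ := h' z.p hz'.1 _ (V_resB z.x.2) h6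
  rw [h3] at hg
  obtain ⟨s, hs, rfl⟩ := hg
  obtain ⟨q', hq', hq'z, hq't⟩ := exists_amal hK ht z.x.2 htz
  refine ⟨⟨p'', ⟨q', hq'⟩⟩, ?_, s, hs, ?_⟩
  · exact Comp.le_iff.2 ⟨hp'', hq'z p''⟩
  · exact Comp.le_iff.2 ⟨hpg, hq't.trans htg⟩

theorem kill_dense (b : RO (Comp (VQ dat))) (y : Comp (VQ dat)) :
    ∃ z, z ≤ y ∧ (z ∈ b ∨ z ∈ bᶜ) := by
  by_cases h : ∃ r, r ≤ y ∧ r ∈ b
  · obtain ⟨r, hr, hrb⟩ := h
    exact ⟨r, hr, Or.inl hrb⟩
  · push Not at h
    exact ⟨y, le_rfl, Or.inr h⟩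

private theorem BKill_F' (hK : Inac K) {i : W} {α δ : K} {b : RO (Comp (VQ dat))}
    {G G' : Set (Comp (VQ dat))}
    (h1 : ∀ g ∈ G, ∀ j ∈ g.x.1.dom, j < i) (h1' : ∀ g ∈ G', ∀ j ∈ g.x.1.dom, j < i)
    (h2 : RO.gen G = b) (h2' : RO.gen G' = bᶜ)
    (h3 : dat i α δ true = cd '' G) (h3' : dat i α δ false = cd '' G')
    {y : Comp (VQ dat)} {q : RawB P W K} (hV : (Lv dat i).V q)
    (hq : FLe y.p y.x.1 q) {β : Bool} (h : (Lv dat i).F α δ β y.p q) :
    y ∈ RO.gen (if β = true then G else G') := by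
  refine kill_F (Gf := fun β => if β = true then G else G') hK ?_ ?_ ?_ hV hq h
  · intro b g hg
    cases b
    · exact h1' g (by simpa using hg)
    · exact h1 g (by simpa using hg)
  · intro b
    cases b
    · simpa using h3'
    · simpa using h3
  · intro q
    obtain ⟨r, hr, hrb⟩ := kill_dense b q
    rcases hrb with hrb | hrb
    · refine ⟨r, hr, true, ?_⟩
      have : RO.gen (if (true : Bool) = true then G else G') = b := by simpa using h2
      rw [this]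
      exact hrb
    · refine ⟨r, hr, false, ?_⟩
      have : RO.gen (if (false : Bool) = true then G else G') = bᶜ := by simpa using h2'
      rw [this]
      exact hrb

/-- Suppose that `dat i α δ true` and `dat i α δ false` are sets of conditions with coordinates below
`i` which generate `b` and its complement. Then the forcing relation has the right meaning. -/
theorem F_true (hK : Inac K) {i : W} {α δ : K} {b : RO (Comp (VQ dat))}
    {G G' : Set (Comp (VQ dat))}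
    (h1 : ∀ g ∈ G, ∀ j ∈ g.x.1.dom, j < i) (h1' : ∀ g ∈ G', ∀ j ∈ g.x.1.dom, j < i)
    (h2 : RO.gen G = b) (h2' : RO.gen G' = bᶜ)
    (h3 : dat i α δ true = cd '' G) (h3' : dat i α δ false = cd '' G')
    {y : Comp (VQ dat)} {q : RawB P W K} (hV : (Lv dat i).V q)
    (hq : FLe y.p y.x.1 q) (h : (Lv dat i).F α δ true y.p q) : y ∈ b := by
  have h4 := BKill_F' hK h1 h1' h2 h2' h3 h3' hV hq h
  rw [if_pos rfl, h2] at h4
  exact h4

theorem F_false (hK : Inac K) {i : W} {α δ : K} {b : RO (Comp (VQ dat))}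
    {G G' : Set (Comp (VQ dat))}
    (h1 : ∀ g ∈ G, ∀ j ∈ g.x.1.dom, j < i) (h1' : ∀ g ∈ G', ∀ j ∈ g.x.1.dom, j < i)
    (h2 : RO.gen G = b) (h2' : RO.gen G' = bᶜ)
    (h3 : dat i α δ true = cd '' G) (h3' : dat i α δ false = cd '' G')
    {y : Comp (VQ dat)} {q : RawB P W K} (hV : (Lv dat i).V q)
    (hq : FLe y.p y.x.1 q) (h : (Lv dat i).F α δ false y.p q) : y ∈ bᶜ := by
  have h4 := BKill_F' hK h1 h1' h2 h2' h3 h3' hV hq h
  rw [if_neg Bool.false_ne_true, h2'] at h4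
  exact h4

end Pool.Agent.LibLs83
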