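import Pool.Agent.LibLs83.BKill
import Pool.Agent.LibLs83.BCC
import Pool.Agent.LibLs83.BBook
import Pool.Agent.LibDm83.GenB
import Pool.Agent.LibDm83.Kill

/-! Task BKill2: all sequences are considered (as in `LibDm83/Kill.lean`). -/

namespace Pool.Agent.LibLs83

open Cardinal Set Pool.Agent.LibTk83 Pool.Agent.LibDm83

variable {P W K : Type} [Preorder P] [LinearOrder K] [LinearOrder W] [WellFoundedLT W]
  [WellFoundedLT K] {dat : W → K → K → Bool → Set (P × RawB P W K)}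

/- `exists_gen` (in `LibDm83/GenB.lean`) and `chainCondB` give generators of `x α δ` and of its
complement; the domains of all of these are bounded in `W` (`Kill_card`, `Len.bdd`), so there is `i`
above all of them with `dat i = ν` (`hdat`).

Let `y ∈ cN i α ⊓ sN α` and `z ≤ y`. The requirement at `i` for `z.x`, applied to `z.p` and
`resB (Iio i) z.x`, gives `p' ≤ z.p`, `r'`, `δ < α` and `b`. By `exists_amal` there is `q'` below `z.x`
which `p'` forces to be below `r'`. The condition `⟨p', q'⟩` is in the set on the right: `F_true` or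
`F_false`, and `p' ∈ bitB b (z.x.a i δ)`, which agrees with `q'.a i δ` as `δ < α < z.x.h`. -/
theorem kill_auxB (hK : Inac K) (hb : Base P K) (hW : Len W K)
    (hdat : ∀ ν : K → K → Bool → Set (P × RawB P W K), (∀ α δ b, #(ν α δ b) ≤ #K) →
      (∀ α δ b, ∀ g ∈ ν α δ b, WFB g.2) → ∀ w, ∃ j, w < j ∧ dat j = ν)
    (x : K → K → RO (Comp (VQ dat))) : ∃ i, ∀ α, cN hK dat i α ⊓ sN hK dat α ≤
      ⨆ δ, ⨆ (_ : δ < α), (aN hK dat i δ ⊓ (x α δ)ᶜ) ⊔ ((aN hK dat i δ)ᶜ ⊓ x α δ) := by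
  have hcc : ChainCond #K (Comp (VQ dat)) := chainCondB hK hb
  choose G hGc _ hGg using fun α δ => exists_gen hcc (x α δ)
  choose G' hGc' _ hGg' using fun α δ => exists_gen hcc (x α δ)ᶜ
  let Gf : K × K × Bool → Set (Comp (VQ dat)) :=
    fun p => if p.2.2 = true then G p.1 p.2.1 else G' p.1 p.2.1
  have hGf : ∀ p, #(Gf p) ≤ #K := by
    rintro ⟨α, δ, b⟩
    cases b
    · exact hGc' α δ
    · exact hGc α δ
  obtain ⟨w, hw⟩ := hW.bdd _ (Kill_card hK (fun g : Comp (VQ dat) => g.x.1.dom) Gf hGf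
    fun g => g.x.2.1.small.le)
  let ν : K → K → Bool → Set (P × RawB P W K) := fun α δ b => cd '' (Gf (α, δ, b))
  obtain ⟨i, hwi, hi⟩ := hdat ν (fun α δ b => mk_image_le.trans (hGf (α, δ, b))) (by
    rintro α δ b _ ⟨g, _, rfl⟩
    exact g.x.2.1) w
  have hdom : ∀ p, ∀ g ∈ Gf p, ∀ j ∈ g.x.1.dom, j < i := by
    intro p g hg j hj
    refine (hw j ?_).trans hwi
    exact mem_iUnion.2 ⟨⟨g, mem_iUnion.2 ⟨p, hg⟩⟩, hj⟩
  refine ⟨i, fun α => ?_⟩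
  intro y hy
  rw [RO.mem_inf] at hy
  obtain ⟨hyc, hys⟩ := hy
  refine RO.mem_of_dense fun z hz => ?_
  have hzc : z.p ∈ z.x.1.c i α := cB_lower hz hyc
  have hzs : z.p ∈ z.x.1.s α := sB_lower hz hys
  have hzi : i ∈ z.x.1.dom := z.x.2.1.c_dom i α z.p hzc
  have hαh : α < z.x.1.h := z.x.2.1.s_lt α z.p hzs
  obtain ⟨p', hp', r', hr', hr'z, δ, hδ, b, hb', hF⟩ := z.x.2.2 i hzi α z.p hzc hzs
    (resB (Iio i) z.x.1) (V_resB z.x.2) (FLe.refl _ _)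
  obtain ⟨q', hq'v, hq'z, hq'r⟩ := exists_amal hK hr' z.x.2 hr'z
  let w' : Comp (VQ dat) := ⟨p', ⟨q', hq'v⟩⟩
  have hw' : w' ≤ z := Comp.le_iff.2 ⟨hp', hq'z p'⟩
  have e1 : ∀ g ∈ G α δ, ∀ j ∈ g.x.1.dom, j < i := fun g hg => hdom (α, δ, true) g hg
  have e2 : ∀ g ∈ G' α δ, ∀ j ∈ g.x.1.dom, j < i := fun g hg => hdom (α, δ, false) g hg
  have e3 : dat i α δ true = cd '' (G α δ) := by rw [hi]; rfl
  have e4 : dat i α δ false = cd '' (G' α δ) := by rw [hi]; rfl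
  have hag : ∀ v : Comp (VQ dat), v ≤ z → Agr v.p (v.x.1.a i δ) (z.x.1.a i δ) := by
    intro v hv
    have h1 : FLe v.p v.x.1 z.x.1 := (Comp.le_iff.1 hv).2
    exact h1.a i hzi δ (hδ.trans hαh)
  have key : w' ∈ (aN hK dat i δ ⊓ (x α δ)ᶜ) ⊔ ((aN hK dat i δ)ᶜ ⊓ x α δ) := by
    cases b
    · have hm : p' ∈ z.x.1.a i δ := hb'
      have h5 : w' ∈ (x α δ)ᶜ := F_false hK e1 e2 (hGg α δ) (hGg' α δ) e3 e4 hr' hq'r hF
      have h4 : w' ∈ aN hK dat i δ := (hag w' hw' p' le_rfl).2 hm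
      exact (le_sup_left (a := aN hK dat i δ ⊓ (x α δ)ᶜ)) (RO.mem_inf.2 ⟨h4, h5⟩)
    · have hm : p' ∈ (z.x.1.a i δ)ᶜ := hb'
      have h5 : w' ∈ x α δ := F_true hK e1 e2 (hGg α δ) (hGg' α δ) e3 e4 hr' hq'r hF
      have h4 : w' ∈ (aN hK dat i δ)ᶜ := by
        rw [RO.mem_compl]
        intro v hv hva
        have h6 : v.p ∈ z.x.1.a i δ := (hag v (hv.trans hw') v.p le_rfl).1 hva
        have h7 : v.p ∈ (z.x.1.a i δ)ᶜ := RO.mem_of_le (Comp.le_iff.1 hv).1 hm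
        exact not_mem_compl h6 h7
      exact (le_sup_right (b := (aN hK dat i δ)ᶜ ⊓ x α δ)) (RO.mem_inf.2 ⟨h4, h5⟩)
  exact ⟨w', hw', (le_iSup₂_of_le (f := fun δ (_ : δ < α) =>
    (aN hK dat i δ ⊓ (x α δ)ᶜ) ⊔ ((aN hK dat i δ)ᶜ ⊓ x α δ)) δ hδ le_rfl) key⟩

end Pool.Agent.LibLs83
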