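import Pool.Agent.LibLs83.BLimW

/-! Task BLim: limits of directed families are valid. -/

namespace Pool.Agent.LibLs83

open Cardinal Set Pool.Agent.LibTk83 Pool.Agent.LibDm83

variable {P W K I : Type} [Preorder P] [LinearOrder K] {y : I → RawB P W K} {e : I → RO P} {H : K}

variable [LinearOrder W] [WellFoundedLT W] {dat : W → K → K → Bool → Set (P × RawB P W K)}

/- `OkB_of_dense`: let `p` force `α ∈ C j ∩ S` in the limit. Extend `p` to `p ∈ e l`, with
`p ∈ (y l).s α`; so `α < (y l).h ≤ H`. If `p` is in the first part of `limB.c`, `p ∈ e k`,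
`p ∈ (y k).c j α`, take a member `m` below `k` and `l` and compare the limit with `y m` (`limB_le`). If
`p` is in the third part then `p ∈ e k` for some `k` with `j ∈ (y k).dom` (extend `p`); a member `m`
below `k` and `l` has the coordinate `j` and height larger than `α`, so `α` is covered:
contradiction. -/
theorem ValB_limB (hK : Inac K) (hI : #I < #K) (hy : ∀ k, ValB dat (y k)) (hd : DirB y e)
    (hH : ∀ k, (y k).h ≤ H) : ValB dat (limB H y e) := by
  have hw : ∀ k, WFB (y k) := fun k => (hy k).1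
  refine ⟨WFB_limB hK hI hw hd hH, fun j _ => OkB_of_dense fun α p hpc hps => ?_⟩
  obtain ⟨p1, hp1, l, hl⟩ := exists_of_mem_iSup hps
  rw [RO.mem_inf] at hl
  obtain ⟨hel, hsl⟩ := hl
  have hαl : α < (y l).h := (hw l).s_lt α p1 hsl
  have hpc1 : p1 ∈ (limB H y e).c j α := RO.mem_of_le hp1 hpc
  -- the common part
  have key : ∀ (p3 : P), p3 ≤ p1 → ∀ (k : I), p3 ∈ e k → j ∈ (y k).dom →
      ∃ p4 ≤ p3, ∃ m, p4 ∈ e m ∧ FLe p4 (y m) (y k) ∧ FLe p4 (y m) (y l) ∧ j ∈ (y m).dom ∧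
        p4 ∈ (y m).s α := by
    intro p3 hp3 k hek hjk
    obtain ⟨p4, hp4, m, hem, hmk, hml⟩ := hd k l p3 hek (RO.mem_of_le hp3 hel)
    refine ⟨p4, hp4, m, hem, hmk, hml, hmk.dom hjk, ?_⟩
    exact (hml.s α hαl.le p4 le_rfl).2 (RO.mem_of_le (hp4.trans hp3) hsl)
  obtain ⟨p2, hp2, h2⟩ := exists_of_mem_sup hpc1
  rcases h2 with h2 | h2
  · obtain ⟨p2', hp2', h2'⟩ := exists_of_mem_sup h2
    rcases h2' with h2' | h2'
    · obtain ⟨p3, hp3, k, hk⟩ := exists_of_mem_iSup h2'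
      rw [RO.mem_inf] at hk
      obtain ⟨hek, hck⟩ := hk
      have hjk : j ∈ (y k).dom := (hw k).c_dom j α p3 hck
      obtain ⟨p4, hp4, m, hem, hmk, hml, hjm, hsm⟩ :=
        key p3 (hp3.trans (hp2'.trans hp2)) k hek hjk
      have hle := limB_le hw hd hH hem
      refine ⟨p4, hp4.trans (hp3.trans (hp2'.trans (hp2.trans hp1))), y m, (hy m).2 j hjm, ?_, hsm,
        resB_mono _ hle, fun δ hδ => hle.a j hjm δ (hδ.trans ((hw m).s_lt α p4 hsm))⟩
      exact (hmk.c j hjk α ((hw k).c_le j α p3 hck) p4 le_rfl).2 (RO.mem_of_le hp4 hck)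
    · rw [mem_when] at h2'
      exact absurd h2'.1.1 (hαl.trans_le (hH l)).ne
  · rw [mem_when, RO.mem_inf] at h2
    obtain ⟨-, hX, hY⟩ := h2
    obtain ⟨p3, hp3, k, hk⟩ := exists_of_mem_iSup hX
    rw [mem_when] at hk
    obtain ⟨hjk, hek⟩ := hk
    obtain ⟨p4, hp4, m, hem, hmk, hml, hjm, hsm⟩ := key p3 (hp3.trans hp2) k hek hjk
    refine absurd (RO.mem_of_le (hp4.trans hp3) hY) (not_mem_compl ?_)
    refine mem_iSup_of m ?_
    rw [mem_when]
    exact ⟨⟨hjm, hαl.le.trans hml.h⟩, hem⟩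

end Pool.Agent.LibLs83
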