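import Pool.Agent.LibLs83.BFo

/-! Task BLimA: limits of directed families. -/

namespace Pool.Agent.LibLs83

open Cardinal Set Pool.Agent.LibTk83 Pool.Agent.LibDm83

variable {P W K I : Type} [Preorder P] [LinearOrder K] {y : I → RawB P W K} {e : I → RO P} {H : K}

/-- Below `p ∈ e k` the limit agrees with `y k` up to the height of `y k`.

For `c`: let `p ∈ e k`, `i ∈ (y k).dom`, `x ≤ (y k).h`. Then the third part of `limB.c` is false below
`p`, as `x` is covered by `k`; if `x = H` then `x = (y k).h` is in `(y k).c i` (`top_c`). -/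
theorem limB_le (hy : ∀ k, WFB (y k)) (hd : DirB y e) (hH : ∀ k, (y k).h ≤ H) {k : I} {p : P}
    (hp : p ∈ e k) : FLe p (limB H y e) (y k) := by
  refine ⟨hH k, fun i hi => ⟨k, hi⟩, ?_, ?_, ?_⟩
  · intro x hx r hr
    constructor
    · intro h1
      refine RO.mem_of_dense fun r1 hr1 => ?_
      obtain ⟨r2, hr2, l, hl⟩ := exists_of_mem_iSup (RO.mem_of_le hr1 h1)
      have h2 := RO.mem_inf.1 hl
      obtain ⟨r3, hr3, j, -, hjk, hjl⟩ :=
        hd k l r2 (RO.mem_of_le ((hr2.trans hr1).trans hr) hp) h2.1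
      have h3 : r3 ∈ (y j).s x :=
        (hjl.s x ((hy l).s_lt x r2 h2.2).le r3 le_rfl).2 (RO.mem_of_le hr3 h2.2)
      exact ⟨r3, hr3.trans hr2, (hjk.s x hx r3 le_rfl).1 h3⟩
    · intro h1
      exact mem_iSup_of k (RO.mem_inf.2 ⟨RO.mem_of_le hr hp, h1⟩)
  · intro i hi x hx r hr
    constructor
    · intro h1
      refine RO.mem_of_dense fun r1 hr1 => ?_
      obtain ⟨r2, hr2, l, hl⟩ := exists_of_mem_iSup (RO.mem_of_le hr1 h1)
      have h2 := RO.mem_inf.1 hl
      obtain ⟨r3, hr3, j, -, hjk, hjl⟩ :=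
        hd k l r2 (RO.mem_of_le ((hr2.trans hr1).trans hr) hp) h2.1
      have h3 : r3 ∈ (y j).a i x :=
        (hjl.a i ((hy l).a_dom i x r2 h2.2) x ((hy l).a_lt i x r2 h2.2) r3 le_rfl).2
          (RO.mem_of_le hr3 h2.2)
      exact ⟨r3, hr3.trans hr2, (hjk.a i hi x hx r3 le_rfl).1 h3⟩
    · intro h1
      exact mem_iSup_of k (RO.mem_inf.2 ⟨RO.mem_of_le hr hp, h1⟩)
  · intro i hi x hx r hr
    constructor
    · intro h1
      refine RO.mem_of_dense fun r0 hr0 => ?_
      obtain ⟨r1, hr1, h1' | h1'⟩ := exists_of_mem_sup (RO.mem_of_le hr0 h1)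
      · obtain ⟨r1', hr1', h1'' | h1''⟩ := exists_of_mem_sup h1'
        · obtain ⟨r2, hr2, l, hl⟩ := exists_of_mem_iSup h1''
          have h2 := RO.mem_inf.1 hl
          obtain ⟨r3, hr3, j, -, hjk, hjl⟩ :=
            hd k l r2 (RO.mem_of_le ((((hr2.trans hr1').trans hr1).trans hr0).trans hr) hp) h2.1
          have h3 : r3 ∈ (y j).c i x :=
            (hjl.c i ((hy l).c_dom i x r2 h2.2) x ((hy l).c_le i x r2 h2.2) r3 le_rfl).2
              (RO.mem_of_le hr3 h2.2)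
          exact ⟨r3, ((hr3.trans hr2).trans hr1').trans hr1, (hjk.c i hi x hx r3 le_rfl).1 h3⟩
        · have h2 : x = (y k).h := le_antisymm hx (h1''.1.1 ▸ hH k)
          refine ⟨r1, hr1, ?_⟩
          rw [h2, (hy k).top_c i hi]
          exact RO.mem_top
      · have h2 := RO.mem_inf.1 h1'.2
        refine absurd ?_ (RO.mem_compl.1 h2.2 r1 le_rfl)
        exact mem_iSup_of k ⟨⟨hi, hx⟩, RO.mem_of_le ((hr1.trans hr0).trans hr) hp⟩
    · intro h1
      exact mem_sup_of_left (mem_sup_of_left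
        (mem_iSup_of k (RO.mem_inf.2 ⟨RO.mem_of_le hr hp, h1⟩)))

theorem limB_congr {y' : I → RawB P W K} {X : Set W} {p : P} (hh : ∀ k, (y k).h = (y' k).h)
    (hd : ∀ k, (y k).dom = (y' k).dom) (he : ∀ k, EqOn X p (y k) (y' k)) :
    EqOn X p (limB H y e) (limB H y' e) := by
  refine ⟨fun x => ?_, fun i hi x => ⟨?_, ?_⟩⟩
  · exact Agr.iSup fun k => Agr.inf (Agr.refl p _) ((he k).1 x)
  · exact Agr.iSup fun k => Agr.inf (Agr.refl p _) ((he k).2 i hi x).1
  · simp only [limB, hd, hh]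
    exact Agr.sup (Agr.sup (Agr.iSup fun k => Agr.inf (Agr.refl p _) ((he k).2 i hi x).2)
      (Agr.refl p _)) (Agr.refl p _)

end Pool.Agent.LibLs83
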