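import Pool.Agent.LibLs83.BLimA

/-! Task BLimW: limits of directed families are well-formed. -/

namespace Pool.Agent.LibLs83

open Cardinal Set Pool.Agent.LibTk83 Pool.Agent.LibDm83

variable {P W K I : Type} [Preorder P] [LinearOrder K] {y : I → RawB P W K} {e : I → RO P} {H : K}

/-- the three parts of `limB.c` -/
private theorem BLimW_c {i : W} {x : K} {p : P} (h : p ∈ (limB H y e).c i x) :
    ∃ p' ≤ p, (∃ k, p' ∈ e k ∧ p' ∈ (y k).c i x) ∨ (x = H ∧ ∃ k, i ∈ (y k).dom) ∨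
      (x ≤ H ∧ p' ∈ (⨆ k, when (i ∈ (y k).dom) (e k)) ∧
        p' ∈ (⨆ k, when (i ∈ (y k).dom ∧ x ≤ (y k).h) (e k))ᶜ) := by
  obtain ⟨p1, hp1, h1⟩ := exists_of_mem_sup h
  rcases h1 with h1 | h1
  · obtain ⟨p2, hp2, h2⟩ := exists_of_mem_sup h1
    rcases h2 with h2 | h2
    · obtain ⟨p3, hp3, k, h3⟩ := exists_of_mem_iSup h2
      exact ⟨p3, hp3.trans (hp2.trans hp1), Or.inl ⟨k, RO.mem_inf.1 h3⟩⟩
    · exact ⟨p2, hp2.trans hp1, Or.inr (Or.inl (mem_when.1 h2).1)⟩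
  · obtain ⟨h2, h3⟩ := mem_when.1 h1
    exact ⟨p1, hp1, Or.inr (Or.inr ⟨h2, RO.mem_inf.1 h3⟩)⟩

private theorem BLimW_k {i : W} {p : P} (h : p ∈ (⨆ k, when (i ∈ (y k).dom) (e k))) :
    ∃ k, i ∈ (y k).dom := by
  obtain ⟨p', -, k, hk⟩ := exists_of_mem_iSup h
  exact ⟨k, (mem_when.1 hk).1⟩

/- `Clo`: let `γ` be forced to be a limit of points of `c i`, `γ < H`. Extend `p` to decide whether the
coordinate `i` is present (second line of `limB.c`): if not then there are no points of `c i` below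
`H`. If it is present and `γ` is not covered then `γ` is in `c i` by definition. If `γ` is covered by
`k` (and `p ∈ e k`) then `limB_le` and the closedness of `(y k).c i`. -/
theorem WFB_limB (hK : Inac K) (hI : #I < #K) (hy : ∀ k, WFB (y k)) (hd : DirB y e)
    (hH : ∀ k, (y k).h ≤ H) : WFB (limB H y e) where
  small := by
    have h1 := hK.sum I (fun k => ((y k).dom : Set W)) hI (fun k => (hy k).small)
    refine lt_of_le_of_lt ?_ h1
    refine Cardinal.mk_le_of_surjective (f := fun x : (Σ k, ((y k).dom : Set W)) =>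
      (⟨x.2.1, ⟨x.1, x.2.2⟩⟩ : (limB H y e).dom)) ?_
    rintro ⟨i, k, hk⟩
    exact ⟨⟨k, ⟨i, hk⟩⟩, rfl⟩
  s_lt := by
    intro x p hp
    obtain ⟨p', -, k, hk⟩ := exists_of_mem_iSup hp
    exact ((hy k).s_lt x p' (RO.mem_inf.1 hk).2).trans_le (hH k)
  s_cof := by
    intro x p hp
    obtain ⟨p', -, k, hk⟩ := exists_of_mem_iSup hp
    exact (hy k).s_cof x p' (RO.mem_inf.1 hk).2
  a_lt := by
    intro i x p hp
    obtain ⟨p', -, k, hk⟩ := exists_of_mem_iSup hp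
    exact ((hy k).a_lt i x p' (RO.mem_inf.1 hk).2).trans_le (hH k)
  c_le := by
    intro i x p hp
    obtain ⟨p', -, ⟨k, -, hk⟩ | ⟨h, -⟩ | ⟨h, -⟩⟩ := BLimW_c hp
    · exact ((hy k).c_le i x p' hk).trans (hH k)
    · exact h.le
    · exact h
  a_dom := by
    intro i x p hp
    obtain ⟨p', -, k, hk⟩ := exists_of_mem_iSup hp
    exact ⟨k, (hy k).a_dom i x p' (RO.mem_inf.1 hk).2⟩
  c_dom := by
    intro i x p hp
    obtain ⟨p', -, ⟨k, -, hk⟩ | ⟨-, h⟩ | ⟨-, h, -⟩⟩ := BLimW_c hp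
    · exact ⟨k, (hy k).c_dom i x p' hk⟩
    · exact h
    · exact BLimW_k h
  top_c := by
    intro i hi
    exact RO.ext fun p => ⟨fun _ => RO.mem_top, fun _ =>
      mem_sup_of_left (mem_sup_of_right (mem_when.2 ⟨⟨rfl, hi⟩, RO.mem_top⟩))⟩
  clo := by
    intro i hi g hg hb p hlim
    have hg' : g ≤ H := hg
    rcases eq_or_lt_of_le hg' with rfl | hlt
    · exact mem_sup_of_left (mem_sup_of_right (mem_when.2 ⟨⟨rfl, hi⟩, RO.mem_top⟩))
    refine RO.mem_of_dense fun q hq => ?_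
    obtain ⟨p1, hp1, h1 | h1⟩ := decide_mem (⨆ k, when (i ∈ (y k).dom) (e k)) q
    · obtain ⟨p2, hp2, h2 | h2⟩ :=
        decide_mem (⨆ k, when (i ∈ (y k).dom ∧ g ≤ (y k).h) (e k)) p1
      · obtain ⟨p3, hp3, k, hk⟩ := exists_of_mem_iSup h2
        obtain ⟨⟨hik, hgk⟩, hek⟩ := mem_when.1 hk
        have h3 : p3 ≤ p := hp3.trans (hp2.trans (hp1.trans hq))
        refine ⟨p3, hp3.trans (hp2.trans hp1), ?_⟩
        have h4 : p3 ∈ (y k).c i g := by
          refine (hy k).clo i hik g hgk hb p3 fun b hbg p' hp' => ?_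
          obtain ⟨p'', hp'', x, hbx, hxg, hx⟩ := hlim b hbg p' (hp'.trans h3)
          have h5 : p'' ∈ e k := RO.mem_of_le (hp''.trans hp') hek
          have h6 := (limB_le hy hd hH h5).c i hik x (hxg.le.trans hgk)
          exact ⟨p'', hp'', x, hbx, hxg, (h6 p'' le_rfl).1 hx⟩
        exact mem_sup_of_left (mem_sup_of_left (mem_iSup_of k (RO.mem_inf.2 ⟨hek, h4⟩)))
      · exact ⟨p2, hp2.trans hp1, mem_sup_of_right (mem_when.2 ⟨hg',
          RO.mem_inf.2 ⟨RO.mem_of_le hp2 h1, h2⟩⟩)⟩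
    · exfalso
      obtain ⟨b, hbg⟩ := hb
      obtain ⟨p'', hp'', x, hbx, hxg, hx⟩ := hlim b hbg p1 (hp1.trans hq)
      obtain ⟨p', hp', h⟩ := BLimW_c hx
      have h2 : p' ∈ (⨆ k, when (i ∈ (y k).dom) (e k))ᶜ := RO.mem_of_le (hp'.trans hp'') h1
      rcases h with ⟨k, hek, hk⟩ | ⟨h, -⟩ | ⟨-, h, -⟩
      · exact not_mem_compl (mem_iSup_of k (mem_when.2 ⟨(hy k).c_dom i x p' hk, hek⟩)) h2
      · exact (hxg.trans hlt).ne h
      · exact not_mem_compl h h2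

end Pool.Agent.LibLs83
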