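import Pool.Agent.LibLs83.BExh
import Pool.Agent.LibLs83.BGOrd

/-! Task BReg: functions with fewer than `κ` arguments are bounded in the two step iteration. -/

namespace Pool.Agent.LibLs83

open Cardinal Set Pool.Agent.LibTk83 Pool.Agent.LibDm83

variable {P Θ K : Type} [Preorder P] [LinearOrder K] [WellFoundedLT K] {V : VPre P Θ}

/- Let `(p₀, x₀)` be in the left side. Apply `tasks'` to `GOrd V` with the sets
`D δ = {x | V.le x x₀ = ⊤ → ∀ p ≤ p₀, ∃ p' ≤ p, ∃ β, (p', x) ∈ r δ β}`, or better to the elements below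
`x₀`; the density is `exhaust` for `E p x := p ∈ (RO.of p₀)ᶜ ∨ ∃ β, ⟨p, x⟩ ∈ r δ β`, with `exists_mix`.
Then `exists_bound` gives `b δ` for each `δ < α` and `Inac.bdd` a bound of these. -/
/-- The name underlying an element of `GOrd V`. -/
def BReg_un (V : VPre P Θ) (x : GOrd V) : Θ := x

theorem BReg_le {x x' : GOrd V} : x ≤ x' ↔ V.le (BReg_un V x) (BReg_un V x') = ⊤ := Iff.rfl

theorem BReg_comp {p p' : P} {x x' : GOrd V} (hp : p ≤ p') (h : x ≤ x') :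
    (⟨p, BReg_un V x⟩ : Comp V) ≤ ⟨p', BReg_un V x'⟩ :=
  Comp.le_iff.2 ⟨hp, by
    show p ∈ V.le (BReg_un V x) (BReg_un V x')
    rw [BReg_le.1 h]
    exact RO.mem_top⟩

theorem reg_comp (hK : Inac K) (hb : Base P K) (hV : VClosed #K V) (α : K)
    (r : K → K → RO (Comp V)) :
    ⨅ δ, ⨅ (_ : δ < α), ⨆ β, r δ β ≤ ⨆ b, ⨅ δ, ⨅ (_ : δ < α), ⨆ β, ⨆ (_ : β < b), r δ β := by
  intro y hy
  rw [RO.mem_iSup]
  rintro ⟨p₀, x₁⟩ hz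
  obtain ⟨x₀, hx₀⟩ : ∃ x₀ : GOrd V, BReg_un V x₀ = x₁ := ⟨x₁, rfl⟩
  subst hx₀
  have hz' : ∀ δ, δ < α → ∀ z : Comp V, z ≤ ⟨p₀, BReg_un V x₀⟩ → z ∈ ⨆ β, r δ β := by
    intro δ hδ z hzz
    have h1 := RO.mem_of_le (hzz.trans hz) hy
    rw [RO.mem_iInf] at h1
    have h2 := h1 δ
    rw [RO.mem_iInf] at h2
    exact h2 hδ
  have hS : ∀ C : Set {x : GOrd V // x ≤ x₀}, IsChain (· ≤ ·) C → #C < #K →
      ∃ y, ∀ x ∈ C, y ≤ x := by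
    intro C hC hCκ
    by_cases hne : C.Nonempty
    · obtain ⟨z, hz⟩ := gOrd_closed hV (Subtype.val '' C) (by
        rintro _ ⟨a, ha, rfl⟩ _ ⟨b, hb, rfl⟩ hab
        exact hC ha hb (fun h => hab (congrArg Subtype.val h))) (mk_image_le.trans_lt hCκ)
      obtain ⟨c, hcC⟩ := hne
      refine ⟨⟨z, (hz _ ⟨c, hcC, rfl⟩).trans c.2⟩, fun x hx => hz _ ⟨x, hx, rfl⟩⟩
    · exact ⟨⟨x₀, le_rfl⟩, fun x hx => absurd ⟨x, hx⟩ hne⟩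
  have hdec : ∀ p : P, ∃ p' ≤ p, p' ∈ (RO.of p₀)ᶜ ∨ p' ≤ p₀ := by
    intro p
    by_cases h : ∃ q, q ≤ p ∧ q ∈ RO.of p₀
    · obtain ⟨q, hq, hq'⟩ := h
      obtain ⟨s, hs, hs'⟩ := RO.mem_of.1 hq' q le_rfl
      exact ⟨s, hs.trans hq, Or.inr hs'⟩
    · push Not at h
      exact ⟨p, le_rfl, Or.inl (RO.mem_compl.2 h)⟩
  have hnot : ∀ p, p ≤ p₀ → p ∉ (RO.of p₀)ᶜ := fun p hp hp' =>
    RO.mem_compl.1 hp' p le_rfl (RO.mem_of_le hp (RO.self_mem_of p₀))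
  obtain ⟨y₁, -, hyD⟩ := tasks' (S := {x : GOrd V // x ≤ x₀}) (κ := #K) hK.unc.le hS
    (T := Iio α) (hK.iio α)
    (fun δ => {x | ∀ p ≤ p₀, ∃ p' ≤ p, ∃ β, (⟨p', BReg_un V x.1⟩ : Comp V) ∈ r δ.1 β})
    (by
      rintro δ x hx y hyx p hp
      obtain ⟨p', hp', β, hβ⟩ := hx p hp
      exact ⟨p', hp', β, RO.mem_of_le (BReg_comp le_rfl hyx) hβ⟩)
    (by
      rintro δ x
      obtain ⟨s', hs', hE⟩ := exhaust hK hb.cc hS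
        (fun p s => p ∈ (RO.of p₀)ᶜ ∨ ∃ β, (⟨p, BReg_un V s.1⟩ : Comp V) ∈ r δ.1 β)
        (by
          rintro p s (h | ⟨β, h⟩) p' hp' s' hs'
          · exact Or.inl (RO.mem_of_le hp' h)
          · exact Or.inr ⟨β, RO.mem_of_le (BReg_comp hp' hs') h⟩)
        (by
          rintro p s
          obtain ⟨p', hp', h | h⟩ := hdec p
          · exact ⟨p', hp', s, le_rfl, Or.inl h⟩
          · have h1 := hz' δ.1 δ.2 ⟨p', BReg_un V s.1⟩ (BReg_comp h s.2)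
            rw [RO.mem_iSup] at h1
            obtain ⟨⟨p'', x''⟩, hle, β, hβ⟩ := h1 _ le_rfl
            obtain ⟨hle1, hle2⟩ := Comp.le_iff.1 hle
            obtain ⟨z₁, hzx, hzp⟩ := exists_mix hK.unc.le hV hle2
            obtain ⟨z, hz₀⟩ : ∃ z : GOrd V, BReg_un V z = z₁ := ⟨z₁, rfl⟩
            subst hz₀
            have hzs : z ≤ s.1 := hzx
            refine ⟨p'', hle1.trans hp', ⟨z, hzs.trans s.2⟩, hzs, Or.inr ⟨β, ?_⟩⟩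
            have hle3 : (⟨p'', BReg_un V z⟩ : Comp V) ≤ ⟨p'', x''⟩ := Comp.le_iff.2 ⟨le_rfl, hzp⟩
            exact RO.mem_of_le hle3 hβ) x
      refine ⟨s', hs', fun p hp => ?_⟩
      obtain ⟨p', hp', h | ⟨β, h⟩⟩ := hE p
      · exact absurd h (hnot p' (hp'.trans hp))
      · exact ⟨p', hp', β, h⟩) ⟨x₀, le_rfl⟩
  have hbd : ∀ δ : Iio α, ∃ b, ∀ p, ∃ p' ≤ p, ∃ β < b,
      (p' ∈ (RO.of p₀)ᶜ ∨ (⟨p', BReg_un V y₁.1⟩ : Comp V) ∈ r δ.1 β) := by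
    intro δ
    refine exists_bound hK hb.cc
      (fun p β => p ∈ (RO.of p₀)ᶜ ∨ (⟨p, BReg_un V y₁.1⟩ : Comp V) ∈ r δ.1 β) ?_ ?_
    · rintro p β (h | h) p' hp'
      · exact Or.inl (RO.mem_of_le hp' h)
      · exact Or.inr (RO.mem_of_le (BReg_comp hp' le_rfl) h)
    · intro p
      obtain ⟨p', hp', h | h⟩ := hdec p
      · exact ⟨p', hp', α, Or.inl h⟩
      · obtain ⟨p'', hp'', β, hβ⟩ := hyD δ p' h
        exact ⟨p'', hp''.trans hp', β, Or.inr hβ⟩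
  choose b hbs using hbd
  obtain ⟨B, hB⟩ := hK.bdd (range b) (mk_range_le.trans_lt (hK.iio α))
  refine ⟨⟨p₀, BReg_un V y₁.1⟩, BReg_comp le_rfl y₁.2, B, ?_⟩
  rw [RO.mem_iInf]
  intro δ
  rw [RO.mem_iInf]
  intro hδ
  rw [RO.mem_iSup]
  rintro ⟨p, x₂⟩ hpx
  obtain ⟨x, hx₂⟩ : ∃ x : GOrd V, BReg_un V x = x₂ := ⟨x₂, rfl⟩
  subst hx₂
  obtain ⟨hpx1, hpx2⟩ := Comp.le_iff.1 hpx
  obtain ⟨p', hp', β, hβ, h⟩ := hbs ⟨δ, hδ⟩ p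
  have h' : (⟨p', BReg_un V y₁.1⟩ : Comp V) ∈ r δ β := by
    rcases h with h | h
    · exact absurd h (hnot p' (hp'.trans hpx1))
    · exact h
  refine ⟨⟨p', BReg_un V x⟩, BReg_comp hp' le_rfl, β, ?_⟩
  rw [RO.mem_iSup]
  intro q hq
  refine ⟨q, le_rfl, hβ.trans (hB _ ⟨⟨δ, hδ⟩, rfl⟩), ?_⟩
  have hle4 : (⟨p', BReg_un V x⟩ : Comp V) ≤ ⟨p', BReg_un V y₁.1⟩ :=
    Comp.le_iff.2 ⟨le_rfl, RO.mem_of_le hp' hpx2⟩
  exact RO.mem_of_le (hq.trans hle4) h'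

end Pool.Agent.LibLs83
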