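import Pool.Agent.LibLs83.BPTow
import Pool.Agent.LibLs83.BClosed

/-! Task BPLim: chains of partial conditions. -/

namespace Pool.Agent.LibLs83

open Cardinal Set Pool.Agent.LibTk83 Pool.Agent.LibDm83

variable {P W K : Type} [Preorder P] [LinearOrder K] [LinearOrder W] [WellFoundedLT W]
  {dat : W → K → K → Bool → Set (P × RawB P W K)}
  {E : K → P → RawB P W K → Prop} {q : RawB P W K}

/- As `part_closed` in `LibDm83/PLim.lean`, with `chain_lower` for the limit of the `x.r`. `mem`: the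
limit is below some `x.r`, and `γ < x.r.h`. -/
theorem partB_closed (hK : Inac K) (T : TowB dat E q) {γ : K} (hγ : IsLUB (range T.H) γ)
    (x₀ : PartB T γ) (C : Set (PartB T γ)) (hC : IsChain (· ≤ ·) C) (h : #C < #K) :
    ∃ y, ∀ x ∈ C, y ≤ x := by
  classical
  rcases C.eq_empty_or_nonempty with rfl | hne
  · exact ⟨x₀, fun x hx => absurd hx (Set.notMem_empty x)⟩
  have : Nonempty C := hne.to_subtype
  have : Nonempty K := ⟨γ⟩
  have htot : ∀ x ∈ C, ∀ y ∈ C, x ≤ y ∨ y ≤ x := fun x hx y hy => hC.total hx hy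
  obtain ⟨t, htv, htl, htd⟩ := chain_lower (dat := dat) hK ((fun x : PartB T γ => x.r) '' C)
    (by
      rintro _ ⟨x, -, rfl⟩
      exact x.val)
    (by
      rintro _ ⟨x, hx, rfl⟩ _ ⟨y, hy, rfl⟩
      rcases htot x hx y hy with hle | hle
      · exact Or.inl hle.2.2
      · exact Or.inr hle.2.2)
    (Cardinal.mk_image_le.trans_lt h)
  let f : W → RO P := fun i => if h : ∃ x ∈ C, i ∈ x.v then h.choose.f i else ⊥
  have hf : ∀ x ∈ C, ∀ i ∈ x.v, f i = x.f i := by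
    intro x hx i hi
    have hex : ∃ x ∈ C, i ∈ x.v := ⟨x, hx, hi⟩
    have h1 : f i = hex.choose.f i := dif_pos hex
    rw [h1]
    obtain ⟨hc1, hc2⟩ := hex.choose_spec
    rcases htot _ hc1 x hx with hle | hle
    · exact hle.2.1 i hi
    · exact (hle.2.1 i hc2).symm
  have hlim : ∀ x ∈ C, GLe t x.r := fun x hx => htl _ ⟨x, hx, rfl⟩
  have hinter : ∀ x : PartB T γ, T.U ∩ T.Y x.v = x.v := fun x => T.Y_inter x.sub x.init
  have hsub : (⋃ x ∈ C, x.v) ⊆ T.U := Set.iUnion₂_subset fun x _ => x.sub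
  have hinit : ∀ i ∈ (⋃ x ∈ C, x.v), ∀ j ∈ T.U, j ≤ i → j ∈ (⋃ x ∈ C, x.v) := by
    intro i hi j hj hji
    obtain ⟨x, hx, hix⟩ := Set.mem_iUnion₂.1 hi
    exact Set.mem_iUnion₂.2 ⟨x, hx, x.init i hix j hj hji⟩
  refine ⟨⟨⋃ x ∈ C, x.v, f, t, hsub, hinit, htv, ?_, ?_, ?_⟩, ?_⟩
  · obtain ⟨x, hx⟩ := hne
    refine RO.ext fun p => ⟨fun _ => RO.mem_top, fun _ => ?_⟩
    have h1 : p ∈ x.r.s γ := by
      rw [x.mem]
      exact RO.mem_top
    have h2 : γ < x.r.h := x.val.1.s_lt γ p h1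
    exact ((hlim x hx p).s γ h2.le p le_rfl).2 h1
  · intro i hi
    rw [htd] at hi
    obtain ⟨_, ⟨x, hx, rfl⟩, hix⟩ := Set.mem_iUnion₂.1 hi
    exact T.Y_mono (Set.subset_iUnion₂ (s := fun (x : PartB T γ) (_ : x ∈ C) => x.v) x hx)
      (x.dom hix)
  · intro n p
    refine fle_resB_of_forall (Y := fun k : C => T.Y k.1.v) ?_ fun k => ?_
    · rintro i ⟨hi1, hi2⟩
      have h1 : i ∈ ⋃ x ∈ C, x.v := by
        rw [← T.Y_inter hsub hinit]
        exact ⟨T.dom_sub n f hi1, hi2⟩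
      obtain ⟨x, hx, hix⟩ := Set.mem_iUnion₂.1 h1
      refine Set.mem_iUnion.2 ⟨⟨x, hx⟩, ?_⟩
      rw [← hinter x] at hix
      exact hix.2
    · have h1 : resB (T.Y k.1.v) (T.S n f) = resB (T.Y k.1.v) (T.S n k.1.f) := by
        refine T.res_congr (T.isLowerSet_Y _) (fun i hiU hiY => ?_) n
        refine hf k.1 k.2 i ?_
        rw [← hinter k.1]
        exact ⟨hiU, hiY⟩
      change FLe p t (resB (T.Y k.1.v) (T.S n f))
      rw [h1]
      exact (hlim k.1 k.2 p).trans (k.1.le n p)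
  · intro x hx
    exact ⟨Set.subset_iUnion₂ (s := fun (x : PartB T γ) (_ : x ∈ C) => x.v) x hx,
      fun i hi => hf x hx i hi, hlim x hx⟩

end Pool.Agent.LibLs83
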