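import Pool.Agent.LibLs83.BPTow
import Pool.Agent.LibLs83.BAddC
import Pool.Agent.LibLs83.BDecide

/-! Task BPStep: the step of the final recursion. -/

namespace Pool.Agent.LibLs83

open Cardinal Set Pool.Agent.LibTk83 Pool.Agent.LibDm83

variable {P W K : Type} [Preorder P] [LinearOrder K] [LinearOrder W] [WellFoundedLT W]
  [WellFoundedLT K] {dat : W → K → K → Bool → Set (P × RawB P W K)}
  {E : K → P → RawB P W K → Prop} {q : RawB P W K}

private theorem BPStep_when_true {φ : Prop} (hφ : φ) (b : RO P) : when φ b = b :=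
  eq_of_agr fun p => ⟨p, le_rfl, fun r _ => ⟨fun h => (mem_when.1 h).2, fun h => mem_when.2 ⟨hφ, h⟩⟩⟩

private theorem BPStep_sup_false {φ : Prop} (hφ : ¬ φ) (b c : RO P) : b ⊔ when φ c = b :=
  eq_of_agr fun p => ⟨p, le_rfl, fun r _ => ⟨fun h => by
    refine RO.mem_of_dense fun s hs => ?_
    obtain ⟨s', hs', h1 | h1⟩ := exists_of_mem_sup (RO.mem_of_le hs h)
    · exact ⟨s', hs', h1⟩
    · exact absurd (mem_when.1 h1).1 hφ, fun h => mem_sup_of_left h⟩⟩

private theorem BPStep_Y {T : TowB dat E q} {γ : K} (x : PartB T γ) {i : W} (hi : i ∈ T.U)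
    (h : ∀ j ∈ T.U, j < i → j ∈ x.v) (hix : i ∉ x.v) : T.Y x.v = Iio i := by
  ext j
  constructor
  · intro hj
    exact hj i hi hix
  · intro hj i' hi' hi'x
    rcases lt_or_ge i' i with h1 | h1
    · exact absurd (h i' hi' h1) hi'x
    · exact lt_of_lt_of_le hj h1

private theorem BPStep_lt {T : TowB dat E q} {γ : K} (x : PartB T γ) {i : W} (hi : i ∈ T.U)
    (hix : i ∉ x.v) : ∀ j ∈ x.v, j < i := by
  intro j hj
  by_contra h1
  exact hix (x.init j hj i hi (not_lt.1 h1))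

/-- the new function -/
private noncomputable def BPStep_f (f : W → RO P) (i : W) (z : RO P) : W → RO P :=
  Function.update f i z

private theorem BPStep_le1 {T : TowB dat E q} {γ : K} (x : PartB T γ) {i : W} (hi : i ∈ T.U)
    (h : ∀ j ∈ T.U, j < i → j ∈ x.v) (hix : i ∉ x.v) {r₁ : RawB P W K} (hr : GLe r₁ x.r)
    (z : RO P) (n : ℕ) : GLe r₁ (resB (Iio i) (T.S n (BPStep_f x.f i z))) := by
  have h1 := x.le n
  rw [BPStep_Y x hi h hix] at h1
  have h2 : resB (Iio i) (T.S n x.f) = resB (Iio i) (T.S n (BPStep_f x.f i z)) := by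
    refine T.res_congr (isLowerSet_Iio i) (fun j _ hj => ?_) n
    rw [BPStep_f, Function.update_of_ne (ne_of_lt hj)]
  rw [← h2]
  exact hr.trans h1

private theorem BPStep_val (hK : Inac K) (T : TowB dat E q) {γ : K}
    (hγ : IsLUB (range T.H) γ) {i : W} (hi : i ∈ T.U) {r₁ : RawB P W K}
    (hr₁ : (Lv dat i).V r₁) (hγh : γ < r₁.h) {f : W → RO P} {β : RO P} (hfi : f i = βᶜ)
    (hdec : ∀ p, ∃ p' ≤ p, ∃ b : Bool, p' ∈ bitB b βᶜ ∧ (Lv dat i).F γ (T.m i) b p' r₁)
    (hle : ∀ n, GLe r₁ (resB (Iio i) (T.S n f))) :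
    ValB dat (addcB i (T.A f i) (fun x => T.C f i x ⊔ when (x = γ) ⊤) r₁) := by
  refine ValB_addcB hK hr₁ (fun z p hz => (T.A_lt hγ hz).trans hγh) ?_ ?_ ?_
  · intro z p hz
    obtain ⟨p', _, h1 | h1⟩ := exists_of_mem_sup hz
    · exact (T.C_lt hγ h1).trans hγh
    · rw [(mem_when.1 h1).1]; exact hγh
  · intro g _ h0 p h1
    rcases lt_trichotomy g γ with hg | hg | hg
    · refine mem_sup_of_left (T.C_clo hγ hi hg h0 (fun b hb p' hp' => ?_))
      obtain ⟨p'', hp'', a, hba, hag, ha⟩ := h1 b hb p' hp'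
      obtain ⟨p₃, hp₃, h2 | h2⟩ := exists_of_mem_sup ha
      · exact ⟨p₃, hp₃.trans hp'', a, hba, hag, h2⟩
      · rw [(mem_when.1 h2).1] at hag
        exact absurd hg (not_lt.2 hag.le)
    · exact mem_sup_of_right (mem_when.2 ⟨hg, RO.mem_top⟩)
    · exfalso
      obtain ⟨p'', _, a, hba, _, ha⟩ := h1 γ hg p le_rfl
      obtain ⟨p₃, _, h2 | h2⟩ := exists_of_mem_sup ha
      · exact absurd (T.C_lt hγ h2) (not_lt.2 hba.le)
      · rw [(mem_when.1 h2).1] at hba
        exact lt_irrefl _ hba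
  · intro α p hα hαs t ht htr
    obtain ⟨p₁, hp₁, h1 | h1⟩ := exists_of_mem_sup hα
    · have hαγ : α < γ := T.C_lt hγ h1
      obtain ⟨n, hn⟩ := T.exists_lt_H hγ hαγ
      have hZ : p₁ ∈ T.Z f α := by
        rw [T.Z_eq hn.le]
        have h2 := (hle n p₁).s α (by
          change α ≤ (T.S n f).h
          rw [(T.sys n).h_eq]; exact hn.le)
        exact (h2 p₁ le_rfl).1 (RO.mem_of_le hp₁ hαs)
      obtain ⟨p', hp', t', ht', hle', hδ⟩ := T.T_ok hγ h1 hZ ht
        (fun n => (htr.mono hp₁).trans (hle n p₁))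
      exact ⟨p', hp'.trans hp₁, t', ht', hle', hδ⟩
    · have hαγ : α = γ := (mem_when.1 h1).1
      subst hαγ
      obtain ⟨p', hp', b, hb, hF⟩ := hdec p₁
      refine ⟨p', hp'.trans hp₁, t, ht, FLe.refl _ _, T.m i, T.m_lt hγ hi, b, ?_, ?_⟩
      · rw [T.A_mark hi, hfi]; exact hb
      · exact F_mono le_rfl (htr.mono (hp'.trans hp₁)) hF

private theorem BPStep_le2 (T : TowB dat E q) {γ : K} (hγ : IsLUB (range T.H) γ)
    {i : W} (hi : i ∈ T.U) {v : Set W} (hv : v ⊆ T.U) (hvlt : ∀ j ∈ v, j < i)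
    (hinit : ∀ i' ∈ insert i v, ∀ j ∈ T.U, j ≤ i' → j ∈ insert i v)
    {r₁ : RawB P W K} (hr₁ : (Lv dat i).V r₁) (hγh : γ < r₁.h)
    {f : W → RO P} (hle : ∀ n, GLe r₁ (resB (Iio i) (T.S n f))) (n : ℕ) :
    GLe (addcB i (T.A f i) (fun x => T.C f i x ⊔ when (x = γ) ⊤) r₁)
      (resB (T.Y (insert i v)) (T.S n f)) := by
  intro p
  have hV := V_iff.1 hr₁
  have hHγ : T.H n < γ := T.H_lt hγ n
  have hH : (T.S n f).h = T.H n := (T.sys n).h_eq f
  have hL : FLe p (addcB i (T.A f i) (fun x => T.C f i x ⊔ when (x = γ) ⊤) r₁)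
      (resB (Iio i) (T.S n f)) := (addcB_le _ _ hV.1.1 hV.2 p).trans (hle n p)
  have hYv : T.U ∩ T.Y (insert i v) = insert i v :=
    T.Y_inter (insert_subset hi hv) hinit
  have hkey : ∀ j ∈ (T.S n f).dom, j ∈ T.Y (insert i v) → j = i ∨ j < i := by
    intro j hj hjY
    have h1 : j ∈ insert i v := by
      rw [← hYv]
      exact ⟨T.dom_sub n f hj, hjY⟩
    rcases h1 with h1 | h1
    · exact Or.inl h1
    · exact Or.inr (hvlt j h1)
  refine ⟨?_, ?_, ?_, ?_, ?_⟩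
  · change (T.S n f).h ≤ r₁.h
    rw [hH]
    exact (hHγ.trans hγh).le
  · rintro j ⟨hj, hjY⟩
    rcases hkey j hj hjY with h1 | h1
    · change j ∈ insert i r₁.dom
      exact Or.inl h1
    · exact hL.dom ⟨hj, h1⟩
  · intro z hz
    exact hL.s z hz
  · rintro j ⟨hj, hjY⟩ z hz
    change z < (T.S n f).h at hz
    change Agr p _ (when (j ∈ T.Y (insert i v)) ((T.S n f).a j z))
    rw [BPStep_when_true hjY]
    rcases hkey j hj hjY with h1 | h1
    · subst h1
      rw [hH] at hz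
      rw [addcB_a _ _ hV.1.1 hV.2, T.A_eq hj hz]
      exact Agr.refl _ _
    · have h2 := hL.a j ⟨hj, h1⟩ z hz
      change Agr p _ (when (j ∈ Iio i) ((T.S n f).a j z)) at h2
      rwa [BPStep_when_true (show j ∈ Iio i from h1)] at h2
  · rintro j ⟨hj, hjY⟩ z hz
    change z ≤ (T.S n f).h at hz
    change Agr p _ (when (j ∈ T.Y (insert i v)) ((T.S n f).c j z))
    rw [BPStep_when_true hjY]
    rcases hkey j hj hjY with h1 | h1
    · subst h1
      rw [hH] at hz
      have hzγ : z < γ := lt_of_le_of_lt hz hHγ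
      rw [addcB_c _ _ hV.1.1 hV.2 (hzγ.trans hγh).ne]
      change Agr p (T.C f j z ⊔ when (z = γ) ⊤) _
      rw [BPStep_sup_false hzγ.ne, T.C_eq hj hz]
      exact Agr.refl _ _
    · have h2 := hL.c j ⟨hj, h1⟩ z hz
      change Agr p _ (when (j ∈ Iio i) ((T.S n f).c j z)) at h2
      rwa [BPStep_when_true (show j ∈ Iio i from h1)] at h2

/- As `part_step` in `LibDm83/PStep.lean`. If `i ∈ x.v` take `y = x`. Otherwise
`x.v = {j ∈ U | j < i}`, `T.Y x.v = Iio i`, so `(Lv dat i).V x.r`. By `exists_decide` there are `r₁`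
and `β`. Let `f'` be `x.f` with the value `βᶜ` at `i`, `v' = insert i x.v`, and
`r' = addcB i (T.A f' i) (fun x => T.C f' i x ⊔ when (x = γ) ⊤) r₁`.

Validity (`ValB_addcB`): `T.A_lt`, `T.C_lt`, `T.C_clo`, `γ < r₁.h` as `γ` is in `r₁.s`. `hok`: for
`α = γ` take `δ = T.m i`, `T.A f' i (T.m i) = f' i = βᶜ` (`A_mark`), and `exists_decide` (with
`F_mono`); for `p ∈ T.C f' i α`, `p ∈ r₁.s α` (`α < γ`, so `p ∈ T.Z f' α`) use `T_ok`.

`dom`: `r'.dom ⊆ T.Y v'` as `j ≤ i` for `j ∈ r'.dom`. `le`: `r'` is below `resB (T.Y v') (S n f')`: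
the coordinates of the right side are in `U ∩ T.Y v' = v'`; those in `x.v` are below `i`, use
`r' ≤ r₁ ≤ resB (Iio i) (S n f')` (`res_congr`); for the coordinate `i` use `A_eq`, `C_eq`, `addcB_a`,
`addcB_c`. -/
theorem partB_step (hK : Inac K) (hb : Base P K) (T : TowB dat E q) {γ : K}
    (hγ : IsLUB (range T.H) γ) (x : PartB T γ) {i : W} (hi : i ∈ T.U)
    (h : ∀ j ∈ T.U, j < i → j ∈ x.v) : ∃ y ≤ x, i ∈ y.v := by
  by_cases hix : i ∈ x.v
  · exact ⟨x, le_rfl, hix⟩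
  have : Nonempty K := ⟨γ⟩
  obtain ⟨p₀⟩ := hb.ne
  have hY : T.Y x.v = Iio i := BPStep_Y x hi h hix
  have hlt : ∀ j ∈ x.v, j < i := BPStep_lt x hi hix
  have hxV : (Lv dat i).V x.r := V_iff.2 ⟨x.val, fun j hj => by
    have h1 := x.dom hj
    rw [hY] at h1
    exact h1⟩
  obtain ⟨r₁, hr₁, hr₁x, β, hdec⟩ := exists_decide hK hb γ (T.m i) hxV
  have hV := V_iff.1 hr₁
  have hγx : γ < x.r.h := x.val.1.s_lt γ p₀ (by rw [x.mem]; exact RO.mem_top)
  have hγs : r₁.s γ = ⊤ := by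
    rw [← x.mem]
    exact eq_of_agr fun p => ⟨p, le_rfl, (hr₁x p).s γ hγx.le⟩
  have hγh : γ < r₁.h := hV.1.1.s_lt γ p₀ (by rw [hγs]; exact RO.mem_top)
  have hle : ∀ n, GLe r₁ (resB (Iio i) (T.S n (BPStep_f x.f i βᶜ))) :=
    fun n => BPStep_le1 x hi h hix hr₁x βᶜ n
  have hfi : BPStep_f x.f i βᶜ i = βᶜ := by
    rw [BPStep_f, Function.update_self]
  have hinit : ∀ i' ∈ insert i x.v, ∀ j ∈ T.U, j ≤ i' → j ∈ insert i x.v := by
    rintro i' (hi' | hi') j hj hji
    · rw [hi'] at hji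
      rcases hji.eq_or_lt with h1 | h1
      · exact Or.inl h1
      · exact Or.inr (h j hj h1)
    · exact Or.inr (x.init i' hi' j hj hji)
  refine ⟨{ v := insert i x.v
            f := BPStep_f x.f i βᶜ
            r := addcB i (T.A (BPStep_f x.f i βᶜ) i)
              (fun z => T.C (BPStep_f x.f i βᶜ) i z ⊔ when (z = γ) ⊤) r₁
            sub := insert_subset hi x.sub
            init := hinit
            val := BPStep_val hK T hγ hi hr₁ hγh hfi hdec hle
            mem := hγs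
            dom := ?_
            le := fun n => BPStep_le2 T hγ hi x.sub hlt hinit hr₁ hγh hle n }, ?_, ?_⟩
  · intro j hj i' hi' hi'v
    have h1 : i < i' := by
      rcases lt_trichotomy i i' with h2 | h2 | h2
      · exact h2
      · exact absurd (Or.inl h2.symm) hi'v
      · exact absurd (Or.inr (h i' hi' h2)) hi'v
    rcases hj with hj | hj
    · rw [hj]; exact h1
    · exact (hV.2 j hj).trans h1
  · refine ⟨subset_insert _ _, fun j hj => ?_, fun p => ?_⟩
    · change BPStep_f x.f i βᶜ j = x.f j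
      rw [BPStep_f, Function.update_of_ne (ne_of_lt (hlt j hj))]
    · exact (addcB_le _ _ hV.1.1 hV.2 p).trans (hr₁x p)
  · exact mem_insert _ _

end Pool.Agent.LibLs83
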