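import Pool.Agent.LibLs83.BRound
import Pool.Agent.LibLs83.BEnlarge

/-! Task BTower: the `ω` rounds. -/

namespace Pool.Agent.LibLs83

open Cardinal Set Pool.Agent.LibTk83 Pool.Agent.LibDm83

variable {P W K : Type} [Preorder P] [LinearOrder K] [LinearOrder W] [WellFoundedLT W]
  [WellFoundedLT K] {dat : W → K → K → Bool → Set (P × RawB P W K)}

omit [WellFoundedLT K] in
private theorem BTower_congr {u d : Set W} {m m' : W → K} {H : K} {S : (W → RO P) → RawB P W K}
    (h : SysB dat u d m H S) (hm : ∀ i ∈ u, m' i = m i) : SysB dat u d m' H S where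
  val := h.val
  h_eq := h.h_eq
  dom_eq := h.dom_eq
  sub := h.sub
  coh := h.coh
  lt := fun i hi => by rw [hm i hi]; exact h.lt i hi
  mark := fun σ i hi => by rw [hm i hi]; exact h.mark σ i hi

/-- The states of the recursion. -/
private structure BTower_St (dat : W → K → K → Bool → Set (P × RawB P W K)) (q : RawB P W K) where
  u : Set W
  d : Set W
  m : W → K
  H : K
  S : (W → RO P) → RawB P W K
  sys : SysB dat u d m H S
  start : ∀ σ, GLe (S σ) q

omit [WellFoundedLT K] in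
private theorem BTower_gt (hK : Inac K) (a b : K) : ∃ c, a < c ∧ b < c := by
  obtain ⟨c, hc⟩ := hK.bdd {a, b} (lt_of_lt_of_le (Cardinal.lt_aleph0_iff_set_finite.2
    (Set.toFinite _)) hK.unc.le)
  exact ⟨c, hc a (by simp), hc b (by simp)⟩

private theorem BTower_step (hK : Inac K) (hb : Base P K) {q : RawB P W K}
    (E : K → P → RawB P W K → Prop)
    (hE : ∀ α p r, E α p r → ∀ p' ≤ p, ∀ r', ValB dat r' → FLe p' r' r → E α p' r')
    (hden : ∀ r, ValB dat r → GLe r q → ∀ p β, ∃ p' ≤ p, ∃ r', ValB dat r' ∧ FLe p' r' r ∧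
      ∃ α, β < α ∧ E α p' r')
    (T : BTower_St dat q) : ∃ T' : BTower_St dat q, T'.u = T.d ∧ (∀ i ∈ T.u, T'.m i = T.m i) ∧
      (∀ σ, GLe (T'.S σ) (T.S σ)) ∧ T.H < T'.H ∧
      ∀ σ p, ∃ p' ≤ p, ∃ α, T.H < α ∧ α < T'.H ∧ E α p' (T'.S σ) := by
  obtain ⟨p0⟩ := hb.ne
  obtain ⟨H1, hH1, -⟩ := BTower_gt hK T.H T.H
  obtain ⟨m1, S1, hs1, hm1, hle1⟩ := enlargeB hK T.sys hH1
  obtain ⟨H2, d2, S2, hs2, hle2, hE2⟩ := roundB hK hb hs1
    (fun p r => ∃ α, T.H < α ∧ α < r.h ∧ E α p r) (by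
      rintro p r ⟨α, h1, h2, h3⟩ p' hp' r' hr' hle
      exact ⟨α, h1, h2.trans_le hle.h, hE α p r h3 p' hp' r' hr' hle⟩) (by
      intro σ r hr hrS p
      obtain ⟨p', hp', r', hr', hle', α, hα, hEα⟩ :=
        hden r hr (hrS.trans ((hle1 σ).trans (T.start σ))) p T.H
      obtain ⟨b, hb1, hb2⟩ := BTower_gt hK r'.h α
      obtain ⟨t, ht, htle, hth, -, -, -⟩ := exists_upB hK hr' hb1.le
      exact ⟨p', hp', t, ht, (htle p').trans hle', α, hα, by rw [hth]; exact hb2,
        hE α p' r' hEα p' le_rfl t ht (htle p')⟩)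
  have hH12 : H1 ≤ H2 := by
    have h2 := (hle2 (fun _ => ⊥) p0).h
    rwa [hs1.h_eq, hs2.h_eq] at h2
  refine ⟨⟨T.d, d2, m1, H2, S2, hs2, fun σ => (hle2 σ).trans ((hle1 σ).trans (T.start σ))⟩,
    rfl, fun i hi => hm1 i (fun hh => hh.2 hi), fun σ => (hle2 σ).trans (hle1 σ),
    hH1.trans_le hH12, ?_⟩
  intro σ p
  obtain ⟨p', hp', α, h1, h2, h3⟩ := hE2 σ p
  rw [hs2.h_eq] at h2
  exact ⟨p', hp', α, h1, h2, h3⟩

/- One step: given a system `(u, d, m, H, S)` with all `GLe (S σ) q`: `enlargeB` gives a system with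
`u' = d` and a height `H₁ > H`; then `roundB` for `E' p r := ∃ α, H < α ∧ α < r.h ∧ E α p r` gives the
next system. Density: for `r` with `GLe r q` and `p` take `p'`, `r'`, `α` from `hden` and then raise
the height of `r'` above `α` (`exists_upB`).

Start: `u = ∅`, `d = q.dom`, `S σ = q`. Iterate as in `LibDm83/TowerB.lean`. -/
theorem exists_towB (hK : Inac K) (hb : Base P K) {q : RawB P W K} (hq : ValB dat q)
    (E : K → P → RawB P W K → Prop)
    (hE : ∀ α p r, E α p r → ∀ p' ≤ p, ∀ r', ValB dat r' → FLe p' r' r → E α p' r')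
    (hden : ∀ r, ValB dat r → GLe r q → ∀ p β, ∃ p' ≤ p, ∃ r', ValB dat r' ∧ FLe p' r' r ∧
      ∃ α, β < α ∧ E α p' r') :
    Nonempty (TowB dat E q) := by
  classical
  have s0 : SysB dat (∅ : Set W) q.dom (fun _ => q.h) q.h (fun _ => q) := by
    refine ⟨fun _ => hq, fun _ => rfl, fun _ => rfl, empty_subset _, fun _ _ _ _ p _ => ?_, ?_, ?_⟩
    · exact ⟨fun x => Agr.refl p _, fun i _ x => ⟨Agr.refl p _, Agr.refl p _⟩⟩
    · intro i hi
      exact absurd hi (notMem_empty i)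
    · intro _ i hi
      exact absurd hi (notMem_empty i)
  let S0 : BTower_St dat q := ⟨∅, _, _, _, _, s0, fun _ => GLe.refl q⟩
  choose nx hnx using BTower_step hK hb E hE hden
  let S : ℕ → BTower_St dat q := fun n => Nat.rec S0 (fun _ s => nx s) n
  have hu : ∀ n, (S (n + 1)).u = (S n).d := fun n => (hnx (S n)).1
  have hmono : ∀ n, (S n).u ⊆ (S (n + 1)).u := fun n => by
    rw [hu n]; exact (S n).sys.sub
  have hm : ∀ n, ∀ i ∈ (S n).u, (S (n + 1)).m i = (S n).m i := fun n => (hnx (S n)).2.1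
  have hmm : ∀ k n, ∀ i ∈ (S n).u, i ∈ (S (n + k)).u ∧ (S (n + k)).m i = (S n).m i := by
    intro k
    induction k with
    | zero => intro n i hi; exact ⟨hi, rfl⟩
    | succ k ih =>
      intro n i hi
      obtain ⟨h1, h2⟩ := ih n i hi
      exact ⟨hmono (n + k) h1, (hm (n + k) i h1).trans h2⟩
  let m : W → K := fun i => if h : ∃ n, i ∈ (S n).u then (S (Nat.find h)).m i else q.h
  have hmS : ∀ n, ∀ i ∈ (S n).u, m i = (S n).m i := by
    intro n i hi
    have hex : ∃ n, i ∈ (S n).u := ⟨n, hi⟩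
    have h1 : m i = (S (Nat.find hex)).m i := dif_pos hex
    have h2 := (hmm (n - Nat.find hex) (Nat.find hex) i (Nat.find_spec hex)).2
    rw [Nat.add_sub_cancel' (Nat.find_min' hex hi)] at h2
    rw [h1, h2]
  exact ⟨{
    u := fun n => (S n).u
    m := m
    H := fun n => (S n).H
    S := fun n => (S n).S
    sys := fun n => by
      rw [hu n]
      exact BTower_congr (S n).sys (hmS n)
    dec := fun n σ => (hnx (S n)).2.2.1 σ
    lt := fun n => (hnx (S n)).2.2.2.1
    meet := fun n σ p => (hnx (S n)).2.2.2.2 σ p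
    start := fun σ => GLe.refl q }⟩

end Pool.Agent.LibLs83
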