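import Pool.Agent.LibLs83.BPInit
import Pool.Agent.LibLs83.BPStep
import Pool.Agent.LibLs83.BPLim
import Pool.Agent.LibLs83.BTower
import Pool.Agent.LibDm83.Lim
import Pool.Agent.LibDm83.Tasks

/-! Task BPFin: the final condition; `S` is stationary. -/

namespace Pool.Agent.LibLs83

open Cardinal Set Pool.Agent.LibTk83 Pool.Agent.LibDm83

variable {P W K : Type} [Preorder P] [LinearOrder K] [LinearOrder W] [WellFoundedLT W]
  [WellFoundedLT K] {dat : W → K → K → Bool → Set (P × RawB P W K)}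

/- `tasks` for the partial conditions, the index type `T.U` (`small_U`) and the sets
`{y | i ∈ y.v}`; for the result `y.v = U`, `T.Y U = univ`, `resB univ` is the identity
(`resB_eq_self`). -/
theorem towB_final (hK : Inac K) (hb : Base P K) {E : K → P → RawB P W K → Prop}
    {q : RawB P W K} (T : TowB dat E q) {γ : K} (hγ : IsLUB (range T.H) γ) :
    ∃ r, ValB dat r ∧ r.s γ = ⊤ ∧ ∃ σ, ∀ n, GLe r (T.S n σ) := by
  obtain ⟨x₀⟩ := exists_partB hK T hγ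
  obtain ⟨y, -, hy⟩ := tasks (S := PartB T γ) (κ := #K) hK.unc.le
    (fun C hC h => partB_closed hK T hγ x₀ C hC h) (T := T.U) (T.small_U hK)
    (fun t => {y | t.1 ∈ y.v}) (fun t x hx y hyx => hyx.1 hx)
    (fun t x h => partB_step hK hb T hγ x t.2 (fun j hj hlt => h ⟨j, hj⟩ hlt)) x₀
  have hv : y.v = T.U := Set.Subset.antisymm y.sub (fun i hi => hy ⟨i, hi⟩)
  refine ⟨y.r, y.val, y.mem, y.f, fun n => ?_⟩
  have h1 := y.le n
  rw [hv, T.Y_U, resB_eq_self ((T.sys n).val y.f).1 (Set.subset_univ _)] at h1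
  exact h1

/- `exists_towB`, `exists_lub` (in `LibDm83/Lim.lean`) for `T.H`, `towB_final`. -/
theorem stationaryB_aux (hK : Inac K) (hb : Base P K) {q : RawB P W K} (hq : ValB dat q)
    (E : K → P → RawB P W K → Prop)
    (hE : ∀ α p r, E α p r → ∀ p' ≤ p, ∀ r', ValB dat r' → FLe p' r' r → E α p' r')
    (hden : ∀ r, ValB dat r → GLe r q → ∀ p β, ∃ p' ≤ p, ∃ r', ValB dat r' ∧ FLe p' r' r ∧
      ∃ α, β < α ∧ E α p' r') :
    ∃ r, ValB dat r ∧ GLe r q ∧ ∃ γ, r.s γ = ⊤ ∧ (∃ b, b < γ) ∧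
      ∀ β < γ, ∀ p, ∃ p' ≤ p, ∃ α, β < α ∧ α < γ ∧ E α p' r := by
  obtain ⟨T⟩ := exists_towB hK hb hq E hE hden
  obtain ⟨γ, hγ⟩ := exists_lub hK (by rw [Cardinal.mk_nat]; exact hK.unc) T.H
  obtain ⟨r, hr, hγr, σ, hσ⟩ := towB_final hK hb T hγ
  refine ⟨r, hr, (hσ 0).trans (T.start σ), γ, hγr, ⟨T.H 0, T.H_lt hγ 0⟩, fun β hβ p => ?_⟩
  obtain ⟨n, hn⟩ := T.exists_lt_H hγ hβ
  obtain ⟨p', hp', α, h1, h2, h3⟩ := T.meet n σ p
  exact ⟨p', hp', α, hn.trans h1, h2.trans (T.H_lt hγ (n + 1)),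
    hE α p' _ h3 p' le_rfl r hr (hσ (n + 1) p')⟩

end Pool.Agent.LibLs83
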