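import Pool.Agent.LibLs83.BNames
import Pool.Agent.LibLs83.BPFin

/-! Task BSt: the generic set `S` is stationary. -/

namespace Pool.Agent.LibLs83

open Cardinal Set Pool.Agent.LibTk83 Pool.Agent.LibDm83

variable {P W K : Type} [Preorder P] [LinearOrder K] [LinearOrder W] [WellFoundedLT W]
  [WellFoundedLT K] {dat : W → K → K → Bool → Set (P × RawB P W K)}

/- Let `y` be in the left side and `z ≤ y`. Use `stationaryB_aux` for `z.x` and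
`E α p r := p ∈ (RO.of z.p)ᶜ ∨ ∃ h, (⟨p, ⟨r, h⟩⟩ : Comp (VQ dat)) ∈ c α`. Density: given `p`, `r`, either
some `p' ≤ p` is in `(of z.p)ᶜ` or some `p' ≤ p` is below `z.p`, and then `⟨p', ⟨r, _⟩⟩ ≤ z ≤ y` has an
extension in `c α` with `β < α`, as `y ∈ unbB c`. For the result `r`, `γ` the condition `⟨z.p, r⟩` is
below `z`, it is in `sN γ`, and in `c γ`, as it is in `cloB c`. -/
theorem st_auxB (hK : Inac K) (hb : Base P K) (c : K → RO (Comp (VQ dat))) :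
    unbB c ⊓ cloB c ≤ ⨆ α, c α ⊓ sN hK dat α := by
  intro y hy
  obtain ⟨hy1, hy2⟩ := RO.mem_inf.1 hy
  refine RO.mem_iSup.2 fun z hz => ?_
  have hden0 : ∀ r, ∀ hr : ValB dat r, GLe r z.x.1 → ∀ s, s ≤ z.p → ∀ β : K,
      ∃ w : Comp (VQ dat), w ≤ ⟨s, ⟨r, hr⟩⟩ ∧ ∃ α, β < α ∧ w ∈ c α := by
    intro r hr hrz s hs β
    have h1 := RO.mem_iInf.1 hy1 β
    have hle : (⟨s, ⟨r, hr⟩⟩ : Comp (VQ dat)) ≤ y :=
      le_trans (show (⟨s, ⟨r, hr⟩⟩ : Comp (VQ dat)) ≤ z from ⟨hs, hrz s⟩) hz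
    obtain ⟨w, hw, α, hwα⟩ := RO.mem_iSup.1 h1 _ hle
    obtain ⟨w', hw', hα, hwα'⟩ := RO.mem_iSup.1 hwα w le_rfl
    exact ⟨w', hw'.trans hw, α, hα, hwα'⟩
  obtain ⟨r, hv, hrz, γ, hγ, hbγ, hlim⟩ := stationaryB_aux hK hb z.x.2
    (fun α p r => p ∈ (RO.of z.p)ᶜ ∨ ∃ h : ValB dat r, (⟨p, ⟨r, h⟩⟩ : Comp (VQ dat)) ∈ c α)
    (by
      rintro α p r (h | ⟨h, h'⟩) p' hp' r' hr' hf
      · exact Or.inl (RO.mem_of_le hp' h)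
      · exact Or.inr ⟨hr', RO.mem_of_le
          (show (⟨p', ⟨r', hr'⟩⟩ : Comp (VQ dat)) ≤ ⟨p, ⟨r, h⟩⟩ from ⟨hp', hf⟩) h'⟩)
    (by
      intro r hr hrz p β
      obtain ⟨p', hp', h | h⟩ := decide_mem (RO.of z.p) p
      · obtain ⟨s, hs, hsz⟩ := RO.mem_of.1 h p' le_rfl
        obtain ⟨w, hw, α, hα, hwα⟩ := hden0 r hr hrz s hsz β
        have hwp : w.p ≤ s := hw.1
        exact ⟨w.p, (hwp.trans hs).trans hp', w.x.1, w.x.2, hw.2, α, hα, Or.inr ⟨w.x.2, hwα⟩⟩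
      · obtain ⟨w, hw, α, hα, hwα⟩ := hden0 z.x.1 z.x.2 (GLe.refl _) z.p le_rfl β
        exact ⟨p', hp', r, hr, FLe.refl _ _, α, hα, Or.inl h⟩)
  have hle : (⟨z.p, ⟨r, hv⟩⟩ : Comp (VQ dat)) ≤ z := ⟨le_rfl, hrz z.p⟩
  refine ⟨⟨z.p, ⟨r, hv⟩⟩, hle, γ, RO.mem_inf.2 ⟨?_, mem_sN.2 ?_⟩⟩
  · have h2 : (⟨z.p, ⟨r, hv⟩⟩ : Comp (VQ dat)) ∈ cloB c := RO.mem_of_le (hle.trans hz) hy2
    have h3 := RO.mem_himp.1 (RO.mem_iInf.1 (RO.mem_iInf.1 h2 γ) hbγ) _ le_rfl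
    refine h3 (RO.mem_iInf.2 fun β => RO.mem_iInf.2 fun hβ => RO.mem_iSup.2 fun w hw => ?_)
    obtain ⟨p', hp', α, h4, h5, h6⟩ := hlim β hβ w.p
    have hwz : w.p ≤ z.p := hw.1
    have hwr : FLe w.p w.x.1 r := hw.2
    rcases h6 with h6 | ⟨h6, h7⟩
    · exact absurd h6 (not_mem_compl (RO.mem_of.2 fun s hs => ⟨s, le_rfl, (hs.trans hp').trans hwz⟩))
    · refine ⟨⟨p', w.x⟩, ⟨hp', FLe.refl _ _⟩, α, ?_⟩
      have h8 : (⟨p', w.x⟩ : Comp (VQ dat)) ∈ c α := RO.mem_of_le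
        (show (⟨p', w.x⟩ : Comp (VQ dat)) ≤ ⟨p', ⟨r, h6⟩⟩ from ⟨le_rfl, FLe.mono hwr hp'⟩) h7
      exact (le_iSup (f := fun (_ : β < α ∧ α < γ) => c α) ⟨h4, h5⟩) h8
  · change z.p ∈ r.s γ
    rw [hγ]
    exact RO.mem_top

end Pool.Agent.LibLs83
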