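import Pool.Agent.LibLs83.BClub
import Pool.Agent.LibLs83.BKill2
import Pool.Agent.LibLs83.BSt
import Pool.Agent.LibLs83.BReg

/-! The result on the iteration over a base. -/

namespace Pool.Agent.LibLs83

open Cardinal Set Pool.Agent.LibTk83 Pool.Agent.LibDm83

/-- Over each base `P` there is a directed closed forcing notion which adds a stationary set `S` on
which diamond fails. -/
theorem exists_kill {P K : Type} [Preorder P] [LinearOrder K] [WellFoundedLT K] (hK : Inac K)
    (hb : Base P K) : ∃ (Θ : Type) (V : VPre P Θ), #Θ ≤ Order.succ (2 ^ #K) ∧ Nonempty Θ ∧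
      VClosed #K V ∧ Nonempty (DMod (RO (Comp V)) K) := by
  have : Infinite K := Cardinal.infinite_iff.2 hK.unc.le
  obtain ⟨W, _, _, hW, hWc⟩ := exists_len' K
  obtain ⟨dat, hdat⟩ := exists_datB (W := W) hK hb hW
  have hcard : #(Qb dat) ≤ Order.succ (2 ^ #K) := by
    rw [← hWc]
    refine le_trans ?_ (card_WFB_le hK hb hW)
    exact mk_le_of_injective (f := fun q : Qb dat => (⟨q.1, q.2.1⟩ : {q : RawB P W K // WFB q}))
      fun a b h => Subtype.ext (congrArg (fun x => x.1) h)
  obtain ⟨H⟩ : Nonempty K := inferInstance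
  refine ⟨Qb dat, VQ dat, hcard, ⟨⟨_, exists_valB hK H (fun _ => ⊥)
    (fun x p hp => absurd hp RO.not_mem_bot) (fun x p hp => absurd hp RO.not_mem_bot)⟩⟩,
    vClosed hK, ⟨?_⟩⟩
  refine
    { s := sN hK dat
      cof := fun α h => sN_cof hK h
      st := st_auxB hK hb
      kill := fun x => ?_
      reg := reg_comp hK hb (vClosed hK) }
  obtain ⟨i, hi⟩ := kill_auxB hK hb hW hdat x
  exact ⟨aN hK dat i, cN hK dat i, unb_cN hK i, clo_cN hK i, hi⟩

end Pool.Agent.LibLs83
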