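import Pool.Agent.LibLs83.BMixA
import Pool.Agent.LibDm83.Small

/-! Task BMix: mixtures are well-formed. -/

namespace Pool.Agent.LibLs83

open Cardinal Set Pool.Agent.LibTk83 Pool.Agent.LibDm83

variable {P W K : Type} [Preorder P] [LinearOrder K] [LinearOrder W]
  {zs : RO P} {z : W → RO P} {t q : RawB P W K}

private theorem BMix_mem_c {i : W} {x : K} {p : P} (hx : x ≠ t.h) :
    p ∈ (mixB zs z t q).c i x ↔ p ∈ (z i ⊓ t.c i x) ⊔ ((z i)ᶜ ⊓ q.c i x) := by
  constructor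
  · intro hp
    refine RO.mem_of_dense fun r hr => ?_
    obtain ⟨p', hp', h1 | h1⟩ := exists_of_mem_sup (RO.mem_of_le hr hp)
    · exact ⟨p', hp', h1⟩
    · exact absurd h1.1.1 hx
  · intro hp
    exact mem_sup_of_left hp

private theorem BMix_mem_top {i : W} {x : K} {p : P} (hx : x = t.h) (hi : i ∈ t.dom ∪ q.dom) :
    p ∈ (mixB zs z t q).c i x := by
  have h1 : p ∈ when (x = t.h ∧ i ∈ t.dom ∪ q.dom) (⊤ : RO P) :=
    mem_when.2 ⟨⟨hx, hi⟩, RO.mem_top⟩
  have h2 : p ∈ (z i ⊓ t.c i x) ⊔ ((z i)ᶜ ⊓ q.c i x) ⊔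
      when (x = t.h ∧ i ∈ t.dom ∪ q.dom) (⊤ : RO P) := mem_sup_of_right h1
  exact h2

/- `clo`: at `g = t.h` by definition. For `g < t.h` extend `p` to be in `z i` (then all points below
`t.h` are points of `t.c i`) or in `(z i)ᶜ` (then they are points of `q.c i`, so at most `q.h`). -/
theorem WFB_mixB (hK : Inac K) (ht : WFB t) (hq : WFB q) (h : MixH zs z t q) :
    WFB (mixB zs z t q) := by
  refine ⟨?_, ?_, ?_, ?_, ?_, ?_, ?_, ?_, ?_⟩
  · refine (mk_union_le _ _).trans_lt (add_lt_of_lt hK.unc.le ht.small hq.small)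
  · intro x p hp
    obtain ⟨p', -, h1 | h1⟩ := exists_of_mem_sup hp
    · exact ht.s_lt x p' (RO.mem_inf.1 h1).2
    · exact (hq.s_lt x p' (RO.mem_inf.1 h1).2).trans_le h.h
  · intro x p hp
    obtain ⟨p', -, h1 | h1⟩ := exists_of_mem_sup hp
    · exact ht.s_cof x p' (RO.mem_inf.1 h1).2
    · exact hq.s_cof x p' (RO.mem_inf.1 h1).2
  · intro i x p hp
    obtain ⟨p', -, h1 | h1⟩ := exists_of_mem_sup hp
    · exact ht.a_lt i x p' (RO.mem_inf.1 h1).2
    · exact (hq.a_lt i x p' (RO.mem_inf.1 h1).2).trans_le h.h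
  · intro i x p hp
    obtain ⟨p', -, h1 | h1⟩ := exists_of_mem_sup hp
    · obtain ⟨p'', -, h2 | h2⟩ := exists_of_mem_sup h1
      · exact ht.c_le i x p'' (RO.mem_inf.1 h2).2
      · exact (hq.c_le i x p'' (RO.mem_inf.1 h2).2).trans h.h
    · exact h1.1.1.le
  · intro i x p hp
    obtain ⟨p', -, h1 | h1⟩ := exists_of_mem_sup hp
    · exact Or.inl (ht.a_dom i x p' (RO.mem_inf.1 h1).2)
    · exact Or.inr (hq.a_dom i x p' (RO.mem_inf.1 h1).2)
  · intro i x p hp
    obtain ⟨p', -, h1 | h1⟩ := exists_of_mem_sup hp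
    · obtain ⟨p'', -, h2 | h2⟩ := exists_of_mem_sup h1
      · exact Or.inl (ht.c_dom i x p'' (RO.mem_inf.1 h2).2)
      · exact Or.inr (hq.c_dom i x p'' (RO.mem_inf.1 h2).2)
    · exact h1.1.2
  · intro i hi
    exact RO.ext fun p => ⟨fun _ => RO.mem_top, fun _ => BMix_mem_top rfl hi⟩
  · intro i hi g hg h0 p hlim
    have hg' : g ≤ t.h := hg
    rcases eq_or_lt_of_le hg' with hgt | hgt
    · exact BMix_mem_top hgt hi
    · refine (BMix_mem_c (zs := zs) (z := z) (t := t) (q := q) hgt.ne).2 (RO.mem_of_dense fun r hr => ?_)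
      obtain ⟨p', hp', hz | hz⟩ := decide_mem (z i) r
      · refine ⟨p', hp', (mem_ite_left hz).2 ?_⟩
        have hit : i ∈ t.dom := by
          rcases hi with hi | hi
          · exact hi
          · exact h.dom i hi p' hz
        refine ht.clo i hit g hg h0 p' fun b hb p1 hp1 => ?_
        obtain ⟨p'', hp'', x, hbx, hxg, hx⟩ := hlim b hb p1 ((hp1.trans hp').trans hr)
        refine ⟨p'', hp'', x, hbx, hxg, ?_⟩
        exact (mem_ite_left (RO.mem_of_le (hp''.trans hp1) hz)).1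
          ((BMix_mem_c (zs := zs) (z := z) (t := t) (q := q) (hxg.trans hgt).ne).1 hx)
      · refine ⟨p', hp', (mem_ite_right hz).2 ?_⟩
        have hlim' : ∀ b < g, ∀ p1 ≤ p', ∃ p'' ≤ p1, ∃ x, b < x ∧ x < g ∧ p'' ∈ q.c i x := by
          intro b hb p1 hp1
          obtain ⟨p'', hp'', x, hbx, hxg, hx⟩ := hlim b hb p1 ((hp1.trans hp').trans hr)
          refine ⟨p'', hp'', x, hbx, hxg, ?_⟩
          exact (mem_ite_right (RO.mem_of_le (hp''.trans hp1) hz)).1
            ((BMix_mem_c (zs := zs) (z := z) (t := t) (q := q) (hxg.trans hgt).ne).1 hx)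
        have hiq : i ∈ q.dom := by
          obtain ⟨b, hb⟩ := h0
          obtain ⟨p'', -, x, -, -, hx⟩ := hlim' b hb p' le_rfl
          exact hq.c_dom i x p'' hx
        have hgq : g ≤ q.h := by
          by_contra hcon
          obtain ⟨p'', -, x, hbx, -, hx⟩ := hlim' q.h (not_le.1 hcon) p' le_rfl
          exact absurd (hq.c_le i x p'' hx) (not_le.2 hbx)
        exact hq.clo i hiq g hgq h0 p' hlim'

end Pool.Agent.LibLs83
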