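import Pool.Agent.LibLs83.BFo

/-! Task BMixA: mixing two conditions. -/

namespace Pool.Agent.LibLs83

open Cardinal Set Pool.Agent.LibTk83 Pool.Agent.LibDm83

/-- The hypotheses on the truth values `zs`, `z i` under which `t` can be mixed with `q`: `z i`
forces that `t` is stronger than `q` at all coordinates up to `i`. -/
structure MixH {P W K : Type} [Preorder P] [LinearOrder K] [LinearOrder W] (zs : RO P)
    (z : W → RO P) (t q : RawB P W K) : Prop where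
  h : q.h ≤ t.h
  anti : ∀ i j, i ≤ j → z j ≤ z i
  le : ∀ i, z i ≤ zs
  s : ∀ p ∈ zs, ∀ x ≤ q.h, Agr p (t.s x) (q.s x)
  dom : ∀ i ∈ q.dom, ∀ p ∈ z i, i ∈ t.dom
  a : ∀ i ∈ q.dom, ∀ p ∈ z i, ∀ x < q.h, Agr p (t.a i x) (q.a i x)
  c : ∀ i ∈ q.dom, ∀ p ∈ z i, ∀ x ≤ q.h, Agr p (t.c i x) (q.c i x)

variable {P W K : Type} [Preorder P] [LinearOrder K] [LinearOrder W]
  {zs : RO P} {z : W → RO P} {t q : RawB P W K}

theorem BMixA_ite_left {z a b : RO P} {p : P} (h : p ∈ z) :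
    Agr p ((z ⊓ a) ⊔ (zᶜ ⊓ b)) a :=
  fun _ hr => mem_ite_left (RO.mem_of_le hr h)

theorem BMixA_ite_right {z a b : RO P} {p : P} (h : p ∈ zᶜ) :
    Agr p ((z ⊓ a) ⊔ (zᶜ ⊓ b)) b :=
  fun _ hr => mem_ite_right (RO.mem_of_le hr h)

theorem BMixA_sup_when_false {φ : Prop} {a b : RO P} (h : ¬ φ) : a ⊔ when φ b = a :=
  sup_eq_left.2 fun _ hp => absurd hp.1 h

theorem BMixA_sup_when_true {φ : Prop} {a : RO P} (h : φ) : a ⊔ when φ ⊤ = ⊤ :=
  top_unique fun _ _ => mem_sup_of_right ⟨h, RO.mem_top⟩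

/- Below: `mem_ite_left`, `mem_ite_right`, `decide_mem`, `Agr.of_dense`. Note that `WFB.top_c`
gives the points `x = t.h`. -/
theorem mixB_le (ht : WFB t) (hq : WFB q) (h : MixH zs z t q) : GLe (mixB zs z t q) q := by
  intro p
  refine ⟨h.h, subset_union_right, ?_, ?_, ?_⟩
  · intro x hx
    refine Agr.of_dense fun p' _ => ?_
    obtain ⟨p'', hp'', h1 | h1⟩ := decide_mem zs p'
    · exact ⟨p'', hp'', (BMixA_ite_left h1).trans (h.s p'' h1 x hx)⟩
    · exact ⟨p'', hp'', BMixA_ite_right h1⟩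
  · intro i hi x hx
    refine Agr.of_dense fun p' _ => ?_
    obtain ⟨p'', hp'', h1 | h1⟩ := decide_mem (z i) p'
    · exact ⟨p'', hp'', (BMixA_ite_left h1).trans (h.a i hi p'' h1 x hx)⟩
    · exact ⟨p'', hp'', BMixA_ite_right h1⟩
  · intro i hi x hx
    change Agr p ((z i ⊓ t.c i x) ⊔ ((z i)ᶜ ⊓ q.c i x) ⊔ when (x = t.h ∧ i ∈ t.dom ∪ q.dom) ⊤)
      (q.c i x)
    by_cases hxt : x = t.h
    · have h2 : x = q.h := le_antisymm hx (hxt ▸ h.h)
      rw [BMixA_sup_when_true ⟨hxt, Or.inr hi⟩, h2, hq.top_c i hi]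
      exact Agr.refl _ _
    · rw [BMixA_sup_when_false fun h2 => hxt h2.1]
      refine Agr.of_dense fun p' _ => ?_
      obtain ⟨p'', hp'', h1 | h1⟩ := decide_mem (z i) p'
      · exact ⟨p'', hp'', (BMixA_ite_left h1).trans (h.c i hi p'' h1 x hx)⟩
      · exact ⟨p'', hp'', BMixA_ite_right h1⟩

theorem mixB_eqOn (ht : WFB t) (h : MixH zs z t q) {p : P} {X : Set W} (hs : p ∈ zs)
    (hz : ∀ i ∈ X, p ∈ z i) : ∀ i ∈ X, i ∈ t.dom → ∀ x,
      Agr p ((mixB zs z t q).a i x) (t.a i x) ∧ Agr p ((mixB zs z t q).c i x) (t.c i x) := by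
  intro i hi hit x
  refine ⟨BMixA_ite_left (hz i hi), ?_⟩
  change Agr p ((z i ⊓ t.c i x) ⊔ ((z i)ᶜ ⊓ q.c i x) ⊔ when (x = t.h ∧ i ∈ t.dom ∪ q.dom) ⊤)
    (t.c i x)
  by_cases hxt : x = t.h
  · rw [BMixA_sup_when_true ⟨hxt, Or.inl hit⟩, hxt, ht.top_c i hit]
    exact Agr.refl _ _
  · rw [BMixA_sup_when_false fun h2 => hxt h2.1]
    exact BMixA_ite_left (hz i hi)

/-- Where `z` is true at all coordinates in `X`, the condition `t` and the mixture agree. -/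
theorem mixB_res (ht : WFB t) (hq : WFB q) (h : MixH zs z t q) {p : P} {X : Set W} (hs : p ∈ zs)
    (hz : ∀ i ∈ X, p ∈ z i) : FLe p (resB X (mixB zs z t q)) (resB X t) ∧
      FLe p (resB X t) (resB X (mixB zs z t q)) := by
  have key := mixB_eqOn ht h hs hz
  have hd : ∀ i, i ∈ (t.dom ∪ q.dom) ∩ X → i ∈ t.dom ∩ X := by
    rintro i ⟨h1 | h1, hX⟩
    · exact ⟨h1, hX⟩
    · exact ⟨h.dom i h1 p (hz i hX), hX⟩
  constructor
  · refine ⟨le_rfl, fun i hi => ⟨Or.inl hi.1, hi.2⟩, ?_, ?_, ?_⟩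
    · intro x _
      exact BMixA_ite_left hs
    · intro i hi x _
      exact Agr.when _ fun _ => (key i hi.2 hi.1 x).1
    · intro i hi x _
      exact Agr.when _ fun _ => (key i hi.2 hi.1 x).2
  · refine ⟨le_rfl, hd, ?_, ?_, ?_⟩
    · intro x _
      exact (BMixA_ite_left hs).symm
    · intro i hi x _
      have hi' := hd i hi
      exact Agr.when _ fun _ => (key i hi'.2 hi'.1 x).1.symm
    · intro i hi x _
      have hi' := hd i hi
      exact Agr.when _ fun _ => (key i hi'.2 hi'.1 x).2.symm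

/-- Mixtures of equal conditions with equal truth values are equal. -/
theorem mixB_congr {z' : W → RO P} {q' : RawB P W K} {X : Set W} {p : P} (hd : q.dom = q'.dom)
    (hz : ∀ i ∈ X, Agr p (z i) (z' i)) (he : EqOn X p q q') :
    EqOn X p (mixB zs z t q) (mixB zs z' t q') := by
  refine ⟨fun x => ?_, fun i hi x => ⟨?_, ?_⟩⟩
  · exact ((Agr.refl p _).inf (Agr.refl p _)).sup ((Agr.refl p _).inf (he.1 x))
  · exact ((hz i hi).inf (Agr.refl p _)).sup ((hz i hi).compl.inf (he.2 i hi x).1)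
  · refine (((hz i hi).inf (Agr.refl p _)).sup ((hz i hi).compl.inf (he.2 i hi x).2)).sup ?_
    rw [hd]
    exact Agr.refl p _

end Pool.Agent.LibLs83
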