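import Pool.Agent.LibLs83.BNamesA

/-! The generic sets. -/

namespace Pool.Agent.LibLs83

open Cardinal Set Pool.Agent.LibTk83 Pool.Agent.LibDm83

variable {P W K : Type} [Preorder P] [LinearOrder K] [LinearOrder W] [WellFoundedLT W]

/-- `α ∈ S`. -/
def sN (hK : Inac K) (dat : W → K → K → Bool → Set (P × RawB P W K)) (α : K) :
    RO (Comp (VQ dat)) where
  carrier := {y | y.p ∈ y.x.1.s α}
  lower := fun _ _ h hp => sB_lower h hp
  reg := fun _ h => sB_reg hK h

/-- `α ∈ A i`. -/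
def aN (hK : Inac K) (dat : W → K → K → Bool → Set (P × RawB P W K)) (i : W) (α : K) :
    RO (Comp (VQ dat)) where
  carrier := {y | y.p ∈ y.x.1.a i α}
  lower := fun _ _ h hp => aB_lower h hp
  reg := fun _ h => aB_reg hK h

/-- `α ∈ C i`. -/
def cN (hK : Inac K) (dat : W → K → K → Bool → Set (P × RawB P W K)) (i : W) (α : K) :
    RO (Comp (VQ dat)) where
  carrier := {y | y.p ∈ y.x.1.c i α}
  lower := fun _ _ h hp => cB_lower h hp
  reg := fun _ h => cB_reg hK h

variable {hK : Inac K} {dat : W → K → K → Bool → Set (P × RawB P W K)}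

theorem mem_sN {α : K} {y : Comp (VQ dat)} : y ∈ sN hK dat α ↔ y.p ∈ y.x.1.s α := Iff.rfl

theorem mem_aN {i : W} {α : K} {y : Comp (VQ dat)} :
    y ∈ aN hK dat i α ↔ y.p ∈ y.x.1.a i α := Iff.rfl

theorem mem_cN {i : W} {α : K} {y : Comp (VQ dat)} :
    y ∈ cN hK dat i α ↔ y.p ∈ y.x.1.c i α := Iff.rfl

end Pool.Agent.LibLs83
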