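import Pool.Agent.LibLs83.BMixVal
import Pool.Agent.LibLs83.BEnl
import Pool.Agent.LibLs83.BClosed

/-! Task BNamesA: the generic sets have regular open truth values. -/

namespace Pool.Agent.LibLs83

open Cardinal Set Pool.Agent.LibTk83 Pool.Agent.LibDm83

variable {P W K : Type} [Preorder P] [LinearOrder K] [LinearOrder W] [WellFoundedLT W]
  {dat : W → K → K → Bool → Set (P × RawB P W K)}

theorem BNamesA_bd (hK : Inac K) (a b : K) : ∃ H, a < H ∧ b < H := by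
  obtain ⟨H, hH⟩ := hK.bdd {a, b}
    ((Cardinal.mk_lt_aleph0_iff.2 (Set.toFinite _).to_subtype).trans hK.unc)
  exact ⟨H, hH a (by simp), hH b (by simp)⟩

theorem BNamesA_sup_when {φ : Prop} {b c : RO P} (h : ¬ φ) : b ⊔ when φ c = b := by
  have h0 : when φ c ≤ b := by
    rw [RO.le_def]
    intro p hp
    exact absurd (mem_when.1 hp).1 h
  exact sup_eq_left.2 h0

/-- Each condition has an extension `r` of height larger than `α` with `i` among its coordinates,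
and nothing new is decided at `α`: `enlB H {i} ∅ (fun _ => ⊥) q` (`Inac.bdd` gives `H`). -/
theorem exists_extB (hK : Inac K) (i : W) (α : K) {q : RawB P W K} (hq : ValB dat q) :
    ∃ r, ValB dat r ∧ GLe r q ∧ α < r.h ∧ i ∈ r.dom ∧ (∀ x, r.s x = q.s x) ∧
      (∀ x, r.a i x = q.a i x) ∧ r.c i α = q.c i α := by
  obtain ⟨H, hα, hpH⟩ := BNamesA_bd hK α q.h
  have hsmall : #({i} : Set W) < #K :=
    (Cardinal.mk_lt_aleph0_iff.2 (Set.toFinite _).to_subtype).trans hK.unc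
  refine ⟨enlB H {i} ∅ (fun _ => ⊥) q, ValB_enlB hK hq hpH hsmall (Set.empty_subset _),
    enlB_le hq.1 hpH, hα, Or.inr rfl, fun _ => rfl, fun x => ?_, ?_⟩
  · exact BNamesA_sup_when fun h => h.2
  · exact BNamesA_sup_when fun h => hα.ne h.1

theorem BNamesA_le {y z : Comp (VQ dat)} (h : y ≤ z) : y.p ≤ z.p ∧ FLe y.p y.x.1 z.x.1 :=
  ⟨(Comp.le_iff.1 h).1, mem_leB.1 (Comp.le_iff.1 h).2⟩

theorem sB_lower {α : K} {y z : Comp (VQ dat)} (h : y ≤ z) (hz : z.p ∈ z.x.1.s α) :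
    y.p ∈ y.x.1.s α := by
  obtain ⟨h1, h2⟩ := BNamesA_le h
  exact (h2.s α (z.x.2.1.s_lt α _ hz).le y.p le_rfl).2 (RO.mem_of_le h1 hz)

theorem aB_lower {i : W} {α : K} {y z : Comp (VQ dat)} (h : y ≤ z) (hz : z.p ∈ z.x.1.a i α) :
    y.p ∈ y.x.1.a i α := by
  obtain ⟨h1, h2⟩ := BNamesA_le h
  exact (h2.a i (z.x.2.1.a_dom i α _ hz) α (z.x.2.1.a_lt i α _ hz) y.p le_rfl).2
    (RO.mem_of_le h1 hz)

theorem cB_lower {i : W} {α : K} {y z : Comp (VQ dat)} (h : y ≤ z) (hz : z.p ∈ z.x.1.c i α) :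
    y.p ∈ y.x.1.c i α := by
  obtain ⟨h1, h2⟩ := BNamesA_le h
  exact (h2.c i (z.x.2.1.c_dom i α _ hz) α (z.x.2.1.c_le i α _ hz) y.p le_rfl).2
    (RO.mem_of_le h1 hz)

theorem BNamesA_mk {y : Comp (VQ dat)} {p : P} (hp : p ≤ y.p) {r : RawB P W K}
    (hr : ValB dat r) (hl : GLe r y.x.1) : (⟨p, ⟨r, hr⟩⟩ : Comp (VQ dat)) ≤ y :=
  Comp.le_iff.2 ⟨hp, mem_leB.2 (hl p)⟩

/- `RO.mem_of_dense` in `P`: for `p' ≤ y.p` apply `h` to `⟨p', r⟩`, where `r` is the extension of `y.x` of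
height larger than `α` with the same `s` (`exists_upB`). -/
theorem sB_reg (hK : Inac K) {α : K} {y : Comp (VQ dat)}
    (h : ∀ z ≤ y, ∃ w ≤ z, w.p ∈ w.x.1.s α) : y.p ∈ y.x.1.s α := by
  obtain ⟨H, hα, hpH⟩ := BNamesA_bd hK α y.x.1.h
  obtain ⟨r, hr, hry, hrH, hrs, -, -⟩ := exists_upB hK y.x.2 hpH.le
  refine RO.mem_of_dense fun p' hp' => ?_
  obtain ⟨w, hw, hwα⟩ := h ⟨p', ⟨r, hr⟩⟩ (BNamesA_mk hp' hr hry)
  obtain ⟨h1, h2⟩ := BNamesA_le hw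
  refine ⟨w.p, h1, ?_⟩
  rw [← hrs]
  exact (h2.s α (by simpa [hrH] using hα.le) w.p le_rfl).1 hwα

theorem aB_reg (hK : Inac K) {i : W} {α : K} {y : Comp (VQ dat)}
    (h : ∀ z ≤ y, ∃ w ≤ z, w.p ∈ w.x.1.a i α) : y.p ∈ y.x.1.a i α := by
  obtain ⟨r, hr, hry, hαr, hir, -, hra, -⟩ := exists_extB hK i α y.x.2
  refine RO.mem_of_dense fun p' hp' => ?_
  obtain ⟨w, hw, hwα⟩ := h ⟨p', ⟨r, hr⟩⟩ (BNamesA_mk hp' hr hry)
  obtain ⟨h1, h2⟩ := BNamesA_le hw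
  refine ⟨w.p, h1, ?_⟩
  rw [← hra]
  exact (h2.a i hir α hαr w.p le_rfl).1 hwα

theorem cB_reg (hK : Inac K) {i : W} {α : K} {y : Comp (VQ dat)}
    (h : ∀ z ≤ y, ∃ w ≤ z, w.p ∈ w.x.1.c i α) : y.p ∈ y.x.1.c i α := by
  obtain ⟨r, hr, hry, hαr, hir, -, -, hrc⟩ := exists_extB hK i α y.x.2
  refine RO.mem_of_dense fun p' hp' => ?_
  obtain ⟨w, hw, hwα⟩ := h ⟨p', ⟨r, hr⟩⟩ (BNamesA_mk hp' hr hry)
  obtain ⟨h1, h2⟩ := BNamesA_le hw
  refine ⟨w.p, h1, ?_⟩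
  rw [← hrc]
  exact (h2.c i hir α hαr.le w.p le_rfl).1 hwα

end Pool.Agent.LibLs83
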