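import Pool.Agent.LibLs83.BPTow
import Pool.Agent.LibLs83.BMixVal

/-! Task BPInit: the first partial condition. -/

namespace Pool.Agent.LibLs83

open Cardinal Set Pool.Agent.LibTk83 Pool.Agent.LibDm83

theorem BPInit_when_neg {P : Type} [Preorder P] {φ : Prop} (h : ¬ φ) (b : RO P) :
    when φ b = ⊥ :=
  RO.ext fun _ => ⟨fun hp => absurd hp.1 h, fun hp => absurd hp RO.not_mem_bot⟩

theorem BPInit_when_pos {P : Type} [Preorder P] {φ : Prop} (h : φ) (b : RO P) :
    when φ b = b :=
  RO.ext fun _ => ⟨fun hp => hp.2, fun hp => ⟨h, hp⟩⟩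

variable {P W K : Type} [Preorder P] [LinearOrder K] [LinearOrder W] [WellFoundedLT W]
  {dat : W → K → K → Bool → Set (P × RawB P W K)} {E : K → P → RawB P W K → Prop}
  {q : RawB P W K}

/- Take `v = ∅`, `f = ⊥` and the condition of height `H > γ` (`Inac.bdd`) without coordinates, with
`s x = T.Z f x ⊔ when (x = γ) ⊤` (`exists_valB`). The coordinates of `T.S n f` are in `U`, so none of
them is in `T.Y ∅`. -/
theorem exists_partB (hK : Inac K) (T : TowB dat E q) {γ : K} (hγ : IsLUB (range T.H) γ) :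
    Nonempty (PartB T γ) := by
  obtain ⟨H, hH⟩ := hK.bdd {γ} (by
    rw [Cardinal.mk_singleton]
    exact Cardinal.one_lt_aleph0.trans hK.unc)
  have hH' : γ < H := hH γ rfl
  let f : W → RO P := fun _ => ⊥
  have hY : ∀ (n : ℕ) (i : W), i ∈ (T.S n f).dom → i ∉ T.Y ∅ := by
    intro n i hi hY
    have h1 := T.dom_sub n f hi
    exact lt_irrefl i (hY i h1 (by simp))
  refine ⟨{
    v := ∅
    f := f
    r := ⟨H, fun x => T.Z f x ⊔ when (x = γ) ⊤, ∅, fun _ _ => ⊥, fun _ _ => ⊥⟩
    sub := empty_subset _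
    init := fun i hi => absurd hi (notMem_empty i)
    val := exists_valB hK H _ ?_ ?_
    mem := ?_
    dom := empty_subset _
    le := fun n p => ?_ }⟩
  · intro x p hp
    obtain ⟨p', -, h | h⟩ := exists_of_mem_sup hp
    · exact (T.Z_lt hγ h).trans hH'
    · exact h.1 ▸ hH'
  · intro x p hp
    obtain ⟨p', -, h | h⟩ := exists_of_mem_sup hp
    · exact T.Z_cof h
    · have hx : x = γ := h.1
      rw [hx]
      exact T.cofW hγ
  · change T.Z f γ ⊔ when (γ = γ) ⊤ = ⊤
    rw [BPInit_when_pos rfl, sup_top_eq]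
  · have hh : (T.S n f).h = T.H n := (T.sys n).h_eq _
    refine {
      h := ?_
      dom := fun i hi => absurd hi.2 (hY n i hi.1)
      s := fun x hx => ?_
      a := fun i hi => absurd hi.2 (hY n i hi.1)
      c := fun i hi => absurd hi.2 (hY n i hi.1) }
    · change (T.S n f).h ≤ H
      rw [hh]
      exact ((T.H_lt hγ n).trans hH').le
    · have hx' : x ≤ T.H n := by
        rw [← hh]; exact hx
      change Agr p (T.Z f x ⊔ when (x = γ) ⊤) ((T.S n f).s x)
      rw [BPInit_when_neg (fun h : x = γ => absurd (T.H_lt hγ n) (not_lt.2 (h ▸ hx'))),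
        sup_bot_eq, T.Z_eq hx']
      exact Agr.refl _ _

end Pool.Agent.LibLs83
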