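import Pool.Agent.LibLs83.BPTowA

/-! Task BPTow: the limits of a tower (as in `LibDm83/PTow.lean`). -/

namespace Pool.Agent.LibLs83

open Cardinal Set Pool.Agent.LibTk83 Pool.Agent.LibDm83

variable {P W K : Type} [Preorder P] [LinearOrder K] [LinearOrder W] [WellFoundedLT W]
  {dat : W → K → K → Bool → Set (P × RawB P W K)} {E : K → P → RawB P W K → Prop}
  {q : RawB P W K}

namespace TowB

variable (T : TowB dat E q)

/-- The union of the `A i` of the members `S n σ`. -/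
noncomputable def A (σ : W → RO P) (i : W) (x : K) : RO P := ⨆ n, (T.S n σ).a i x

/-- The union of the `C i` of the members `S n σ`. -/
noncomputable def C (σ : W → RO P) (i : W) (x : K) : RO P := ⨆ n, (T.S n σ).c i x

/-- The union of the `s` of the members `S n σ`. -/
noncomputable def Z (σ : W → RO P) (x : K) : RO P := ⨆ n, (T.S n σ).s x

theorem A_eq {σ : W → RO P} {i : W} {n : ℕ} (hi : i ∈ (T.S n σ).dom) {x : K} (hx : x < T.H n) :
    T.A σ i x = (T.S n σ).a i x := by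
  refine RO.ext fun p => ⟨fun hp => ?_, fun hp => mem_iSup_of n hp⟩
  refine RO.mem_of_dense fun p' hp' => ?_
  obtain ⟨p'', hp'', m, hm⟩ := exists_of_mem_iSup (RO.mem_of_le hp' hp)
  refine ⟨p'', hp'', ?_⟩
  have hw := ((T.sys m).val σ).1
  rcases le_total m n with h | h
  · exact ((T.S_anti h σ p'').a i (hw.a_dom i x p'' hm) x (hw.a_lt i x p'' hm) p'' le_rfl).2 hm
  · exact ((T.S_anti h σ p'').a i hi x (by rw [(T.sys n).h_eq σ]; exact hx) p'' le_rfl).1 hm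

theorem C_eq {σ : W → RO P} {i : W} {n : ℕ} (hi : i ∈ (T.S n σ).dom) {x : K} (hx : x ≤ T.H n) :
    T.C σ i x = (T.S n σ).c i x := by
  refine RO.ext fun p => ⟨fun hp => ?_, fun hp => mem_iSup_of n hp⟩
  refine RO.mem_of_dense fun p' hp' => ?_
  obtain ⟨p'', hp'', m, hm⟩ := exists_of_mem_iSup (RO.mem_of_le hp' hp)
  refine ⟨p'', hp'', ?_⟩
  have hw := ((T.sys m).val σ).1
  rcases le_total m n with h | h
  · exact ((T.S_anti h σ p'').c i (hw.c_dom i x p'' hm) x (hw.c_le i x p'' hm) p'' le_rfl).2 hm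
  · exact ((T.S_anti h σ p'').c i hi x (by rw [(T.sys n).h_eq σ]; exact hx) p'' le_rfl).1 hm

theorem Z_eq {σ : W → RO P} {n : ℕ} {x : K} (hx : x ≤ T.H n) :
    T.Z σ x = (T.S n σ).s x := by
  refine RO.ext fun p => ⟨fun hp => ?_, fun hp => mem_iSup_of n hp⟩
  refine RO.mem_of_dense fun p' hp' => ?_
  obtain ⟨p'', hp'', m, hm⟩ := exists_of_mem_iSup (RO.mem_of_le hp' hp)
  refine ⟨p'', hp'', ?_⟩
  have hw := ((T.sys m).val σ).1
  rcases le_total m n with h | h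
  · exact ((T.S_anti h σ p'').s x (hw.s_lt x p'' hm).le p'' le_rfl).2 hm
  · exact ((T.S_anti h σ p'').s x (by rw [(T.sys n).h_eq σ]; exact hx) p'' le_rfl).1 hm

theorem A_mark {σ : W → RO P} {i : W} (hi : i ∈ T.U) : T.A σ i (T.m i) = σ i := by
  obtain ⟨n, hn⟩ := T.mem_dom hi
  rw [T.A_eq (hn σ).1 ((T.sys n).lt i (hn σ).2)]
  exact (T.sys n).mark σ i (hn σ).2

theorem m_lt {γ : K} (hγ : IsLUB (range T.H) γ) {i : W} (hi : i ∈ T.U) : T.m i < γ := by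
  obtain ⟨n, hn⟩ := mem_iUnion.1 hi
  exact ((T.sys n).lt i hn).trans (T.H_lt hγ n)

theorem A_lt {γ : K} (hγ : IsLUB (range T.H) γ) {σ : W → RO P} {i : W} {x : K} {p : P}
    (hx : p ∈ T.A σ i x) : x < γ := by
  obtain ⟨p', -, n, hn⟩ := exists_of_mem_iSup hx
  have h1 := ((T.sys n).val σ).1.a_lt i x p' hn
  rw [(T.sys n).h_eq σ] at h1
  exact h1.trans (T.H_lt hγ n)

theorem C_lt {γ : K} (hγ : IsLUB (range T.H) γ) {σ : W → RO P} {i : W} {x : K} {p : P}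
    (hx : p ∈ T.C σ i x) : x < γ := by
  obtain ⟨p', -, n, hn⟩ := exists_of_mem_iSup hx
  have h1 := ((T.sys n).val σ).1.c_le i x p' hn
  rw [(T.sys n).h_eq σ] at h1
  exact h1.trans_lt (T.H_lt hγ n)

theorem Z_lt {γ : K} (hγ : IsLUB (range T.H) γ) {σ : W → RO P} {x : K} {p : P}
    (hx : p ∈ T.Z σ x) : x < γ := by
  obtain ⟨p', -, n, hn⟩ := exists_of_mem_iSup hx
  have h1 := ((T.sys n).val σ).1.s_lt x p' hn
  rw [(T.sys n).h_eq σ] at h1
  exact h1.trans (T.H_lt hγ n)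

theorem Z_cof {σ : W → RO P} {x : K} {p : P} (hx : p ∈ T.Z σ x) : CofW x := by
  obtain ⟨p', -, n, hn⟩ := exists_of_mem_iSup hx
  exact ((T.sys n).val σ).1.s_cof x p' hn

/- For `g < γ` take `n` with `g < H n` and `i ∈ (S n σ).dom`. -/
theorem C_clo {γ : K} (hγ : IsLUB (range T.H) γ) {σ : W → RO P} {i : W} (hi : i ∈ T.U) {g : K}
    (hg : g < γ) (h0 : ∃ b, b < g) {p : P}
    (h : ∀ b < g, ∀ p' ≤ p, ∃ p'' ≤ p', ∃ x, b < x ∧ x < g ∧ p'' ∈ T.C σ i x) :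
    p ∈ T.C σ i g := by
  obtain ⟨n₁, h1⟩ := T.exists_lt_H hγ hg
  obtain ⟨n₂, h2⟩ := T.mem_dom hi
  have h3 : g < T.H (max n₁ n₂) := h1.trans_le (T.H_strictMono.monotone (le_max_left _ _))
  have h4 : i ∈ (T.S (max n₁ n₂) σ).dom := (T.S_anti (le_max_right n₁ n₂) σ p).dom (h2 σ).1
  rw [T.C_eq h4 h3.le]
  refine ((T.sys _).val σ).1.clo i h4 g ?_ h0 p ?_
  · rw [(T.sys _).h_eq σ]
    exact h3.le
  · intro b hb p' hp'
    obtain ⟨p'', hp'', x, hbx, hxg, hx⟩ := h b hb p' hp'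
    rw [T.C_eq h4 (hxg.trans h3).le] at hx
    exact ⟨p'', hp'', x, hbx, hxg, hx⟩

/-- The requirement of the condition `S n σ` at the coordinate `i`, in terms of the limit. -/
theorem T_ok {γ : K} (hγ : IsLUB (range T.H) γ) {σ : W → RO P} {i : W} {α : K} {p : P}
    (hp : p ∈ T.C σ i α) (hs : p ∈ T.Z σ α) {t : RawB P W K} (ht : (Lv dat i).V t)
    (hle : ∀ n, FLe p t (resB (Iio i) (T.S n σ))) :
    ∃ p' ≤ p, ∃ t', (Lv dat i).V t' ∧ FLe p' t' t ∧
      ∃ δ < α, ∃ b : Bool, p' ∈ bitB b (T.A σ i δ) ∧ (Lv dat i).F α δ b p' t' := by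
  obtain ⟨p', hp', n, hn⟩ := exists_of_mem_iSup hp
  have hv := (T.sys n).val σ
  have hd := hv.1.c_dom i α p' hn
  have hα : α ≤ T.H n := by
    have h1 := hv.1.c_le i α p' hn
    rwa [(T.sys n).h_eq σ] at h1
  have hs' : p' ∈ (T.S n σ).s α := by
    have h1 := RO.mem_of_le hp' hs
    rwa [T.Z_eq hα] at h1
  obtain ⟨p'', hp'', t', ht', hle', δ, hδ, b, hb, hF⟩ :=
    hv.2 i hd α p' hn hs' t ht ((hle n).mono hp')
  refine ⟨p'', hp''.trans hp', t', ht', hle', δ, hδ, b, ?_, hF⟩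
  rw [T.A_eq hd (hδ.trans_le hα)]
  exact hb

end TowB

end Pool.Agent.LibLs83
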