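import Pool.Agent.LibLs83.BPart
import Pool.Agent.LibDm83.Small

/-! Task BPTowA: easy properties of towers (as in `LibDm83/PTow.lean`). -/

namespace Pool.Agent.LibLs83

open Cardinal Set Pool.Agent.LibTk83 Pool.Agent.LibDm83

variable {P W K : Type} [Preorder P] [LinearOrder K] [LinearOrder W] [WellFoundedLT W]
  {dat : W → K → K → Bool → Set (P × RawB P W K)} {E : K → P → RawB P W K → Prop}
  {q : RawB P W K}

namespace TowB

variable (T : TowB dat E q)

theorem S_anti {n m : ℕ} (h : n ≤ m) (σ : W → RO P) : GLe (T.S m σ) (T.S n σ) := by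
  induction m, h using Nat.le_induction with
  | base => exact GLe.refl _
  | succ m _ ih => exact (T.dec m σ).trans ih

theorem H_strictMono : StrictMono T.H := strictMono_nat_of_lt_succ T.lt

theorem H_lt {γ : K} (hγ : IsLUB (range T.H) γ) (n : ℕ) : T.H n < γ :=
  (T.lt n).trans_le (hγ.1 (mem_range_self (n + 1)))

theorem exists_lt_H {γ : K} (hγ : IsLUB (range T.H) γ) {β : K} (h : β < γ) : ∃ n, β < T.H n := by
  obtain ⟨_, ⟨n, rfl⟩, hn⟩ := (lt_isLUB_iff hγ).1 h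
  exact ⟨n, hn⟩

theorem cofW {γ : K} (hγ : IsLUB (range T.H) γ) : CofW γ :=
  ⟨T.H, fun n => T.H_lt hγ n, fun _ hb => T.exists_lt_H hγ hb⟩

theorem u_mono {n m : ℕ} (h : n ≤ m) : T.u n ⊆ T.u m :=
  monotone_nat_of_le_succ (f := T.u) (fun n => (T.sys n).sub) h

theorem dom_sub (n : ℕ) (σ : W → RO P) : (T.S n σ).dom ⊆ T.U := by
  rw [(T.sys n).dom_eq σ]
  exact subset_iUnion T.u (n + 1)

theorem mem_dom {i : W} (hi : i ∈ T.U) : ∃ n, ∀ σ, i ∈ (T.S n σ).dom ∧ i ∈ T.u n := by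
  obtain ⟨n, hn⟩ := mem_iUnion.1 hi
  refine ⟨n, fun σ => ⟨?_, hn⟩⟩
  rw [(T.sys n).dom_eq σ]
  exact (T.sys n).sub hn

theorem small_U (hK : Inac K) : #T.U < #K := by
  refine small_iUnion hK (by rw [Cardinal.mk_nat]; exact hK.unc) fun n => ?_
  refine (Cardinal.mk_le_mk_of_subset (T.sys n).sub).trans_lt ?_
  rw [← (T.sys n).dom_eq (fun _ => ⊥)]
  exact ((T.sys n).val _).1.small

theorem isLowerSet_Y (v : Set W) : IsLowerSet (T.Y v) :=
  fun _ _ hba ha i hi hv => lt_of_le_of_lt hba (ha i hi hv)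

/-- If `v` is an initial segment of `U`. -/
theorem Y_inter {v : Set W} (hv : v ⊆ T.U) (h : ∀ i ∈ v, ∀ j ∈ T.U, j ≤ i → j ∈ v) :
    T.U ∩ T.Y v = v := by
  ext j
  constructor
  · rintro ⟨h1, h2⟩
    by_contra h3
    exact lt_irrefl j (h2 j h1 h3)
  · intro hj
    refine ⟨hv hj, fun i hi hiv => ?_⟩
    by_contra h3
    exact hiv (h j hj i hi (not_lt.1 h3))

theorem Y_mono {v w : Set W} (h : v ⊆ w) : T.Y v ⊆ T.Y w :=
  fun _ hj i hi hiw => hj i hi (fun hv => hiw (h hv))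

theorem Y_U : T.Y T.U = Set.univ :=
  eq_univ_of_forall fun _ _ hi hi' => absurd hi hi'

theorem res_congr {X : Set W} (hX : IsLowerSet X) {σ τ : W → RO P}
    (h : ∀ i ∈ T.U, i ∈ X → σ i = τ i) (n : ℕ) : resB X (T.S n σ) = resB X (T.S n τ) := by
  have key : ∀ p, EqOn X p (T.S n σ) (T.S n τ) := fun p =>
    (T.sys n).coh X hX σ τ p fun i hi hiX => by
      rw [h i (mem_iUnion.2 ⟨n, hi⟩) hiX]
      exact Agr.refl _ _
  have when_true : ∀ {φ : Prop} (b : RO P), φ → when φ b = b := fun b hφ =>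
    RO.ext fun p => ⟨fun hp => hp.2, fun hp => ⟨hφ, hp⟩⟩
  have when_false : ∀ {φ : Prop} (b : RO P), ¬ φ → when φ b = ⊥ := fun b hφ =>
    RO.ext fun p => ⟨fun hp => absurd hp.1 hφ, fun hp => absurd hp RO.not_mem_bot⟩
  refine RawB.ext' ?_ ?_ ?_ ?_ ?_
  · show (T.S n σ).h = (T.S n τ).h
    rw [(T.sys n).h_eq, (T.sys n).h_eq]
  · intro x
    exact eq_of_agr fun p => ⟨p, le_rfl, (key p).1 x⟩
  · show (T.S n σ).dom ∩ X = (T.S n τ).dom ∩ X
    rw [(T.sys n).dom_eq, (T.sys n).dom_eq]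
  · intro i x
    show when (i ∈ X) ((T.S n σ).a i x) = when (i ∈ X) ((T.S n τ).a i x)
    by_cases hi : i ∈ X
    · rw [when_true _ hi, when_true _ hi]
      exact eq_of_agr fun p => ⟨p, le_rfl, ((key p).2 i hi x).1⟩
    · rw [when_false _ hi, when_false _ hi]
  · intro i x
    show when (i ∈ X) ((T.S n σ).c i x) = when (i ∈ X) ((T.S n τ).c i x)
    by_cases hi : i ∈ X
    · rw [when_true _ hi, when_true _ hi]
      exact eq_of_agr fun p => ⟨p, le_rfl, ((key p).2 i hi x).2⟩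
    · rw [when_false _ hi, when_false _ hi]

end TowB

end Pool.Agent.LibLs83
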