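import Pool.Agent.LibLs83.BFo

/-! Definition of the partial final conditions. -/

namespace Pool.Agent.LibLs83

open Cardinal Set Pool.Agent.LibTk83 Pool.Agent.LibDm83

section

variable {P W K : Type} [Preorder P] [LinearOrder K] [LinearOrder W] [WellFoundedLT W]
  {dat : W → K → K → Bool → Set (P × RawB P W K)} {E : K → P → RawB P W K → Prop}
  {q : RawB P W K}

/-- The coordinates of the tower. -/
def TowB.U (T : TowB dat E q) : Set W := ⋃ n, T.u n

/-- The lower set of the coordinates which are before all elements of `U` outside of `v`. -/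
def TowB.Y (T : TowB dat E q) (v : Set W) : Set W := {j | ∀ i ∈ T.U, i ∉ v → j < i}

/-- A condition with `γ ∈ S` on an initial segment `v` of the coordinates of the tower, stronger
than the members of the tower for a function `f` on `v`. -/
structure PartB (T : TowB dat E q) (γ : K) where
  v : Set W
  f : W → RO P
  r : RawB P W K
  sub : v ⊆ T.U
  init : ∀ i ∈ v, ∀ j ∈ T.U, j ≤ i → j ∈ v
  val : ValB dat r
  mem : r.s γ = ⊤
  dom : r.dom ⊆ T.Y v
  le : ∀ n, GLe r (resB (T.Y v) (T.S n f))

instance (T : TowB dat E q) (γ : K) : Preorder (PartB T γ) where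
  le x y := y.v ⊆ x.v ∧ (∀ i ∈ y.v, x.f i = y.f i) ∧ ∀ p, FLe p x.r y.r
  le_refl _ := ⟨subset_rfl, fun _ _ => rfl, fun _ => FLe.refl _ _⟩
  le_trans _ _ _ h h' := ⟨h'.1.trans h.1, fun i hi => (h.2.1 i (h'.1 hi)).trans (h'.2.1 i hi),
    fun p => (h.2.2 p).trans (h'.2.2 p)⟩

/-- Add the coordinate `i`, with `A i = A` and `C i = C ∪ {r.h}`. -/
noncomputable def addcB {P W K : Type} [Preorder P] (i : W) (A C : K → RO P) (r : RawB P W K) :
    RawB P W K where
  h := r.h
  s := r.s
  dom := insert i r.dom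
  a := fun j x => r.a j x ⊔ when (j = i) (A x)
  c := fun j x => r.c j x ⊔ when (j = i) (C x) ⊔ when (j = i ∧ x = r.h) ⊤

end

end Pool.Agent.LibLs83
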