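import Pool.Agent.LibLs83.BTool

/-! Task BRes: restriction. -/

namespace Pool.Agent.LibLs83

open Cardinal Set Pool.Agent.LibTk83 Pool.Agent.LibDm83

variable {P W K : Type} [Preorder P] [LinearOrder K]

theorem RawB.ext' {q r : RawB P W K} (h1 : q.h = r.h) (h2 : ∀ x, q.s x = r.s x)
    (h3 : q.dom = r.dom) (h4 : ∀ i x, q.a i x = r.a i x) (h5 : ∀ i x, q.c i x = r.c i x) :
    q = r := by
  obtain ⟨h, s, dom, a, c⟩ := q
  obtain ⟨h', s', dom', a', c'⟩ := r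
  have h6 : s = s' := funext h2
  have h7 : a = a' := funext fun i => funext (h4 i)
  have h8 : c = c' := funext fun i => funext (h5 i)
  simp only at h1 h3
  subst h1 h3 h6 h7 h8
  rfl

theorem le_resB (X : Set W) (q : RawB P W K) : GLe q (resB X q) := by
  intro p
  exact ⟨le_rfl, inter_subset_left, fun _ _ _ _ => Iff.rfl,
    fun _ hi _ _ _ _ => ⟨fun hx => ⟨hi.2, hx⟩, fun hx => hx.2⟩,
    fun _ hi _ _ _ _ => ⟨fun hx => ⟨hi.2, hx⟩, fun hx => hx.2⟩⟩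

theorem resB_mono (X : Set W) {p : P} {q r : RawB P W K} (h : FLe p q r) :
    FLe p (resB X q) (resB X r) := by
  exact ⟨h.h, inter_subset_inter_left X h.dom, h.s,
    fun i hi x hx => Agr.when _ fun _ => h.a i hi.1 x hx,
    fun i hi x hx => Agr.when _ fun _ => h.c i hi.1 x hx⟩

theorem resB_anti {X Y : Set W} (h : X ⊆ Y) (q : RawB P W K) : GLe (resB Y q) (resB X q) := by
  intro p
  exact ⟨le_rfl, inter_subset_inter_right _ h, fun _ _ _ _ => Iff.rfl,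
    fun _ hi _ _ _ _ => ⟨fun hx => ⟨hi.2, hx.2⟩, fun hx => ⟨h hi.2, hx.2⟩⟩,
    fun _ hi _ _ _ _ => ⟨fun hx => ⟨hi.2, hx.2⟩, fun hx => ⟨h hi.2, hx.2⟩⟩⟩

theorem resB_resB_of_subset {X Y : Set W} (h : X ⊆ Y) (q : RawB P W K) :
    resB X (resB Y q) = resB X q := by
  refine RawB.ext' rfl (fun _ => rfl) ?_ ?_ ?_
  · ext i
    exact ⟨fun hi => ⟨hi.1.1, hi.2⟩, fun hi => ⟨⟨hi.1, h hi.2⟩, hi.2⟩⟩
  · intro i x
    exact RO.ext fun p => ⟨fun hp => ⟨hp.1, hp.2.2⟩, fun hp => ⟨hp.1, h hp.1, hp.2⟩⟩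
  · intro i x
    exact RO.ext fun p => ⟨fun hp => ⟨hp.1, hp.2.2⟩, fun hp => ⟨hp.1, h hp.1, hp.2⟩⟩

theorem WFB_resB (X : Set W) {q : RawB P W K} (h : WFB q) : WFB (resB X q) := by
  refine ⟨lt_of_le_of_lt (Cardinal.mk_le_mk_of_subset inter_subset_left) h.small, h.s_lt, h.s_cof,
    fun i x p hx => h.a_lt i x p hx.2, fun i x p hx => h.c_le i x p hx.2,
    fun i x p hx => ⟨h.a_dom i x p hx.2, hx.1⟩, fun i x p hx => ⟨h.c_dom i x p hx.2, hx.1⟩, ?_, ?_⟩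
  · intro i hi
    refine RO.ext fun p => ⟨fun _ => RO.mem_top, fun _ => ⟨hi.2, ?_⟩⟩
    have h1 : p ∈ q.c i q.h := by
      rw [h.top_c i hi.1]
      exact RO.mem_top
    exact h1
  · intro i hi g hg h0 p h1
    refine ⟨hi.2, h.clo i hi.1 g hg h0 p fun b hb p' hp' => ?_⟩
    obtain ⟨p'', hp'', x, hbx, hxg, hx⟩ := h1 b hb p' hp'
    exact ⟨p'', hp'', x, hbx, hxg, hx.2⟩

theorem resB_eq_self {X : Set W} {q : RawB P W K} (h : WFB q) (hX : q.dom ⊆ X) :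
    resB X q = q := by
  refine RawB.ext' rfl (fun _ => rfl) (inter_eq_left.2 hX) ?_ ?_
  · intro i x
    exact RO.ext fun p => ⟨fun hx => hx.2, fun hx => ⟨hX (h.a_dom i x p hx), hx⟩⟩
  · intro i x
    exact RO.ext fun p => ⟨fun hx => hx.2, fun hx => ⟨hX (h.c_dom i x p hx), hx⟩⟩

/-- From `EqOn` to the order of the restrictions. -/
theorem EqOn.res_fle {X : Set W} {p : P} {q r : RawB P W K} (h : EqOn X p q r) (hh : r.h ≤ q.h)
    (hd : r.dom ∩ X ⊆ q.dom) : FLe p (resB X q) (resB X r) := by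
  exact ⟨hh, fun i hi => ⟨hd hi, hi.2⟩, fun x _ => h.1 x,
    fun i hi x _ => Agr.when _ fun _ => (h.2 i hi.2 x).1,
    fun i hi x _ => Agr.when _ fun _ => (h.2 i hi.2 x).2⟩

/-- Order between restrictions, from the order between more restrictions. -/
theorem fle_resB_of_forall {ι : Type} {X : Set W} {Y : ι → Set W} {p : P} {q r : RawB P W K}
    [Nonempty ι] (h : r.dom ∩ X ⊆ ⋃ k, Y k) (hp : ∀ k, FLe p q (resB (Y k) r)) :
    FLe p q (resB X r) := by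
  obtain ⟨k₀⟩ := ‹Nonempty ι›
  refine ⟨(hp k₀).h, ?_, (hp k₀).s, ?_, ?_⟩
  · intro i hi
    obtain ⟨k, hk⟩ := mem_iUnion.1 (h hi)
    exact (hp k).dom ⟨hi.1, hk⟩
  · intro i hi x hx r hr
    obtain ⟨k, hk⟩ := mem_iUnion.1 (h hi)
    have h1 := (hp k).a i ⟨hi.1, hk⟩ x hx r hr
    exact ⟨fun hx' => ⟨hi.2, (h1.1 hx').2⟩, fun hx' => h1.2 ⟨hk, hx'.2⟩⟩
  · intro i hi x hx r hr
    obtain ⟨k, hk⟩ := mem_iUnion.1 (h hi)
    have h1 := (hp k).c i ⟨hi.1, hk⟩ x hx r hr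
    exact ⟨fun hx' => ⟨hi.2, (h1.1 hx').2⟩, fun hx' => h1.2 ⟨hk, hx'.2⟩⟩

end Pool.Agent.LibLs83
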