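import Pool.Agent.LibLs83.BLim

/-! Task BSysLim: limits of systems. -/

namespace Pool.Agent.LibLs83

open Cardinal Set Pool.Agent.LibTk83 Pool.Agent.LibDm83

section

variable {P W K : Type} [Preorder P] [LinearOrder K] [LinearOrder W] [WellFoundedLT W]

/-- The systems for given `u` and `m`; the components are the height, the domain and the system. -/
def SyB (dat : W → K → K → Bool → Set (P × RawB P W K)) (u : Set W) (m : W → K) : Type :=
  {x : K × Set W × ((W → RO P) → RawB P W K) // SysB dat u x.2.1 m x.1 x.2.2}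

instance (dat : W → K → K → Bool → Set (P × RawB P W K)) (u : Set W) (m : W → K) :
    Preorder (SyB dat u m) where
  le x y := ∀ σ p, FLe p (x.1.2.2 σ) (y.1.2.2 σ)
  le_refl x _ _ := ⟨le_rfl, subset_rfl, fun _ _ _ _ => Iff.rfl, fun _ _ _ _ _ _ => Iff.rfl,
    fun _ _ _ _ _ _ => Iff.rfl⟩
  le_trans x y z h h' σ p := by
    have h1 := h σ p
    have h2 := h' σ p
    exact ⟨h2.h.trans h1.h, h2.dom.trans h1.dom,
      fun x hx r hr => (h1.s x (hx.trans h2.h) r hr).trans (h2.s x hx r hr),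
      fun i hi x hx r hr => (h1.a i (h2.dom hi) x (hx.trans_le h2.h) r hr).trans (h2.a i hi x hx r hr),
      fun i hi x hx r hr => (h1.c i (h2.dom hi) x (hx.trans h2.h) r hr).trans (h2.c i hi x hx r hr)⟩

end

variable {P W K : Type} [Preorder P] [LinearOrder K] [LinearOrder W] [WellFoundedLT W]
  {dat : W → K → K → Bool → Set (P × RawB P W K)}

/- `S σ = limB H (fun x : C => x.1.1.2.2 σ) (fun _ => ⊤)` for an upper bound `H` of the heights
(`Inac.bdd`); `ValB_limB`, `limB_le`, `limB_congr`. If `C` is empty take `x₀`. -/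
theorem sysB_closed (hK : Inac K) {u : Set W} {m : W → K} (x₀ : SyB dat u m)
    (C : Set (SyB dat u m)) (hC : IsChain (· ≤ ·) C) (h : #C < #K) : ∃ y, ∀ x ∈ C, y ≤ x := by
  rcases C.eq_empty_or_nonempty with hE | hne
  · exact ⟨x₀, fun x hx => by rw [hE] at hx; exact absurd hx (notMem_empty _)⟩
  have hCn : Nonempty C := hne.to_subtype
  obtain ⟨H, hH⟩ := hK.bdd (range fun x : C => x.1.1.1) (mk_range_le.trans_lt h)
  have hHk : ∀ k : C, k.1.1.1 < H := fun k => hH _ ⟨k, rfl⟩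
  have hv : ∀ (σ : W → RO P) (k : C), ValB dat (k.1.1.2.2 σ) := fun σ k => k.1.2.val σ
  have hd : ∀ σ : W → RO P, DirB (fun x : C => x.1.1.2.2 σ) (fun _ => (⊤ : RO P)) := by
    intro σ k l p _ _
    by_cases hkl : k = l
    · subst hkl
      exact ⟨p, le_rfl, k, RO.mem_top, FLe.refl _ _, FLe.refl _ _⟩
    · have hkl' : k.1 ≠ l.1 := fun hh => hkl (Subtype.ext hh)
      rcases hC k.2 l.2 hkl' with h1 | h1
      · exact ⟨p, le_rfl, k, RO.mem_top, FLe.refl _ _, h1 σ p⟩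
      · exact ⟨p, le_rfl, l, RO.mem_top, h1 σ p, FLe.refl _ _⟩
  have hH' : ∀ (σ : W → RO P) (k : C), (k.1.1.2.2 σ).h ≤ H := fun σ k => by
    rw [k.1.2.h_eq]
    exact (hHk k).le
  have hsys : SysB dat u {i | ∃ k : C, i ∈ k.1.1.2.1} m H
      (fun σ => limB H (fun x : C => x.1.1.2.2 σ) (fun _ => (⊤ : RO P))) := by
    refine ⟨fun σ => ValB_limB hK h (hv σ) (hd σ) (hH' σ), fun _ => rfl, ?_, ?_, ?_, ?_, ?_⟩
    · intro σ
      ext i
      constructor
      · rintro ⟨k, hk⟩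
        exact ⟨k, by rw [← k.1.2.dom_eq σ]; exact hk⟩
      · rintro ⟨k, hk⟩
        exact ⟨k, by rw [k.1.2.dom_eq σ]; exact hk⟩
    · intro i hi
      obtain ⟨k⟩ := hCn
      exact ⟨k, k.1.2.sub hi⟩
    · intro X hX σ τ p hστ
      refine limB_congr (fun k => ?_) (fun k => ?_) fun k => k.1.2.coh X hX σ τ p hστ
      · rw [k.1.2.h_eq, k.1.2.h_eq]
      · rw [k.1.2.dom_eq, k.1.2.dom_eq]
    · intro i hi
      obtain ⟨k⟩ := hCn
      exact (k.1.2.lt i hi).trans (hHk k)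
    · intro σ i hi
      have h1 : ∀ k : C, (⊤ : RO P) ⊓ (k.1.1.2.2 σ).a i (m i) = σ i := fun k => by
        rw [k.1.2.mark σ i hi, top_inf_eq]
      show (⨆ k : C, (⊤ : RO P) ⊓ (k.1.1.2.2 σ).a i (m i)) = σ i
      rw [iSup_congr h1, iSup_const]
  refine ⟨⟨(H, {i | ∃ k : C, i ∈ k.1.1.2.1},
    fun σ => limB H (fun x : C => x.1.1.2.2 σ) (fun _ => (⊤ : RO P))), hsys⟩, fun x hx σ p => ?_⟩
  exact limB_le (y := fun x : C => x.1.1.2.2 σ) (e := fun _ => (⊤ : RO P))
    (fun k => (hv σ k).1) (hd σ) (hH' σ) (k := ⟨x, hx⟩) RO.mem_top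

end Pool.Agent.LibLs83
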