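import Pool.Agent.LibLs83.BInsert
import Pool.Agent.LibLs83.BSysLim
import Pool.Agent.LibLs83.BExh

/-! Task BRound: a round. -/

namespace Pool.Agent.LibLs83

open Cardinal Set Pool.Agent.LibTk83 Pool.Agent.LibDm83

variable {P W K : Type} [Preorder P] [LinearOrder K] [LinearOrder W] [WellFoundedLT W]
  [WellFoundedLT K] {dat : W → K → K → Bool → Set (P × RawB P W K)}

/- Let `N` be the set of functions from `u` to `RO P` given by `Base.small`; extend each member of it by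
`⊥` to `W`. Use `tasks'` (in `LibDm83/Tasks.lean`) for the systems below the given one and the index
type `N`: the set for `τ` consists of the systems `y` such that for all `p` there is `p' ≤ p` with
`E p' (y τ)`. It is dense by `exhaust` (for the systems below the given one), with `insert_sysB`. For
an arbitrary `σ` and `p` there are `p' ≤ p` and `τ ∈ N` with `Agr p' (σ i) (τ i)` for `i ∈ u`, so
`EqOn univ p' (S' σ) (S' τ)` and `FLe p' (S' σ) (S' τ)` (`EqOn.fle`). -/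
theorem roundB (hK : Inac K) (hb : Base P K) {u d : Set W} {m : W → K} {H : K}
    {S : (W → RO P) → RawB P W K} (h : SysB dat u d m H S) (E : P → RawB P W K → Prop)
    (hE : ∀ p q, E p q → ∀ p' ≤ p, ∀ q', ValB dat q' → FLe p' q' q → E p' q')
    (hden : ∀ σ q, ValB dat q → GLe q (S σ) → ∀ p, ∃ p' ≤ p, ∃ q', ValB dat q' ∧ FLe p' q' q ∧
      E p' q') :
    ∃ H' d' S', SysB dat u d' m H' S' ∧ (∀ σ, GLe (S' σ) (S σ)) ∧ ∀ σ p, ∃ p' ≤ p, E p' (S' σ) := by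
  classical
  have hu : #u < #K := by
    have h1 := (h.val (fun _ => ⊥)).1.small
    rw [h.dom_eq] at h1
    exact (mk_le_mk_of_subset h.sub).trans_lt h1
  let x₀ : SyB dat u m := ⟨(H, d, S), h⟩
  obtain ⟨N, hN, hN'⟩ := hb.small u hu
  let ext : (u → RO P) → W → RO P := fun τ i => if hi : i ∈ u then τ ⟨i, hi⟩ else ⊥
  have hext : ∀ (τ : u → RO P) (i : W) (hi : i ∈ u), ext τ i = τ ⟨i, hi⟩ := fun τ i hi => dif_pos hi
  have hcl : ∀ C : Set {y : SyB dat u m // y ≤ x₀}, IsChain (· ≤ ·) C → #C < #K →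
      ∃ y, ∀ x ∈ C, y ≤ x := by
    intro C hC hCc
    rcases C.eq_empty_or_nonempty with hne | ⟨z, hz⟩
    · refine ⟨⟨x₀, le_refl _⟩, fun x hx => ?_⟩
      rw [hne] at hx
      exact absurd hx (Set.notMem_empty x)
    · have h1 : IsChain (· ≤ ·) (Subtype.val '' C : Set (SyB dat u m)) := by
        rintro _ ⟨a, ha, rfl⟩ _ ⟨b, hb, rfl⟩ hab
        have hab' : a ≠ b := fun h => hab (by rw [h])
        exact hC ha hb hab'
      obtain ⟨y, hy⟩ := sysB_closed hK x₀ (Subtype.val '' C) h1 (mk_image_le.trans_lt hCc)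
      exact ⟨⟨y, (hy _ ⟨z, hz, rfl⟩).trans z.2⟩, fun x hx => hy _ ⟨x, hx, rfl⟩⟩
  obtain ⟨y, -, hy⟩ := tasks' hK.unc.le hcl hN
    (fun τ => {y : {y : SyB dat u m // y ≤ x₀} | ∀ p, ∃ p' ≤ p, E p' (y.1.1.2.2 (ext τ.1))})
    (fun τ x hx y hyx p => by
      obtain ⟨p', hp', h1⟩ := hx p
      exact ⟨p', hp', hE p' _ h1 p' le_rfl _ (y.1.2.val _) (hyx (ext τ.1) p')⟩)
    (by
      intro τ x
      refine exhaust hK hb.cc hcl
        (fun p (y : {y : SyB dat u m // y ≤ x₀}) => E p (y.1.1.2.2 (ext τ.1))) ?_ ?_ x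
      · intro p s h1 p' hp' s' hs'
        exact hE p _ h1 p' hp' _ (s'.1.2.val _) (hs' (ext τ.1) p')
      · intro p s
        obtain ⟨p', hp', q', hq', h1, h2⟩ := hden (ext τ.1) (s.1.1.2.2 (ext τ.1)) (s.1.2.val _)
          (fun p => s.2 (ext τ.1) p) p
        obtain ⟨S', hS1, hS2, hS3⟩ := insert_sysB hK s.1.2 (ext τ.1) hq' h1
        refine ⟨p', hp', ⟨⟨(q'.h, q'.dom, S'), hS1⟩, fun σ p => (hS2 σ p).trans (s.2 σ p)⟩,
          fun σ p => hS2 σ p, ?_⟩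
        exact hE p' _ h2 p' le_rfl _ (hS1.val _) hS3)
    ⟨x₀, le_refl _⟩
  refine ⟨y.1.1.1, y.1.1.2.1, y.1.1.2.2, y.1.2, fun σ p => y.2 σ p, fun σ p => ?_⟩
  obtain ⟨p', hp', τ, hτ, h1⟩ := hN' (fun i => σ i) p
  obtain ⟨p'', hp'', h2⟩ := hy ⟨τ, hτ⟩ p'
  refine ⟨p'', hp''.trans hp', hE p'' _ h2 p'' le_rfl _ (y.1.2.val _) ?_⟩
  refine EqOn.fle (y.1.2.coh Set.univ isLowerSet_univ _ _ _ fun i hi _ => ?_) ?_ ?_
  · rw [hext τ i hi]
    exact (h1 ⟨i, hi⟩).mono hp''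
  · rw [y.1.2.h_eq, y.1.2.h_eq]
  · rw [y.1.2.dom_eq, y.1.2.dom_eq]

end Pool.Agent.LibLs83
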