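import Pool.Agent.LibLs83.BToolA

/-! Task BTool: basic properties of the order and of `EqOn`. -/

namespace Pool.Agent.LibLs83

open Cardinal Set Pool.Agent.LibTk83 Pool.Agent.LibDm83

section FLe

variable {P W K : Type} [Preorder P] [LinearOrder K]

theorem FLe.refl (p : P) (q : RawB P W K) : FLe p q q :=
  ⟨le_rfl, subset_rfl, fun _ _ => Agr.refl _ _, fun _ _ _ _ => Agr.refl _ _,
    fun _ _ _ _ => Agr.refl _ _⟩

theorem FLe.trans {p : P} {q r t : RawB P W K} (h : FLe p q r) (h' : FLe p r t) : FLe p q t :=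
  ⟨h'.h.trans h.h, h'.dom.trans h.dom,
    fun x hx => (h.s x (hx.trans h'.h)).trans (h'.s x hx),
    fun i hi x hx => (h.a i (h'.dom hi) x (lt_of_lt_of_le hx h'.h)).trans (h'.a i hi x hx),
    fun i hi x hx => (h.c i (h'.dom hi) x (hx.trans h'.h)).trans (h'.c i hi x hx)⟩

theorem FLe.mono {p p' : P} {q r : RawB P W K} (h : FLe p q r) (hp : p' ≤ p) : FLe p' q r :=
  ⟨h.h, h.dom, fun x hx => (h.s x hx).mono hp, fun i hi x hx => (h.a i hi x hx).mono hp,
    fun i hi x hx => (h.c i hi x hx).mono hp⟩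

theorem FLe.of_dense {p : P} {q r : RawB P W K} (h : ∀ p' ≤ p, ∃ p'' ≤ p', FLe p'' q r) :
    FLe p q r := by
  obtain ⟨p0, -, h0⟩ := h p le_rfl
  refine ⟨h0.h, h0.dom, ?_, ?_, ?_⟩
  · intro x hx
    refine Agr.of_dense fun p' hp' => ?_
    obtain ⟨p'', hp'', h1⟩ := h p' hp'
    exact ⟨p'', hp'', h1.s x hx⟩
  · intro i hi x hx
    refine Agr.of_dense fun p' hp' => ?_
    obtain ⟨p'', hp'', h1⟩ := h p' hp'
    exact ⟨p'', hp'', h1.a i hi x hx⟩
  · intro i hi x hx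
    refine Agr.of_dense fun p' hp' => ?_
    obtain ⟨p'', hp'', h1⟩ := h p' hp'
    exact ⟨p'', hp'', h1.c i hi x hx⟩

theorem GLe.refl (q : RawB P W K) : GLe q q := fun p => FLe.refl p q

theorem GLe.trans {q r t : RawB P W K} (h : GLe q r) (h' : GLe r t) : GLe q t :=
  fun p => (h p).trans (h' p)

theorem EqOn.refl (X : Set W) (p : P) (q : RawB P W K) : EqOn X p q q :=
  ⟨fun _ => Agr.refl _ _, fun _ _ _ => ⟨Agr.refl _ _, Agr.refl _ _⟩⟩

theorem EqOn.symm {X : Set W} {p : P} {q r : RawB P W K} (h : EqOn X p q r) : EqOn X p r q :=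
  ⟨fun x => (h.1 x).symm, fun i hi x => ⟨(h.2 i hi x).1.symm, (h.2 i hi x).2.symm⟩⟩

theorem EqOn.trans {X : Set W} {p : P} {q r t : RawB P W K} (h : EqOn X p q r)
    (h' : EqOn X p r t) : EqOn X p q t :=
  ⟨fun x => (h.1 x).trans (h'.1 x),
    fun i hi x => ⟨(h.2 i hi x).1.trans (h'.2 i hi x).1, (h.2 i hi x).2.trans (h'.2 i hi x).2⟩⟩

theorem EqOn.mono {X : Set W} {p p' : P} {q r : RawB P W K} (h : EqOn X p q r) (hp : p' ≤ p) :
    EqOn X p' q r :=
  ⟨fun x => (h.1 x).mono hp, fun i hi x => ⟨(h.2 i hi x).1.mono hp, (h.2 i hi x).2.mono hp⟩⟩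

theorem EqOn.subset {X Y : Set W} {p : P} {q r : RawB P W K} (h : EqOn X p q r) (hX : Y ⊆ X) :
    EqOn Y p q r :=
  ⟨h.1, fun i hi x => h.2 i (hX hi) x⟩

/-- If `q`, `r` have the same height and domain and are equal below `p` then `p` forces both to be
below each other. -/
theorem EqOn.fle {p : P} {q r : RawB P W K} (h : EqOn univ p q r) (hh : q.h = r.h)
    (hd : q.dom = r.dom) : FLe p q r :=
  ⟨hh.ge, hd.ge, fun x _ => h.1 x, fun i _ x _ => (h.2 i (mem_univ i) x).1,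
    fun i _ x _ => (h.2 i (mem_univ i) x).2⟩

end FLe

end Pool.Agent.LibLs83
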