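import Pool.Agent.LibLs83.BDefs

/-! Task BToolA: tools for the algebra `RO P`. -/

namespace Pool.Agent.LibLs83

open Cardinal Set Pool.Agent.LibTk83 Pool.Agent.LibDm83

section RO

variable {P : Type} [Preorder P]

theorem decide_mem (z : RO P) (p : P) : ∃ p' ≤ p, p' ∈ z ∨ p' ∈ zᶜ := by
  by_cases h : ∃ r, r ≤ p ∧ r ∈ z
  · obtain ⟨r, hr, hz⟩ := h
    exact ⟨r, hr, Or.inl hz⟩
  · push Not at h
    exact ⟨p, le_rfl, Or.inr (RO.mem_compl.2 h)⟩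

theorem not_mem_compl {z : RO P} {p : P} (h : p ∈ z) : p ∉ zᶜ :=
  fun h' => RO.mem_compl.1 h' p le_rfl h

theorem mem_ite_left {z a b : RO P} {p : P} (h : p ∈ z) : p ∈ (z ⊓ a) ⊔ (zᶜ ⊓ b) ↔ p ∈ a := by
  constructor
  · intro h1
    refine RO.mem_of_dense fun q hq => ?_
    obtain ⟨r, hr, h2⟩ := RO.mem_sup.1 h1 q hq
    refine ⟨r, hr, ?_⟩
    rcases h2 with h2 | h2
    · exact (RO.mem_inf.1 h2).2
    · exact absurd (RO.mem_of_le (hr.trans hq) h) (RO.mem_compl.1 (RO.mem_inf.1 h2).1 r le_rfl)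
  · intro h1
    exact RO.mem_sup.2 fun q hq => ⟨q, le_rfl, Or.inl (RO.mem_of_le hq (RO.mem_inf.2 ⟨h, h1⟩))⟩

theorem mem_ite_right {z a b : RO P} {p : P} (h : p ∈ zᶜ) : p ∈ (z ⊓ a) ⊔ (zᶜ ⊓ b) ↔ p ∈ b := by
  constructor
  · intro h1
    refine RO.mem_of_dense fun q hq => ?_
    obtain ⟨r, hr, h2⟩ := RO.mem_sup.1 h1 q hq
    refine ⟨r, hr, ?_⟩
    rcases h2 with h2 | h2
    · exact absurd (RO.mem_inf.1 h2).1 (RO.mem_compl.1 h r (hr.trans hq))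
    · exact (RO.mem_inf.1 h2).2
  · intro h1
    exact RO.mem_sup.2 fun q hq => ⟨q, le_rfl, Or.inr (RO.mem_of_le hq (RO.mem_inf.2 ⟨h, h1⟩))⟩

theorem mem_sup_of_left {a b : RO P} {p : P} (h : p ∈ a) : p ∈ a ⊔ b :=
  RO.mem_sup.2 fun q hq => ⟨q, le_rfl, Or.inl (RO.mem_of_le hq h)⟩

theorem mem_sup_of_right {a b : RO P} {p : P} (h : p ∈ b) : p ∈ a ⊔ b :=
  RO.mem_sup.2 fun q hq => ⟨q, le_rfl, Or.inr (RO.mem_of_le hq h)⟩

theorem mem_iSup_of {I : Type} {b : I → RO P} {p : P} (i : I) (h : p ∈ b i) : p ∈ ⨆ i, b i :=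
  RO.mem_iSup.2 fun q hq => ⟨q, le_rfl, i, RO.mem_of_le hq h⟩

theorem exists_of_mem_iSup {I : Type} {b : I → RO P} {p : P} (h : p ∈ ⨆ i, b i) :
    ∃ p' ≤ p, ∃ i, p' ∈ b i :=
  RO.mem_iSup.1 h p le_rfl

theorem exists_of_mem_sup {a b : RO P} {p : P} (h : p ∈ a ⊔ b) : ∃ p' ≤ p, p' ∈ a ∨ p' ∈ b :=
  RO.mem_sup.1 h p le_rfl

theorem Agr.refl (p : P) (b : RO P) : Agr p b b :=
  fun _ _ => Iff.rfl

theorem Agr.symm {p : P} {b c : RO P} (h : Agr p b c) : Agr p c b :=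
  fun r hr => (h r hr).symm

theorem Agr.trans {p : P} {a b c : RO P} (h : Agr p a b) (h' : Agr p b c) : Agr p a c :=
  fun r hr => (h r hr).trans (h' r hr)

theorem Agr.mono {p p' : P} {b c : RO P} (h : Agr p b c) (hp : p' ≤ p) : Agr p' b c :=
  fun r hr => h r (hr.trans hp)

theorem Agr.of_dense {p : P} {b c : RO P} (h : ∀ p' ≤ p, ∃ p'' ≤ p', Agr p'' b c) :
    Agr p b c := by
  intro r hr
  constructor
  · intro hb
    refine RO.mem_of_dense fun q hq => ?_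
    obtain ⟨p'', hp'', h''⟩ := h q (hq.trans hr)
    exact ⟨p'', hp'', (h'' p'' le_rfl).1 (RO.mem_of_le (hp''.trans hq) hb)⟩
  · intro hc
    refine RO.mem_of_dense fun q hq => ?_
    obtain ⟨p'', hp'', h''⟩ := h q (hq.trans hr)
    exact ⟨p'', hp'', (h'' p'' le_rfl).2 (RO.mem_of_le (hp''.trans hq) hc)⟩

theorem eq_of_agr {b c : RO P} (h : ∀ p, ∃ p' ≤ p, Agr p' b c) : b = c :=
  RO.ext fun p => Agr.of_dense (p := p) (fun p' _ => h p') p le_rfl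

theorem Agr.inf {p : P} {b c b' c' : RO P} (h : Agr p b c) (h' : Agr p b' c') :
    Agr p (b ⊓ b') (c ⊓ c') := by
  intro r hr
  rw [RO.mem_inf, RO.mem_inf, h r hr, h' r hr]

theorem Agr.sup {p : P} {b c b' c' : RO P} (h : Agr p b c) (h' : Agr p b' c') :
    Agr p (b ⊔ b') (c ⊔ c') := by
  intro r hr
  rw [RO.mem_sup, RO.mem_sup]
  constructor
  · intro h1 q hq
    obtain ⟨t, ht, h2⟩ := h1 q hq
    have htp : t ≤ p := (ht.trans hq).trans hr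
    exact ⟨t, ht, h2.imp (h t htp).1 (h' t htp).1⟩
  · intro h1 q hq
    obtain ⟨t, ht, h2⟩ := h1 q hq
    have htp : t ≤ p := (ht.trans hq).trans hr
    exact ⟨t, ht, h2.imp (h t htp).2 (h' t htp).2⟩

theorem Agr.compl {p : P} {b c : RO P} (h : Agr p b c) : Agr p bᶜ cᶜ := by
  intro r hr
  rw [RO.mem_compl, RO.mem_compl]
  exact ⟨fun h1 q hq hc => h1 q hq ((h q (hq.trans hr)).2 hc),
    fun h1 q hq hb => h1 q hq ((h q (hq.trans hr)).1 hb)⟩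

theorem Agr.iSup {I : Type} {p : P} {b c : I → RO P} (h : ∀ i, Agr p (b i) (c i)) :
    Agr p (⨆ i, b i) (⨆ i, c i) := by
  intro r hr
  rw [RO.mem_iSup, RO.mem_iSup]
  constructor
  · intro h1 q hq
    obtain ⟨t, ht, i, h2⟩ := h1 q hq
    exact ⟨t, ht, i, (h i t ((ht.trans hq).trans hr)).1 h2⟩
  · intro h1 q hq
    obtain ⟨t, ht, i, h2⟩ := h1 q hq
    exact ⟨t, ht, i, (h i t ((ht.trans hq).trans hr)).2 h2⟩

theorem Agr.when {p : P} {b c : RO P} (φ : Prop) (h : φ → Agr p b c) :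
    Agr p (when φ b) (when φ c) := by
  intro r hr
  rw [mem_when, mem_when]
  exact ⟨fun h1 => ⟨h1.1, (h h1.1 r hr).1 h1.2⟩, fun h1 => ⟨h1.1, (h h1.1 r hr).2 h1.2⟩⟩

theorem Agr.bit {p : P} {x y : RO P} (b : Bool) (h : Agr p x y) : Agr p (bitB b x) (bitB b y) := by
  cases b
  · exact h
  · exact Agr.compl h

end RO

end Pool.Agent.LibLs83
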