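import Pool.Agent.LibLs83.LDecP

/-! Task LSmall: there are few names for subsets of small sets. -/

namespace Pool.Agent.LibLs83

open Cardinal Set Pool.Agent.LibTk83 Pool.Agent.LibDm83

variable {K : Type} [LinearOrder K] [WellFoundedLT K] {D : Par K}

/-- The inverse image of a regular open set under the restriction to `X` (compare `RO.comap`). -/
theorem exists_comap {X : Set K} (hX : IsLowerSet X) (b : RO (PX D X)) :
    ∃ b' : RO (PL D), ∀ p, p ∈ b' ↔ ct X p ∈ b := by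
  refine ⟨⟨{p | ct X p ∈ b}, fun p q hqp hp => RO.mem_of_le (ct_mono hX hqp) hp,
    fun p hp => ?_⟩, fun p => Iff.rfl⟩
  change ct X p ∈ b
  refine RO.mem_of_dense fun r hr => ?_
  obtain ⟨r', hr', hr''⟩ := hp (gl X (up r) p) (gl_le hX hr)
  refine ⟨ct X r', ?_, hr''⟩
  have h := ct_mono hX hr'
  rwa [ct_gl hX] at h

private theorem LSmall_rho {ν : K} (t : PX D (Iic ν)ᶜ) (b : RO (PL D)) :
    ∃ c : RO (PX D (Iic ν)), ∀ r, r ∈ c ↔ gl (Iic ν) (up r) (up t) ∈ b := by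
  have hX : IsLowerSet (Iic ν) := isLowerSet_Iic ν
  refine ⟨⟨{r | gl (Iic ν) (up r) (up t) ∈ b},
    fun p q hqp hp => RO.mem_of_le (gl_mono hX hqp le_rfl) hp, fun r hr => ?_⟩, fun r => Iff.rfl⟩
  change gl (Iic ν) (up r) (up t) ∈ b
  refine RO.mem_of_dense fun s hs => ?_
  have h1 : ct (Iic ν) s ≤ r := by
    have h := ct_mono hX hs
    rwa [ct_gl hX] at h
  obtain ⟨r', hr', hr''⟩ := hr _ h1
  have h2 : gl (Iic ν) (up r') s ≤ s := gl_le hX hr'
  exact ⟨_, h2, RO.mem_of_le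
    (le_gl (gl_le_left hX r' s) (h2.trans (hs.trans (gl_le_right _ _ _)))) hr''⟩

omit [WellFoundedLT K] in
private theorem LSmall_card {P X : Type} [Preorder P] (hK : Inac K) (hP : #P < #K) (hX : #X < #K) :
    #(X → RO P) < #K := by
  have h1 : #(Σ _ : X, P) < #K := hK.sum X (fun _ => P) hX fun _ => hP
  refine lt_of_le_of_lt ?_ (hK.pow _ h1)
  refine Cardinal.mk_le_of_injective (f := fun ρ : X → RO P => {z : Σ _ : X, P | z.2 ∈ ρ z.1}) ?_
  intro ρ ρ' h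
  funext x
  ext p
  have h2 : (⟨x, p⟩ : Σ _ : X, P) ∈ {z : Σ _ : X, P | z.2 ∈ ρ z.1} ↔
      (⟨x, p⟩ : Σ _ : X, P) ∈ {z : Σ _ : X, P | z.2 ∈ ρ' z.1} := by
    have h3 : {z : Σ _ : X, P | z.2 ∈ ρ z.1} = {z : Σ _ : X, P | z.2 ∈ ρ' z.1} := h
    rw [h3]
  exact h2

/- Let `ν` be such that `#X ≤ #(Iio ν)` and let `b'` be the least inaccessible above `ν`. Let `N` be the
set of the functions `x ↦ exists_comap (ρ x)`, for `ρ : X → RO (PX D (Iic ν))`. Given `σ` and `p` let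
`t ≤ ct (Iic ν)ᶜ p` be as in `decideP`, `p' = gl (Iic ν) p t` and `ρ x = {r | gl (Iic ν) r t ∈ σ x}`
(this is regular open). Below `p'`: if `s ∈ σ x` then `ct (Iic ν) s ∈ ρ x`, as otherwise some
`r' ≤ ct (Iic ν) s` has `gl (Iic ν) r' t ∈ (σ x)ᶜ`, and `gl (Iic ν) r' s` is below this and below `s`. -/
theorem small_PL (hK : Inac K) (hD : IsPar D) (hin : ∀ ν : K, ∃ b, ν < b ∧ Inac (Iio b))
    (X : Type) (hX : #X < #K) : ∃ N : Set (X → RO (PL D)), #N < #K ∧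
      ∀ σ : X → RO (PL D), ∀ p, ∃ p' ≤ p, ∃ τ ∈ N, ∀ x, Agr p' (σ x) (τ x) := by
  classical
  obtain ⟨ν, hν⟩ : ∃ ν : K, #X ≤ #(Iio ν) := by
    obtain ⟨f⟩ := hX.le
    obtain ⟨ν, hν⟩ := hK.bdd (range f) (mk_range_le.trans_lt hX)
    refine ⟨ν, Cardinal.mk_le_of_injective (f := fun x : X => (⟨f x, hν _ ⟨x, rfl⟩⟩ : Iio ν)) ?_⟩
    intro x y h
    exact f.injective (congrArg Subtype.val h)
  obtain ⟨b', ⟨hνb, hb'⟩, hmin⟩ := (wellFounded_lt (α := K)).has_min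
    {b | ν < b ∧ Inac (Iio b)} (hin ν)
  have hmin' : ∀ b, ν < b → Inac (Iio b) → b' ≤ b := fun b h1 h2 => not_lt.1 (hmin b ⟨h1, h2⟩)
  have hI : #X < #(Iio b') := by
    refine hν.trans_lt ?_
    have h := hb'.iio ⟨ν, hνb⟩
    rwa [card_Iio_Iio] at h
  have hlow : IsLowerSet (Iic ν) := isLowerSet_Iic ν
  refine ⟨range fun (ρ : X → RO (PX D (Iic ν))) (x : X) => (exists_comap hlow (ρ x)).choose,
    mk_range_le.trans_lt (LSmall_card hK (card_PX_lt hK ν) hX), fun σ p => ?_⟩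
  obtain ⟨t, ht, hdec⟩ := decideP hK hD hb' hνb hmin' hI σ (ct (Iic ν)ᶜ p)
  choose ρ hρ using fun x => LSmall_rho t (σ x)
  refine ⟨gl (Iic ν) (up (ct (Iic ν) p)) (up t), ?_, _, ⟨ρ, rfl⟩, fun x s hs => ?_⟩
  · conv_rhs => rw [← gl_ct (Iic ν) p]
    exact gl_mono hlow le_rfl ht
  · rw [(exists_comap hlow (ρ x)).choose_spec s, hρ]
    have hst : s ≤ up t := hs.trans (gl_le_right _ _ _)
    constructor
    · intro hsx
      rw [← hρ]
      refine RO.mem_of_dense fun r hr => ?_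
      obtain ⟨r', hr', h⟩ := hdec x r
      refine ⟨r', hr', ?_⟩
      rw [hρ]
      rcases h with h | h
      · exact h
      · exfalso
        have h2 : gl (Iic ν) (up r') s ≤ s := gl_le hlow (hr'.trans hr)
        exact RO.mem_compl.1 h _ (le_gl (gl_le_left hlow r' s) (h2.trans hst))
          (RO.mem_of_le h2 hsx)
    · intro h
      exact RO.mem_of_le (le_gl (le_up_ct _ _) hst) h

end Pool.Agent.LibLs83
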