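import Pool.Agent.LibLs83.CStr
import Pool.Agent.LibLs83.LSmall

/-! Task CBase: the preparation has the properties of a base. -/

namespace Pool.Agent.LibLs83

open Cardinal Set Pool.Agent.LibTk83 Pool.Agent.LibDm83

variable {K : Type} [LinearOrder K] [WellFoundedLT K] {D : Par K} {Θ X : Type}
  {U : Ultrafilter X} {β : X → K} {T : X → Set Θ}

/- Otherwise let `f : K → A` be injective. By `normP` the restriction of `f (β x)` to `Iio (β x)` is the
same condition `p` for almost all `x`. Take such an `x`, and then such an `x'` with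
`supp (f (β x)) ⊆ Iio (β x')` and `β x < β x'`. The condition `gl (Iio (β x')) (f (β x)) (f (β x'))` is
below `f (β x)` and below `f (β x')`: the coordinates of `p` are below `β x`. -/
theorem LStr.cc (S : LStr D Θ U β T) (A : Set (PL D))
    (hA : ∀ p ∈ A, ∀ q ∈ A, p ≠ q → ¬ ∃ r, r ≤ p ∧ r ≤ q) : #A < #K := by
  by_contra hcon
  obtain ⟨f⟩ : Nonempty (K ↪ A) := (Cardinal.le_def K A).1 (not_lt.1 hcon)
  obtain ⟨p, hp⟩ := S.normP (fun x => up (ct (Iio (β x)) (f (β x)).1))
    (Filter.Eventually.of_forall fun x => (ct (Iio (β x)) (f (β x)).1).2.2)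
  obtain ⟨x, hx⟩ := hp.exists
  obtain ⟨m, hm⟩ := (f (β x)).1.2.1.1.1
  obtain ⟨x', hx', hmx', hxx'⟩ := (hp.and ((S.fineK m).and (S.fineK (β x)))).exists
  obtain ⟨r, hr⟩ : ∃ r, r = (f (β x)).1 := ⟨_, rfl⟩
  obtain ⟨t, ht⟩ : ∃ t, t = (f (β x')).1 := ⟨_, rfl⟩
  rw [← hr] at hx hm
  rw [← ht] at hx'
  have hlow : IsLowerSet (Iio (β x')) := isLowerSet_Iio (β x')
  have h1 : up (ct (Iio (β x')) r) = r := up_ct (hm.trans (Iio_subset_Iio hmx'.le))
  have h2 : ct (Iio (β x')) r ≤ ct (Iio (β x')) t := by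
    rw [← up_le_up, h1, hx', ← hx]
    exact le_up_ct _ r
  have h3 : gl (Iio (β x')) (up (ct (Iio (β x')) r)) t ≤ t := gl_le hlow h2
  have h4 : gl (Iio (β x')) (up (ct (Iio (β x')) r)) t ≤ r := by
    have h5 := gl_le_left hlow (ct (Iio (β x')) r) t
    rwa [h1] at h5 ⊢
  have hne : r ≠ t := by
    intro h5
    rw [hr, ht] at h5
    exact hxx'.ne (f.injective (Subtype.ext h5))
  exact hA r (hr ▸ (f (β x)).2) t (ht ▸ (f (β x')).2) hne ⟨_, h4, h3⟩

theorem LStr.base (hK : Inac K) (hD : IsPar D) (S : LStr D Θ U β T) : Base (PL D) K where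
  ne := by
    have : Nonempty K := by
      have h : #K ≠ 0 := (lt_of_le_of_lt zero_le hK.unc).ne'
      exact mk_ne_zero_iff.1 h
    exact ⟨topL D univ⟩
  cc := S.cc
  card := card_PL_le hK
  small := small_PL hK hD S.inac_above

end Pool.Agent.LibLs83
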