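import Pool.Agent.LibLs83.CFil
import Pool.Agent.LibDm83.Defs

/-! Task CIio: almost all `x` meet `K` in an initial segment. -/

namespace Pool.Agent.LibLs83

open Cardinal Set Pool.Agent.LibDm83

variable {K Λ : Type} [LinearOrder K] [WellFoundedLT K] {U : Ultrafilter {x : Set Λ // #x < #K}}
  {i : K → Λ}

/- For `a : K` almost all `x` contain all `i c`, `c < a` (`nrm_all`, `Inac.iio`, `IsNormal.fine`), so
(`nrm_diag'`) for almost all `x` the set `{a | i a ∈ x}` is closed downwards; it is not all of `K` by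
its cardinality. -/
theorem exists_iio (hK : Inac K) (hU : IsNormal #K U) (hi : Function.Injective i) :
    ∀ᶠ x in (U : Filter {x : Set Λ // #x < #K}), ∃ b, {a | i a ∈ x.1} = Iio b := by
  have h1 : ∀ a : K, ∀ᶠ x in (U : Filter {x : Set Λ // #x < #K}), ∀ c : Iio a, i c.1 ∈ x.1 :=
    fun a => nrm_all hU (hK.iio a) (fun c x => i c.1 ∈ x.1) fun c => hU.fine (i c.1)
  have h2 := nrm_diag' hU hi (fun a x => ∀ c : Iio a, i c.1 ∈ x.1) h1
  filter_upwards [h2] with x hx
  have h3 : ∃ a, i a ∉ x.1 := by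
    by_contra hcon
    push Not at hcon
    have h4 : #K ≤ #x.1 :=
      mk_le_of_injective (f := fun a : K => (⟨i a, hcon a⟩ : x.1))
        fun a b hab => hi (congrArg Subtype.val hab)
    exact absurd x.2 (not_lt.2 h4)
  obtain ⟨b, hb, hmin⟩ := (wellFounded_lt (α := K)).has_min {a | i a ∉ x.1} h3
  refine ⟨b, ?_⟩
  ext a
  constructor
  · intro ha
    by_contra hab
    rcases eq_or_lt_of_le (not_lt.1 hab) with h4 | h4
    · exact hb (h4 ▸ ha)
    · exact hb (hx a ha ⟨b, h4⟩)
  · intro ha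
    by_contra hax
    exact hmin a hax ha

end Pool.Agent.LibLs83
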