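import Pool.Agent.LibLs83.LParA
import Pool.Agent.LibLs83.CIio

/-! Task CCardT: the cardinality of `x`. -/

namespace Pool.Agent.LibLs83

open Cardinal Set Pool.Agent.LibDm83

variable {K Λ Θ : Type} [LinearOrder K] [WellFoundedLT K]
  {U : Ultrafilter {x : Set Λ // #x < #K}} {i : K → Λ} {j : Θ → Λ}

/- Let `r` be a well-ordering of `Θ` all of whose proper initial segments have at most `2 ^ #K`
elements (`Cardinal.ord_eq`). For `w : Θ` let `f w` be an injective function from the elements below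
`w` to `Set K`. For `u, v` below `w` with `u ≠ v` let `g w u v : K` be in exactly one of `f w u`,
`f w v`. For almost all `x`, `x` is closed under `g` (`nrm_diag'` three times), so for `w ∈ x` there
are at most `2 ^ #(Iio b)` elements of `x` below `w`: `u ↦ f w u ∩ Iio b` is injective. So all proper
initial segments of `{u | j u ∈ x}` (for `r`) have at most `2 ^ #(Iio b)` elements, so it has at most
`succ (2 ^ #(Iio b))` elements (compare `card_Iio_le`). -/
theorem card_T_le (hK : Inac K) (hU : IsNormal #K U) (hi : Function.Injective i)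
    (hj : Function.Injective j) (hΘ : #Θ ≤ Order.succ (2 ^ #K)) :
    ∀ᶠ x in (U : Filter {x : Set Λ // #x < #K}), ∀ b, {a | i a ∈ x.1} = Iio b →
      #{u | j u ∈ x.1} ≤ Order.succ (2 ^ #(Iio b)) := by
  classical
  obtain ⟨r, wo, hr⟩ := Cardinal.ord_eq Θ
  -- the linear order on `Θ`
  let lo : LinearOrder Θ := linearOrderOfSTO r
  have hlt : ∀ u w : Θ, u < w ↔ r u w := fun u w => Iff.rfl
  have wf : WellFoundedLT Θ := ⟨wo.wf⟩
  have hseg : ∀ w : Θ, #{u : Θ // r u w} ≤ #(Set K) := by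
    intro w
    have h1 : #{u : Θ // r u w} < #Θ := by
      have h2 := Cardinal.card_typein_lt (r := r) w hr
      exact h2
    have h3 : #{u : Θ // r u w} < Order.succ (2 ^ #K) := lt_of_lt_of_le h1 hΘ
    rw [mk_set]
    exact Order.lt_succ_iff.mp h3
  have hf : ∀ w : Θ, ∃ f : {u : Θ // r u w} → Set K, Function.Injective f := by
    intro w
    obtain ⟨f⟩ := hseg w
    exact ⟨f, f.injective⟩
  choose f hf using hf
  obtain ⟨k0⟩ : Nonempty K := by
    have h : #K ≠ 0 := (lt_of_le_of_lt zero_le hK.unc).ne'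
    exact mk_ne_zero_iff.1 h
  have hg : ∀ w u v : Θ, ∃ k : K, ∀ (hu : r u w) (hv : r v w), u ≠ v →
      ¬ (k ∈ f w ⟨u, hu⟩ ↔ k ∈ f w ⟨v, hv⟩) := by
    intro w u v
    by_cases h : ∃ (hu : r u w) (hv : r v w), u ≠ v
    · obtain ⟨hu, hv, huv⟩ := h
      have h1 : f w ⟨u, hu⟩ ≠ f w ⟨v, hv⟩ := by
        intro h2
        exact huv (congrArg Subtype.val (hf w h2))
      by_contra hcon
      push Not at hcon
      apply h1
      ext k
      obtain ⟨hu', hv', -, h3⟩ := hcon k
      exact h3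
    · exact ⟨k0, fun hu hv huv => absurd ⟨hu, hv, huv⟩ h⟩
  choose g hg using hg
  have hclo : ∀ᶠ x in (U : Filter {x : Set Λ // #x < #K}), ∀ w, j w ∈ x.1 → ∀ u, j u ∈ x.1 →
      ∀ v, j v ∈ x.1 → i (g w u v) ∈ x.1 :=
    nrm_diag' hU hj _ fun w => nrm_diag' hU hj _ fun u => nrm_diag' hU hj _ fun v =>
      hU.fine (i (g w u v))
  filter_upwards [hclo] with x hx b hb
  refine card_le_of_Iio (K := {u | j u ∈ x.1}) fun w => ?_
  rw [Order.lt_succ_iff]
  have hmem : ∀ k : K, i k ∈ x.1 → k ∈ Iio b := by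
    intro k hk
    rw [← hb]
    exact hk
  rw [← mk_set]
  let F : Iio w → Set (Iio b) := fun u => {k | (k : K) ∈ f w.1 ⟨u.1.1, (hlt _ _).1 u.2⟩}
  refine mk_le_of_injective (f := F) ?_
  intro u v huv
  by_contra hne
  have hne' : u.1.1 ≠ v.1.1 := fun h => hne (Subtype.ext (Subtype.ext h))
  have h1 := hg w.1 u.1.1 v.1.1 ((hlt _ _).1 u.2) ((hlt _ _).1 v.2) hne'
  have h2 : g w.1 u.1.1 v.1.1 ∈ Iio b := hmem _ (hx w.1 w.2 u.1.1 u.1.2 v.1.1 v.1.2)
  apply h1
  have h3 := Set.ext_iff.mp huv ⟨g w.1 u.1.1 v.1.1, h2⟩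
  exact h3

end Pool.Agent.LibLs83
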