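import Pool.Agent.LibLs83.CClosB

/-! Task CClos: the restriction of a directed closed name is directed closed. -/

namespace Pool.Agent.LibLs83

open Cardinal Set Pool.Agent.LibTk83 Pool.Agent.LibDm83

variable {K : Type} [LinearOrder K] [WellFoundedLT K] {D : Par K} {Θ X : Type}
  {U : Ultrafilter X} {β : X → K} {T : X → Set Θ} {V : VPre (PL D) Θ}

/- Otherwise for almost all `x` (`Ultrafilter.eventually_not`) the condition of `closed_of_Iio` fails
for some `a x < β x` and `y x`, `e x` (`T x` is nonempty for almost all `x`). Apply `reflect_family`; the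
`z` is in `T x` for almost all `x` (`fineT`). -/
theorem LStr.closed_res [Nonempty Θ] (hK : Inac K) (hb : Base (PL D) K) (S : LStr D Θ U β T)
    (hV : VClosed #K V) :
    ∀ᶠ x in (U : Filter X), VClosed #(Iio (β x)) (resV V (β x) (T x)) := by
  classical
  by_contra hcon
  rw [← Ultrafilter.eventually_not] at hcon
  obtain ⟨u0⟩ : Nonempty Θ := inferInstance
  have hex : ∀ x, ∃ (a : K) (y : K → Θ) (e : K → RO (PX D (Iio (β x)))),
      (¬ VClosed #(Iio (β x)) (resV V (β x) (T x)) ∧ u0 ∈ T x) → a < β x ∧ (∀ i, y i ∈ T x) ∧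
        ¬ ∃ z ∈ T x, ∀ p, DirR V (β x) a y e p → ∀ k < a, p ∈ e k → up p ∈ V.le z (y k) := by
    intro x
    by_cases hx : ¬ VClosed #(Iio (β x)) (resV V (β x) (T x)) ∧ u0 ∈ T x
    · have : Nonempty (T x) := ⟨⟨u0, hx.2⟩⟩
      by_contra h1
      push Not at h1
      refine hx.1 (closed_of_Iio fun a ha y e => ?_)
      obtain ⟨-, h2⟩ := h1 a (fun i => (y i).1) e
      obtain ⟨z, hz, hz'⟩ := h2 ha fun i => (y i).2
      refine ⟨⟨z, hz⟩, fun p hp k hk hpk => ?_⟩
      refine hz' p (fun k hk l hl p' hp' h3 h4 => ?_) k hk hpk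
      obtain ⟨p'', hp'', j, h5, h6, h7⟩ := hp ⟨k, hk⟩ ⟨l, hl⟩ p' hp' h3 h4
      exact ⟨p'', hp'', j.1, j.2, h5, h6, h7⟩
    · exact ⟨β x, fun _ => u0, fun _ => ⊤, fun h => absurd h hx⟩
  choose a y e hae using hex
  have hgood : ∀ᶠ x in (U : Filter X),
      ¬ VClosed #(Iio (β x)) (resV V (β x) (T x)) ∧ u0 ∈ T x := hcon.and (S.fineT u0)
  obtain ⟨z, hz⟩ := S.reflect_family hK hb hV a y e
    (hgood.mono fun x hx => (hae x hx).1) (hgood.mono fun x hx i _ => (hae x hx).2.1 i)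
  obtain ⟨x, hx1, hx2, hx3⟩ := (hgood.and (hz.and (S.fineT z))).exists
  exact (hae x hx1).2.2 ⟨z, hx3, hx2⟩

end Pool.Agent.LibLs83
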