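import Pool.Agent.LibLs83.Iface

/-! Abstract reflection; task CRef: limits of regular open sets. -/

namespace Pool.Agent.LibLs83

open Cardinal Set Pool.Agent.LibTk83 Pool.Agent.LibDm83

/-- For the points `x` the set `A x` of conditions and the ordinal `β x` behave like the intersections
of a condition set and a cardinal with a small elementary submodel. -/
structure ReflA {X Q K : Type} [LinearOrder K] (U : Ultrafilter X) (A : X → Set Q) (β : X → K) :
    Prop where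
  fine : ∀ y, ∀ᶠ x in (U : Filter X), y ∈ A x
  diag : ∀ Φ : Q → X → Prop, (∀ y, ∀ᶠ x in (U : Filter X), Φ y x) →
    ∀ᶠ x in (U : Filter X), ∀ y ∈ A x, Φ y x
  fineK : ∀ a, ∀ᶠ x in (U : Filter X), a < β x
  diagK : ∀ Φ : K → X → Prop, (∀ a, ∀ᶠ x in (U : Filter X), Φ a x) →
    ∀ᶠ x in (U : Filter X), ∀ a < β x, Φ a x

/-- The properties of the map `h` from the reflected conditions to strong conditions. -/
structure HProp {Q K : Type} [Preorder Q] [LinearOrder K] (A : Set Q) (b : K) (F : K → RO Q)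
    (h : Q → Q) : Prop where
  le : ∀ y ∈ A, h y ≤ y
  mono : ∀ y ∈ A, ∀ y' ∈ A, y' ≤ y → h y' ≤ h y
  red : ∀ y ∈ A, ∀ z ≤ h y, ∃ y' ∈ A, y' ≤ y ∧ z ≤ h y' ∧ ∀ y'' ∈ A, y'' ≤ y' →
    ∃ z' ≤ z, z' ≤ h y''
  dec : ∀ δ < b, ∀ y ∈ A, ∃ y' ∈ A, y' ≤ y ∧ (h y' ∈ F δ ∨ h y' ∈ (F δ)ᶜ)

variable {X Q K : Type} [Preorder Q] [LinearOrder K] {U : Ultrafilter X} {A : X → Set Q}
  {β : X → K}

/-- The set of the `y` which are in `e x` for almost all `x` is regular open if this holds for almost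
all of the sets `e x` (relative to `A x`). -/
theorem ReflA.limRO (R : ReflA U A β) (e : X → Set Q)
    (h1 : ∀ᶠ x in (U : Filter X), ∀ y ∈ A x, ∀ y' ∈ A x, y' ≤ y → y ∈ e x → y' ∈ e x)
    (h2 : ∀ᶠ x in (U : Filter X), ∀ y ∈ A x,
      (∀ y' ∈ A x, y' ≤ y → ∃ y'' ∈ A x, y'' ≤ y' ∧ y'' ∈ e x) → y ∈ e x) :
    ∃ E : RO Q, (∀ y, y ∈ E ↔ ∀ᶠ x in (U : Filter X), y ∈ e x) ∧
      ∀ᶠ x in (U : Filter X), ∀ y ∈ A x, (y ∈ E ↔ y ∈ e x) := by
  classical
  let E : RO Q :=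
    { carrier := {y | ∀ᶠ x in (U : Filter X), y ∈ e x}
      lower := by
        intro y y' h hy
        filter_upwards [R.fine y, R.fine y', h1, hy] with x hx hx' hx1 hyx
        exact hx1 y hx y' hx' h hyx
      reg := by
        intro y h
        have hd := R.diag (fun y' x => y' ≤ y → ∃ y'' ∈ A x, y'' ≤ y' ∧ y'' ∈ e x) (by
          intro y'
          by_cases hy' : y' ≤ y
          · obtain ⟨r, hr, hre⟩ := h y' hy'
            filter_upwards [R.fine r, hre] with x hx hxe _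
            exact ⟨r, hx, hr, hxe⟩
          · exact Filter.Eventually.of_forall fun x hh => absurd hh hy')
        filter_upwards [hd, h2, R.fine y] with x hx hx2 hxy
        exact hx2 y hxy hx }
  have hE : ∀ y, y ∈ E ↔ ∀ᶠ x in (U : Filter X), y ∈ e x := fun y => Iff.rfl
  refine ⟨E, hE, R.diag (fun y x => (y ∈ E ↔ y ∈ e x)) fun y => ?_⟩
  by_cases hy : y ∈ E
  · filter_upwards [(hE y).1 hy] with x hx
    exact ⟨fun _ => hx, fun _ => hy⟩
  · have hy' : ∀ᶠ x in (U : Filter X), ¬ y ∈ e x := by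
      rw [Ultrafilter.eventually_not]
      exact fun h => hy ((hE y).2 h)
    filter_upwards [hy'] with x hx
    exact ⟨fun h => absurd h hy, fun h => absurd h hx⟩

/-- Complements are reflected. -/
theorem ReflA.compl (R : ReflA U A β) (E : RO Q) : ∀ᶠ x in (U : Filter X), ∀ y ∈ A x,
    y ∉ Eᶜ → ∃ y' ∈ A x, y' ≤ y ∧ y' ∈ E := by
  refine R.diag (fun y x => y ∉ Eᶜ → ∃ y' ∈ A x, y' ≤ y ∧ y' ∈ E) fun y => ?_
  by_cases hy : y ∈ Eᶜ
  · exact Filter.Eventually.of_forall fun x hh => absurd hy hh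
  · have hy' : ∃ y', y' ≤ y ∧ y' ∈ E := by
      by_contra hcon
      exact hy (RO.mem_compl.2 fun q hq hqE => hcon ⟨q, hq, hqE⟩)
    obtain ⟨y', hle, hE⟩ := hy'
    filter_upwards [R.fine y'] with x hx _
    exact ⟨y', hx, hle, hE⟩

end Pool.Agent.LibLs83
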