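import Pool.Agent.LibLs83.LDefs
import Pool.Agent.LibDm83.Small

/-! Task LParA: existence of the parameter `th`. -/

namespace Pool.Agent.LibLs83

open Cardinal Set Pool.Agent.LibTk83 Pool.Agent.LibDm83

variable {K : Type} [LinearOrder K] [WellFoundedLT K]

/-- If all proper initial segments of `Iio b` have fewer than `μ` elements then `Iio b` has at most
`μ` elements (order types: `Ordinal.typein`/`Ordinal.type`, `Cardinal.ord`). -/
theorem card_Iio_le {b : K} {μ : Cardinal.{0}} (h : ∀ a < b, #(Iio a) < μ) : #(Iio b) ≤ μ := by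
  by_contra hb
  rw [not_le] at hb
  have h1 : μ.ord < Ordinal.typein (LT.lt (α := K)) b := by
    by_contra h1
    rw [not_lt] at h1
    have h2 : (Ordinal.typein (LT.lt (α := K)) b).card ≤ μ.ord.card := Ordinal.card_le_card h1
    rw [Cardinal.card_ord] at h2
    exact absurd (lt_of_lt_of_le hb h2) (lt_irrefl _)
  obtain ⟨a, ha⟩ := Ordinal.typein_surj (LT.lt (α := K)) (h1.trans (Ordinal.typein_lt_type (LT.lt (α := K)) b))
  have hab : a < b := by
    rw [← ha] at h1
    exact (Ordinal.typein_lt_typein (LT.lt (α := K))).1 h1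
  have h3 : #(Iio a) = μ := by
    have h4 : (Ordinal.typein (LT.lt (α := K)) a).card = μ := by rw [ha, Cardinal.card_ord]
    exact h4
  exact absurd (h a hab) (by rw [h3]; exact lt_irrefl _)

/-- The same for `K`. -/
theorem card_le_of_Iio {μ : Cardinal.{0}} (h : ∀ a : K, #(Iio a) < μ) : #K ≤ μ := by
  by_contra hb
  rw [not_le] at hb
  have h1 : μ.ord < Ordinal.type (LT.lt (α := K)) := by
    by_contra h1
    rw [not_lt] at h1
    have h2 := Ordinal.card_le_card h1
    rw [Cardinal.card_ord, Ordinal.card_type] at h2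
    exact absurd (lt_of_lt_of_le hb h2) (lt_irrefl _)
  obtain ⟨a, ha⟩ := Ordinal.typein_surj (LT.lt (α := K)) h1
  have h3 : #(Iio a) = μ := by
    have h4 : (Ordinal.typein (LT.lt (α := K)) a).card = μ := by rw [ha, Cardinal.card_ord]
    exact h4
  exact absurd (h a) (by rw [h3]; exact lt_irrefl _)

/-- The initial segments of an initial segment. -/
theorem card_Iio_Iio {b : K} (a : Iio b) : #(Iio a) = #(Iio a.1) :=
  mk_congr
    { toFun := fun c => ⟨c.1.1, c.2⟩
      invFun := fun c => ⟨⟨c.1, lt_trans c.2 a.2⟩, c.2⟩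
      left_inv := fun _ => rfl
      right_inv := fun _ => rfl }

private theorem succ_pow_lt {X T : Type} [LinearOrder T] (hT : Inac T) (h : #X < #T) :
    Order.succ (2 ^ #X) < #T := by
  have h1 := hT.pow _ (hT.pow X h)
  rw [mk_set, mk_set] at h1
  exact lt_of_le_of_lt (Order.succ_le_of_lt (cantor _)) h1

/-- `th b` is the least `a` with `succ (2 ^ #(Iio b)) ≤ #(Iio a)`; existence by `card_le_of_Iio`,
`Inac.iio` and `Inac.pow` (twice: `succ (2 ^ μ) ≤ 2 ^ 2 ^ μ`). For an inaccessible `b' > b` there is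
already such an `a < b'`, by `card_Iio_le`. -/
theorem exists_th (hK : Inac K) : ∃ th : K → K, (∀ b, Order.succ (2 ^ #(Iio b)) ≤ #(Iio (th b))) ∧
    ∀ b b', Inac (Iio b') → b < b' → th b < b' := by
  have h1 : ∀ b : K, {a : K | Order.succ (2 ^ #(Iio b)) ≤ #(Iio a)}.Nonempty := by
    intro b
    by_contra h
    rw [not_nonempty_iff_eq_empty, eq_empty_iff_forall_notMem] at h
    have h2 := card_le_of_Iio (K := K) (μ := Order.succ (2 ^ #(Iio b))) fun a => not_le.1 (h a)
    exact absurd (lt_of_le_of_lt h2 (succ_pow_lt hK (hK.iio b))) (lt_irrefl _)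
  refine ⟨fun b => (wellFounded_lt (α := K)).min _ (h1 b),
    fun b => (wellFounded_lt (α := K)).min_mem _ (h1 b), ?_⟩
  intro b b' hb' hbb
  by_contra h
  have h2 := card_Iio_le (b := b') (μ := Order.succ (2 ^ #(Iio b))) fun a ha => by
    by_contra h3
    rw [not_lt] at h3
    exact (wellFounded_lt (α := K)).not_lt_min
      {a : K | Order.succ (2 ^ #(Iio b)) ≤ #(Iio a)} (x := a) h3
      (lt_of_lt_of_le ha (not_lt.1 h))
  have h4 : #(Iio b) < #(Iio b') := by
    have h5 := hb'.iio ⟨b, hbb⟩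
    rwa [card_Iio_Iio] at h5
  exact absurd (lt_of_le_of_lt h2 (succ_pow_lt hb' h4)) (lt_irrefl _)

end Pool.Agent.LibLs83
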