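import Pool.Agent.LibLs83.LGlue
import Pool.Agent.LibLs83.LParA

/-! Restriction of names; task CRes. -/

namespace Pool.Agent.LibLs83

open Cardinal Set Pool.Agent.LibTk83 Pool.Agent.LibDm83

section

variable {K Θ : Type} [LinearOrder K] [WellFoundedLT K] {D : Par K}

/- If the `p'' ≤ p` in `PX D (Iio b)` with `up p'' ∈ e` are dense below `p` then `up p ∈ e`: for
`s ≤ up p` take `p'' ≤ ct (Iio b) s` and `gl (Iio b) p'' s`. -/
theorem res_reg {b : K} (e : RO (PL D)) (p : PX D (Iio b))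
    (h : ∀ p' ≤ p, ∃ p'' ≤ p', up p'' ∈ e) : up p ∈ e := by
  refine RO.mem_of_dense fun s hs => ?_
  have h1 : ct (Iio b) s ≤ p := by
    have h2 := ct_mono (isLowerSet_Iio b) hs
    rwa [ct_up] at h2
  obtain ⟨p'', hp'', he⟩ := h _ h1
  exact ⟨gl (Iio b) (up p'') s, gl_le (isLowerSet_Iio b) hp'',
    RO.mem_of_le (gl_le_left (isLowerSet_Iio b) p'' s) he⟩

/-- The regular open set of the `p` with coordinates below `b` which are in `e`. -/
def resE (b : K) (e : RO (PL D)) : RO (PX D (Iio b)) where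
  carrier := {p | up p ∈ e}
  lower := fun _ _ h hp => RO.mem_of_le (up_le_up.2 h) hp
  reg := fun _ h => res_reg e _ h

theorem mem_resE {b : K} {e : RO (PL D)} {p : PX D (Iio b)} : p ∈ resE b e ↔ up p ∈ e := Iff.rfl

/-- Restriction of a name to the conditions with coordinates below `b` and to the elements of `T`. -/
def resV (V : VPre (PL D) Θ) (b : K) (T : Set Θ) : VPre (PX D (Iio b)) T where
  le u v := resE b (V.le u v)
  refl u := RO.eq_top_iff'.2 fun p => ⟨p, le_rfl, by
    rw [mem_resE, V.refl]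
    exact RO.mem_top⟩
  trans u v w p hp := by
    rw [RO.mem_inf, mem_resE, mem_resE] at hp
    exact V.trans _ _ _ (RO.mem_inf.2 hp)

end

/-- Inverse image under a function. -/
def pull {P Θ Θ' : Type} [Preorder P] (V : VPre P Θ) (f : Θ' → Θ) : VPre P Θ' where
  le u v := V.le (f u) (f v)
  refl u := V.refl (f u)
  trans u v w := V.trans (f u) (f v) (f w)

theorem pull_closed {P Θ Θ' : Type} [Preorder P] {V : VPre P Θ} {κ : Cardinal.{0}}
    (hV : VClosed κ V) {f : Θ' → Θ} (hf : Function.Surjective f) : VClosed κ (pull V f) := by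
  intro I y e hI
  obtain ⟨z, hz⟩ := hV I (fun i => f (y i)) e hI
  obtain ⟨z', rfl⟩ := hf z
  exact ⟨z', fun p hp k hk => hz p hp k hk⟩

/-- It is enough to consider the index sets `Iio a` for `a < b`: each `I` with `#I < #(Iio b)` embeds in
some of them; outside of the range let the truth value be `⊥`. If `I` is empty take an arbitrary
element. -/
theorem closed_of_Iio {P Θ K : Type} [Preorder P] [LinearOrder K] [WellFoundedLT K] [Nonempty Θ]
    {V : VPre P Θ} {b : K} (h : ∀ a < b, ∀ (y : K → Θ) (e : K → RO P), ∃ z, ∀ p,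
      DirAt V (fun i : Iio a => y i) (fun i : Iio a => e i) p → ∀ k < a, p ∈ e k → p ∈ V.le z (y k)) :
    VClosed #(Iio b) V := by
  classical
  intro I y e hI
  have h1 : ∃ a < b, #I ≤ #(Iio a) := by
    by_contra hcon
    push Not at hcon
    exact absurd (card_Iio_le hcon) (not_le.2 hI)
  obtain ⟨a, ha, h2⟩ := h1
  obtain ⟨g⟩ := Cardinal.le_def _ _ |>.1 h2
  let y' : K → Θ := fun k => if hk : ∃ i, (g i).1 = k then y hk.choose else Classical.arbitrary Θ
  let e' : K → RO P := fun k => if hk : ∃ i, (g i).1 = k then e hk.choose else ⊥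
  have hch : ∀ i, ∀ hk : ∃ j, (g j).1 = (g i).1, hk.choose = i := fun i hk =>
    g.injective (Subtype.ext hk.choose_spec)
  have hy' : ∀ i, y' (g i).1 = y i := fun i => by
    have hk : ∃ j, (g j).1 = (g i).1 := ⟨i, rfl⟩
    show (if hk : ∃ j, (g j).1 = (g i).1 then y hk.choose else Classical.arbitrary Θ) = y i
    rw [dif_pos hk, hch i hk]
  have he' : ∀ i, e' (g i).1 = e i := fun i => by
    have hk : ∃ j, (g j).1 = (g i).1 := ⟨i, rfl⟩
    show (if hk : ∃ j, (g j).1 = (g i).1 then e hk.choose else ⊥) = e i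
    rw [dif_pos hk, hch i hk]
  have he2 : ∀ k p, p ∈ e' k → ∃ i, (g i).1 = k := by
    intro k p hp
    by_contra hcon
    have h3 : e' k = ⊥ := dif_neg hcon
    rw [h3] at hp
    exact RO.not_mem_bot hp
  obtain ⟨z, hz⟩ := h a ha y' e'
  refine ⟨z, fun p hp i hi => ?_⟩
  have h4 := hz p ?_ (g i).1 (g i).2 (by rw [he']; exact hi)
  · rwa [hy'] at h4
  · rintro ⟨k, hk⟩ ⟨l, hl⟩ p' hp' h5 h6
    obtain ⟨i', rfl⟩ := he2 k p' h5
    obtain ⟨j', rfl⟩ := he2 l p' h6
    change p' ∈ e' (g i').1 at h5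
    change p' ∈ e' (g j').1 at h6
    rw [he'] at h5 h6
    obtain ⟨p'', hp'', j, h7, h8, h9⟩ := hp i' j' p' hp' h5 h6
    refine ⟨p'', hp'', g j, ?_, ?_, ?_⟩
    · change p'' ∈ e' (g j).1
      rw [he']
      exact h7
    · change p'' ∈ V.le (y' (g j).1) (y' (g i').1)
      rw [hy', hy']
      exact h8
    · change p'' ∈ V.le (y' (g j).1) (y' (g j').1)
      rw [hy', hy']
      exact h9

end Pool.Agent.LibLs83
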