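import Pool.Agent.LibLs83.CStr
import Pool.Agent.LibLs83.CRef
import Pool.Agent.LibLs83.CRes

/-! Task CClosA: reflection of regular open sets. -/

namespace Pool.Agent.LibLs83

open Cardinal Set Pool.Agent.LibTk83 Pool.Agent.LibDm83

variable {K : Type} [LinearOrder K] [WellFoundedLT K] {D : Par K} {Θ X : Type}
  {U : Ultrafilter X} {β : X → K} {T : X → Set Θ}

theorem LStr.reflP (S : LStr D Θ U β T) :
    ReflA U (fun x => {p : PL D | supp p.1 ⊆ Iio (β x)}) β where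
  fine p := S.fineP p
  diag Φ h := S.diagP Φ h
  fineK := S.fineK
  diagK Φ h := S.diagK Φ h

theorem LStr.reflV (S : LStr D Θ U β T) (V : VPre (PL D) Θ) :
    ReflA U (fun x => {y : Comp V | supp y.p.1 ⊆ Iio (β x) ∧ y.x ∈ T x}) β where
  fine y := (S.fineP y.p).and (S.fineT y.x)
  diag Φ h := by
    have h1 : ∀ p : PL D, ∀ᶠ x in (U : Filter X), ∀ u ∈ T x, Φ ⟨p, u⟩ x := fun p =>
      S.diagT (fun u x => Φ ⟨p, u⟩ x) fun u => h ⟨p, u⟩
    have h2 := S.diagP (fun p x => ∀ u ∈ T x, Φ ⟨p, u⟩ x) h1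
    filter_upwards [h2] with x hx
    rintro ⟨p, u⟩ ⟨hp, hu⟩
    exact hx p hp u hu
  fineK := S.fineK
  diagK Φ h := S.diagK Φ h

/- `ReflA.limRO`. -/
theorem LStr.exists_limE (S : LStr D Θ U β T) (e : ∀ x, RO (PX D (Iio (β x)))) :
    ∃ E : RO (PL D), ∀ᶠ x in (U : Filter X), ∀ p : PX D (Iio (β x)), up p ∈ E ↔ p ∈ e x := by
  obtain ⟨E, -, hE⟩ := S.reflP.limRO (fun x => {p : PL D | ct (Iio (β x)) p ∈ e x})
    (Filter.Eventually.of_forall fun x y _ y' _ hle hy =>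
      RO.mem_of_le (ct_mono (isLowerSet_Iio _) hle) hy)
    (Filter.Eventually.of_forall fun x y hy hd => by
      change ct (Iio (β x)) y ∈ e x
      refine RO.mem_of_dense fun q hq => ?_
      have h1 : up q ≤ y := by
        rw [← up_ct (X := Iio (β x)) (p := y) hy]
        exact up_le_up.2 hq
      obtain ⟨y'', -, hle, hy''⟩ := hd (up q) q.2.2 h1
      refine ⟨ct (Iio (β x)) y'', ?_, hy''⟩
      have h2 := ct_mono (isLowerSet_Iio (β x)) hle
      rwa [ct_up] at h2)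
  refine ⟨E, hE.mono fun x hx p => ?_⟩
  rw [hx (up p) p.2.2]
  change ct (Iio (β x)) (up p) ∈ e x ↔ _
  rw [ct_up]

/- A maximal antichain in `E` has fewer than `#K` elements (`Base.cc`; compare `exists_gen` in
`LibDm83/GenB.lean`); the coordinates of its members are bounded by some `m` (`Inac.bdd`). -/
theorem exists_supp_gen (hK : Inac K) (hb : Base (PL D) K) (E : RO (PL D)) :
    ∃ m, ∀ b, m ≤ b → ∀ p ∈ E, ∃ p' ≤ p, up (ct (Iio b) p') ∈ E := by
  obtain ⟨G, hG⟩ := zorn_subset {G : Set (PL D) | (∀ g ∈ G, g ∈ E) ∧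
      ∀ p ∈ G, ∀ q ∈ G, p ≠ q → ¬ ∃ r, r ≤ p ∧ r ≤ q} (by
    intro c hc hchain
    refine ⟨⋃₀ c, ⟨?_, ?_⟩, fun s hs => subset_sUnion_of_mem hs⟩
    · rintro g ⟨s, hs, hg⟩
      exact (hc hs).1 g hg
    · rintro p ⟨s, hs, hp⟩ q ⟨t, ht, hq⟩ hpq
      rcases hchain.total hs ht with h1 | h1
      · exact (hc ht).2 p (h1 hp) q hq hpq
      · exact (hc hs).2 p hp q (h1 hq) hpq)
  have hcard : #G < #K := hb.cc G hG.prop.2
  have hm : ∀ g : PL D, ∃ m, supp g.1 ⊆ Iio m := fun g => g.2.1.1.1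
  choose M hM using hm
  obtain ⟨m, hmm⟩ := hK.bdd (M '' G) (lt_of_le_of_lt mk_image_le hcard)
  refine ⟨m, fun b hmb p hp => ?_⟩
  have hcomp : ∃ g ∈ G, ∃ r, r ≤ p ∧ r ≤ g := by
    by_contra hcon
    push Not at hcon
    have h1 : insert p G ∈ {G : Set (PL D) | (∀ g ∈ G, g ∈ E) ∧
        ∀ p ∈ G, ∀ q ∈ G, p ≠ q → ¬ ∃ r, r ≤ p ∧ r ≤ q} := by
      refine ⟨?_, ?_⟩
      · rintro g (rfl | hg)
        · exact hp
        · exact hG.prop.1 g hg
      · rintro x (rfl | hx) y (rfl | hy) hxy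
        · exact absurd rfl hxy
        · rintro ⟨r, hr1, hr2⟩
          exact hcon y hy r hr1 hr2
        · rintro ⟨r, hr1, hr2⟩
          exact hcon x hx r hr2 hr1
        · exact hG.prop.2 x hx y hy hxy
    have h2 : p ∈ G := hG.le_of_ge h1 (subset_insert p G) (mem_insert p G)
    exact hcon p h2 p le_rfl le_rfl
  obtain ⟨g, hg, r, hrp, hrg⟩ := hcomp
  refine ⟨r, hrp, ?_⟩
  have h3 : supp g.1 ⊆ Iio b := fun c hc =>
    lt_of_lt_of_le ((hM g hc).trans (hmm _ (mem_image_of_mem M hg))) hmb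
  have h4 : up (ct (Iio b) r) ≤ g := by
    rw [← up_ct (X := Iio b) (p := g) h3]
    exact up_le_up.2 (ct_mono (isLowerSet_Iio b) hrg)
  exact RO.mem_of_le h4 (hG.prop.1 g hg)

end Pool.Agent.LibLs83
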