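import Pool.Agent.LibLs83.CClosA

/-! Task CClosB: reflection of directed families. -/

namespace Pool.Agent.LibLs83

open Cardinal Set Pool.Agent.LibTk83 Pool.Agent.LibDm83

section

variable {K Θ : Type} [LinearOrder K] [WellFoundedLT K] {D : Par K}

/-- `p` forces (for conditions with coordinates below `b`) that the family of the `y k`, `k < a`, with
the truth values `e k` is directed. -/
def DirR (V : VPre (PL D) Θ) (b a : K) (y : K → Θ) (e : K → RO (PX D (Iio b)))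
    (p : PX D (Iio b)) : Prop :=
  ∀ k < a, ∀ l < a, ∀ p' ≤ p, p' ∈ e k → p' ∈ e l → ∃ p'' ≤ p', ∃ j < a, p'' ∈ e j ∧
    up p'' ∈ V.le (y j) (y k) ∧ up p'' ∈ V.le (y j) (y l)

end

variable {K : Type} [LinearOrder K] [WellFoundedLT K] {D : Par K} {Θ X : Type}
  {U : Ultrafilter X} {β : X → K} {T : X → Set Θ} {V : VPre (PL D) Θ}

/- Let `p' ≤ up p` be in `E k` and in `E l`. By the hypothesis on `E` (twice) there is `p₂ ≤ p'` such that
the restriction of `p₂` to `Iio b` is in `E k` and in `E l`; so there are `p₃` below this restriction and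
`j`; take `gl (Iio b) (up p₃) p₂`. -/
theorem dirAt_of_dirR {b a : K} {y : K → Θ} {e : K → RO (PX D (Iio b))} {E : K → RO (PL D)}
    (h1 : ∀ k < a, ∀ p : PX D (Iio b), up p ∈ E k ↔ p ∈ e k)
    (h2 : ∀ k < a, ∀ p ∈ E k, ∃ p' ≤ p, up (ct (Iio b) p') ∈ E k) {p : PX D (Iio b)}
    (h : DirR V b a y e p) : DirAt V (fun i : Iio a => y i) (fun i : Iio a => E i) (up p) := by
  rintro ⟨k, hk⟩ ⟨l, hl⟩ p' hp' hpk hpl
  obtain ⟨p₁, hp₁, h11⟩ := h2 k hk p' hpk
  obtain ⟨p₂, hp₂, h22⟩ := h2 l hl p₁ (RO.mem_of_le hp₁ hpl)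
  have hlow : IsLowerSet (Iio b) := isLowerSet_Iio b
  have h12 : up (ct (Iio b) p₂) ∈ E k :=
    RO.mem_of_le (up_le_up.2 (ct_mono hlow hp₂)) h11
  have hq : ct (Iio b) p₂ ≤ p := by
    have h3 := ct_mono hlow ((hp₂.trans hp₁).trans hp')
    rwa [ct_up] at h3
  obtain ⟨p₃, hp₃, j, hj, hje, hjk, hjl⟩ := h k hk l hl (ct (Iio b) p₂) hq
    ((h1 k hk _).1 h12) ((h1 l hl _).1 h22)
  have h4 : gl (Iio b) (up p₃) p₂ ≤ p₂ := gl_le hlow hp₃
  have h5 : gl (Iio b) (up p₃) p₂ ≤ up p₃ := gl_le_left hlow p₃ p₂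
  exact ⟨gl (Iio b) (up p₃) p₂, (h4.trans hp₂).trans hp₁, ⟨j, hj⟩,
    RO.mem_of_le h5 ((h1 j hj _).2 hje), RO.mem_of_le h5 hjk, RO.mem_of_le h5 hjl⟩

/- By `normK` `a x = a` for almost all `x`; by `normT` and `complete` there are `y' i` with
`y x i = y' i` for all `i < a`, for almost all `x`; by `exists_limE` there are `E i`, for `i < a`. Apply
`VClosed` to the `y' i` and `E i`, `i < a`; this gives `z`. For almost all `x` all `E i`, `i < a`, satisfy the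
hypotheses of `dirAt_of_dirR` (`exists_supp_gen`, `fineK`, `complete`). -/
theorem LStr.reflect_family (hK : Inac K) (hb : Base (PL D) K) (S : LStr D Θ U β T)
    (hV : VClosed #K V) (a : X → K) (y : X → K → Θ) (e : ∀ x, K → RO (PX D (Iio (β x))))
    (ha : ∀ᶠ x in (U : Filter X), a x < β x)
    (hy : ∀ᶠ x in (U : Filter X), ∀ i < a x, y x i ∈ T x) :
    ∃ z, ∀ᶠ x in (U : Filter X), ∀ p, DirR V (β x) (a x) (y x) (e x) p → ∀ k < a x,
      p ∈ e x k → up p ∈ V.le z (y x k) := by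
  obtain ⟨a₀, ha₀⟩ := S.normK a ha
  obtain ⟨x₀, -⟩ := ha₀.exists
  have hsmall : #(Iio a₀) < #K := hK.iio a₀
  -- the elements
  have hY : ∀ i, ∃ u, i < a₀ → ∀ᶠ x in (U : Filter X), y x i = u := by
    intro i
    by_cases hi : i < a₀
    · obtain ⟨u, hu⟩ := S.normT (fun x => y x i) (by
        filter_upwards [ha₀, hy] with x hx hyx
        exact hyx i (by rw [hx]; exact hi))
      exact ⟨u, fun _ => hu⟩
    · exact ⟨y x₀ i, fun h => absurd h hi⟩
  choose Y hY using hY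
  have hY' := S.complete (Iio a₀) (fun i x => y x i = Y i) hsmall fun i => hY i i.2
  -- the truth values
  have hE : ∀ i : K, ∃ E : RO (PL D), ∀ᶠ x in (U : Filter X),
      ∀ p : PX D (Iio (β x)), up p ∈ E ↔ p ∈ e x i := fun i => S.exists_limE fun x => e x i
  choose E hE using hE
  have hE' := S.complete (Iio a₀) (fun i x => ∀ p : PX D (Iio (β x)), up p ∈ E i ↔ p ∈ e x i)
    hsmall fun i => hE i
  -- the supports
  have hM : ∀ i : K, ∀ᶠ x in (U : Filter X), ∀ p ∈ E i, ∃ p' ≤ p,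
      up (ct (Iio (β x)) p') ∈ E i := by
    intro i
    obtain ⟨m, hm⟩ := exists_supp_gen hK hb (E i)
    filter_upwards [S.fineK m] with x hx
    exact hm (β x) hx.le
  have hM' := S.complete (Iio a₀) (fun i x => ∀ p ∈ E i, ∃ p' ≤ p,
      up (ct (Iio (β x)) p') ∈ E i) hsmall fun i => hM i
  obtain ⟨z, hz⟩ := hV (Iio a₀) (fun i => Y i) (fun i => E i) hsmall
  refine ⟨z, ?_⟩
  filter_upwards [ha₀, hY', hE', hM'] with x hx hYx hEx hMx p hp k hk hpk
  rw [hx] at hk hp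
  have hp' : DirR V (β x) a₀ Y (e x) p := by
    intro k hk l hl p' hp' hpk hpl
    obtain ⟨p'', hp'', j, hj, hje, hjk, hjl⟩ := hp k hk l hl p' hp' hpk hpl
    rw [hYx ⟨j, hj⟩, hYx ⟨k, hk⟩] at hjk
    rw [hYx ⟨j, hj⟩, hYx ⟨l, hl⟩] at hjl
    exact ⟨p'', hp'', j, hj, hje, hjk, hjl⟩
  have h3 : DirAt V (fun i : Iio a₀ => Y i) (fun i : Iio a₀ => E i) (up p) :=
    dirAt_of_dirR (fun k hk => hEx ⟨k, hk⟩) (fun k hk => hMx ⟨k, hk⟩) hp'
  rw [hYx ⟨k, hk⟩]
  exact hz (up p) h3 ⟨k, hk⟩ ((hEx ⟨k, hk⟩ p).2 hpk)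

end Pool.Agent.LibLs83
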