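import Pool.Agent.LibLs83.CInacA
import Pool.Agent.LibLs83.CIio

/-! Task CInac: for almost all `x` the intersection with `K` is an inaccessible initial segment. -/

namespace Pool.Agent.LibLs83

open Cardinal Set Pool.Agent.LibDm83

variable {K Λ : Type} [LinearOrder K] [WellFoundedLT K] {U : Ultrafilter {x : Set Λ // #x < #K}}
  {i : K → Λ}

private theorem CInac_unc (hK : Inac K) : ∃ a : K, ℵ₀ < #(Iio a) := by
  by_contra h
  push Not at h
  have h1 : #(Set ℕ) < #K := hK.pow ℕ (by rw [mk_nat]; exact hK.unc)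
  have h2 : #K ≤ #(Set ℕ) := by
    refine card_le_of_Iio fun a => lt_of_le_of_lt (h a) ?_
    rw [mk_set, mk_nat]
    exact cantor _
  exact absurd h1 (not_lt.2 h2)

private theorem CInac_pow (hK : Inac K) (a : K) : ∃ a' : K, 2 ^ #(Iio a) ≤ #(Iio a') := by
  by_contra h
  push Not at h
  have h1 : #(Set (Iio a)) < #K := hK.pow _ (hK.iio a)
  rw [mk_set] at h1
  exact absurd h1 (not_lt.2 (card_le_of_Iio h))

omit [WellFoundedLT K] in
private theorem CInac_bdd (hK : Inac K) (hU : IsNormal #K U) (hi : Function.Injective i) :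
    ∀ᶠ x in (U : Filter {x : Set Λ // #x < #K}), ∀ b, {a | i a ∈ x.1} = Iio b →
      ∀ a < b, ∀ f : K → K, (∀ c < a, f c < b) → ∃ d < b, ∀ c < a, f c < d := by
  by_contra hcon
  have hne : ∀ᶠ x in (U : Filter {x : Set Λ // #x < #K}), ∃ b a : K, ∃ f : K → K,
      {a | i a ∈ x.1} = Iio b ∧ a < b ∧ (∀ c < a, f c < b) ∧ ∀ d < b, ∃ c < a, d ≤ f c := by
    refine (Ultrafilter.eventually_not.2 hcon).mono fun x hx => ?_
    push Not at hx
    obtain ⟨b, hb, a, ha, f, hf, h⟩ := hx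
    exact ⟨b, a, f, hb, ha, hf, h⟩
  have hKne : Nonempty K := mk_ne_zero_iff.1 (aleph0_pos.trans hK.unc).ne'
  choose! b a f h using fun (x : {x : Set Λ // #x < #K}) (hx : ∃ b a : K, ∃ f : K → K,
      {a | i a ∈ x.1} = Iio b ∧ a < b ∧ (∀ c < a, f c < b) ∧ ∀ d < b, ∃ c < a, d ≤ f c) => hx
  have h' := hne.mono h
  have hmem : ∀ {x : {x : Set Λ // #x < #K}} {b c : K}, {a | i a ∈ x.1} = Iio b →
      (c < b ↔ i c ∈ x.1) := by
    intro x b c hb
    constructor
    · intro hc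
      have : c ∈ {a | i a ∈ x.1} := by rw [hb]; exact hc
      exact this
    · intro hc
      have : c ∈ {a | i a ∈ x.1} := hc
      rw [hb] at this
      exact this
  obtain ⟨a0, ha0⟩ := nrm_norm hU hi a (h'.mono fun x hx => (hmem hx.1).1 hx.2.1)
  have hg : ∀ c : Iio a0, ∃ g : K,
      ∀ᶠ x in (U : Filter {x : Set Λ // #x < #K}), f x c.1 = g := by
    intro c
    refine nrm_norm hU hi (fun x => f x c.1) ?_
    filter_upwards [h', ha0] with x hx hxa
    exact (hmem hx.1).1 (hx.2.2.1 c.1 (by rw [hxa]; exact c.2))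
  choose g hg using hg
  have hall := nrm_all hU (hK.iio a0) (fun (c : Iio a0) x => f x c.1 = g c) hg
  obtain ⟨d, hd⟩ := hK.bdd (range g) (mk_range_le.trans_lt (hK.iio a0))
  have hcon2 : ∀ᶠ x in (U : Filter {x : Set Λ // #x < #K}), False := by
    filter_upwards [h', ha0, hall, hU.fine (i d)] with x hx hxa hxall hxd
    obtain ⟨c, hc, hdc⟩ := hx.2.2.2 d ((hmem hx.1).2 hxd)
    rw [hxa] at hc
    have h1 := hxall ⟨c, hc⟩
    have h2 : g ⟨c, hc⟩ < d := hd _ ⟨_, rfl⟩
    exact absurd (h1 ▸ hdc) (not_le.2 h2)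
  exact hcon2.exists.elim fun _ h => h

/- `inac_of_iio`. (h1) some `a : K` has `ℵ₀ < #(Iio a)` (`card_le_of_Iio`); `fine`. (h2) each `a : K` has
an `a'` with `2 ^ #(Iio a) ≤ #(Iio a')`; `nrm_diag'`. (h3) If it fails for almost all `x` take
counterexamples `a x`, `f x` (functions from `K` to `K`); by `nrm_norm` `a x = a` for almost all `x`, and
`f x c = g c` for almost all `x`, for each `c < a`; by `nrm_all` for all `c < a`. The values `g c`,
`c < a`, have a bound `d : K` (`Inac.bdd`), which is in almost all `x`. -/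
theorem inac_iio (hK : Inac K) (hU : IsNormal #K U) (hi : Function.Injective i) :
    ∀ᶠ x in (U : Filter {x : Set Λ // #x < #K}), ∀ b, {a | i a ∈ x.1} = Iio b →
      Inac (Iio b) := by
  obtain ⟨a1, ha1⟩ := CInac_unc hK
  choose p hp using CInac_pow hK
  filter_upwards [hU.fine (i a1),
    nrm_diag' hU hi (fun a x => i (p a) ∈ x.1) (fun a => hU.fine (i (p a))),
    CInac_bdd hK hU hi] with x h1 h2 h3 b hb
  have hmem : ∀ c : K, c < b ↔ i c ∈ x.1 := by
    intro c
    have : c ∈ {a | i a ∈ x.1} ↔ c ∈ Iio b := by rw [hb]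
    exact this.symm
  refine inac_of_iio ⟨a1, (hmem _).2 h1, ha1⟩ (fun a ha => ?_) (h3 b hb)
  exact ⟨p a, (hmem _).2 (h2 a ((hmem _).1 ha)), hp a⟩

end Pool.Agent.LibLs83
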