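import Pool.Agent.LibLs83.CStr
import Pool.Agent.LibLs83.CInac
import Pool.Agent.LibLs83.CCardT

/-! Task CExStr: from normal ultrafilters to the structure `LStr`. -/

namespace Pool.Agent.LibLs83

open Cardinal Set Pool.Agent.LibTk83 Pool.Agent.LibDm83

variable {K : Type} [LinearOrder K] [WellFoundedLT K] {D : Par K}

/-- For almost all `x` the conditions with coordinates below `β x` are in `x`: for `a : K` there are
fewer than `#K` conditions with coordinates below `a` (`card_PX_lt'`, `nrm_all`, `IsNormal.fine`);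
`nrm_diag'` for `a`; a condition with coordinates below the inaccessible `b` has its coordinates below
some `c < b` (`Eas`). -/
theorem mem_of_supp (hK : Inac K) {Λ : Type} {U : Ultrafilter {x : Set Λ // #x < #K}}
    (hU : IsNormal #K U) {i : K → Λ} (hi : Function.Injective i) (k : PL D → Λ) :
    ∀ᶠ x in (U : Filter {x : Set Λ // #x < #K}), ∀ b, {a | i a ∈ x.1} = Iio b → Inac (Iio b) →
      ∀ p : PL D, supp p.1 ⊆ Iio b → k p ∈ x.1 := by
  have h1 : ∀ a : K, ∀ᶠ x in (U : Filter {x : Set Λ // #x < #K}),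
      ∀ q : PX D (Iio a), k (up q) ∈ x.1 :=
    fun a => nrm_all hU (card_PX_lt' hK a) (fun q x => k (up q) ∈ x.1)
      fun q => hU.fine (k (up q))
  filter_upwards [nrm_diag' hU hi (fun a x => ∀ q : PX D (Iio a), k (up q) ∈ x.1) h1] with x hx
  intro b hb hbI p hp
  obtain ⟨c, hc, hc'⟩ := p.2.1.1.2 b hbI
  have h2 : supp p.1 ⊆ Iio c := fun a ha => hc' ⟨ha, hp ha⟩
  have h3 : i c ∈ x.1 := by
    have h4 : c ∈ {a | i a ∈ x.1} := by
      rw [hb]
      exact hc
    exact h4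
  have h5 := hx c h3 (ct (Iio c) p)
  rwa [up_ct h2] at h5

/- Take `Λ = PL D ⊕ (K ⊕ Θ)`, `X = {x : Set Λ // #x < #K}`, `T x = {u | inr (inr u) ∈ x}`, and `β x` with
`{a | inr (inl a) ∈ x} = Iio (β x)` (`exists_iio`). -/
theorem exists_str (hK : Inac K) (Θ : Type) (hΘ : #Θ ≤ Order.succ (2 ^ #K))
    (hs : ∀ Λ : Type, ∃ U : Ultrafilter {x : Set Λ // #x < #K}, IsNormal #K U) :
    ∃ (X : Type) (U : Ultrafilter X) (β : X → K) (T : X → Set Θ), LStr D Θ U β T := by
  have hne : Nonempty K := by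
    have h : #K ≠ 0 := (lt_of_le_of_lt zero_le hK.unc).ne'
    exact mk_ne_zero_iff.1 h
  obtain ⟨U, hU⟩ := hs (PL D ⊕ (K ⊕ Θ))
  obtain ⟨i, hi'⟩ : ∃ i : K → PL D ⊕ (K ⊕ Θ), i = fun a => Sum.inr (Sum.inl a) := ⟨_, rfl⟩
  obtain ⟨j, hj'⟩ : ∃ j : Θ → PL D ⊕ (K ⊕ Θ), j = fun a => Sum.inr (Sum.inr a) := ⟨_, rfl⟩
  obtain ⟨k, hk'⟩ : ∃ k : PL D → PL D ⊕ (K ⊕ Θ), k = fun a => Sum.inl a := ⟨_, rfl⟩
  have hi : Function.Injective i := by
    rw [hi']
    exact fun a b hab => Sum.inl_injective (Sum.inr_injective hab)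
  have hj : Function.Injective j := by
    rw [hj']
    exact fun a b hab => Sum.inr_injective (Sum.inr_injective hab)
  have hk : Function.Injective k := by
    rw [hk']
    exact fun a b hab => Sum.inl_injective hab
  have h1 : ∀ x : {x : Set (PL D ⊕ (K ⊕ Θ)) // #x < #K}, ∃ b,
      (∃ b', {a | i a ∈ x.1} = Iio b') → {a | i a ∈ x.1} = Iio b := by
    intro x
    by_cases hx : ∃ b', {a | i a ∈ x.1} = Iio b'
    · obtain ⟨b, hb⟩ := hx
      exact ⟨b, fun _ => hb⟩
    · exact ⟨hne.some, fun h' => absurd h' hx⟩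
  choose β hβ using h1
  have hβ' : ∀ᶠ x in (U : Filter {x : Set (PL D ⊕ (K ⊕ Θ)) // #x < #K}),
      {a | i a ∈ x.1} = Iio (β x) := (exists_iio hK hU hi).mono fun x hx => hβ x hx
  have hin : ∀ᶠ x in (U : Filter {x : Set (PL D ⊕ (K ⊕ Θ)) // #x < #K}), Inac (Iio (β x)) := by
    filter_upwards [hβ', inac_iio hK hU hi] with x hx h2
    exact h2 _ hx
  refine ⟨{x : Set (PL D ⊕ (K ⊕ Θ)) // #x < #K}, U, β, fun x => {u | j u ∈ x.1}, ?_⟩
  refine ⟨fun ι Φ hι h => nrm_all hU hι Φ h, hin, ?_, ?_, ?_, fun u => hU.fine (j u),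
    fun f h => nrm_norm hU hj f h, ?_⟩
  · intro a
    filter_upwards [hβ', hU.fine (i a)] with x hx h2
    have h3 : a ∈ {a | i a ∈ x.1} := h2
    rw [hx] at h3
    exact h3
  · intro f h
    refine nrm_norm hU hi f ?_
    filter_upwards [hβ', h] with x hx h2
    have h3 : f x ∈ {a | i a ∈ x.1} := by
      rw [hx]
      exact h2
    exact h3
  · intro f h
    refine nrm_norm hU hk f ?_
    filter_upwards [hβ', hin, mem_of_supp hK hU hi k, h] with x hx h2 h3 h4
    exact h3 _ hx h2 _ h4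
  · filter_upwards [hβ', card_T_le hK hU hi hj hΘ] with x hx h2
    exact h2 _ hx

end Pool.Agent.LibLs83
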