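import Pool.Agent.LibLs83.Iface

/-! Task CFil: normal ultrafilters. -/

namespace Pool.Agent.LibLs83

open Cardinal Set

variable {κ : Cardinal.{0}} {Λ : Type} {U : Ultrafilter {x : Set Λ // #x < κ}}

/-- Completeness. -/
theorem nrm_all (hU : IsNormal κ U) {ι : Type} (hι : #ι < κ)
    (Φ : ι → {x : Set Λ // #x < κ} → Prop)
    (h : ∀ i, ∀ᶠ x in (U : Filter {x : Set Λ // #x < κ}), Φ i x) :
    ∀ᶠ x in (U : Filter {x : Set Λ // #x < κ}), ∀ i, Φ i x := by
  have h1 := hU.complete ι (fun i => {x | Φ i x}) hι h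
  filter_upwards [h1] with x hx i
  exact mem_iInter.1 hx i

/-- Diagonal intersections. Otherwise for almost all `x` there is `f x ∈ x` with `¬ Φ (f x) x`; use
`IsNormal.normal`. -/
theorem nrm_diag (hU : IsNormal κ U) (Φ : Λ → {x : Set Λ // #x < κ} → Prop)
    (h : ∀ a, ∀ᶠ x in (U : Filter {x : Set Λ // #x < κ}), Φ a x) :
    ∀ᶠ x in (U : Filter {x : Set Λ // #x < κ}), ∀ a ∈ x.1, Φ a x := by
  by_contra hcon
  have h1 : ∀ᶠ x in (U : Filter {x : Set Λ // #x < κ}), ¬ ∀ a ∈ x.1, Φ a x :=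
    Ultrafilter.eventually_not.2 hcon
  have hne : Nonempty Λ := by
    obtain ⟨x, hx⟩ := h1.exists
    push Not at hx
    obtain ⟨a, -, -⟩ := hx
    exact ⟨a⟩
  have h2 : ∀ x : {x : Set Λ // #x < κ}, ∃ a, (¬ ∀ a ∈ x.1, Φ a x) → a ∈ x.1 ∧ ¬ Φ a x := by
    intro x
    by_cases hx : ∀ a ∈ x.1, Φ a x
    · exact ⟨hne.some, fun h' => absurd hx h'⟩
    · have hx' := hx
      push Not at hx'
      obtain ⟨a, ha⟩ := hx'
      exact ⟨a, fun _ => ha⟩
  choose f hf using h2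
  obtain ⟨a, ha⟩ := hU.normal f (h1.mono fun x hx => (hf x hx).1)
  obtain ⟨x, hx1, hx2, hx3⟩ := (h1.and (ha.and (h a))).exists
  exact (hf x hx1).2 (hx2 ▸ hx3)

/-- The same for the elements `i a` of `x`. -/
theorem nrm_diag' (hU : IsNormal κ U) {T : Type} {i : T → Λ} (hi : Function.Injective i)
    (Φ : T → {x : Set Λ // #x < κ} → Prop)
    (h : ∀ a, ∀ᶠ x in (U : Filter {x : Set Λ // #x < κ}), Φ a x) :
    ∀ᶠ x in (U : Filter {x : Set Λ // #x < κ}), ∀ a, i a ∈ x.1 → Φ a x := by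
  have h1 := nrm_diag hU (fun b x => ∀ a, i a = b → Φ a x) (by
    intro b
    by_cases hb : ∃ a, i a = b
    · obtain ⟨a, rfl⟩ := hb
      filter_upwards [h a] with x hx a' ha'
      rw [hi ha']
      exact hx
    · exact Filter.Eventually.of_forall fun x a ha => absurd ⟨a, ha⟩ hb)
  filter_upwards [h1] with x hx a ha
  exact hx (i a) ha a rfl

theorem nrm_norm (hU : IsNormal κ U) {T : Type} {i : T → Λ} (hi : Function.Injective i)
    (f : {x : Set Λ // #x < κ} → T)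
    (h : ∀ᶠ x in (U : Filter {x : Set Λ // #x < κ}), i (f x) ∈ x.1) :
    ∃ a, ∀ᶠ x in (U : Filter {x : Set Λ // #x < κ}), f x = a := by
  obtain ⟨b, hb⟩ := hU.normal (fun x => i (f x)) h
  obtain ⟨x, hx⟩ := hb.exists
  refine ⟨f x, ?_⟩
  filter_upwards [hb] with y hy
  exact hi (hy.trans hx.symm)

end Pool.Agent.LibLs83
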