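import Pool.Agent.LibLs83.LDecP

/-! Task LDecV: deciding few truth values in the two step iteration, up to the coordinate `ν`. -/

namespace Pool.Agent.LibLs83

open Cardinal Set Pool.Agent.LibTk83 Pool.Agent.LibDm83

variable {K Θ : Type} [LinearOrder K] [WellFoundedLT K] {D : Par K} {V : VPre (PL D) Θ}

/-- The conditions without coordinates in `Iic ν`. -/
def TlV (V : VPre (PL D) Θ) (ν : K) : Type := {y : Comp V // supp y.p.1 ⊆ (Iic ν)ᶜ}

instance (ν : K) : Preorder (TlV V ν) := Preorder.lift Subtype.val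

/-- The condition of the tail as a condition without coordinates in `Iic ν`. -/
private def LDecV_t {ν : K} (s : TlV V ν) : PX D (Iic ν)ᶜ := ⟨s.1.p.1, s.1.p.2.1, s.2⟩

private theorem LDecV_up {ν : K} (s : TlV V ν) : up (LDecV_t s) = s.1.p := rfl

private theorem LDecV_le {ν : K} {s s' : TlV V ν} :
    s' ≤ s ↔ LDecV_t s' ≤ LDecV_t s ∧ s'.1.p ∈ V.le s'.1.x s.1.x := Iff.rfl

/-- The element of the tail. -/
private def LDecV_mk {ν : K} (t : PX D (Iic ν)ᶜ) (q : Θ) : TlV V ν := ⟨⟨up t, q⟩, t.2.2⟩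

/- For a chain `(t i, q i)` take a lower bound `t` of the `t i` (`chain_tail`) and `q` from `VClosed`
with all truth values `⊤`: the family of the `q i` is directed at `t`. -/
theorem chain_TlV (hK : Inac K) (hV : VClosed #K V) {ν : K} (C : Set (TlV V ν))
    (hC : IsChain (· ≤ ·) C) (h : #C < #K) (h' : ∀ b, ν < b → Inac (Iio b) → #C < #(Iio b)) :
    ∃ y, ∀ x ∈ C, y ≤ x := by
  have hcomp : ∀ x ∈ C, ∀ x' ∈ C, x ≤ x' ∨ x' ≤ x := by
    intro x hx x' hx'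
    rcases eq_or_ne x x' with rfl | hne
    · exact Or.inl le_rfl
    · exact hC hx hx' hne
  obtain ⟨t, ht⟩ := chain_tail hK (X := Iic ν) (isLowerSet_Iic ν) (LDecV_t '' C) (by
    rintro _ ⟨x, hx, rfl⟩ _ ⟨x', hx', rfl⟩ -
    rcases hcomp x hx x' hx' with h1 | h1
    · exact Or.inl (LDecV_le.1 h1).1
    · exact Or.inr (LDecV_le.1 h1).1) (mk_image_le.trans_lt h)
    (fun b hb hi => mk_image_le.trans_lt (h' b (not_le.1 hb) hi))
  obtain ⟨q, hq⟩ := hV C (fun x => x.1.1.x) (fun _ => ⊤) h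
  have hdir : DirAt V (fun x : C => x.1.1.x) (fun _ => ⊤) (up t) := by
    have aux : ∀ k l : C, ∀ p' ≤ up t, k.1 ≤ l.1 → p' ∈ V.le k.1.1.x l.1.1.x := by
      intro k l p' hp' hkl
      refine RO.mem_of_le (hp'.trans ?_) (LDecV_le.1 hkl).2
      rw [← LDecV_up]
      exact up_le_up.2 (ht _ ⟨k.1, k.2, rfl⟩)
    intro k l p' hp' _ _
    rcases hcomp k.1 k.2 l.1 l.2 with hkl | hkl
    · exact ⟨p', le_rfl, k, RO.mem_top, by rw [V.refl]; exact RO.mem_top, aux k l p' hp' hkl⟩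
    · exact ⟨p', le_rfl, l, RO.mem_top, aux l k p' hp' hkl, by rw [V.refl]; exact RO.mem_top⟩
  refine ⟨LDecV_mk t q, fun x hx => LDecV_le.2 ⟨ht _ ⟨x, hx, rfl⟩, ?_⟩⟩
  exact hq (up t) hdir ⟨x, hx⟩ RO.mem_top

/- Let `y = (s, q'')`. By `exists_mixL` for `s ≤ t` there is `t' ≤ t`; by `VClosed` for the elements `q''`
with truth value `of s` and `q` with truth value `⊤` there is `q'`. -/
theorem mix_TlV (hK : Inac K) (hV : VClosed #K V) {ν : K} (r : PX D (Iic ν)) (s : TlV V ν)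
    (y : Comp V) (h : y ≤ ⟨gl (Iic ν) (up r) s.1.p, s.1.x⟩) :
    ∃ r' ≤ r, ∃ s' ≤ s, (⟨gl (Iic ν) (up r') s'.1.p, s'.1.x⟩ : Comp V) ≤ y := by
  have hX : IsLowerSet (Iic ν) := isLowerSet_Iic ν
  obtain ⟨h1, h2⟩ := Comp.le_iff.1 h
  simp only at h1 h2
  have h3 : y.p ≤ up (LDecV_t s) := h1.trans (gl_le_right (Iic ν) (up r) (LDecV_t s))
  obtain ⟨t', ht', ht''⟩ := exists_mixL hX y.p (LDecV_t s) h3
  have hr : ct (Iic ν) y.p ≤ r := by
    have := ct_mono hX h1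
    rwa [ct_gl hX] at this
  obtain ⟨z, hz⟩ := hV Bool (fun b => cond b y.x s.1.x) (fun b => cond b (RO.of y.p) ⊤)
    (lt_of_lt_of_le (by simp) hK.unc.le)
  have hdir : ∀ p, DirAt V (fun b => cond b y.x s.1.x) (fun b => cond b (RO.of y.p) ⊤) p := by
    intro p k l p' _ hk hl
    have hc : (∃ p'' ≤ p', p'' ≤ y.p) ∨ (k = false ∧ l = false) := by
      cases k
      · cases l
        · exact Or.inr ⟨rfl, rfl⟩
        · obtain ⟨r, hr, s, hs, hrs⟩ := RO.mem_gen.1 (hl : p' ∈ RO.gen {y.p}) p' le_rfl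
          rw [mem_singleton_iff.1 hs] at hrs
          exact Or.inl ⟨r, hr, hrs⟩
      · obtain ⟨r, hr, s, hs, hrs⟩ := RO.mem_gen.1 (hk : p' ∈ RO.gen {y.p}) p' le_rfl
        rw [mem_singleton_iff.1 hs] at hrs
        exact Or.inl ⟨r, hr, hrs⟩
    rcases hc with ⟨p'', hp'', hpy⟩ | ⟨rfl, rfl⟩
    · have hall : ∀ b : Bool, p'' ∈ V.le y.x (cond b y.x s.1.x) := by
        intro b
        cases b
        · exact RO.mem_of_le hpy h2
        · rw [show cond true y.x s.1.x = y.x from rfl, V.refl]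
          exact RO.mem_top
      refine ⟨p'', hp'', true, ?_, hall k, hall l⟩
      exact RO.mem_gen.2 fun q hq => ⟨q, le_rfl, y.p, rfl, hq.trans hpy⟩
    · refine ⟨p', le_rfl, false, RO.mem_top, ?_, ?_⟩
      · rw [V.refl]; exact RO.mem_top
      · rw [V.refl]; exact RO.mem_top
  refine ⟨ct (Iic ν) y.p, hr, LDecV_mk t' z, LDecV_le.2 ⟨ht', ?_⟩, Comp.le_iff.2 ⟨ht'', ?_⟩⟩
  · exact hz (up t') (hdir _) false RO.mem_top
  · exact hz _ (hdir _) true (RO.mem_gen.2 fun q hq => ⟨q, le_rfl, y.p, rfl, hq.trans ht''⟩)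

/- `decide_abs`. -/
theorem decideV (hK : Inac K) (hD : IsPar D) (hV : VClosed #K V) {ν b' : K}
    (hb' : Inac (Iio b')) (hν : ν < b') (hmin : ∀ b, ν < b → Inac (Iio b) → b' ≤ b) {I : Type}
    (hI : #I < #(Iio b')) (b : I → RO (Comp V)) (q : Θ) :
    ∃ t : PX D (Iic ν)ᶜ, ∃ q', up t ∈ V.le q' q ∧ ∀ k, ∀ r : PX D (Iic ν), ∃ r' ≤ r,
      (⟨gl (Iic ν) (up r') (up t), q'⟩ : Comp V) ∈ b k ∨
        (⟨gl (Iic ν) (up r') (up t), q'⟩ : Comp V) ∈ (b k)ᶜ := by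
  have hX : IsLowerSet (Iic ν) := isLowerSet_Iic ν
  have : Nonempty K := ⟨ν⟩
  obtain ⟨s', hs', hs''⟩ := decide_abs hb' (A := PX D (Iic ν)) (S := TlV V ν) (Q := Comp V)
    (fun r s => ⟨gl (Iic ν) (up r) s.1.p, s.1.x⟩) (by
      intro r' r s' s hr hs
      obtain ⟨h1, h2⟩ := LDecV_le.1 hs
      refine Comp.le_iff.2 ⟨gl_mono hX hr h1, ?_⟩
      exact RO.mem_of_le (gl_le_right (Iic ν) (up r') (LDecV_t s')) h2)
    (card_PX_lt_Iio hD hb' hν)
    (by
      intro C hC hCc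
      refine chain_TlV hK hV C hC (hCc.trans (hK.iio b')) fun b hb hi => ?_
      exact hCc.trans_le (mk_le_mk_of_subset (Iio_subset_Iio (hmin b hb hi))))
    (fun r s y h => mix_TlV hK hV r s y h) hI b (LDecV_mk (topL D (Iic ν)ᶜ) q)
  exact ⟨LDecV_t s', s'.1.x, (LDecV_le.1 hs').2, hs''⟩

end Pool.Agent.LibLs83
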