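import Pool.Agent.LibLs83.CMas
import Pool.Agent.LibLs83.CRef
import Pool.Agent.LibLs83.LDecV

/-! Task CH: the strong conditions. -/

namespace Pool.Agent.LibLs83

open Cardinal Set Pool.Agent.LibTk83 Pool.Agent.LibDm83

variable {K Θ : Type} [LinearOrder K] [WellFoundedLT K] {D : Par K} {V : VPre (PL D) Θ} {b : K}
  {T : Set Θ}

/-- The strong condition for `u` and `p`. -/
private noncomputable def CH_x (M : Pt D V b T) (t : PX D (Iic b)ᶜ) (q : Θ) (u : Iio (D.th b))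
    (p : PX D (Iio b)) : Comp V := ⟨gl (Iic b) (up (M.ins u p)) (up t), q⟩

private theorem CH_mono (M : Pt D V b T) {t : PX D (Iic b)ᶜ} {q : Θ} {u u' : Iio (D.th b)}
    {p p' : PX D (Iio b)} (h : p' ≤ p) (h' : up p' ∈ V.le (M.ρ u') (M.ρ u)) :
    CH_x M t q u' p' ≤ CH_x M t q u p := by
  refine Comp.le_iff.2 ⟨gl_mono (isLowerSet_Iic b) (M.ins_le_ins.2 ⟨h, h'⟩) le_rfl, ?_⟩
  change _ ∈ V.le q q
  rw [V.refl]
  exact RO.mem_top

/- Let `m` be the master condition; let `b'` be the least inaccessible above `b`, and take `t`, `q` from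
`decideV` for `ν = b`, the index set `Iio b`, the truth values `F δ`, `δ < b`, and `m`. For `y` with
`supp y.p ⊆ Iio b` and `y.x = M.ρ u` let `h y = ⟨gl (Iic b) (up (M.ins u (ct (Iio b) y.p))) (up t), q⟩`
(choose `u` by `M.surj`).

`le`: `Pt.ins_le`, `gl_le_left`; `q ≤ m` is forced by `t`, `m ≤ y.x` by `M.ins u _`. `mono`:
`Pt.ins_le_ins`, `gl_mono`. `red`: for `z ≤ h y` one has `z.p b = some (n, v)` (`Pt.of_le_ins`); take
`y' = ⟨up (ct (Iio b) z.p), M.ρ v⟩`; `z.p ≤ gl _ _ (up t)` by `le_gl`; for `y'' ≤ y'` take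
`z' = ⟨gl (Iic b) (up (M.ins u'' _)) z.p, z.x⟩` (`Pt.gl_ins_le`). `dec`: for `r = M.ins u _` take
`r' ≤ r`; `r' b = some (n, v)`, `r' = M.ins v (ct (Iio b) (up r'))` (`Pt.ct_eq_ins`), take
`y' = ⟨up (ct (Iio b) (up r')), M.ρ v⟩`; then `h y'` is below `⟨gl _ (up r') (up t), q⟩`. -/
theorem Pt.exists_h (hK : Inac K) (hD : IsPar D) (hV : VClosed #K V) (M : Pt D V b T)
    (hb : ∃ b', b < b' ∧ Inac (Iio b')) (F : K → RO (Comp V)) :
    ∃ h : Comp V → Comp V, HProp {y | supp y.p.1 ⊆ Iio b ∧ y.x ∈ T} b F h := by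
  classical
  have hX : IsLowerSet (Iic b) := isLowerSet_Iic b
  have hX' : IsLowerSet (Iio b) := isLowerSet_Iio b
  obtain ⟨m, hm⟩ := M.exists_master hK hV
  obtain ⟨b', ⟨hbb', hib'⟩, hmin⟩ := WellFounded.has_min (wellFounded_lt (α := K))
    {b' | b < b' ∧ Inac (Iio b')} hb
  have hI : #(Iio b) < #(Iio b') := by
    have := hib'.iio ⟨b, hbb'⟩
    rwa [card_Iio_Iio] at this
  obtain ⟨t, q, htq, hdec⟩ := decideV hK hD hV hib' hbb'
    (fun c hc hic => not_lt.1 (hmin c ⟨hc, hic⟩)) (I := Iio b) hI (fun δ => F δ.1) m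
  obtain ⟨h, hh⟩ : ∃ h : Comp V → Comp V, ∀ y : Comp V, y.x ∈ T → ∃ u, M.ρ u = y.x ∧
      h y = CH_x M t q u (ct (Iio b) y.p) := by
    refine ⟨fun y => if hy : y.x ∈ T then CH_x M t q (M.surj _ hy).choose (ct (Iio b) y.p) else y,
      fun y hy => ⟨(M.surj _ hy).choose, (M.surj _ hy).choose_spec, ?_⟩⟩
    simp only [dif_pos hy]
  refine ⟨h, ⟨?_, ?_, ?_, ?_⟩⟩
  · rintro y ⟨hy1, hy2⟩
    obtain ⟨u, hu, hu2⟩ := hh y hy2
    rw [hu2]
    have h1 : gl (Iic b) (up (M.ins u (ct (Iio b) y.p))) (up t) ≤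
        up (M.ins u (ct (Iio b) y.p)) := gl_le_left hX _ _
    refine Comp.le_iff.2 ⟨?_, ?_⟩
    · refine h1.trans ((M.ins_le _ _).trans ?_)
      rw [up_ct hy1]
    · refine V.trans _ m _ (RO.mem_inf.2 ⟨RO.mem_of_le (gl_le_right _ _ _) htq, ?_⟩)
      rw [← hu]
      exact RO.mem_of_le h1 (hm _ _)
  · rintro y ⟨hy1, hy2⟩ y' ⟨hy1', hy2'⟩ hle
    obtain ⟨u, hu, hu2⟩ := hh y hy2
    obtain ⟨u', hu', hu2'⟩ := hh y' hy2'
    rw [hu2, hu2']
    obtain ⟨hle1, hle2⟩ := Comp.le_iff.1 hle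
    refine CH_mono M (ct_mono hX' hle1) ?_
    rw [up_ct hy1', hu, hu']
    exact hle2
  · rintro y ⟨hy1, hy2⟩ z hz
    obtain ⟨u, hu, hu2⟩ := hh y hy2
    rw [hu2] at hz
    obtain ⟨hz1, hz2⟩ := Comp.le_iff.1 hz
    have hz3 : z.p ≤ up (M.ins u (ct (Iio b) y.p)) := hz1.trans (gl_le_left hX _ _)
    have hz4 : z.p ≤ up t := hz1.trans (gl_le_right _ _ _)
    obtain ⟨v, hv, hv1, hv2⟩ := M.of_le_ins hz3
    have hyA : (⟨up (ct (Iio b) z.p), M.ρ v⟩ : Comp V) ∈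
        {y : Comp V | supp y.p.1 ⊆ Iio b ∧ y.x ∈ T} :=
      ⟨(ct (Iio b) z.p).2.2, M.mem v⟩
    refine ⟨⟨up (ct (Iio b) z.p), M.ρ v⟩, hyA, ?_, ?_, ?_⟩
    · refine Comp.le_iff.2 ⟨?_, ?_⟩
      · rw [← up_ct hy1]
        exact up_le_up.2 hv1
      · rw [← hu]
        exact hv2
    · obtain ⟨u1, hu1, hu12⟩ := hh ⟨up (ct (Iio b) z.p), M.ρ v⟩ hyA.2
      rw [hu12]
      refine Comp.le_iff.2 ⟨le_gl ?_ hz4, hz2⟩
      refine (M.le_ins_ct hv).trans (up_le_up.2 (M.ins_le_ins.2 ⟨?_, ?_⟩))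
      · rw [ct_up]
      · rw [hu1, V.refl]
        exact RO.mem_top
    · rintro y'' ⟨hy1'', hy2''⟩ hle
      obtain ⟨hle1, hle2⟩ := Comp.le_iff.1 hle
      obtain ⟨u'', hu'', hu2''⟩ := hh y'' hy2''
      have h1 : ct (Iio b) y''.p ≤ ct (Iio b) z.p := by
        have := ct_mono hX' hle1
        rwa [ct_up] at this
      have h2 : gl (Iic b) (up (M.ins u'' (ct (Iio b) y''.p))) z.p ≤ z.p := by
        refine M.gl_ins_le hv h1 ?_
        rw [up_ct hy1'', hu'']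
        exact hle2
      refine ⟨⟨gl (Iic b) (up (M.ins u'' (ct (Iio b) y''.p))) z.p, z.x⟩,
        Comp.le_iff.2 ⟨h2, ?_⟩, ?_⟩
      · rw [V.refl]
        exact RO.mem_top
      · rw [hu2'']
        exact Comp.le_iff.2 ⟨le_gl (gl_le_left hX _ _) (h2.trans hz4), RO.mem_of_le h2 hz2⟩
  · rintro δ hδ y ⟨hy1, hy2⟩
    obtain ⟨u, hu, hu2⟩ := hh y hy2
    obtain ⟨r', hr', hr2⟩ := hdec ⟨δ, hδ⟩ (M.ins u (ct (Iio b) y.p))
    obtain ⟨v, hv, hv1, hv2⟩ := M.of_le_ins (up_le_up.2 hr')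
    have hyA : (⟨up (ct (Iio b) (up r')), M.ρ v⟩ : Comp V) ∈
        {y : Comp V | supp y.p.1 ⊆ Iio b ∧ y.x ∈ T} :=
      ⟨(ct (Iio b) (up r')).2.2, M.mem v⟩
    refine ⟨⟨up (ct (Iio b) (up r')), M.ρ v⟩, hyA, ?_, ?_⟩
    · refine Comp.le_iff.2 ⟨?_, ?_⟩
      · rw [← up_ct hy1]
        exact up_le_up.2 hv1
      · rw [← hu]
        exact hv2
    · obtain ⟨u1, hu1, hu12⟩ := hh ⟨up (ct (Iio b) (up r')), M.ρ v⟩ hyA.2
      have h1 : r' = M.ins v (ct (Iio b) (up r')) := by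
        rw [← M.ct_eq_ins hv, ct_up]
      have h2 : h ⟨up (ct (Iio b) (up r')), M.ρ v⟩ ≤
          (⟨gl (Iic b) (up r') (up t), q⟩ : Comp V) := by
        rw [hu12]
        refine Comp.le_iff.2 ⟨gl_mono hX ?_ le_rfl, ?_⟩
        · rw [h1]
          refine M.ins_le_ins.2 ⟨?_, ?_⟩
          · rw [← h1, ct_up]
          · rw [hu1, V.refl]
            exact RO.mem_top
        · change _ ∈ V.le q q
          rw [V.refl]
          exact RO.mem_top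
      exact hr2.imp (RO.mem_of_le h2) (RO.mem_of_le h2)

end Pool.Agent.LibLs83
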