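import Pool.Agent.LibLs83.LParA
import Pool.Agent.LibDm83.Small

/-! Task CInacA: a criterion for inaccessible initial segments. -/

namespace Pool.Agent.LibLs83

open Cardinal Set Pool.Agent.LibDm83

variable {K : Type} [LinearOrder K] [WellFoundedLT K]

/- Key: if `#X < #(Iio b)` then `#X ≤ #(Iio a)` for some `a < b` (`card_Iio_le`). `bdd`: enumerate the set by
`Iio a`. `sum`: `#(ι) ≤ #(Iio a)`, `#(f j) ≤ #(Iio (g j))`, take a bound of the `g j` by `h3`. -/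
theorem inac_of_iio {b : K} (h1 : ∃ a < b, ℵ₀ < #(Iio a))
    (h2 : ∀ a < b, ∃ a' < b, 2 ^ #(Iio a) ≤ #(Iio a'))
    (h3 : ∀ a < b, ∀ f : K → K, (∀ c < a, f c < b) → ∃ d < b, ∀ c < a, f c < d) :
    Inac (Iio b) := by
  classical
  have hsub : ∀ a a' : K, a ≤ a' → #(Iio a) ≤ #(Iio a') := fun a a' h =>
    mk_le_mk_of_subset (Iio_subset_Iio h)
  have hk : ∀ X : Type, #X < #(Iio b) → ∃ a < b, #X ≤ #(Iio a) := by
    intro X hX
    by_contra hcon
    push Not at hcon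
    exact absurd hX (not_lt.2 (card_Iio_le hcon))
  have hlt : ∀ a < b, #(Iio a) < #(Iio b) := by
    intro a ha
    obtain ⟨a', ha', h⟩ := h2 a ha
    exact ((cantor _).trans_le h).trans_le (hsub a' b ha'.le)
  obtain ⟨a₀, ha₀, hunc⟩ := h1
  have hbdd : ∀ x : Set (Iio b), #x < #(Iio b) → ∃ d : Iio b, ∀ a ∈ x, a < d := by
    intro x hx
    rcases x.eq_empty_or_nonempty with rfl | ⟨y₀, hy₀⟩
    · exact ⟨⟨a₀, ha₀⟩, fun a ha => absurd ha (notMem_empty a)⟩
    · obtain ⟨a, ha, ⟨e⟩⟩ := hk x hx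
      have hne : Nonempty x := ⟨⟨y₀, hy₀⟩⟩
      obtain ⟨d, hd, hd'⟩ := h3 a ha
        (fun c => if h : c < a then (Function.invFun e ⟨c, h⟩).1.1 else c) (by
          intro c hc
          simp only [dif_pos hc]
          exact (Function.invFun e ⟨c, hc⟩).1.2)
      refine ⟨⟨d, hd⟩, fun y hy => ?_⟩
      have h4 := hd' (e ⟨y, hy⟩).1 (e ⟨y, hy⟩).2
      have h5 : (e ⟨y, hy⟩).1 < a := (e ⟨y, hy⟩).2
      simp only [dif_pos h5] at h4
      have h6 : Function.invFun e (e ⟨y, hy⟩) = ⟨y, hy⟩ :=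
        Function.leftInverse_invFun e.injective _
      have h7 : (⟨(e ⟨y, hy⟩).1, h5⟩ : Iio a) = e ⟨y, hy⟩ := rfl
      rw [h7, h6] at h4
      exact h4
  refine ⟨hunc.trans (hlt a₀ ha₀), ?_, hbdd, ?_, ?_⟩
  · intro a
    rw [card_Iio_Iio]
    exact hlt a.1 a.2
  · intro X hX
    obtain ⟨a, ha, h⟩ := hk X hX
    obtain ⟨a', ha', h'⟩ := h2 a ha
    rw [mk_set]
    exact ((power_le_power_left two_ne_zero h).trans h').trans_lt (hlt a' ha')
  · intro ι f hι hf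
    have h4 : ∀ j, ∃ a < b, #(f j) ≤ #(Iio a) := fun j => hk _ (hf j)
    choose g hg hg' using h4
    obtain ⟨d, hd⟩ := hbdd (range fun j => (⟨g j, hg j⟩ : Iio b)) (mk_range_le.trans_lt hι)
    obtain ⟨a, ha, hιa⟩ := hk ι hι
    obtain ⟨m, hm⟩ : ∃ m, m = max a₀ (max a d.1) := ⟨_, rfl⟩
    have hmb : m < b := hm ▸ max_lt ha₀ (max_lt ha d.2)
    have hm0 : ℵ₀ ≤ #(Iio m) := (hunc.trans_le (hsub a₀ m (hm ▸ le_max_left _ _))).le
    have hma : a ≤ m := hm ▸ (le_max_left _ _).trans (le_max_right _ _)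
    have hmd : d.1 ≤ m := hm ▸ (le_max_right _ _).trans (le_max_right _ _)
    have h5 : #(Σ j, f j) ≤ #(Iio m) := by
      rw [mk_sigma]
      refine (sum_le_sum _ (fun _ => #(Iio m)) fun j => ?_).trans ?_
      · refine (hg' j).trans (hsub _ _ (le_trans ?_ hmd))
        have h6 : (⟨g j, hg j⟩ : Iio b) < d := hd _ ⟨j, rfl⟩
        have h7 : g j < d.1 := h6
        exact h7.le
      · rw [sum_const']
        exact (mul_le_mul' (hιa.trans (hsub a m hma)) le_rfl).trans (mul_eq_self hm0).le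
    exact h5.trans_lt (hlt m hmb)

end Pool.Agent.LibLs83
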