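import Pool.Agent.LibLs83.CPt

/-! Task CIns: adding the coordinate `b`. -/

namespace Pool.Agent.LibLs83

open Cardinal Set Pool.Agent.LibTk83 Pool.Agent.LibDm83

section

open Classical in
/-- The raw condition `p` with `(n, u)` at the coordinate `b`. -/
noncomputable def insR {K : Type} (b n u : K) (p : RawL K) : RawL K :=
  fun c => if c = b then some (n, u) else p c

variable {K Θ : Type} [LinearOrder K] [WellFoundedLT K] {D : Par K} {V : VPre (PL D) Θ} {b : K}
  {T : Set Θ}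

theorem insR_mem (M : Pt D V b T) (u : Iio (D.th b)) (p : PX D (Iio b)) :
    insR b M.n u.1 p.1 ∈ SX D (Iic b) := by
  classical
  have hne : ∀ c, c ≠ b → insR b M.n u.1 p.1 c = p.1 c := fun c hc => by
    simp only [insR, if_neg hc]
  have hsupp : ∀ c, c ∈ supp (insR b M.n u.1 p.1) → c ≠ b → c ∈ supp p.1 := by
    intro c hc hcb
    have h1 : insR b M.n u.1 p.1 c ≠ none := hc
    rw [hne c hcb] at h1
    exact h1
  have hsub : supp (insR b M.n u.1 p.1) ⊆ Iic b := by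
    intro c hc
    by_cases hcb : c = b
    · exact hcb.le
    · exact le_of_lt (p.2.2 (hsupp c hc hcb))
  have hE : Eas (insR b M.n u.1 p.1) := by
    refine ⟨?_, ?_⟩
    · obtain ⟨m, hm⟩ := M.lt
      exact ⟨m, fun c hc => lt_of_le_of_lt (hsub hc) hm⟩
    · intro b' hb'
      rcases lt_or_ge b b' with h | h
      · obtain ⟨c, hc⟩ := hb'.bdd {(⟨b, h⟩ : Iio b')} (by
          rw [mk_singleton]
          exact one_lt_aleph0.trans hb'.unc)
        have hbc : b < c.1 := hc _ rfl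
        exact ⟨c.1, c.2, fun a ha => lt_of_le_of_lt (hsub ha.1) hbc⟩
      · obtain ⟨c, hc, hc'⟩ := p.2.1.1.2 b' hb'
        exact ⟨c, hc, fun a ha => hc' ⟨hsupp a ha.1 (ne_of_lt (lt_of_lt_of_le ha.2 h)), ha.2⟩⟩
  refine ⟨⟨hE, ?_⟩, hsub⟩
  intro c n x h
  by_cases hcb : c = b
  · subst hcb
    have h1 : (some (M.n, u.1) : Option (K × K)) = some (n, x) := by
      rw [← h]
      simp only [insR, if_true]
    have h2 := Option.some.inj h1
    rw [Prod.mk.injEq] at h2
    rw [← h2.1, ← h2.2]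
    exact ⟨M.inac, u.2, M.gd⟩
  · rw [hne c hcb] at h
    exact p.2.1.2 c n x h

/-- Add the coordinate `b` with the element `u`. -/
noncomputable def Pt.ins (M : Pt D V b T) (u : Iio (D.th b)) (p : PX D (Iio b)) : PX D (Iic b) :=
  ⟨insR b M.n u.1 p.1, insR_mem M u p⟩

end

variable {K Θ : Type} [LinearOrder K] [WellFoundedLT K] {D : Par K} {V : VPre (PL D) Θ} {b : K}
  {T : Set Θ} (M : Pt D V b T)

theorem Pt.ins_self (u : Iio (D.th b)) (p : PX D (Iio b)) :
    (M.ins u p).1 b = some (M.n, u.1) := by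
  classical
  show insR b M.n u.1 p.1 b = _
  simp only [insR, if_true]

theorem Pt.ins_ne (u : Iio (D.th b)) (p : PX D (Iio b)) {c : K} (h : c ≠ b) :
    (M.ins u p).1 c = p.1 c := by
  classical
  show insR b M.n u.1 p.1 c = _
  simp only [insR, if_neg h]

private theorem CIns_cut (u : Iio (D.th b)) (p : PX D (Iio b)) :
    cut (Iio b) (M.ins u p).1 = p.1 := by
  have h : cut (Iio b) (M.ins u p).1 = cut (Iio b) p.1 :=
    cut_congr fun c hc => M.ins_ne u p (ne_of_lt hc)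
  exact h.trans (cut_eq_self p.2.2)

private theorem CIns_cut_lt (u : Iio (D.th b)) (p : PX D (Iio b)) {c : K} (hc : c < b) :
    cut (Iio c) (M.ins u p).1 = cut (Iio c) p.1 :=
  cut_congr fun _ ha => M.ins_ne u p (ne_of_lt (lt_trans ha hc))

private theorem CIns_lt (p : PX D (Iio b)) {c : K} {a : K × K} (h : p.1 c = some a) : c < b :=
  p.2.2 (show p.1 c ≠ none by rw [h]; simp)

theorem Pt.ct_ins (u : Iio (D.th b)) (p : PX D (Iio b)) :
    ct (Iio b) (up (M.ins u p)) = p :=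
  Subtype.ext (CIns_cut M u p)

theorem Pt.ins_le_ins {u u' : Iio (D.th b)} {p p' : PX D (Iio b)} :
    M.ins u' p' ≤ M.ins u p ↔ p' ≤ p ∧ up p' ∈ V.le (M.ρ u') (M.ρ u) := by
  constructor
  · intro h
    refine ⟨?_, ?_⟩
    · have h1 := ct_mono (isLowerSet_Iio b) (up_le_up.2 h)
      rwa [M.ct_ins, M.ct_ins] at h1
    · obtain ⟨x', h1, h2⟩ := h b M.n u.1 (M.ins_self u p)
      rw [M.ins_self] at h1
      have h3 := Option.some.inj h1
      rw [Prod.mk.injEq] at h3
      rw [← h3.2, CIns_cut M u' p'] at h2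
      exact (M.dat u' u p').1 h2
  · rintro ⟨h1, h2⟩ c m x hc
    by_cases hcb : c = b
    · subst hcb
      rw [M.ins_self] at hc
      have h3 := Option.some.inj hc
      rw [Prod.mk.injEq] at h3
      refine ⟨u'.1, ?_, ?_⟩
      · rw [M.ins_self, h3.1]
      · rw [CIns_cut M u' p', ← h3.1, ← h3.2]
        exact (M.dat u' u p').2 h2
    · rw [M.ins_ne u p hcb] at hc
      obtain ⟨x', h3, h4⟩ := h1 c m x hc
      refine ⟨x', ?_, ?_⟩
      · rw [M.ins_ne u' p' hcb]
        exact h3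
      · rw [CIns_cut_lt M u' p' (CIns_lt p hc)]
        exact h4

theorem Pt.ins_le (u : Iio (D.th b)) (p : PX D (Iio b)) : up (M.ins u p) ≤ up p := by
  have h := le_up_ct (Iio b) (up (M.ins u p))
  rwa [M.ct_ins] at h

/- The value of `s` at `b` is in `Iio (D.th b)` by validity. -/
theorem Pt.of_le_ins {u : Iio (D.th b)} {p : PX D (Iio b)} {s : PL D}
    (h : s ≤ up (M.ins u p)) : ∃ v : Iio (D.th b), s.1 b = some (M.n, v.1) ∧
      ct (Iio b) s ≤ p ∧ up (ct (Iio b) s) ∈ V.le (M.ρ v) (M.ρ u) := by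
  obtain ⟨x', h1, h2⟩ := h b M.n u.1 (M.ins_self u p)
  have h3 : x' < D.th b := (s.2.1.2 b M.n x' h1).2.1
  refine ⟨⟨x', h3⟩, h1, ?_, (M.dat ⟨x', h3⟩ u (ct (Iio b) s)).1 h2⟩
  have h4 := ct_mono (isLowerSet_Iio b) h
  rwa [M.ct_ins] at h4

theorem Pt.le_ins_ct {s : PL D} {v : Iio (D.th b)} (h : s.1 b = some (M.n, v.1)) :
    s ≤ up (M.ins v (ct (Iio b) s)) := by
  intro c m x hc
  have hc' : (M.ins v (ct (Iio b) s)).1 c = some (m, x) := hc
  by_cases hcb : c = b
  · subst hcb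
    rw [M.ins_self] at hc'
    have h3 := Option.some.inj hc'
    rw [Prod.mk.injEq] at h3
    refine ⟨v.1, ?_, ?_⟩
    · rw [h, h3.1]
    · rw [← h3.1, ← h3.2]
      exact Gd_refl M.gd (SX_cut _ s.2) v.2
  · rw [M.ins_ne _ _ hcb] at hc'
    have h4 : s.1 c = some (m, x) := (cut_eq_some.1 hc').2
    have h5 := s.2.1.2 c m x h4
    exact ⟨x, h4, Gd_refl h5.2.2 (SX_cut _ s.2) h5.2.1⟩

theorem Pt.ct_eq_ins {s : PL D} {v : Iio (D.th b)} (h : s.1 b = some (M.n, v.1)) :
    ct (Iic b) s = M.ins v (ct (Iio b) s) := by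
  classical
  refine Subtype.ext (funext fun c => ?_)
  show cut (Iic b) s.1 c = (M.ins v (ct (Iio b) s)).1 c
  rcases lt_trichotomy c b with hc | hc | hc
  · rw [M.ins_ne _ _ (ne_of_lt hc)]
    show cut (Iic b) s.1 c = cut (Iio b) s.1 c
    rw [cut_of_mem (show c ∈ Iic b from hc.le), cut_of_mem (show c ∈ Iio b from hc)]
  · subst hc
    rw [M.ins_self, cut_of_mem (show c ∈ Iic c from le_rfl)]
    exact h
  · rw [M.ins_ne _ _ (ne_of_gt hc)]
    show cut (Iic b) s.1 c = cut (Iio b) s.1 c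
    unfold cut
    rw [pw_of_notMem (show c ∉ Iic b from not_le.2 hc),
      pw_of_notMem (show c ∉ Iio b from not_lt.2 hc.le)]

theorem Pt.gl_ins_le {s : PL D} {v v' : Iio (D.th b)} {p : PX D (Iio b)}
    (h : s.1 b = some (M.n, v.1)) (hp : p ≤ ct (Iio b) s) (hv : up p ∈ V.le (M.ρ v') (M.ρ v)) :
    gl (Iic b) (up (M.ins v' p)) s ≤ s := by
  refine gl_le (isLowerSet_Iic b) ?_
  rw [M.ct_eq_ins h]
  exact (M.ins_le_ins).2 ⟨hp, hv⟩

end Pool.Agent.LibLs83
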