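import Pool.Agent.LibLs83.CRef

/-! Task CRefG: the strong conditions force that the limit set is guessed. -/

namespace Pool.Agent.LibLs83

open Cardinal Set Pool.Agent.LibTk83 Pool.Agent.LibDm83

variable {X Q K : Type} [Preorder Q] [LinearOrder K] {U : Ultrafilter X} {A : X → Set Q}
  {β : X → K}

/- `limRO` for `e x = {y | h x y ∈ F x δ}`. Regular: let `y ∈ A x` be such that this is dense below `y`
(in `A x`), and `z ≤ h x y`. By `red` there is `y'`, then `y'' ≤ y'` with `h x y'' ∈ F x δ`, and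
`z' ≤ z` with `z' ≤ h x y''`. -/
theorem ReflA.exists_lim (R : ReflA U A β) (F : X → K → RO Q) (h : X → Q → Q)
    (hh : ∀ᶠ x in (U : Filter X), HProp (A x) (β x) (F x) (h x)) :
    ∃ Y : K → RO Q, ∀ᶠ x in (U : Filter X), ∀ δ < β x, ∀ y ∈ A x, (y ∈ Y δ ↔ h x y ∈ F x δ) := by
  have key : ∀ δ, ∃ E : RO Q, ∀ᶠ x in (U : Filter X), ∀ y ∈ A x,
      (y ∈ E ↔ y ∈ {y | h x y ∈ F x δ}) := by
    intro δ
    obtain ⟨E, -, hE⟩ := R.limRO (fun x => {y | h x y ∈ F x δ})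
      (hh.mono fun x hx y hy y' hy' hle hyF => RO.mem_of_le (hx.mono y hy y' hy' hle) hyF)
      (hh.mono fun x hx y hy hd => by
        change h x y ∈ F x δ
        refine RO.mem_of_dense fun z hz => ?_
        obtain ⟨y', hy', hle, -, hz2⟩ := hx.red y hy z hz
        obtain ⟨y'', hy'', hle', hF⟩ := hd y' hy' hle
        obtain ⟨z', hz', hz''⟩ := hz2 y'' hy'' hle'
        exact ⟨z', hz', RO.mem_of_le hz'' hF⟩)
    exact ⟨E, hE⟩
  choose Y hY using key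
  refine ⟨Y, ?_⟩
  exact R.diagK (fun δ x => ∀ y ∈ A x, (y ∈ Y δ ↔ h x y ∈ F x δ)) hY

/- Let `y ∈ A x`, `δ < β x` and `z ≤ h x y`. By `red` and `dec` there is `y' ≤ y` in `A x` such that
`h x y'` decides `F x δ`, and `z' ≤ z` with `z' ≤ h x y' ≤ y'`. If `h x y' ∈ F x δ` then `y' ∈ Y δ`, so
`z'` is in `F x δ ⊓ Y δ`. Otherwise `y' ∈ (Y δ)ᶜ` by `ReflA.compl`: if `y'' ≤ y'` is in `Y δ` and in
`A x` then `h x y'' ∈ F x δ` and `h x y'' ≤ h x y' ∈ (F x δ)ᶜ`. -/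
theorem ReflA.guess (R : ReflA U A β) (F : X → K → RO Q) (h : X → Q → Q)
    (hh : ∀ᶠ x in (U : Filter X), HProp (A x) (β x) (F x) (h x)) (Y : K → RO Q)
    (hY : ∀ᶠ x in (U : Filter X), ∀ δ < β x, ∀ y ∈ A x, (y ∈ Y δ ↔ h x y ∈ F x δ)) (y : Q) :
    ∀ᶠ x in (U : Filter X), h x y ∈
      ⨅ δ, ⨅ (_ : δ < β x), ((F x δ ⇨ Y δ) ⊓ (Y δ ⇨ F x δ)) := by
  have hc := R.diagK (fun δ x => ∀ y ∈ A x, y ∉ (Y δ)ᶜ → ∃ y' ∈ A x, y' ≤ y ∧ y' ∈ Y δ)
    (fun δ => R.compl (Y δ))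
  filter_upwards [hh, hY, hc, R.fine y] with x hx hYx hcx hy
  rw [RO.mem_iInf]
  intro δ
  rw [RO.mem_iInf]
  intro hδ
  refine RO.mem_of_dense fun z hz => ?_
  obtain ⟨y', hy', -, -, hz2⟩ := hx.red y hy z hz
  obtain ⟨y'', hy'', hle', hdec⟩ := hx.dec δ hδ y' hy'
  obtain ⟨z', hz', hz''⟩ := hz2 y'' hy'' hle'
  have hzy : z' ≤ y'' := hz''.trans (hx.le y'' hy'')
  refine ⟨z', hz', ?_⟩
  rcases hdec with hF | hF
  · have hY' : y'' ∈ Y δ := (hYx δ hδ y'' hy'').2 hF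
    rw [RO.mem_inf, RO.mem_himp, RO.mem_himp]
    exact ⟨fun q hq _ => RO.mem_of_le (hq.trans hzy) hY',
      fun q hq _ => RO.mem_of_le (hq.trans hz'') hF⟩
  · have hY' : y'' ∈ (Y δ)ᶜ := by
      by_contra hn
      obtain ⟨w, hw, hwle, hwY⟩ := hcx δ hδ y'' hy'' hn
      have hwF := (hYx δ hδ w hw).1 hwY
      exact RO.mem_compl.1 hF (h x w) (hx.mono y'' hy'' w hw hwle) hwF
    rw [RO.mem_inf, RO.mem_himp, RO.mem_himp]
    exact ⟨fun q hq hqF => absurd hqF (RO.mem_compl.1 hF q (hq.trans hz'')),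
      fun q hq hqY => absurd hqY (RO.mem_compl.1 hY' q (hq.trans hzy))⟩

end Pool.Agent.LibLs83
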