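import Pool.Agent.LibLs83.CRefC
import Pool.Agent.LibLs83.CRefG

/-! Task CRefM: abstract form of the lifting argument. -/

namespace Pool.Agent.LibLs83

open Cardinal Set Pool.Agent.LibTk83 Pool.Agent.LibDm83

variable {X Q K : Type} [Preorder Q] [LinearOrder K] {U : Ultrafilter X} {A : X → Set Q}
  {β : X → K}

/- `R.exists_lim` for `fun x => F (β x)`; for `y` in the left side and `y' ≤ y` take `x` such that
`h x y' ∈ c (β x)` (`R.club`), `h x y'` is in the infimum (`R.guess`), `y' ∈ A x` and `HProp`. -/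
theorem ReflA.ineffB (R : ReflA U A β)
    (hh : ∀ F : K → K → RO Q, ∃ h : X → Q → Q,
      ∀ᶠ x in (U : Filter X), HProp (A x) (β x) (F (β x)) (h x)) :
    IneffB (RO Q) K := by
  intro F
  obtain ⟨h, hF⟩ := hh F
  obtain ⟨Y, hY⟩ := R.exists_lim (fun x => F (β x)) h hF
  refine ⟨Y, fun c y hy => ?_⟩
  rw [RO.mem_iSup]
  intro y' hy'
  have hy2 : y' ∈ unbB c ⊓ cloB c := RO.mem_of_le hy' hy
  have h1 := R.club (fun x => F (β x)) h hF c y' hy2
  have h2 := R.guess (fun x => F (β x)) h hF Y hY y'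
  obtain ⟨x, hx1, hx2, hx3, hx4⟩ := (h1.and (h2.and (hF.and (R.fine y')))).exists
  exact ⟨h x y', hx3.le y' hx4, β x, RO.mem_inf.2 ⟨hx1, hx2⟩⟩

end Pool.Agent.LibLs83
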