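import Pool.Agent.LibLs83.CBase
import Pool.Agent.LibLs83.CClos
import Pool.Agent.LibLs83.CExStr
import Pool.Agent.LibLs83.CH
import Pool.Agent.LibLs83.CRefM

/-! The lifting theorem. -/

namespace Pool.Agent.LibLs83

open Cardinal Set Pool.Agent.LibTk83 Pool.Agent.LibDm83

variable {K : Type} [LinearOrder K] [WellFoundedLT K] {D : Par K} {Θ X : Type}
  {U : Ultrafilter X} {β : X → K} {T : X → Set Θ} {V : VPre (PL D) Θ}

theorem LStr.ineffB [Nonempty Θ] (hK : Inac K) (hD : IsPar D) (S : LStr D Θ U β T)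
    (hV : VClosed #K V) : IneffB (RO (Comp V)) K := by
  refine (S.reflV V).ineffB fun F => ?_
  have h1 : ∀ᶠ x in (U : Filter X), Nonempty (Pt D V (β x) (T x)) := by
    obtain ⟨u⟩ : Nonempty Θ := inferInstance
    filter_upwards [S.closed_res hK (S.base hK hD) hV, S.inac, S.cardT, S.fineT u]
      with x h1 h2 h3 h4
    exact exists_pt hK hD h2 h3 ⟨u, h4⟩ h1
  have h2 : ∀ᶠ x in (U : Filter X), ∃ h : Comp V → Comp V,
      HProp {y | supp y.p.1 ⊆ Iio (β x) ∧ y.x ∈ T x} (β x) (F (β x)) h := by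
    filter_upwards [h1] with x hx
    obtain ⟨M⟩ := hx
    exact M.exists_h hK hD hV (S.inac_above _) _
  classical
  refine ⟨fun x => if hx : ∃ h : Comp V → Comp V,
      HProp {y | supp y.p.1 ⊆ Iio (β x) ∧ y.x ∈ T x} (β x) (F (β x)) h then hx.choose else id, ?_⟩
  filter_upwards [h2] with x hx
  rw [dif_pos hx]
  exact hx.choose_spec

/-- The lifting theorem: for each `K` with supercompactness there is a base `P` such that `κ` is
ineffable (in the Boolean sense) after forcing with `P * V`, for each directed closed `V` with at most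
`(2 ^ κ)⁺` elements. -/
theorem exists_base (hK : Inac K)
    (hs : ∀ Λ : Type, ∃ U : Ultrafilter {x : Set Λ // #x < #K}, IsNormal #K U) :
    ∃ (P : Type) (_ : Preorder P), Base P K ∧ ∀ (Θ : Type) (V : VPre P Θ),
      #Θ ≤ Order.succ (2 ^ #K) → Nonempty Θ → VClosed #K V → IneffB (RO (Comp V)) K := by
  obtain ⟨D, hD⟩ := exists_par hK
  refine ⟨PL D, inferInstance, ?_, ?_⟩
  · obtain ⟨X, U, β, T, S⟩ := exists_str (D := D) hK Unit (by
      refine le_trans ?_ (Order.le_succ _)
      rw [mk_unit]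
      exact one_le_aleph0.trans (hK.unc.le.trans (cantor _).le)) hs
    exact S.base hK hD
  · intro Θ V hΘ hne hV
    obtain ⟨X, U, β, T, S⟩ := exists_str (D := D) hK Θ hΘ hs
    exact S.ineffB hK hD hV

end Pool.Agent.LibLs83
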