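import Pool.Agent.LibLs83.CIns

/-! Task CMas: the master condition. -/

namespace Pool.Agent.LibLs83

open Cardinal Set Pool.Agent.LibTk83 Pool.Agent.LibDm83

variable {K Θ : Type} [LinearOrder K] [WellFoundedLT K] {D : Par K} {V : VPre (PL D) Θ} {b : K}
  {T : Set Θ}

/- `VClosed` for the index set `Iio (D.th b)`, the elements `M.ρ u` and the truth values
`RO.of (up (M.ins u (topL D (Iio b))))`. `DirAt` holds at all `r`: a condition `s` below
`up (M.ins u₁ _)` and `up (M.ins u₂ _)` has `s b = some (n, v)`; take `j = v`: `Pt.of_le_ins`,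
`Pt.le_ins_ct`, `Pt.ins_le_ins`, `le_up_ct`. -/
theorem Pt.exists_master (hK : Inac K) (hV : VClosed #K V) (M : Pt D V b T) :
    ∃ m, ∀ u p, up (M.ins u p) ∈ V.le m (M.ρ u) := by
  have : Nonempty K := ⟨b⟩
  have hins : ∀ (u : Iio (D.th b)) (p : PX D (Iio b)),
      up (M.ins u p) ≤ up (M.ins u (topL D (Iio b))) := by
    intro u p
    refine up_le_up.2 (M.ins_le_ins.2 ⟨le_topL p, ?_⟩)
    rw [V.refl]
    exact RO.mem_top
  obtain ⟨m, hm⟩ := hV (Iio (D.th b)) M.ρ
    (fun u => RO.of (up (M.ins u (topL D (Iio b))))) (hK.iio _)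
  have hdir : ∀ p, DirAt V M.ρ (fun u => RO.of (up (M.ins u (topL D (Iio b))))) p := by
    intro p k l p' _ hk hl
    obtain ⟨p1, hp1, hp1k⟩ := RO.mem_of.1 hk p' le_rfl
    obtain ⟨p2, hp2, hp2l⟩ := RO.mem_of.1 hl p1 hp1
    obtain ⟨v, hv, -, hv2⟩ := M.of_le_ins (hp2.trans hp1k)
    obtain ⟨v', hv', -, hv2'⟩ := M.of_le_ins hp2l
    have hvv : v = v' := by
      rw [hv] at hv'
      simp only [Option.some.injEq, Prod.mk.injEq, true_and] at hv'
      exact Subtype.ext hv'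
    subst hvv
    refine ⟨p2, hp2.trans hp1, v, ?_, RO.mem_of_le (le_up_ct _ _) hv2,
      RO.mem_of_le (le_up_ct _ _) hv2'⟩
    exact RO.mem_of_le ((M.le_ins_ct hv).trans (hins _ _)) (RO.self_mem_of _)
  refine ⟨m, fun u p => hm _ (hdir _) u (RO.mem_of_le (hins u p) (RO.self_mem_of _))⟩

end Pool.Agent.LibLs83
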