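import Pool.Agent.LibLs83.LCard

/-! Task LGood: each directed closed name has an index. -/

namespace Pool.Agent.LibLs83

open Cardinal Set Pool.Agent.LibTk83 Pool.Agent.LibDm83

variable {K : Type} [LinearOrder K] [WellFoundedLT K] {D : Par K}

/- There are fewer than `#K` conditions (`card_PX_lt'`), each with fewer than `#K` coordinates;
`Inac.sum`, `Inac.bdd`. -/
theorem exists_val_bound (hK : Inac K) (b : K) :
    ∃ m, ∀ p ∈ SX D (Iio b), ∀ c n z, p c = some (n, z) → c < m ∧ n < m ∧ z < m := by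
  classical
  have hinf : ℵ₀ ≤ #K := hK.unc.le
  let v : Fin 3 → K → K × K → K := fun j c t => if j = 0 then c else if j = 1 then t.1 else t.2
  let f : (PX D (Iio b) × Iio b) × Fin 3 → K := fun t =>
    v t.2 t.1.2.1 ((t.1.1.1 t.1.2.1).getD (b, b))
  have h1 : #((PX D (Iio b) × Iio b) × Fin 3) < #K := by
    rw [mk_prod, lift_id, lift_id, mk_prod, lift_id, lift_id]
    exact mul_lt_of_lt hinf (mul_lt_of_lt hinf (card_PX_lt' hK b) (hK.iio b))
      ((lt_aleph0_of_finite (Fin 3)).trans_le hinf)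
  obtain ⟨m, hm⟩ := hK.bdd (range f) (lt_of_le_of_lt mk_range_le h1)
  refine ⟨m, ?_⟩
  intro p hp c n z hc
  have hcb : c < b := hp.2 (show p c ≠ none by rw [hc]; simp)
  have h2 : ∀ j : Fin 3, v j c (n, z) < m := by
    intro j
    have h3 := hm (f ((⟨p, hp⟩, ⟨c, hcb⟩), j)) ⟨_, rfl⟩
    have h4 : f ((⟨p, hp⟩, ⟨c, hcb⟩), j) = v j c (n, z) := by
      simp only [f, hc, Option.getD_some]
    rwa [h4] at h3
  exact ⟨h2 0, h2 1, h2 2⟩

/- Let `l x y` be the set of the `p` with `p ∈ V.le x y`; it is bounded. Take the first index of `l`,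
and use `Gd_iff`. -/
theorem exists_index (hK : Inac K) (hD : IsPar D) {b : K}
    (V : VPre (PX D (Iio b)) (Iio (D.th b))) (hV : VClosed #(Iio b) V) :
    ∃ n, Gd D b n ∧ ∀ x y, ∀ p : PX D (Iio b), p.1 ∈ D.dat n x.1 y.1 ↔ p ∈ V.le x y := by
  classical
  let l : K → K → Set (RawL K) := fun x y => {p | ∃ hx : x < D.th b, ∃ hy : y < D.th b,
    ∃ hp : p ∈ SX D (Iio b), (⟨p, hp⟩ : PX D (Iio b)) ∈ V.le ⟨x, hx⟩ ⟨y, hy⟩}
  have hl : BdN l := by
    obtain ⟨m, hm⟩ := exists_val_bound (D := D) hK b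
    refine ⟨max m (D.th b), ?_⟩
    rintro x y p ⟨hx, hy, hp, -⟩
    refine ⟨lt_max_of_lt_right hx, lt_max_of_lt_right hy, ?_⟩
    intro c n z hc
    obtain ⟨h1, h2, h3⟩ := hm p hp c n z hc
    exact ⟨lt_max_of_lt_left h1, lt_max_of_lt_left h2, lt_max_of_lt_left h3⟩
  obtain ⟨n, hn, hmin⟩ : ∃ n, D.dat n = l ∧ ∀ m < n, D.dat m ≠ l := by
    have hne : {n | D.dat n = l}.Nonempty := hD.surj l hl
    refine ⟨(wellFounded_lt (α := K)).min _ hne, (wellFounded_lt (α := K)).min_mem _ hne, ?_⟩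
    intro m hm h
    exact (wellFounded_lt (α := K)).not_lt_min _ h hm
  have hiff : ∀ x y, ∀ p : PX D (Iio b), p.1 ∈ D.dat n x.1 y.1 ↔ p ∈ V.le x y := by
    intro x y p
    rw [hn]
    constructor
    · rintro ⟨hx, hy, hp, h⟩
      exact h
    · intro h
      exact ⟨x.2, y.2, p.2, h⟩
  refine ⟨n, Gd_iff.2 ⟨?_, ?_, V, fun x y p => (hiff x y p).symm, hV⟩, hiff⟩
  · intro m hm
    rw [hn]
    exact hmin m hm
  · intro x y p hp
    rw [hn] at hp
    obtain ⟨hx, hy, hp, -⟩ := hp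
    exact ⟨hx, hy, hp⟩

end Pool.Agent.LibLs83
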