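import Pool.Agent.LibLs83.CRes
import Pool.Agent.LibLs83.LGood

/-! The name at `b` given by the restriction of `V`; task CPt. -/

namespace Pool.Agent.LibLs83

open Cardinal Set Pool.Agent.LibTk83 Pool.Agent.LibDm83

section

variable {K Θ : Type} [LinearOrder K] [WellFoundedLT K]

/-- The name with the good index `n` at `b` is the restriction of `V` to `T` (which is enumerated by
`ρ`). -/
structure Pt (D : Par K) (V : VPre (PL D) Θ) (b : K) (T : Set Θ) where
  n : K
  ρ : Iio (D.th b) → Θ
  inac : Inac (Iio b)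
  gd : Gd D b n
  dat : ∀ u v, ∀ p : PX D (Iio b), p.1 ∈ D.dat n u.1 v.1 ↔ up p ∈ V.le (ρ u) (ρ v)
  mem : ∀ u, ρ u ∈ T
  surj : ∀ a ∈ T, ∃ u, ρ u = a
  lt : ∃ m, b < m

end

variable {K Θ : Type} [LinearOrder K] [WellFoundedLT K] {D : Par K} {V : VPre (PL D) Θ}

/- A surjection from `Iio (D.th b)` to `T` (`IsPar.th_le`), `pull_closed`, `exists_index`. -/
theorem exists_pt (hK : Inac K) (hD : IsPar D) {b : K} {T : Set Θ} (hb : Inac (Iio b))
    (hT : #T ≤ Order.succ (2 ^ #(Iio b))) (hne : T.Nonempty)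
    (h : VClosed #(Iio b) (resV V b T)) : Nonempty (Pt D V b T) := by
  obtain ⟨f⟩ := Cardinal.le_def _ _ |>.1 (hT.trans (hD.th_le b))
  have : Nonempty T := hne.to_subtype
  have hg : Function.Surjective (Function.invFun f) := Function.invFun_surjective f.injective
  obtain ⟨n, hn, hn'⟩ := exists_index hK hD (pull (resV V b T) (Function.invFun f))
    (pull_closed h hg)
  exact ⟨{
    n := n
    ρ := fun u => (Function.invFun f u : T).1
    inac := hb
    gd := hn
    dat := fun u v p => (hn' u v p).trans Iff.rfl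
    mem := fun u => (Function.invFun f u : T).2
    surj := fun a ha => by
      obtain ⟨u, hu⟩ := hg ⟨a, ha⟩
      exact ⟨u, congrArg Subtype.val hu⟩
    lt := by
      obtain ⟨m, hm⟩ := hK.bdd {b} (by
        rw [Cardinal.mk_singleton]
        exact Cardinal.one_lt_aleph0.trans hK.unc)
      exact ⟨m, hm b rfl⟩ }⟩

end Pool.Agent.LibLs83
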