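import Pool.Agent.LibLs83.CRef

namespace Pool.Agent.LibLs83

open Cardinal Set Pool.Agent.LibTk83 Pool.Agent.LibDm83

variable {X Q K : Type} [Preorder Q] [LinearOrder K] {U : Ultrafilter X} {A : X → Set Q}
  {β : X → K}

theorem ReflA.club (R : ReflA U A β) (F : X → K → RO Q) (h : X → Q → Q)
    (hh : ∀ᶠ x in (U : Filter X), HProp (A x) (β x) (F x) (h x)) (c : K → RO Q) (y : Q)
    (hy : y ∈ unbB c ⊓ cloB c) : ∀ᶠ x in (U : Filter X), h x y ∈ c (β x) := by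
  obtain ⟨hy1, hy2⟩ := RO.mem_inf.1 hy
  have h1 : ∀ᶠ x in (U : Filter X), ∀ y' ∈ A x, ∀ α < β x, y' ≤ y →
      ∃ y'' ∈ A x, y'' ≤ y' ∧ ∃ α', α < α' ∧ α' < β x ∧ y'' ∈ c α' := by
    refine R.diag _ fun y' => R.diagK _ fun α => ?_
    by_cases hle : y' ≤ y
    · have h2 := RO.mem_iInf.1 hy1 α
      obtain ⟨r, hr, α', hrα⟩ := RO.mem_iSup.1 h2 _ hle
      obtain ⟨r', hr', hα, hrα'⟩ := RO.mem_iSup.1 hrα r le_rfl
      filter_upwards [R.fine r', R.fineK α'] with x h3 h4 _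
      exact ⟨r', h3, hr'.trans hr, α', hα, h4, hrα'⟩
    · exact Filter.Eventually.of_forall fun x hx => absurd hx hle
  filter_upwards [h1, hh, R.fine y, R.fineK (β (Classical.choice (U.neBot.nonempty_of_mem Filter.univ_mem).to_subtype).1)]
    with x h1 hx hyx h5
  have hle : h x y ≤ y := hx.le y hyx
  have h2 : h x y ∈ cloB c := RO.mem_of_le hle hy2
  have h3 := RO.mem_himp.1 (RO.mem_iInf.1 (RO.mem_iInf.1 h2 (β x)) ⟨_, h5⟩) _ le_rfl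
  refine h3 (RO.mem_iInf.2 fun α => RO.mem_iInf.2 fun hα => ?_)
  refine RO.mem_of_dense fun z hz => ?_
  obtain ⟨y₁, hy₁, hy₁y, hzy₁, hred⟩ := hx.red y hyx z hz
  obtain ⟨y₂, hy₂, hy₂y, α', h6, h7, h8⟩ := h1 y₁ hy₁ α hα hy₁y
  obtain ⟨z', hz', hz'2⟩ := hred y₂ hy₂ hy₂y
  refine ⟨z', hz', ?_⟩
  exact (le_iSup₂ (f := fun (α' : K) (_ : α < α' ∧ α' < β x) => c α') α' ⟨h6, h7⟩)
    (RO.mem_of_le (hz'2.trans (hx.le y₂ hy₂)) h8)

end Pool.Agent.LibLs83
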