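import Pool.Agent.LibLs83.LCard

/-! The consequences of supercompactness which are used; task CStr: easy consequences. -/

namespace Pool.Agent.LibLs83

open Cardinal Set Pool.Agent.LibTk83 Pool.Agent.LibDm83

/-- The points `x` of `X` reflect the conditions with coordinates below `β x` and the elements of
`T x`. -/
structure LStr {K : Type} [LinearOrder K] [WellFoundedLT K] (D : Par K) (Θ : Type) {X : Type}
    (U : Ultrafilter X) (β : X → K) (T : X → Set Θ) : Prop where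
  complete : ∀ (ι : Type) (Φ : ι → X → Prop), #ι < #K →
    (∀ i, ∀ᶠ x in (U : Filter X), Φ i x) → ∀ᶠ x in (U : Filter X), ∀ i, Φ i x
  inac : ∀ᶠ x in (U : Filter X), Inac (Iio (β x))
  fineK : ∀ a, ∀ᶠ x in (U : Filter X), a < β x
  normK : ∀ f : X → K, (∀ᶠ x in (U : Filter X), f x < β x) → ∃ a, ∀ᶠ x in (U : Filter X), f x = a
  normP : ∀ f : X → PL D, (∀ᶠ x in (U : Filter X), supp (f x).1 ⊆ Iio (β x)) →
    ∃ p, ∀ᶠ x in (U : Filter X), f x = p
  fineT : ∀ u, ∀ᶠ x in (U : Filter X), u ∈ T x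
  normT : ∀ f : X → Θ, (∀ᶠ x in (U : Filter X), f x ∈ T x) → ∃ u, ∀ᶠ x in (U : Filter X), f x = u
  cardT : ∀ᶠ x in (U : Filter X), #(T x) ≤ Order.succ (2 ^ #(Iio (β x)))

variable {K : Type} [LinearOrder K] [WellFoundedLT K] {D : Par K} {Θ X : Type}
  {U : Ultrafilter X} {β : X → K} {T : X → Set Θ}

private theorem CStr_diag {α : Type} (M : α → X → Prop)
    (norm : ∀ f : X → α, (∀ᶠ x in (U : Filter X), M (f x) x) →
      ∃ a, ∀ᶠ x in (U : Filter X), f x = a)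
    (Φ : α → X → Prop) (h : ∀ a, ∀ᶠ x in (U : Filter X), Φ a x) :
    ∀ᶠ x in (U : Filter X), ∀ a, M a x → Φ a x := by
  classical
  by_contra hcon
  rw [← Ultrafilter.eventually_not] at hcon
  have h1 : ∀ᶠ x in (U : Filter X), ∃ a, M a x ∧ ¬ Φ a x := by
    filter_upwards [hcon] with x hx
    push Not at hx
    exact hx
  obtain ⟨x0, a0, -⟩ := h1.exists
  let f : X → α := fun x => if hx : ∃ a, M a x ∧ ¬ Φ a x then hx.choose else a0
  have h2 : ∀ᶠ x in (U : Filter X), M (f x) x ∧ ¬ Φ (f x) x := by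
    filter_upwards [h1] with x hx
    have h3 : f x = hx.choose := dif_pos hx
    rw [h3]
    exact hx.choose_spec
  obtain ⟨a, ha⟩ := norm f (h2.mono fun x hx => hx.1)
  obtain ⟨x, hx1, hx2, hx3⟩ := (h2.and (ha.and (h a))).exists
  rw [hx2] at hx1
  exact hx1.2 hx3

theorem LStr.diagK (S : LStr D Θ U β T) (Φ : K → X → Prop)
    (h : ∀ a, ∀ᶠ x in (U : Filter X), Φ a x) : ∀ᶠ x in (U : Filter X), ∀ a < β x, Φ a x :=
  CStr_diag (fun a x => a < β x) S.normK Φ h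

theorem LStr.diagP (S : LStr D Θ U β T) (Φ : PL D → X → Prop)
    (h : ∀ p, ∀ᶠ x in (U : Filter X), Φ p x) :
    ∀ᶠ x in (U : Filter X), ∀ p : PL D, supp p.1 ⊆ Iio (β x) → Φ p x :=
  CStr_diag (fun (p : PL D) x => supp p.1 ⊆ Iio (β x)) S.normP Φ h

theorem LStr.diagT (S : LStr D Θ U β T) (Φ : Θ → X → Prop)
    (h : ∀ u, ∀ᶠ x in (U : Filter X), Φ u x) : ∀ᶠ x in (U : Filter X), ∀ u ∈ T x, Φ u x :=
  CStr_diag (fun u x => u ∈ T x) S.normT Φ h

theorem LStr.fineP (S : LStr D Θ U β T) (p : PL D) :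
    ∀ᶠ x in (U : Filter X), supp p.1 ⊆ Iio (β x) := by
  obtain ⟨m, hm⟩ := p.2.1.1.1
  filter_upwards [S.fineK m] with x hx
  exact fun c hc => lt_trans (hm hc) hx

theorem LStr.inac_above (S : LStr D Θ U β T) (ν : K) : ∃ b, ν < b ∧ Inac (Iio b) := by
  obtain ⟨x, hx⟩ := ((S.fineK ν).and S.inac).exists
  exact ⟨β x, hx.1, hx.2⟩

end Pool.Agent.LibLs83
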