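import Mathlib

/-! Supercompact cardinals. -/

namespace Pool.Agent.LibLs83

open Cardinal Set

/-- `U` is a `κ`-complete normal fine ultrafilter on the subsets of `Λ` with fewer than `κ`
elements. -/
structure IsNormal (κ : Cardinal.{0}) {Λ : Type} (U : Ultrafilter {x : Set Λ // #x < κ}) : Prop where
  complete : ∀ (ι : Type) (s : ι → Set {x : Set Λ // #x < κ}), #ι < κ → (∀ i, s i ∈ U) →
    (⋂ i, s i) ∈ U
  fine : ∀ a, ∀ᶠ x in (U : Filter {x : Set Λ // #x < κ}), a ∈ x.1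
  normal : ∀ f : {x : Set Λ // #x < κ} → Λ,
    (∀ᶠ x in (U : Filter {x : Set Λ // #x < κ}), f x ∈ x.1) →
      ∃ a, ∀ᶠ x in (U : Filter {x : Set Λ // #x < κ}), f x = a

/-- `κ` is supercompact. -/
def Supercompact (κ : Cardinal.{0}) : Prop :=
  κ.IsInaccessible ∧ ∀ Λ : Type, ∃ U : Ultrafilter {x : Set Λ // #x < κ}, IsNormal κ U

end Pool.Agent.LibLs83
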