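import Pool.Agent.LibDm83.Sent
import Pool.Agent.LibDm83.Names
import Pool.Agent.LibLs83.Normal

/-!
Interface: forcing notions over a base forcing notion, given by preorders with truth values in the
algebra of the regular open sets of the base.
-/

namespace Pool.Agent.LibLs83

open Cardinal Set Pool.Agent.LibTk83 Pool.Agent.LibDm83

section Basic

variable {P Θ : Type} [Preorder P]

/-- Two regular open sets agree below `p`. -/
def Agr (p : P) (b c : RO P) : Prop := ∀ r ≤ p, r ∈ b ↔ r ∈ c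

/-- A preorder on `Θ` with truth values in `RO P` (a name for a preorder). -/
structure VPre (P Θ : Type) [Preorder P] where
  le : Θ → Θ → RO P
  refl : ∀ x, le x x = ⊤
  trans : ∀ x y z, le x y ⊓ le y z ≤ le x z

/-- The two step iteration. -/
structure Comp (V : VPre P Θ) where
  p : P
  x : Θ

instance (V : VPre P Θ) : Preorder (Comp V) where
  le y z := y.p ≤ z.p ∧ y.p ∈ V.le y.x z.x
  le_refl y := ⟨le_rfl, by rw [V.refl]; exact RO.mem_top⟩
  le_trans y z w h h' := ⟨h.1.trans h'.1,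
    V.trans _ _ _ (RO.mem_inf.2 ⟨h.2, RO.mem_of_le h.1 h'.2⟩)⟩

theorem Comp.le_iff {V : VPre P Θ} {y z : Comp V} : y ≤ z ↔ y.p ≤ z.p ∧ y.p ∈ V.le y.x z.x :=
  Iff.rfl

/-- `p` forces: the set of the `y k` with `e k` is directed. -/
def DirAt {I : Type} (V : VPre P Θ) (y : I → Θ) (e : I → RO P) (p : P) : Prop :=
  ∀ k l, ∀ p' ≤ p, p' ∈ e k → p' ∈ e l →
    ∃ p'' ≤ p', ∃ j, p'' ∈ e j ∧ p'' ∈ V.le (y j) (y k) ∧ p'' ∈ V.le (y j) (y l)

/-- It is forced that each directed set of fewer than `κ` elements has a lower bound. -/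
def VClosed (κ : Cardinal.{0}) (V : VPre P Θ) : Prop :=
  ∀ (I : Type) (y : I → Θ) (e : I → RO P), #I < κ →
    ∃ z, ∀ p, DirAt V y e p → ∀ k, p ∈ e k → p ∈ V.le z (y k)

/-- The properties of the base forcing notion: antichains have fewer than `κ` elements, there are at
most `κ` conditions, and there are few names for subsets of small sets. -/
structure Base (P K : Type) [Preorder P] : Prop where
  ne : Nonempty P
  cc : ∀ A : Set P, (∀ p ∈ A, ∀ q ∈ A, p ≠ q → ¬ ∃ r, r ≤ p ∧ r ≤ q) → #A < #K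
  card : #P ≤ #K
  small : ∀ X : Type, #X < #K → ∃ N : Set (X → RO P), #N < #K ∧
    ∀ σ : X → RO P, ∀ p, ∃ p' ≤ p, ∃ τ ∈ N, ∀ x, Agr p' (σ x) (τ x)

end Basic

/-- The Boolean form of ineffability: for each sequence `F α ⊆ α` there is a set `X` such that the
set of the `α` with `F α = X ∩ α` is stationary. -/
def IneffB (B K : Type) [CompleteBooleanAlgebra B] [LinearOrder K] : Prop :=
  ∀ F : K → K → B, ∃ X : K → B, ∀ c : K → B, unbB c ⊓ cloB c ≤
    ⨆ α, c α ⊓ ⨅ δ, ⨅ (_ : δ < α), ((F α δ ⇨ X δ) ⊓ (X δ ⇨ F α δ))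

end Pool.Agent.LibLs83
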