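import Pool.Agent.LibLs83.LParA

/-! Task LPar: existence of the parameters. -/

namespace Pool.Agent.LibLs83

open Cardinal Set Pool.Agent.LibTk83 Pool.Agent.LibDm83

variable {K : Type} [LinearOrder K] [WellFoundedLT K]

omit [WellFoundedLT K] in
private theorem LPar_decode (m : K) :
    ∃ dec : Set (Iio m × Iio m × Set (Iio m × Iio m × Iio m)) → K → K → Set (RawL K),
      ∀ l : K → K → Set (RawL K),
        (∀ x y, ∀ p ∈ l x y, x < m ∧ y < m ∧ ∀ c n z, p c = some (n, z) → c < m ∧ n < m ∧ z < m) →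
        ∃ s, dec s = l := by
  let gr : RawL K → Set (Iio m × Iio m × Iio m) := fun p => {t | p t.1.1 = some (t.2.1.1, t.2.2.1)}
  let bd : RawL K → Prop := fun p => ∀ c n z, p c = some (n, z) → c < m ∧ n < m ∧ z < m
  have hinj : ∀ p q : RawL K, bd p → bd q → gr p = gr q → p = q := by
    have aux : ∀ p q : RawL K, bd p → gr p = gr q → ∀ c n z, p c = some (n, z) →
        q c = some (n, z) := by
      intro p q hp h c n z hc
      obtain ⟨h1, h2, h3⟩ := hp c n z hc
      have h4 : ((⟨c, h1⟩, ⟨n, h2⟩, ⟨z, h3⟩) : Iio m × Iio m × Iio m) ∈ gr p := hc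
      rw [h] at h4
      exact h4
    intro p q hp hq h
    funext c
    cases hc : p c with
    | none =>
      cases hc' : q c with
      | none => rfl
      | some t =>
        have := aux q p hq h.symm c t.1 t.2 hc'
        rw [hc] at this
        exact absurd this (by simp)
    | some t => exact (aux p q hp h c t.1 t.2 hc).symm
  refine ⟨fun s x y => {p | ∃ hx : x < m, ∃ hy : y < m,
    ((⟨x, hx⟩, ⟨y, hy⟩, gr p) : Iio m × Iio m × Set (Iio m × Iio m × Iio m)) ∈ s ∧ bd p}, ?_⟩
  intro l hl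
  refine ⟨{t | ∃ p ∈ l t.1.1 t.2.1.1, gr p = t.2.2}, ?_⟩
  funext x y
  ext p
  constructor
  · rintro ⟨hx, hy, ⟨q, hq, hqp⟩, hp⟩
    have h1 : q ∈ l x y := hq
    have h2 : q = p := hinj q p (hl x y q h1).2.2 hp hqp
    exact h2 ▸ h1
  · intro hp
    obtain ⟨h1, h2, h3⟩ := hl x y p hp
    exact ⟨h1, h2, ⟨p, hp, rfl⟩, h3⟩

/- There are fewer than `#K` raw conditions whose coordinates and values are below `m` (functions from
`Iio m` to `Option (Iio m × Iio m)`), so fewer than `#K` names which are bounded by `m`, and at most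
`#K` bounded names. -/
theorem exists_dat (hK : Inac K) : ∃ dat : K → K → K → Set (RawL K), ∀ l : K → K → Set (RawL K),
    BdN l → ∃ n, dat n = l := by
  classical
  have hinf : ℵ₀ ≤ #K := hK.unc.le
  choose dec hdec using LPar_decode (K := K)
  have hprod : ∀ A B : Type, #A < #K → #B < #K → #(A × B) < #K := by
    intro A B hA hB
    rw [mk_prod, lift_id, lift_id]
    exact mul_lt_of_lt hinf hA hB
  have hcard : #(Σ m : K, Set (Iio m × Iio m × Set (Iio m × Iio m × Iio m))) ≤ #K := by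
    rw [Cardinal.mk_sigma]
    refine (Cardinal.sum_le_sum _ (fun _ => #K) fun m => ?_).trans ?_
    · have h := hK.iio m
      exact (hK.pow _ (hprod _ _ h (hprod _ _ h (hK.pow _ (hprod _ _ h (hprod _ _ h h)))))).le
    · rw [Cardinal.sum_const']
      exact (Cardinal.mul_eq_self hinf).le
  obtain ⟨i⟩ := hcard
  have hKne : Nonempty K := by
    rw [← mk_ne_zero_iff]
    exact (aleph0_pos.trans_le hinf).ne'
  have hne : Nonempty (Σ m : K, Set (Iio m × Iio m × Set (Iio m × Iio m × Iio m))) :=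
    ⟨⟨Classical.arbitrary K, ∅⟩⟩
  have hsurj : Function.Surjective (Function.invFun i) := Function.invFun_surjective i.injective
  refine ⟨fun n => dec (Function.invFun i n).1 (Function.invFun i n).2, ?_⟩
  rintro l ⟨m, hm⟩
  obtain ⟨s, hs⟩ := hdec m l hm
  obtain ⟨n, hn⟩ := hsurj ⟨m, s⟩
  have h1 : ∀ t : (Σ m : K, Set (Iio m × Iio m × Set (Iio m × Iio m × Iio m))), t = ⟨m, s⟩ →
      dec t.1 t.2 = l := by
    rintro _ rfl
    exact hs
  exact ⟨n, h1 _ hn⟩

theorem exists_par (hK : Inac K) : ∃ D : Par K, IsPar D := by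
  obtain ⟨th, h1, h2⟩ := exists_th hK
  obtain ⟨dat, h3⟩ := exists_dat hK
  exact ⟨⟨th, dat⟩, h1, h2, h3⟩

end Pool.Agent.LibLs83
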