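import Pool.Agent.LibLs83.LGlue
import Pool.Agent.LibLs83.LPar

/-! Task LCard: the number of conditions. -/

namespace Pool.Agent.LibLs83

open Cardinal Set Pool.Agent.LibTk83 Pool.Agent.LibDm83

variable {K : Type} [LinearOrder K] [WellFoundedLT K] {D : Par K}

/-- Let `{n | Gd D c n}` be the set of good indices. The map from it to the functions
`Iio (th c) → Iio (th c) → Set (PX D (Iio c))` given by the names is injective, as good indices are
the first ones of their names. -/
theorem card_Gd_lt {K' : Type} [LinearOrder K'] (hK' : Inac K') {c : K}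
    (h : #(PX D (Iio c)) < #K') (hth : #(Iio (D.th c)) < #K') : #{n | Gd D c n} < #K' := by
  have h0 : ℵ₀ ≤ #K' := hK'.unc.le
  let F : {n | Gd D c n} → Set (Iio (D.th c) × Iio (D.th c) × PX D (Iio c)) := fun n =>
    {t | t.2.2.1 ∈ D.dat n.1 t.1.1 t.2.1.1}
  have hF : Function.Injective F := by
    intro n m hnm
    have h1 : D.dat n.1 = D.dat m.1 := by
      funext x y
      ext p
      constructor
      · intro hp
        obtain ⟨hx, hy, hpS⟩ := (Gd_iff'.1 n.2).2.1 x y p hp
        have h2 : ((⟨x, hx⟩, ⟨y, hy⟩, ⟨p, hpS⟩) :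
            Iio (D.th c) × Iio (D.th c) × PX D (Iio c)) ∈ F n := hp
        rw [hnm] at h2
        exact h2
      · intro hp
        obtain ⟨hx, hy, hpS⟩ := (Gd_iff'.1 m.2).2.1 x y p hp
        have h2 : ((⟨x, hx⟩, ⟨y, hy⟩, ⟨p, hpS⟩) :
            Iio (D.th c) × Iio (D.th c) × PX D (Iio c)) ∈ F m := hp
        rw [← hnm] at h2
        exact h2
    rcases lt_trichotomy n.1 m.1 with h2 | h2 | h2
    · exact absurd h1 ((Gd_iff'.1 m.2).1 n.1 h2)
    · exact Subtype.ext h2
    · exact absurd h1.symm ((Gd_iff'.1 n.2).1 m.1 h2)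
  refine lt_of_le_of_lt (mk_le_of_injective hF) (hK'.pow _ ?_)
  rw [mk_prod, mk_prod]
  simp only [lift_id]
  exact mul_lt_of_lt h0 hth (mul_lt_of_lt h0 hth h)

private theorem mk_fst_lt {K' X Y : Type} [LinearOrder K'] (hK' : Inac K') (hX : #X < #K')
    (hY : #Y < #K') : #(X × Y) < #K' := by
  rw [mk_prod]
  simp only [lift_id]
  exact mul_lt_of_lt hK'.unc.le hX hY

/- By well-founded induction on `b`: a condition with coordinates in `X ⊆ Iio b` is a subset (its
graph) of the set of the triples `(c, n, x)` with `c < b`, `Gd D c n` and `x < th c`; `card_Gd_lt`,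
`Inac.sum`, `Inac.pow`. -/
theorem card_PX {K' : Type} [LinearOrder K'] (hK' : Inac K') (b : K) (hb : #(Iio b) < #K')
    (hth : ∀ c < b, #(Iio (D.th c)) < #K') (X : Set K) (hX : X ⊆ Iio b) : #(PX D X) < #K' := by
  induction b using (wellFounded_lt (α := K)).induction generalizing X with
  | _ b ih =>
    let T : Iio b → Type := fun c => {n | Gd D c.1 n} × Iio (D.th c.1)
    let F : PX D X → Set (Σ c, T c) := fun p => {t | p.1 t.1.1 = some (t.2.1.1, t.2.2.1)}
    have hF : Function.Injective F := by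
      have key : ∀ p q : PX D X, F p = F q → ∀ c n x, p.1 c = some (n, x) →
          q.1 c = some (n, x) := by
        intro p q hpq c n x hc
        have hcb : c < b := hX (p.2.2 (show p.1 c ≠ none by rw [hc]; simp))
        obtain ⟨h1, h2, h3⟩ := p.2.1.2 c n x hc
        have h4 : (⟨⟨c, hcb⟩, (⟨n, h3⟩, ⟨x, h2⟩)⟩ : Σ c, T c) ∈ F p := hc
        rw [hpq] at h4
        exact h4
      intro p q hpq
      refine Subtype.ext (funext fun c => ?_)
      rcases hp : p.1 c with _ | ⟨n, x⟩
      · rcases hq : q.1 c with _ | ⟨n, x⟩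
        · rfl
        · rw [key q p hpq.symm c n x hq] at hp
          exact absurd hp (by simp)
      · exact (key p q hpq c n x hp).symm
    refine lt_of_le_of_lt (mk_le_of_injective hF) (hK'.pow _ (hK'.sum _ _ hb fun c => ?_))
    have h1 : #(Iio c.1) < #K' :=
      lt_of_le_of_lt (mk_le_mk_of_subset (Iio_subset_Iio (le_of_lt c.2))) hb
    have h2 := ih c.1 c.2 h1 (fun d hd => hth d (lt_trans hd c.2)) (Iio c.1) subset_rfl
    exact mk_fst_lt hK' (card_Gd_lt hK' h2 (hth c.1 c.2)) (hth c.1 c.2)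

private theorem lt_card_Iio {b c : K} (hb : Inac (Iio b)) (hc : c < b) :
    #(Iio c) < #(Iio b) := by
  have h := hb.iio ⟨c, hc⟩
  rwa [card_Iio_Iio] at h

private theorem exists_gt_of_inac {K' : Type} [LinearOrder K'] (hK : Inac K') (c : K') :
    ∃ b, c < b := by
  obtain ⟨b, hb⟩ := hK.bdd {c} (by
    rw [mk_singleton]
    exact lt_trans one_lt_aleph0 hK.unc)
  exact ⟨b, hb c rfl⟩

/- Take `b₁` with `c < b₁ < b` (`Inac.bdd`). -/
theorem card_PX_lt_Iio (hD : IsPar D) {b c : K} (hb : Inac (Iio b)) (hc : c < b) :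
    #(PX D (Iic c)) < #(Iio b) := by
  obtain ⟨⟨b₁, hb₁⟩, hcb⟩ := exists_gt_of_inac hb ⟨c, hc⟩
  have hcb' : c < b₁ := hcb
  exact card_PX hb b₁ (lt_card_Iio hb hb₁)
    (fun d hd => lt_card_Iio hb (hD.th_lt d b hb (lt_trans hd hb₁))) (Iic c)
    fun x hx => lt_of_le_of_lt hx hcb'

theorem card_PX_lt (hK : Inac K) (c : K) : #(PX D (Iic c)) < #K := by
  obtain ⟨b, hb⟩ := exists_gt_of_inac hK c
  exact card_PX hK b (hK.iio b) (fun d _ => hK.iio _) (Iic c) fun x hx => lt_of_le_of_lt hx hb

theorem card_PX_lt' (hK : Inac K) (c : K) : #(PX D (Iio c)) < #K :=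
  card_PX hK c (hK.iio c) (fun d _ => hK.iio _) (Iio c) subset_rfl

/- The union of the `PX D (Iio m)`. -/
theorem card_PL_le (hK : Inac K) : #(PL D) ≤ #K := by
  choose m hm using fun p : PL D => p.2.1.1.1
  let F : PL D → Σ m : K, PX D (Iio m) := fun p => ⟨m p, ⟨p.1, p.2.1, hm p⟩⟩
  have hF : Function.Injective F := by
    have key : ∀ s t : (Σ m : K, PX D (Iio m)), s = t → s.2.1 = t.2.1 := by
      rintro s t rfl
      rfl
    intro p q hpq
    exact Subtype.ext (key _ _ hpq)
  refine (mk_le_of_injective hF).trans ?_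
  rw [mk_sigma]
  refine (sum_le_sum _ (fun _ => #K) fun b => (card_PX_lt' hK b).le).trans ?_
  rw [sum_const']
  exact (mul_eq_self hK.unc.le).le

end Pool.Agent.LibLs83
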