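import Pool.Agent.LibLs83.LMixN

/-! Task LChain: limits of chains in the tail of the iteration. -/

namespace Pool.Agent.LibLs83

open Cardinal Set Pool.Agent.LibTk83 Pool.Agent.LibDm83

variable {K : Type} [LinearOrder K] [WellFoundedLT K] {D : Par K}

/-- The value of the limit of the chain `C` at the coordinate `c`. -/
private def LChain_P (D : Par K) {X : Set K} (C : Set (PX D Xᶜ)) (c : K)
    (o : Option (K × K)) : Prop :=
  ((∀ x ∈ C, x.1 c = none) ∧ o = none) ∨
    ∃ n z, o = some (n, z) ∧ (∃ x ∈ C, x.1 c ≠ none) ∧ Inac (Iio c) ∧ z < D.th c ∧ Gd D c n ∧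
      (∀ x ∈ C, ∀ n' w, x.1 c = some (n', w) → n' = n) ∧
      ∀ p ∈ SX D (Iio c), (∀ x ∈ C, LLe D p (cut (Iio c) x.1)) →
        ∀ x ∈ C, ∀ w, x.1 c = some (n, w) → p ∈ D.dat n z w

private theorem LChain_ex {X : Set K} (C : Set (PX D Xᶜ))
    (hC : IsChain (· ≤ ·) C) (h' : ∀ b ∉ X, Inac (Iio b) → #C < #(Iio b)) (c : K) :
    ∃ o, LChain_P D C c o := by
  classical
  by_cases hn : ∀ x ∈ C, x.1 c = none
  · exact ⟨none, Or.inl ⟨hn, rfl⟩⟩
  · push Not at hn
    obtain ⟨x0, hx0, hx0c⟩ := hn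
    obtain ⟨⟨n, w0⟩, hnw⟩ := Option.ne_none_iff_exists'.1 hx0c
    have hv := x0.2.1.2 c n w0 hnw
    have hcX : c ∉ X := x0.2.2 (by simpa [supp] using hx0c)
    have hcomp : ∀ x ∈ C, ∀ x' ∈ C, x ≤ x' ∨ x' ≤ x := by
      intro x hx x' hx'
      rcases eq_or_ne x x' with rfl | hne
      · exact Or.inl le_rfl
      · exact hC hx hx' hne
    have hnn : ∀ x ∈ C, ∀ n' w, x.1 c = some (n', w) → n' = n := by
      intro x hx n' w hxc
      rcases hcomp x hx x0 hx0 with hle | hle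
      · obtain ⟨w', h1, -⟩ := PX.le_iff.1 hle c n w0 hnw
        rw [hxc] at h1
        simp only [Option.some.injEq, Prod.mk.injEq] at h1
        exact h1.1
      · obtain ⟨w', h1, -⟩ := PX.le_iff.1 hle c n' w hxc
        rw [hnw] at h1
        simp only [Option.some.injEq, Prod.mk.injEq] at h1
        exact h1.1.symm
    let I : Type := {x : C // x.1.1 c ≠ none}
    have hex : ∀ i : I, ∃ w, i.1.1.1 c = some (n, w) := by
      intro i
      obtain ⟨⟨n', w⟩, hw⟩ := Option.ne_none_iff_exists'.1 i.2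
      have := hnn i.1.1 i.1.2 n' w hw
      subst this
      exact ⟨w, hw⟩
    choose y hy using hex
    have hI : #I < #(Iio c) := (mk_subtype_le _).trans_lt (h' c hcX hv.1)
    obtain ⟨z, hz, hz'⟩ := Gd_chain hv.2.2 hI y
      (fun i => (i.1.1.2.1.2 c n (y i) (hy i)).2.1)
    refine ⟨some (n, z), Or.inr ⟨n, z, rfl, ⟨x0, hx0, hx0c⟩, hv.1, hz, hv.2.2, hnn, ?_⟩⟩
    intro p hp hpx x hx w hxw
    have hi : x.1 c ≠ none := by rw [hxw]; simp
    have key := hz' ⟨p, hp⟩ (by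
      intro i j
      have aux : ∀ i j : I, i.1.1 ≤ j.1.1 → p ∈ D.dat n (y i) (y j) := by
        intro i j hij
        obtain ⟨w', h1, h2⟩ := PX.le_iff.1 hij c n (y j) (hy j)
        rw [hy i] at h1
        simp only [Option.some.injEq, Prod.mk.injEq, true_and] at h1
        subst h1
        exact Gd_lower hv.2.2 h2 hp (hpx i.1.1 i.1.2)
      rcases hcomp i.1.1 i.1.2 j.1.1 j.1.2 with hij | hij
      · exact Or.inl (aux i j hij)
      · exact Or.inr (aux j i hij)) ⟨⟨x, hx⟩, hi⟩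
    have hyw : y ⟨⟨x, hx⟩, hi⟩ = w := by
      have := hy ⟨⟨x, hx⟩, hi⟩
      rw [hxw] at this
      simp only [Option.some.injEq, Prod.mk.injEq, true_and] at this
      exact this.symm
    rw [hyw] at key
    exact key

/- The coordinates of `y` are those of all members of `C`. At such a coordinate `b` the members `x` of
`C` with the coordinate `b` have the same index `n` (compare two of them); `y b = some (n, z)` with
`z` from `Gd_chain`. Easton support: `Inac.bdd` for `K` and for `Iio b`. Prove the requirement at `b` for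
`y ≤ x`, for all `x ∈ C`, by strong induction on `b`. -/
theorem chain_tail (hK : Inac K) {X : Set K} (hX : IsLowerSet X) (C : Set (PX D Xᶜ))
    (hC : IsChain (· ≤ ·) C) (h : #C < #K) (h' : ∀ b ∉ X, Inac (Iio b) → #C < #(Iio b)) :
    ∃ y, ∀ x ∈ C, y ≤ x := by
  classical
  obtain ⟨f, hf⟩ : ∃ f : RawL K, ∀ c, LChain_P D C c (f c) :=
    ⟨fun c => (LChain_ex C hC h' c).choose, fun c => (LChain_ex C hC h' c).choose_spec⟩
  have hsupp : ∀ c, f c ≠ none → ∃ x ∈ C, x.1 c ≠ none := by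
    intro c hc
    rcases hf c with ⟨-, h2⟩ | ⟨n, z, h1, h2, -⟩
    · exact absurd h2 hc
    · exact h2
  have hEas : Eas f := by
    refine ⟨?_, ?_⟩
    · have hm : ∀ x : C, ∃ m, supp x.1.1 ⊆ Iio m := fun x => x.1.2.1.1.1
      choose m hm using hm
      obtain ⟨b, hb⟩ := hK.bdd (range m) (mk_range_le.trans_lt h)
      refine ⟨b, fun c hc => ?_⟩
      obtain ⟨x, hx, hxc⟩ := hsupp c hc
      exact lt_trans (hm ⟨x, hx⟩ hxc) (hb _ ⟨⟨x, hx⟩, rfl⟩)
    · intro b hb
      by_cases hbX : b ∈ X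
      · obtain ⟨c⟩ : Nonempty (Iio b) := by
          have h : #(Iio b) ≠ 0 := (lt_of_le_of_lt zero_le hb.unc).ne'
          exact mk_ne_zero_iff.1 h
        refine ⟨c.1, c.2, fun a ha => ?_⟩
        obtain ⟨x, hx, hxa⟩ := hsupp a ha.1
        exact absurd (hX (le_of_lt ha.2) hbX) (x.2.2 hxa)
      · have hm : ∀ x : C, ∃ c < b, supp x.1.1 ∩ Iio b ⊆ Iio c := fun x => x.1.2.1.1.2 b hb
        choose m hmb hm using hm
        obtain ⟨c, hc⟩ := hb.bdd (range fun x : C => (⟨m x, hmb x⟩ : Iio b))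
          (mk_range_le.trans_lt (h' b hbX hb))
        refine ⟨c.1, c.2, fun a ha => ?_⟩
        obtain ⟨x, hx, hxa⟩ := hsupp a ha.1
        exact lt_trans (hm ⟨x, hx⟩ ⟨hxa, ha.2⟩) (hc _ ⟨⟨x, hx⟩, rfl⟩)
  have hmem : f ∈ SX D Xᶜ := by
    refine ⟨⟨hEas, ?_⟩, ?_⟩
    · intro c n x hc
      rcases hf c with ⟨-, h2⟩ | ⟨n', z, h1, -, h3, h4, h5, -⟩
      · rw [h2] at hc; simp at hc
      · rw [h1] at hc
        simp only [Option.some.injEq, Prod.mk.injEq] at hc
        obtain ⟨rfl, rfl⟩ := hc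
        exact ⟨h3, h4, h5⟩
    · intro c hc
      obtain ⟨x, hx, hxc⟩ := hsupp c hc
      exact x.2.2 hxc
  refine ⟨⟨f, hmem⟩, ?_⟩
  have key : ∀ c, ∀ x ∈ C, ∀ n w, x.1 c = some (n, w) →
      ∃ w', f c = some (n, w') ∧ cut (Iio c) f ∈ D.dat n w' w := by
    intro c
    induction c using WellFoundedLT.induction with
    | ind c ih =>
      intro x hx n w hxc
      rcases hf c with ⟨h1, -⟩ | ⟨n', z, h1, -, -, -, -, h3, h4⟩
      · rw [h1 x hx] at hxc; simp at hxc
      · have hn : n = n' := h3 x hx n w hxc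
        subst hn
        refine ⟨z, h1, h4 _ (SX_cut (Iio c) hmem) ?_ x hx w hxc⟩
        intro x' hx' d m v hd
        rw [cut_eq_some] at hd
        obtain ⟨v', hv1, hv2⟩ := ih d hd.1 x' hx' m v hd.2
        refine ⟨v', ?_, ?_⟩
        · rw [cut_eq_some]
          exact ⟨hd.1, hv1⟩
        · rw [cut_cut, inter_eq_left.2 (Iio_subset_Iio (le_of_lt hd.1))]
          exact hv2
  intro x hx
  rw [PX.le_iff]
  intro c n w hc
  exact key c x hx n w hc

end Pool.Agent.LibLs83
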