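import Pool.Agent.LibLs83.BExhA

/-! Task LDecA: deciding few truth values in a product-like order. -/

namespace Pool.Agent.LibLs83

open Cardinal Set Pool.Agent.LibTk83 Pool.Agent.LibDm83

/- For each `k` the set of the `s'` such that all `r` have an `r' ≤ r` for which `j r' s'` decides `b k`
is closed downwards, and dense by `exhaust` (`E r s := j r s ∈ b k ∨ j r s ∈ (b k)ᶜ`; an antichain of
`A` has fewer than `#K'` elements as `#A < #K'`; density: extend `j r s` to decide `b k` and use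
`hmix`). Then `tasks'` (in `LibDm83/Tasks.lean`). -/
theorem decide_abs {A S Q K' I : Type} [Preorder A] [Preorder S] [Preorder Q] [LinearOrder K']
    [WellFoundedLT K'] (hK' : Inac K') (j : A → S → Q)
    (hj : ∀ r' r s' s, r' ≤ r → s' ≤ s → j r' s' ≤ j r s) (hA : #A < #K')
    (hc : ∀ C : Set S, IsChain (· ≤ ·) C → #C < #K' → ∃ y, ∀ x ∈ C, y ≤ x)
    (hmix : ∀ r s y, y ≤ j r s → ∃ r' ≤ r, ∃ s' ≤ s, j r' s' ≤ y) (hI : #I < #K')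
    (b : I → RO Q) (s : S) :
    ∃ s' ≤ s, ∀ k r, ∃ r' ≤ r, j r' s' ∈ b k ∨ j r' s' ∈ (b k)ᶜ := by
  have hden : ∀ k p s, ∃ p' ≤ p, ∃ s' ≤ s, j p' s' ∈ b k ∨ j p' s' ∈ (b k)ᶜ := by
    intro k p s
    obtain ⟨y, hy, hyb⟩ : ∃ y ≤ j p s, y ∈ b k ∨ y ∈ (b k)ᶜ := by
      by_cases h : j p s ∈ (b k)ᶜ
      · exact ⟨_, le_rfl, Or.inr h⟩
      · rw [RO.mem_compl] at h
        push Not at h
        obtain ⟨y, hy, hyb⟩ := h
        exact ⟨y, hy, Or.inl hyb⟩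
    obtain ⟨r', hr', s', hs', hle⟩ := hmix p s y hy
    exact ⟨r', hr', s', hs', hyb.imp (RO.mem_of_le hle) (RO.mem_of_le hle)⟩
  have hE : ∀ k, ∀ p s, (j p s ∈ b k ∨ j p s ∈ (b k)ᶜ) → ∀ p' ≤ p, ∀ s' ≤ s,
      (j p' s' ∈ b k ∨ j p' s' ∈ (b k)ᶜ) := fun k p s h p' hp' s' hs' =>
    h.imp (RO.mem_of_le (hj _ _ _ _ hp' hs')) (RO.mem_of_le (hj _ _ _ _ hp' hs'))
  have hcc : ∀ A' : Set A, (∀ p ∈ A', ∀ q ∈ A', p ≠ q → ¬ ∃ r, r ≤ p ∧ r ≤ q) → #A' < #K' :=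
    fun A' _ => (mk_set_le A').trans_lt hA
  refine tasks' hK'.unc.le hc hI (fun k => {s | ∀ r, ∃ r' ≤ r, j r' s ∈ b k ∨ j r' s ∈ (b k)ᶜ})
    ?_ ?_ s
  · intro k x hx y hyx r
    obtain ⟨r', hr', h'⟩ := hx r
    exact ⟨r', hr', hE k _ _ h' _ le_rfl _ hyx⟩
  · intro k x
    exact exhaust hK' hcc hc (fun p s => j p s ∈ b k ∨ j p s ∈ (b k)ᶜ) (hE k) (hden k) x

end Pool.Agent.LibLs83
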