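import Pool.Agent.LibLs83.LMixN

/-! Task LMix: mixing in the iteration. -/

namespace Pool.Agent.LibLs83

open Cardinal Set Pool.Agent.LibTk83 Pool.Agent.LibDm83

variable {K : Type} [LinearOrder K] [WellFoundedLT K] {D : Par K}

private theorem LMix_choose {X : Set K} (s t : RawL K) (hs : s ∈ SX D univ) (ht : t ∈ SX D univ)
    (b : K) (E : RO (PX D (Iio b))) :
    ∃ o : Option (K × K), (b ∈ X → o = none) ∧ (s b = none → o = none) ∧
      (b ∉ X → ∀ n x, s b = some (n, x) → ∃ z < D.th b, o = some (n, z) ∧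
        ∀ p : PX D (Iio b),
          (∀ y, t b = some (n, y) → ∀ p' ≤ p, p' ∈ E → ∃ p'' ≤ p', p''.1 ∈ D.dat n x y) →
          (∀ y, t b = some (n, y) → p.1 ∈ D.dat n z y) ∧ (p ∈ E → p.1 ∈ D.dat n z x)) := by
  by_cases hb : b ∈ X
  · exact ⟨none, fun _ => rfl, fun _ => rfl, fun h => absurd hb h⟩
  · rcases hsb : s b with _ | ⟨n, x⟩
    · exact ⟨none, fun _ => rfl, fun _ => rfl, fun _ n x h => by simp at h⟩
    · obtain ⟨hin, hx, hG⟩ := hs.1.2 b n x hsb
      by_cases htb : ∃ y, t b = some (n, y)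
      · obtain ⟨y, hy⟩ := htb
        obtain ⟨z, hz, hz'⟩ := Gd_mix hG hin hx (ht.1.2 b n y hy).2.1 E
        refine ⟨some (n, z), fun h => absurd h hb, fun h => by simp at h, fun _ n' x' h => ?_⟩
        obtain ⟨rfl, rfl⟩ : n = n' ∧ x = x' := by
          simpa using h
        refine ⟨z, hz, rfl, fun p hp => ?_⟩
        obtain ⟨h1, h2⟩ := hz' p (hp y hy)
        refine ⟨fun y' hy' => ?_, h2⟩
        obtain rfl : y = y' := by
          rw [hy] at hy'
          simpa using hy'
        exact h1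
      · refine ⟨some (n, x), fun h => absurd h hb, fun h => by simp at h, fun _ n' x' h => ?_⟩
        obtain ⟨rfl, rfl⟩ : n = n' ∧ x = x' := by
          simpa using h
        refine ⟨x, hx, rfl, fun p _ => ⟨fun y' hy' => absurd ⟨y', hy'⟩ htb, fun _ => ?_⟩⟩
        exact Gd_refl hG p.2 hx

omit [WellFoundedLT K] in
private theorem LMix_cut_cut {b c : K} (h : c < b) (p : RawL K) :
    cut (Iio c) (cut (Iio b) p) = cut (Iio c) p := by
  rw [cut_cut]
  congr 1
  exact inter_eq_left.2 fun d hd => lt_trans hd h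

private theorem LMix_LLe {b : K} {p q : RawL K} (h : ∀ c < b, ∀ n x, q c = some (n, x) →
    ∃ z, p c = some (n, z) ∧ cut (Iio c) p ∈ D.dat n z x) :
    LLe D (cut (Iio b) p) (cut (Iio b) q) := by
  intro c n x hc
  obtain ⟨h1, h2⟩ := cut_eq_some.1 hc
  obtain ⟨z, h3, h4⟩ := h c h1 n x h2
  refine ⟨z, cut_eq_some.2 ⟨h1, h3⟩, ?_⟩
  rw [LMix_cut_cut h1]
  exact h4

/- Let `r` be the restriction of `s` to `X`. For `b ∉ X` all elements of `X` are below `b`. Let
`E b : RO (PX D (Iio b))` be `RO.of` the restriction of `r`. For `b ∉ X` with `s b = some (n, x)` let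
`t' b = some (n, z)` with `z` from `Gd_mix` if `t b = some (n, y)`, and `t' b = s b` if `t b = none`.
For other `b` let `t' b = none`.

Prove by strong induction on `b`: the requirements at `b` for `t' ≤ t` and for `gl X r t' ≤ s`. At `b`
one knows that the restrictions to `Iio b` satisfy `t' ≤ t` and `gl X r t' ≤ s`. If
`t b = some (n, y)`, `s b = some (n, x)`: below the restriction of `t'`, each `p'` in `E b` has an
extension `p''` below `r` and below `t'`, so below `gl X r t'`, so below `s`, and the restriction of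
`s` is in `dat n x y`. -/
theorem exists_mixL {X : Set K} (hX : IsLowerSet X) (s : PL D) (t : PX D Xᶜ) (h : s ≤ up t) :
    ∃ t' ≤ t, gl X (up (ct X s)) (up t') ≤ s := by
  let r : PX D X := ct X s
  choose f hf1 hf2 hf3 using fun b => LMix_choose (X := X) (D := D) s.1 t.1 s.2 (up t).2 b
    (RO.of (ct (Iio b) (up r)))
  have hfs : supp f ⊆ supp s.1 := fun c hc h1 => hc (hf2 c h1)
  have hfX : supp f ⊆ Xᶜ := fun c hc h1 => hc (hf1 c h1)
  have hf : (f : RawL K) ∈ SX D Xᶜ := by
    refine ⟨⟨Eas_of_subset s.2.1.1 hfs, fun c n z hc => ?_⟩, hfX⟩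
    have h1 : c ∈ supp f := mem_supp.2 ⟨n, z, hc⟩
    obtain ⟨n', x', h2⟩ := mem_supp.1 (hfs h1)
    obtain ⟨z', h3, h4, -⟩ := hf3 c (hfX h1) n' x' h2
    obtain ⟨rfl, rfl⟩ : n = n' ∧ z = z' := by
      have h5 : (some (n, z) : Option (K × K)) = some (n', z') := hc.symm.trans h4
      simpa using h5
    obtain ⟨h6, -, h7⟩ := s.2.1.2 c n x' h2
    exact ⟨h6, h3, h7⟩
  let t' : PX D Xᶜ := ⟨f, hf⟩
  let g : PL D := gl X (up r) (up t')
  have hgX : ∀ c ∈ X, g.1 c = s.1 c := by
    intro c hc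
    have h1 : g.1 c = r.1 c := pw_of_mem hc
    rw [h1]
    exact cut_of_mem hc
  have hgf : ∀ c ∉ X, g.1 c = f c := fun c hc => pw_of_notMem hc
  have main : ∀ b, (∀ n y, t.1 b = some (n, y) → ∃ z, f b = some (n, z) ∧
      cut (Iio b) f ∈ D.dat n z y) ∧ (∀ n x, s.1 b = some (n, x) → ∃ z, g.1 b = some (n, z) ∧
        cut (Iio b) g.1 ∈ D.dat n z x) := by
    intro b
    induction b using WellFoundedLT.induction with
    | _ b ih =>
      have h2 : LLe D (cut (Iio b) g.1) (cut (Iio b) s.1) := LMix_LLe fun c hc => (ih c hc).2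
      have low : ∀ p'' : PX D (Iio b), LLe D p''.1 (cut (Iio b) g.1) → ∀ n x y,
          s.1 b = some (n, x) → t.1 b = some (n, y) → p''.1 ∈ D.dat n x y := by
        intro p'' hp'' n x y hs ht
        obtain ⟨x', h3, h4⟩ := h b n y ht
        obtain rfl : x = x' := by
          rw [hs] at h3
          simpa using h3
        exact Gd_lower (s.2.1.2 b n x hs).2.2 h4 p''.2
          (LLe_trans (SX_cut (Iio b) s.2) p''.2 hp'' h2)
      constructor
      · intro n y ht
        have hbX : b ∉ X := by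
          intro hb
          exact (t.2.2 (mem_supp.2 ⟨n, y, ht⟩)) hb
        obtain ⟨x, h3, -⟩ := h b n y ht
        obtain ⟨z, hz, h4, h5⟩ := hf3 b hbX n x h3
        refine ⟨z, h4, ?_⟩
        refine (h5 ⟨cut (Iio b) f, SX_cut _ hf⟩ ?_).1 y ht
        intro y' hy' p' hp' hE
        obtain ⟨p'', h6, h7⟩ := RO.mem_of.1 hE p' le_rfl
        refine ⟨p'', h6, low p'' ?_ n x y' h3 hy'⟩
        intro c m u hc
        obtain ⟨hcb, hcg⟩ := cut_eq_some.1 hc
        by_cases hcX : c ∈ X
        · refine h7 c m u ?_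
          change cut (Iio b) r.1 c = _
          rw [cut_of_mem hcb]
          change cut X s.1 c = _
          rw [cut_of_mem hcX, ← hgX c hcX]
          exact hcg
        · refine (h6.trans hp') c m u ?_
          exact (cut_of_mem (X := Iio b) (p := f) hcb).trans ((hgf c hcX).symm.trans hcg)
      · intro n x hs
        obtain ⟨hin, hx, hG⟩ := s.2.1.2 b n x hs
        by_cases hbX : b ∈ X
        · refine ⟨x, (hgX b hbX).trans hs, ?_⟩
          exact Gd_refl hG (SX_cut _ g.2) hx
        · obtain ⟨z, hz, h4, h5⟩ := hf3 b hbX n x hs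
          refine ⟨z, (hgf b hbX).trans h4, ?_⟩
          have h6 := h5 ⟨cut (Iio b) g.1, SX_cut _ g.2⟩ (by
            intro y' hy' p' hp' _
            exact ⟨p', le_rfl, low p' hp' n x y' hs hy'⟩)
          refine h6.2 ?_
          have h7 : ct (Iio b) g ≤ ct (Iio b) (up r) :=
            ct_mono (isLowerSet_Iio b) (gl_le_left hX r (up t'))
          exact RO.mem_of_le h7 (RO.self_mem_of _)
  refine ⟨t', fun b n y hb => (main b).1 n y hb, fun b n x hb => (main b).2 n x hb⟩

end Pool.Agent.LibLs83
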