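import Pool.Agent.LibLs83.LDecA
import Pool.Agent.LibLs83.LMix
import Pool.Agent.LibLs83.LChain
import Pool.Agent.LibLs83.LCard

/-! Task LDecP: deciding few truth values, up to the coordinate `ν`. -/

namespace Pool.Agent.LibLs83

open Cardinal Set Pool.Agent.LibTk83 Pool.Agent.LibDm83

variable {K : Type} [LinearOrder K] [WellFoundedLT K] {D : Par K}

/- `decide_abs` for `A = PX D (Iic ν)`, `S = PX D (Iic ν)ᶜ`, `K' = Iio b'`;
`card_PX_lt_Iio`, `chain_tail`, `exists_mixL`, `gl_mono`. -/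
theorem decideP (hK : Inac K) (hD : IsPar D) {ν b' : K} (hb' : Inac (Iio b')) (hν : ν < b')
    (hmin : ∀ b, ν < b → Inac (Iio b) → b' ≤ b) {I : Type} (hI : #I < #(Iio b'))
    (b : I → RO (PL D)) (t : PX D (Iic ν)ᶜ) :
    ∃ t' ≤ t, ∀ k, ∀ r : PX D (Iic ν), ∃ r' ≤ r,
      gl (Iic ν) (up r') (up t') ∈ b k ∨ gl (Iic ν) (up r') (up t') ∈ (b k)ᶜ := by
  have hX : IsLowerSet (Iic ν) := isLowerSet_Iic ν
  refine decide_abs hb' (fun (r : PX D (Iic ν)) (t : PX D (Iic ν)ᶜ) => gl (Iic ν) (up r) (up t))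
    (fun r' r s' s hr hs => gl_mono hX hr hs) (card_PX_lt_Iio hD hb' hν) ?_ ?_ hI b t
  · intro C hC hc
    refine chain_tail hK hX C hC (hc.trans (hK.iio b')) fun b hb hbi => hc.trans_le ?_
    exact mk_le_mk_of_subset (Iio_subset_Iio (hmin b (not_le.1 hb) hbi))
  · intro r s y hy
    obtain ⟨t', ht', h⟩ := exists_mixL hX y s (hy.trans (gl_le_right _ _ _))
    refine ⟨ct (Iic ν) y, ?_, t', ht', h⟩
    have h1 := ct_mono hX hy
    rwa [ct_gl hX] at h1

end Pool.Agent.LibLs83
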