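import Pool.Agent.LibLs83.Iface

/-!
The lottery preparation. `K` is the order type of the large cardinal. A raw condition chooses at
some coordinates `b` (below `κ`) an index `n` of a name of a forcing notion and an element `x` of this
forcing notion. The name with the index `n` is given by the sets `dat n x y` of the conditions (with
coordinates below `b`) which force `x ≤ y`; its elements are the elements of `Iio (th b)`.
-/

namespace Pool.Agent.LibLs83

open Cardinal Set Pool.Agent.LibTk83 Pool.Agent.LibDm83

/-- Raw conditions. -/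
def RawL (K : Type) : Type := K → Option (K × K)

/-- The parameters of the iteration. -/
structure Par (K : Type) where
  th : K → K
  dat : K → K → K → Set (RawL K)

section

variable {K : Type}

/-- The coordinates of a condition. -/
def supp (p : RawL K) : Set K := {b | p b ≠ none}

open Classical in
/-- The condition `p` on `X` and `q` outside of `X`. -/
noncomputable def pw (X : Set K) (p q : RawL K) : RawL K := fun c => if c ∈ X then p c else q c

/-- The restriction of `p` to `X`. -/
noncomputable def cut (X : Set K) (p : RawL K) : RawL K := pw X p fun _ => none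

variable [LinearOrder K]

/-- `p'` is stronger than `p`. -/
def LLe (D : Par K) (p' p : RawL K) : Prop :=
  ∀ b n x, p b = some (n, x) → ∃ x', p' b = some (n, x') ∧ cut (Iio b) p' ∈ D.dat n x' x

/-- Easton support. -/
def Eas (p : RawL K) : Prop :=
  (∃ m, supp p ⊆ Iio m) ∧ ∀ b, Inac (Iio b) → ∃ c < b, supp p ∩ Iio b ⊆ Iio c

/-- The conditions which use only indices in `G`. -/
def ValG (D : Par K) (G : K → K → Prop) (p : RawL K) : Prop :=
  Eas p ∧ ∀ c n x, p c = some (n, x) → Inac (Iio c) ∧ x < D.th c ∧ G c n

/-- `n` is the first index of its name, and the name gives a preorder on `Iio (th b)`, with truth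
values in the algebra of the set `S` of conditions, which is directed closed. -/
def GoodAt (D : Par K) (b : K) (S : Set (RawL K)) (n : K) : Prop :=
  (∀ m < n, D.dat m ≠ D.dat n) ∧ (∀ x y, ∀ p ∈ D.dat n x y, x < D.th b ∧ y < D.th b ∧ p ∈ S) ∧
    ∃ (_ : Preorder S) (V : VPre S (Iio (D.th b))), (∀ p q : S, p ≤ q ↔ LLe D p.1 q.1) ∧
      (∀ x y, ∀ p : S, p ∈ V.le x y ↔ p.1 ∈ D.dat n x.1 y.1) ∧ VClosed #(Iio b) V

variable [WellFoundedLT K]

/-- The good indices at the coordinate `b`, by recursion. -/
def Gd (D : Par K) : K → K → Prop :=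
  (wellFounded_lt (α := K)).fix fun b ih n =>
    GoodAt D b {p | ValG D (fun c m => ∃ h : c < b, ih c h m) p ∧ supp p ⊆ Iio b} n

/-- The conditions with coordinates in `X`. -/
def SX (D : Par K) (X : Set K) : Set (RawL K) := {p | ValG D (Gd D) p ∧ supp p ⊆ X}

/-- The type of the conditions with coordinates in `X`. -/
abbrev PX (D : Par K) (X : Set K) : Type := SX D X

end

/-- A bounded name. -/
def BdN {K : Type} [LinearOrder K] (l : K → K → Set (RawL K)) : Prop :=
  ∃ m, ∀ x y, ∀ p ∈ l x y, x < m ∧ y < m ∧ ∀ c n z, p c = some (n, z) → c < m ∧ n < m ∧ z < m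

/-- The requirements on the parameters. -/
structure IsPar {K : Type} [LinearOrder K] (D : Par K) : Prop where
  th_le : ∀ b, Order.succ (2 ^ #(Iio b)) ≤ #(Iio (D.th b))
  th_lt : ∀ b b', Inac (Iio b') → b < b' → D.th b < b'
  surj : ∀ l : K → K → Set (RawL K), BdN l → ∃ n, D.dat n = l

end Pool.Agent.LibLs83
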