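import Pool.Agent.LibLs83.LPre

/-! Task LGlue: the order, restrictions, and gluing. -/

namespace Pool.Agent.LibLs83

open Cardinal Set Pool.Agent.LibTk83 Pool.Agent.LibDm83

section

variable {K : Type} [LinearOrder K] [WellFoundedLT K]

instance (D : Par K) (X : Set K) : Preorder (PX D X) where
  le p q := LLe D p.1 q.1
  le_refl p := LLe_refl p.2
  le_trans _ _ _ h h' := LLe_trans (Subtype.property _) (Subtype.property _) h h'

/-- All conditions. -/
abbrev PL (D : Par K) : Type := PX D univ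

variable {D : Par K}

theorem PX.le_iff {X : Set K} {p q : PX D X} : p ≤ q ↔ LLe D p.1 q.1 := Iff.rfl

/-- A condition with coordinates in `X` as a condition. -/
def up {X : Set K} (p : PX D X) : PL D := ⟨p.1, SX_mono (subset_univ _) p.2⟩

/-- Restriction. -/
noncomputable def ct (X : Set K) (p : PL D) : PX D X := ⟨cut X p.1, SX_cut X p.2⟩

/-- The condition `r` on `X` and `t` outside of `X`. -/
noncomputable def gl (X : Set K) (r t : PL D) : PL D :=
  ⟨pw X r.1 t.1, SX_pw X r.2 t.2 (subset_univ _) (subset_univ _)⟩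

end

variable {K : Type} [LinearOrder K] [WellFoundedLT K] {D : Par K} {X Y : Set K}

theorem up_le_up {p q : PX D X} : up p ≤ up q ↔ p ≤ q := Iff.rfl

theorem up_ct {p : PL D} (h : supp p.1 ⊆ X) : up (ct X p) = p :=
  Subtype.ext (cut_eq_self h)

theorem ct_up (p : PX D X) : ct X (up p) = p :=
  Subtype.ext (cut_eq_self p.2.2)

theorem ct_mono (hX : IsLowerSet X) {p q : PL D} (h : p ≤ q) : ct X p ≤ ct X q :=
  LLe_cut hX h

theorem le_up_ct (X : Set K) (p : PL D) : p ≤ up (ct X p) := by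
  intro b n x h
  exact LLe_refl p.2 b n x (cut_eq_some.1 h).2

omit [LinearOrder K] [WellFoundedLT K] in
private theorem none_of_notMem {p : RawL K} {c : K} (hs : supp p ⊆ X) (hc : c ∉ X) :
    p c = none := by
  by_contra h
  exact hc (hs h)

omit [WellFoundedLT K] in
private theorem cut_pw_left {b : K} (hX : IsLowerSet X) (hb : b ∈ X) (r t : RawL K) :
    cut (Iio b) (pw X r t) = cut (Iio b) r :=
  cut_congr fun c hc => pw_of_mem (hX (le_of_lt hc) hb)

theorem ct_gl (hX : IsLowerSet X) (r : PX D X) (t : PL D) : ct X (gl X (up r) t) = r := by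
  refine Subtype.ext ?_
  have h : cut X (pw X r.1 t.1) = cut X r.1 := cut_congr fun c hc => pw_of_mem hc
  exact h.trans (cut_eq_self r.2.2)

theorem gl_ct (X : Set K) (p : PL D) : gl X (up (ct X p)) (up (ct Xᶜ p)) = p := by
  refine Subtype.ext (funext fun c => ?_)
  change pw X (cut X p.1) (cut Xᶜ p.1) c = p.1 c
  by_cases hc : c ∈ X
  · rw [pw_of_mem hc, cut_of_mem hc]
  · rw [pw_of_notMem hc, cut_of_mem (X := Xᶜ) hc]

theorem gl_ct_right (X : Set K) (r p : PL D) : gl X r (up (ct Xᶜ p)) = gl X r p := by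
  refine Subtype.ext (funext fun c => ?_)
  change pw X r.1 (cut Xᶜ p.1) c = pw X r.1 p.1 c
  by_cases hc : c ∈ X
  · rw [pw_of_mem hc, pw_of_mem hc]
  · rw [pw_of_notMem hc, pw_of_notMem hc, cut_of_mem (X := Xᶜ) hc]

theorem gl_le_left (hX : IsLowerSet X) (r : PX D X) (t : PL D) : gl X (up r) t ≤ up r := by
  intro b n x h
  have hb : b ∈ X := by
    by_contra hb
    have h2 := none_of_notMem r.2.2 hb
    change r.1 b = _ at h
    rw [h2] at h
    exact absurd h (by simp)
  obtain ⟨x', h1, h2⟩ := LLe_refl r.2 b n x h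
  refine ⟨x', ?_, ?_⟩
  · change pw X r.1 t.1 b = _
    rw [pw_of_mem hb]
    exact h1
  · change cut (Iio b) (pw X r.1 t.1) ∈ _
    rw [cut_pw_left hX hb]
    exact h2

theorem gl_le_right (X : Set K) (r : PL D) (t : PX D Xᶜ) : gl X r (up t) ≤ up t := by
  intro b n x h
  change t.1 b = _ at h
  have hb : b ∉ X := by
    intro hb
    have h2 := none_of_notMem t.2.2 (c := b) (fun h' => h' hb)
    rw [h2] at h
    exact absurd h (by simp)
  refine ⟨x, ?_, ?_⟩
  · change pw X r.1 t.1 b = _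
    rw [pw_of_notMem hb]
    exact h
  · obtain ⟨h1, h2, h3⟩ := t.2.1.2 b n x h
    exact Gd_refl h3 (SX_cut _ (gl X r (up t)).2) h2

/-- The glued condition is the greatest lower bound. -/
theorem le_gl {s r t : PL D} (h1 : s ≤ r) (h2 : s ≤ t) : s ≤ gl X r t := by
  intro b n x h
  change pw X r.1 t.1 b = _ at h
  by_cases hb : b ∈ X
  · rw [pw_of_mem hb] at h
    exact h1 b n x h
  · rw [pw_of_notMem hb] at h
    exact h2 b n x h

/-- Strengthening the restriction of `p` to `X`. -/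
theorem gl_le (hX : IsLowerSet X) {p : PL D} {r : PX D X} (h : r ≤ ct X p) :
    gl X (up r) p ≤ p := by
  intro b n x hb
  by_cases hbX : b ∈ X
  · obtain ⟨x', h1, h2⟩ := h b n x (by
      change cut X p.1 b = _
      rw [cut_of_mem hbX]
      exact hb)
    refine ⟨x', ?_, ?_⟩
    · change pw X r.1 p.1 b = _
      rw [pw_of_mem hbX]
      exact h1
    · change cut (Iio b) (pw X r.1 p.1) ∈ _
      rw [cut_pw_left hX hbX]
      exact h2
  · refine ⟨x, ?_, ?_⟩
    · change pw X r.1 p.1 b = _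
      rw [pw_of_notMem hbX]
      exact hb
    · obtain ⟨h1, h2, h3⟩ := p.2.1.2 b n x hb
      exact Gd_refl h3 (SX_cut _ (gl X (up r) p).2) h2

theorem gl_mono (hX : IsLowerSet X) {r r' : PX D X} {t t' : PX D Xᶜ} (h : r' ≤ r) (h' : t' ≤ t) :
    gl X (up r') (up t') ≤ gl X (up r) (up t) :=
  le_gl ((gl_le_left hX r' (up t')).trans (up_le_up.2 h))
    ((gl_le_right X (up r') t').trans (up_le_up.2 h'))

/-- The trivial condition. -/
def topL (D : Par K) [Nonempty K] (X : Set K) : PX D X :=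
  ⟨fun _ => none, ⟨⟨⟨Classical.arbitrary K, fun b hb => absurd rfl hb⟩, fun b hb => by
    obtain ⟨c⟩ : Nonempty (Iio b) := by
      have h : #(Iio b) ≠ 0 := (lt_of_le_of_lt zero_le hb.unc).ne'
      exact mk_ne_zero_iff.1 h
    exact ⟨c.1, c.2, fun a ha => absurd rfl ha.1⟩⟩, fun c n x h => absurd h (by simp)⟩,
    fun b hb => absurd rfl hb⟩

theorem le_topL [Nonempty K] (p : PX D X) : p ≤ topL D X := by
  intro b n x h
  have h' : (none : Option (K × K)) = some (n, x) := h
  exact absurd h' (by simp)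

/- Use `Gd_iff'`; the preorder given by `GoodAt` is the one above. -/
theorem Gd_iff {b n : K} : Gd D b n ↔ (∀ m < n, D.dat m ≠ D.dat n) ∧
    (∀ x y, ∀ p ∈ D.dat n x y, x < D.th b ∧ y < D.th b ∧ p ∈ SX D (Iio b)) ∧
      ∃ V : VPre (PX D (Iio b)) (Iio (D.th b)),
        (∀ x y, ∀ p : PX D (Iio b), p ∈ V.le x y ↔ p.1 ∈ D.dat n x.1 y.1) ∧
          VClosed #(Iio b) V := by
  rw [Gd_iff']
  have key : ∀ P Q : Preorder (PX D (Iio b)), (∀ p q : PX D (Iio b), P.le p q ↔ LLe D p.1 q.1) →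
      (∀ p q : PX D (Iio b), Q.le p q ↔ LLe D p.1 q.1) → P = Q := fun P Q h h' =>
    Preorder.ext fun x y => (h x y).trans (h' x y).symm
  constructor
  · rintro ⟨h1, h2, h⟩
    refine ⟨h1, h2, ?_⟩
    obtain ⟨P, hP⟩ := h
    have h6 : (∀ p q : PX D (Iio b), P.le p q ↔ LLe D p.1 q.1) := by
      obtain ⟨V, h3, h4, h5⟩ := hP
      exact h3
    have h7 := key P (instPreorderPX D (Iio b)) h6 fun p q => Iff.rfl
    subst h7
    obtain ⟨V, h3, h4, h5⟩ := hP
    exact ⟨V, h4, h5⟩
  · rintro ⟨h1, h2, V, h4, h5⟩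
    exact ⟨h1, h2, inferInstanceAs (Preorder (PX D (Iio b))), V, fun p q => Iff.rfl, h4, h5⟩

end Pool.Agent.LibLs83
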