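import Pool.Agent.LibLs83.LGlue

/-! Task LMixN: mixing and limits of chains for good names. -/

namespace Pool.Agent.LibLs83

open Cardinal Set Pool.Agent.LibTk83 Pool.Agent.LibDm83

variable {K : Type} [LinearOrder K] [WellFoundedLT K] {D : Par K}

/- `Gd_iff`, `VClosed` for `Bool`: the elements `x` with truth value `E` and `y` with truth value
`⊤`. -/
theorem Gd_mix {b n x y : K} (h : Gd D b n) (hb : Inac (Iio b)) (hx : x < D.th b)
    (hy : y < D.th b) (E : RO (PX D (Iio b))) : ∃ z < D.th b, ∀ p : PX D (Iio b),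
      (∀ p' ≤ p, p' ∈ E → ∃ p'' ≤ p', p''.1 ∈ D.dat n x y) →
        p.1 ∈ D.dat n z y ∧ (p ∈ E → p.1 ∈ D.dat n z x) := by
  obtain ⟨-, -, V, hV, hcl⟩ := Gd_iff.1 h
  have hI : #Bool < #(Iio b) := (Cardinal.lt_aleph0_of_finite Bool).trans hb.unc
  set x' : Iio (D.th b) := ⟨x, hx⟩ with hx'
  set y' : Iio (D.th b) := ⟨y, hy⟩ with hy'
  obtain ⟨z, hz⟩ := hcl Bool (fun k => cond k x' y') (fun k => cond k E ⊤) hI
  refine ⟨z.1, z.2, fun p hp => ?_⟩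
  have hdir : DirAt V (fun k => cond k x' y') (fun k => cond k E ⊤) p := by
    intro k l p' hp' hk hl
    have hrefl : ∀ (w : Iio (D.th b)) (q : PX D (Iio b)), q ∈ V.le w w := by
      intro w q
      rw [V.refl]
      exact RO.mem_top
    have key : p' ∈ E → ∃ p'' ≤ p', p'' ∈ E ∧ p'' ∈ V.le x' y' := by
      intro hE
      obtain ⟨p'', h1, h2⟩ := hp p' hp' hE
      exact ⟨p'', h1, RO.mem_of_le h1 hE, (hV x' y' p'').2 h2⟩
    cases k <;> cases l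
    · exact ⟨p', le_rfl, false, hk, hrefl _ _, hrefl _ _⟩
    · obtain ⟨p'', h1, h2, h3⟩ := key hl
      exact ⟨p'', h1, true, h2, h3, hrefl _ _⟩
    · obtain ⟨p'', h1, h2, h3⟩ := key hk
      exact ⟨p'', h1, true, h2, hrefl _ _, h3⟩
    · exact ⟨p', le_rfl, true, hk, hrefl _ _, hrefl _ _⟩
  exact ⟨(hV z y' p).1 (hz p hdir false RO.mem_top), fun hE => (hV z x' p).1 (hz p hdir true hE)⟩

/- `VClosed` with all truth values `⊤`. -/
theorem Gd_chain {b n : K} (h : Gd D b n) {I : Type} (hI : #I < #(Iio b)) (y : I → K)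
    (hy : ∀ i, y i < D.th b) : ∃ z < D.th b, ∀ p : PX D (Iio b),
      (∀ i j, p.1 ∈ D.dat n (y i) (y j) ∨ p.1 ∈ D.dat n (y j) (y i)) →
        ∀ i, p.1 ∈ D.dat n z (y i) := by
  obtain ⟨-, -, V, hV, hcl⟩ := Gd_iff.1 h
  obtain ⟨z, hz⟩ := hcl I (fun i => ⟨y i, hy i⟩) (fun _ => ⊤) hI
  refine ⟨z.1, z.2, fun p hp i => (hV z ⟨y i, hy i⟩ p).1 (hz p ?_ i RO.mem_top)⟩
  intro k l p' hp' _ _
  have hrefl : ∀ (w : Iio (D.th b)) (q : PX D (Iio b)), q ∈ V.le w w := by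
    intro w q
    rw [V.refl]
    exact RO.mem_top
  rcases hp k l with h1 | h1
  · exact ⟨p', le_rfl, k, RO.mem_top, hrefl _ _,
      RO.mem_of_le hp' ((hV ⟨y k, hy k⟩ ⟨y l, hy l⟩ p).2 h1)⟩
  · exact ⟨p', le_rfl, l, RO.mem_top,
      RO.mem_of_le hp' ((hV ⟨y l, hy l⟩ ⟨y k, hy k⟩ p).2 h1), hrefl _ _⟩

end Pool.Agent.LibLs83
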