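import Pool.Agent.LibLs83.LPreA

/-! Task LPre: the conditions form a preorder. -/

namespace Pool.Agent.LibLs83

open Cardinal Set Pool.Agent.LibTk83 Pool.Agent.LibDm83

variable {K : Type} [LinearOrder K] [WellFoundedLT K] {D : Par K}

/- `WellFounded.fix_eq`; the two sets of conditions are equal. -/
theorem Gd_iff' {b n : K} : Gd D b n ↔ GoodAt D b (SX D (Iio b)) n := by
  have h1 : Gd D b = fun n => GoodAt D b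
      {p | ValG D (fun c m => ∃ _ : c < b, Gd D c m) p ∧ supp p ⊆ Iio b} n := by
    unfold Gd
    rw [WellFounded.fix_eq]
  have h2 : {p | ValG D (fun c m => ∃ _ : c < b, Gd D c m) p ∧ supp p ⊆ Iio b} =
      SX D (Iio b) := by
    ext p
    constructor
    · rintro ⟨⟨h3, h4⟩, h5⟩
      refine ⟨⟨h3, fun c n x hc => ?_⟩, h5⟩
      obtain ⟨h6, h7, h8, h9⟩ := h4 c n x hc
      exact ⟨h6, h7, h9⟩
    · rintro ⟨⟨h3, h4⟩, h5⟩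
      refine ⟨⟨h3, fun c n x hc => ?_⟩, h5⟩
      obtain ⟨h6, h7, h8⟩ := h4 c n x hc
      exact ⟨h6, h7, h5 (mem_supp.2 ⟨n, x, hc⟩), h8⟩
  rw [h1, h2]

theorem Gd_mem {b n x y : K} {p : RawL K} (h : Gd D b n) (hp : p ∈ D.dat n x y) :
    x < D.th b ∧ y < D.th b ∧ p ∈ SX D (Iio b) :=
  (Gd_iff'.1 h).2.1 x y p hp

theorem Gd_refl {b n x : K} {p : RawL K} (h : Gd D b n) (hp : p ∈ SX D (Iio b))
    (hx : x < D.th b) : p ∈ D.dat n x x := by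
  obtain ⟨-, -, _, V, -, h2, -⟩ := Gd_iff'.1 h
  have h3 := (h2 ⟨x, hx⟩ ⟨x, hx⟩ ⟨p, hp⟩).1 (by
    rw [V.refl]
    exact RO.mem_top)
  exact h3

theorem Gd_lower {b n x y : K} {p p' : RawL K} (h : Gd D b n) (hp : p ∈ D.dat n x y)
    (hp' : p' ∈ SX D (Iio b)) (hle : LLe D p' p) : p' ∈ D.dat n x y := by
  obtain ⟨hx, hy, hpS⟩ := Gd_mem h hp
  obtain ⟨-, -, _, V, h1, h2, -⟩ := Gd_iff'.1 h
  have h3 := (h2 ⟨x, hx⟩ ⟨y, hy⟩ ⟨p, hpS⟩).2 hp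
  exact (h2 ⟨x, hx⟩ ⟨y, hy⟩ ⟨p', hp'⟩).1 (RO.mem_of_le ((h1 ⟨p', hp'⟩ ⟨p, hpS⟩).2 hle) h3)

theorem Gd_trans {b n x y z : K} {p : RawL K} (h : Gd D b n) (h1 : p ∈ D.dat n x y)
    (h2 : p ∈ D.dat n y z) : p ∈ D.dat n x z := by
  obtain ⟨hx, hy, hpS⟩ := Gd_mem h h1
  obtain ⟨-, hz, -⟩ := Gd_mem h h2
  obtain ⟨-, -, _, V, -, h3, -⟩ := Gd_iff'.1 h
  have h4 := (h3 ⟨x, hx⟩ ⟨y, hy⟩ ⟨p, hpS⟩).2 h1
  have h5 := (h3 ⟨y, hy⟩ ⟨z, hz⟩ ⟨p, hpS⟩).2 h2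
  exact (h3 ⟨x, hx⟩ ⟨z, hz⟩ ⟨p, hpS⟩).1 (V.trans _ _ _ (RO.mem_inf.2 ⟨h4, h5⟩))

theorem SX_cut {Y : Set K} (X : Set K) {p : RawL K} (h : p ∈ SX D Y) : cut X p ∈ SX D X := by
  obtain ⟨⟨h1, h2⟩, h3⟩ := h
  refine ⟨⟨Eas_of_subset h1 ?_, fun c n x hc => h2 c n x (cut_eq_some.1 hc).2⟩, ?_⟩
  · rw [supp_cut]
    exact inter_subset_left
  · rw [supp_cut]
    exact inter_subset_right

theorem SX_mono {X Y : Set K} (h : X ⊆ Y) {p : RawL K} (hp : p ∈ SX D X) : p ∈ SX D Y :=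
  ⟨hp.1, hp.2.trans h⟩

theorem SX_pw {Y Z W : Set K} (X : Set K) {p q : RawL K} (hp : p ∈ SX D Y) (hq : q ∈ SX D Z)
    (hY : Y ∩ X ⊆ W) (hZ : Z \ X ⊆ W) : pw X p q ∈ SX D W := by
  refine ⟨⟨Eas_pw X hp.1.1 hq.1.1, fun c n x hc => ?_⟩, fun c hc => ?_⟩
  · by_cases h : c ∈ X
    · rw [pw_of_mem h] at hc
      exact hp.1.2 c n x hc
    · rw [pw_of_notMem h] at hc
      exact hq.1.2 c n x hc
  · obtain ⟨n, x, h1⟩ := mem_supp.1 hc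
    by_cases h : c ∈ X
    · rw [pw_of_mem h] at h1
      exact hY ⟨hp.2 (mem_supp.2 ⟨n, x, h1⟩), h⟩
    · rw [pw_of_notMem h] at h1
      exact hZ ⟨hq.2 (mem_supp.2 ⟨n, x, h1⟩), h⟩

theorem LLe_refl {X : Set K} {p : RawL K} (h : p ∈ SX D X) : LLe D p p := by
  intro b n x hb
  obtain ⟨-, h2, h3⟩ := h.1.2 b n x hb
  exact ⟨x, hb, Gd_refl h3 (SX_cut _ h) h2⟩

theorem LLe_trans {X Y : Set K} {p p' p'' : RawL K} (hp : p ∈ SX D X)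
    (hp'' : p'' ∈ SX D Y) (h : LLe D p'' p') (h' : LLe D p' p) : LLe D p'' p := by
  intro b n x hb
  obtain ⟨-, -, h3⟩ := hp.1.2 b n x hb
  obtain ⟨x', h4, h5⟩ := h' b n x hb
  obtain ⟨x'', h6, h7⟩ := h b n x' h4
  exact ⟨x'', h6, Gd_trans h3 h7
    (Gd_lower h3 h5 (SX_cut _ hp'') (LLe_cut (isLowerSet_Iio b) h))⟩

end Pool.Agent.LibLs83
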