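import Pool.Agent.LibLs83.LDefs

/-! Task LPreA: restrictions of raw conditions. -/

namespace Pool.Agent.LibLs83

open Cardinal Set Pool.Agent.LibTk83 Pool.Agent.LibDm83

section

variable {K : Type}

theorem mem_supp {p : RawL K} {b : K} : b ∈ supp p ↔ ∃ n x, p b = some (n, x) := by
  show p b ≠ none ↔ _
  rw [Option.ne_none_iff_exists']
  constructor
  · rintro ⟨⟨n, x⟩, h⟩
    exact ⟨n, x, h⟩
  · rintro ⟨n, x, h⟩
    exact ⟨(n, x), h⟩

theorem pw_of_mem {X : Set K} {p q : RawL K} {c : K} (h : c ∈ X) : pw X p q c = p c := by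
  unfold pw
  rw [if_pos h]

theorem pw_of_notMem {X : Set K} {p q : RawL K} {c : K} (h : c ∉ X) : pw X p q c = q c := by
  unfold pw
  rw [if_neg h]

theorem cut_of_mem {X : Set K} {p : RawL K} {c : K} (h : c ∈ X) : cut X p c = p c :=
  pw_of_mem h

theorem cut_eq_some {X : Set K} {p : RawL K} {c : K} {a : K × K} :
    cut X p c = some a ↔ c ∈ X ∧ p c = some a := by
  by_cases h : c ∈ X
  · rw [cut_of_mem h]
    exact ⟨fun h' => ⟨h, h'⟩, fun h' => h'.2⟩
  · have h1 : cut X p c = none := pw_of_notMem h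
    rw [h1]
    constructor
    · intro h'
      simp at h'
    · intro h'
      exact absurd h'.1 h

theorem supp_cut (X : Set K) (p : RawL K) : supp (cut X p) = supp p ∩ X := by
  ext b
  rw [mem_inter_iff, mem_supp, mem_supp]
  constructor
  · rintro ⟨n, x, h⟩
    obtain ⟨h1, h2⟩ := cut_eq_some.1 h
    exact ⟨⟨n, x, h2⟩, h1⟩
  · rintro ⟨⟨n, x, h⟩, h1⟩
    exact ⟨n, x, cut_eq_some.2 ⟨h1, h⟩⟩

theorem cut_cut (X Y : Set K) (p : RawL K) : cut X (cut Y p) = cut (X ∩ Y) p := by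
  funext c
  by_cases h : c ∈ X
  · by_cases h' : c ∈ Y
    · rw [cut_of_mem h, cut_of_mem h', cut_of_mem (show c ∈ X ∩ Y from ⟨h, h'⟩)]
    · have h1 : cut Y p c = none := pw_of_notMem h'
      have h2 : cut (X ∩ Y) p c = none := pw_of_notMem fun h3 => h' h3.2
      rw [cut_of_mem h, h1, h2]
  · have h1 : cut X (cut Y p) c = none := pw_of_notMem h
    have h2 : cut (X ∩ Y) p c = none := pw_of_notMem fun h3 => h h3.1
    rw [h1, h2]

theorem cut_eq_self {X : Set K} {p : RawL K} (h : supp p ⊆ X) : cut X p = p := by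
  funext c
  by_cases hc : c ∈ X
  · exact cut_of_mem hc
  · have h1 : cut X p c = none := pw_of_notMem hc
    rw [h1]
    by_contra h2
    exact hc (h (show c ∈ supp p from fun h3 => h2 h3.symm))

theorem cut_congr {X : Set K} {p q : RawL K} (h : ∀ c ∈ X, p c = q c) : cut X p = cut X q := by
  funext c
  by_cases hc : c ∈ X
  · rw [cut_of_mem hc, cut_of_mem hc, h c hc]
  · have h1 : cut X p c = none := pw_of_notMem hc
    have h2 : cut X q c = none := pw_of_notMem hc
    rw [h1, h2]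

variable [LinearOrder K]

theorem Eas_of_subset {p q : RawL K} (h : Eas p) (hs : supp q ⊆ supp p) : Eas q := by
  obtain ⟨⟨m, hm⟩, h2⟩ := h
  refine ⟨⟨m, hs.trans hm⟩, fun b hb => ?_⟩
  obtain ⟨c, hc, h3⟩ := h2 b hb
  exact ⟨c, hc, (inter_subset_inter_left _ hs).trans h3⟩

theorem Eas_pw (X : Set K) {p q : RawL K} (hp : Eas p) (hq : Eas q) : Eas (pw X p q) := by
  have hs : supp (pw X p q) ⊆ supp p ∪ supp q := by
    intro c hc
    by_cases h : c ∈ X
    · left
      intro h1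
      exact hc (by rw [pw_of_mem h]; exact h1)
    · right
      intro h1
      exact hc (by rw [pw_of_notMem h]; exact h1)
  obtain ⟨⟨m, hm⟩, h2⟩ := hp
  obtain ⟨⟨m', hm'⟩, h2'⟩ := hq
  refine ⟨⟨max m m', fun c hc => ?_⟩, fun b hb => ?_⟩
  · rcases hs hc with h | h
    · exact lt_max_of_lt_left (hm h)
    · exact lt_max_of_lt_right (hm' h)
  · obtain ⟨c, hc, h3⟩ := h2 b hb
    obtain ⟨c', hc', h3'⟩ := h2' b hb
    refine ⟨max c c', max_lt hc hc', fun a ha => ?_⟩
    rcases hs ha.1 with h | h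
    · exact lt_max_of_lt_left (h3 ⟨h, ha.2⟩)
    · exact lt_max_of_lt_right (h3' ⟨h, ha.2⟩)

theorem LLe_cut {D : Par K} {p' p : RawL K} {X : Set K} (hX : IsLowerSet X) (h : LLe D p' p) :
    LLe D (cut X p') (cut X p) := by
  intro b n x hb
  obtain ⟨h1, h2⟩ := cut_eq_some.1 hb
  obtain ⟨x', h3, h4⟩ := h b n x h2
  refine ⟨x', cut_eq_some.2 ⟨h1, h3⟩, ?_⟩
  have h5 : Iio b ∩ X = Iio b := inter_eq_left.2 fun c hc => hX (le_of_lt hc) h1
  rw [cut_cut, h5]
  exact h4

end

end Pool.Agent.LibLs83
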