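import Pool.Agent.LibLs83.BMain
import Pool.Agent.LibLs83.BIneff
import Pool.Agent.LibLs83.CMain
import Pool.Agent.LibDm83.Main

/-! The main theorem. -/

namespace Pool.Agent.LibLs83

open Cardinal Set Pool.Agent.LibPlas90 Pool.Agent.LibPlas90.BSet Pool.Agent.LibTk83
  Pool.Agent.LibDm83

/-- If `κ` is supercompact then there is a complete Boolean algebra `B` such that it is true in `V^B`
that there is an ineffable cardinal `κ` with a stationary set of points of cofinality `ω` on which
diamond fails. -/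
theorem main (κ : Cardinal.{0}) (hκ : Supercompact κ) :
    ∃ (B : Type) (_ : CompleteBooleanAlgebra B) (_ : Nontrivial B),
      isIneffable (ck B κ.ord.ToType) = ⊤ ∧ diamondFails (ck B κ.ord.ToType) = ⊤ := by
  have hc : #κ.ord.ToType = κ := by simp
  have hK : Inac κ.ord.ToType := inac_of hκ.1
  obtain ⟨P, _, hb, h⟩ := exists_base hK (by
    rw [hc]
    exact hκ.2)
  obtain ⟨Θ, V, h1, h2, h3, ⟨M⟩⟩ := exists_kill hK hb
  have hne : Nonempty (Comp V) := by
    obtain ⟨p⟩ := hb.ne
    obtain ⟨x⟩ := h2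
    exact ⟨⟨p, x⟩⟩
  exact ⟨RO (Comp V), inferInstance, inferInstance, isIneffable_ck hK M (h Θ V h1 h2 h3),
    diamondFails_eq_top M⟩

theorem main_sentence (κ : Cardinal.{0}) (hκ : Supercompact κ) :
    ∃ (B : Type) (_ : CompleteBooleanAlgebra B) (_ : Nontrivial B), ineffableSentence B = ⊤ := by
  obtain ⟨B, _, _, h1, h2⟩ := main κ hκ
  refine ⟨B, inferInstance, inferInstance, ?_⟩
  unfold ineffableSentence
  rw [← top_le_iff]
  refine le_iSup_of_le (ck B κ.ord.ToType) ?_
  rw [h1, h2, inf_top_eq]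

end Pool.Agent.LibLs83
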